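import Pool.Agent.U457.PS.Count
import Pool.Agent.N905.EX.Loc
import Pool.Agent.N905.EX.Three

/-! Meetings with forward invariant sets, and with every orbit, above a level. -/

set_option autoImplicit false

namespace Pool.Agent.U457.PS

open Finset Filter Topology
open Pool.Agent.H499R2.CO (Tz)
open Pool.Agent.N905.EX (η0 eta0_lt eta0_pos three_ex sparse_ex)

theorem Tz_eq_Td (k : ℤ) : Pool.Agent.H499R2.ND.Td k = Tz k := by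
  funext x; rfl

theorem Tz_eq_T (k : ℤ) : Pool.Agent.TH930.EBQ.T k = Tz k := by
  funext x; rfl

/-- never below `Y` -/
theorem never_all {k : ℤ} (hk : Odd k) : ∃ C : ℝ, 0 < C ∧ ∀ Y : ℝ, 1 ≤ Y → ∀ X : ℝ, 1 ≤ X →
    ({x : ℤ | |(x : ℝ)| ≤ X ∧ ∀ n : ℕ, Y ≤ |(((Tz k)^[n] x : ℤ) : ℝ)|}.ncard : ℝ) ≤
      C * X * Y ^ (-(6 / 100 : ℝ)) := by
  obtain ⟨C, hC, h⟩ := three_ex hk
  rw [Tz_eq_Td] at h
  refine ⟨2 * C + 6, by positivity, ?_⟩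
  intro Y hY X hX
  have hY0 : 0 < Y := by linarith
  have hYc : 0 < Y ^ (-(6 / 100 : ℝ)) := Real.rpow_pos_of_pos hY0 _
  have h2c : (2 : ℝ) ^ (6 / 100 : ℝ) ≤ 2 := by
    calc (2 : ℝ) ^ (6 / 100 : ℝ) ≤ 2 ^ (1 : ℝ) :=
          Real.rpow_le_rpow_of_exponent_le (by norm_num) (by norm_num)
      _ = 2 := Real.rpow_one 2
  rcases lt_or_ge Y 2 with hc | hc
  · refine (triv_abs hX _).trans ?_
    have h1 : 1 / 2 ≤ Y ^ (-(6 / 100 : ℝ)) := by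
      rw [Real.rpow_neg hY0.le, one_div]
      apply inv_anti₀ (Real.rpow_pos_of_pos hY0 _)
      exact (Real.rpow_le_rpow hY0.le hc.le (by norm_num)).trans h2c
    have h2 : 0 ≤ 2 * C * X * Y ^ (-(6 / 100 : ℝ)) := by positivity
    have h3 : 6 * X * (1 / 2) ≤ 6 * X * Y ^ (-(6 / 100 : ℝ)) :=
      mul_le_mul_of_nonneg_left h1 (by positivity)
    calc 3 * X = 6 * X * (1 / 2) := by ring
      _ ≤ 2 * C * X * Y ^ (-(6 / 100 : ℝ)) + 6 * X * Y ^ (-(6 / 100 : ℝ)) := by linarith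
      _ = _ := by ring
  · have hsub : {x : ℤ | |(x : ℝ)| ≤ X ∧ ∀ n : ℕ, Y ≤ |(((Tz k)^[n] x : ℤ) : ℝ)|} ⊆
        {x : ℤ | |(x : ℝ)| ≤ X ∧ ∀ n : ℕ, Y / 2 < |(((Tz k)^[n] x : ℤ) : ℝ)|} := by
      rintro x ⟨h1, h2⟩
      refine ⟨h1, fun n => lt_of_lt_of_le (by linarith) (h2 n)⟩
    have h1 : (({x : ℤ | |(x : ℝ)| ≤ X ∧ ∀ n : ℕ, Y ≤ |(((Tz k)^[n] x : ℤ) : ℝ)|}.ncard : ℕ) : ℝ) ≤
        ({x : ℤ | |(x : ℝ)| ≤ X ∧ ∀ n : ℕ, Y / 2 < |(((Tz k)^[n] x : ℤ) : ℝ)|}.ncard : ℕ) := by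
      exact_mod_cast Set.ncard_le_ncard hsub (fin_abs X _)
    refine h1.trans ((h X (Y / 2) hX (by linarith)).trans ?_)
    have h3 : (Y / 2) ^ (6 / 100 : ℝ) = Y ^ (6 / 100 : ℝ) / 2 ^ (6 / 100 : ℝ) :=
      Real.div_rpow hY0.le (by norm_num) _
    have h4 : 0 < Y ^ (6 / 100 : ℝ) := Real.rpow_pos_of_pos hY0 _
    have h5 : C * X / (Y / 2) ^ (6 / 100 : ℝ) = C * X * 2 ^ (6 / 100 : ℝ) * Y ^ (-(6 / 100 : ℝ)) := by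
      rw [h3, Real.rpow_neg hY0.le]
      field_simp
    rw [h5]
    have h6 : C * X * 2 ^ (6 / 100 : ℝ) ≤ C * X * 2 := mul_le_mul_of_nonneg_left h2c (by positivity)
    have h7 : C * X * 2 ^ (6 / 100 : ℝ) * Y ^ (-(6 / 100 : ℝ)) ≤ C * X * 2 * Y ^ (-(6 / 100 : ℝ)) :=
      mul_le_mul_of_nonneg_right h6 hYc.le
    have h8 : 0 ≤ 6 * X * Y ^ (-(6 / 100 : ℝ)) := by positivity
    calc _ ≤ C * X * 2 * Y ^ (-(6 / 100 : ℝ)) := h7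
      _ ≤ C * X * 2 * Y ^ (-(6 / 100 : ℝ)) + 6 * X * Y ^ (-(6 / 100 : ℝ)) := by linarith
      _ = _ := by ring

/-- the points whose orbit meets `A` before it goes below `Y` -/
def MA (k : ℤ) (Y : ℝ) (A : Set ℤ) : Set ℤ :=
  {x : ℤ | ∃ n : ℕ, (Tz k)^[n] x ∈ A ∧ ∀ j ≤ n, Y ≤ |(((Tz k)^[j] x : ℤ) : ℝ)|}

theorem fwd_iter {k : ℤ} {A : Set ℤ} (hA : ∀ x ∈ A, Tz k x ∈ A) {x : ℤ} (hx : x ∈ A) (n : ℕ) :
    (Tz k)^[n] x ∈ A := by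
  induction n with
  | zero => exact hx
  | succ n ih => rw [Function.iterate_succ_apply']; exact hA _ ih

theorem MA_sub {k : ℤ} {Y : ℝ} {A : Set ℤ} (hA : ∀ x ∈ A, Tz k x ∈ A) {x : ℤ} (hx : x ∈ MA k Y A) :
    (∀ n : ℕ, Y ≤ |(((Tz k)^[n] x : ℤ) : ℝ)|) ∨ x ∈ SZk k Y A := by
  classical
  obtain ⟨n, h1, h2⟩ := hx
  by_cases h : ∃ m : ℕ, |(((Tz k)^[m] x : ℤ) : ℝ)| < Y
  · right
    have h3 := Nat.find_spec h
    have h4 : ∀ j < Nat.find h, Y ≤ |(((Tz k)^[j] x : ℤ) : ℝ)| := by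
      intro j hj
      exact not_lt.1 (Nat.find_min h hj)
    set m := Nat.find h with hm
    rw [mem_SZk]
    refine ⟨by simpa using h2 0 (Nat.zero_le _), m, h4, h3, ?_⟩
    have h5 : n < m := by
      by_contra hc
      push Not at hc
      exact absurd h3 (not_lt.2 (h2 m hc))
    obtain ⟨d, hd⟩ : ∃ d, m = d + n := ⟨m - n, by omega⟩
    rw [hd, Function.iterate_add_apply]
    exact fwd_iter hA h1 d
  · left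
    push Not at h
    exact h

/-- MEETINGS WITH A FORWARD INVARIANT SET -/
theorem meet_fwd {k : ℤ} (hk : Odd k) (hk3 : IsCoprime k 3) {ε : ℝ} (hε : 0 < ε) :
    ∃ C : ℝ, 0 < C ∧ ∀ Y : ℝ, 1 ≤ Y → ∀ (A : Set ℤ) (EF : Finset ℤ), (∀ x ∈ A, Tz k x ∈ A) →
      (∀ y ∈ A, |(y : ℝ)| < Y → y ∈ EF) → ∀ X : ℝ, 1 ≤ X →
        ({x : ℤ | |(x : ℝ)| ≤ X ∧ x ∈ MA k Y A}.ncard : ℝ) ≤
          C * X * ((EF.card : ℝ) * Y ^ (ε - 1) + Y ^ (-(6 / 100 : ℝ))) := by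
  obtain ⟨C₁, hC₁, h1⟩ := never_all hk
  obtain ⟨C₂, hC₂, h2⟩ := spread_all hk hk3 hε
  refine ⟨C₁ + C₂, by positivity, ?_⟩
  intro Y hY A EF hA hE X hX
  have hY0 : 0 < Y := by linarith
  have hX0 : 0 < X := by linarith
  have hYc : 0 < Y ^ (-(6 / 100 : ℝ)) := Real.rpow_pos_of_pos hY0 _
  have hE0 : 0 ≤ (EF.card : ℝ) * Y ^ (ε - 1) := by positivity
  have hsub : {x : ℤ | |(x : ℝ)| ≤ X ∧ x ∈ MA k Y A} ⊆
      {x : ℤ | |(x : ℝ)| ≤ X ∧ ∀ n : ℕ, Y ≤ |(((Tz k)^[n] x : ℤ) : ℝ)|} ∪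
      {x : ℤ | |(x : ℝ)| ≤ X ∧ x ∈ SZk k Y A} := by
    rintro x ⟨h3, h4⟩
    rcases MA_sub hA h4 with h5 | h5
    · exact Or.inl ⟨h3, h5⟩
    · exact Or.inr ⟨h3, h5⟩
  have h3 := (Set.ncard_le_ncard hsub ((fin_abs X _).union (fin_abs X _))).trans (Set.ncard_union_le _ _)
  have h4 : ({x : ℤ | |(x : ℝ)| ≤ X ∧ x ∈ MA k Y A}.ncard : ℝ) ≤
      ({x : ℤ | |(x : ℝ)| ≤ X ∧ ∀ n : ℕ, Y ≤ |(((Tz k)^[n] x : ℤ) : ℝ)|}.ncard : ℝ) +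
      ({x : ℤ | |(x : ℝ)| ≤ X ∧ x ∈ SZk k Y A}.ncard : ℝ) := by exact_mod_cast h3
  refine h4.trans ?_
  have h5 := h1 Y hY X hX
  have h6 := h2 Y hY A EF hE X hX
  have h7 : 0 ≤ C₁ * X * ((EF.card : ℝ) * Y ^ (ε - 1)) := by positivity
  calc _ ≤ C₁ * X * Y ^ (-(6 / 100 : ℝ)) +
        C₂ * X * ((EF.card : ℝ) * Y ^ (ε - 1) + Y ^ (-(6 / 100 : ℝ))) := add_le_add h5 h6
    _ ≤ C₁ * X * Y ^ (-(6 / 100 : ℝ)) + C₁ * X * ((EF.card : ℝ) * Y ^ (ε - 1)) +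
        C₂ * X * ((EF.card : ℝ) * Y ^ (ε - 1) + Y ^ (-(6 / 100 : ℝ))) := by linarith
    _ = _ := by ring

/-- sparse forward invariant sets -/
theorem meet_sparse {k : ℤ} (hk : Odd k) (hk3 : IsCoprime k 3) {η D : ℝ} (hη : η < 94 / 100)
    (hD : 0 ≤ D) :
    ∃ C : ℝ, 0 < C ∧ ∀ Y : ℝ, 1 ≤ Y → ∀ A : Set ℤ, (∀ x ∈ A, Tz k x ∈ A) →
      ((∀ EF : Finset ℤ, (∀ y ∈ EF, y ∈ A ∧ |(y : ℝ)| ≤ Y) → (EF.card : ℝ) ≤ D * Y ^ η)) →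
      ∀ X : ℝ, 1 ≤ X →
        ({x : ℤ | |(x : ℝ)| ≤ X ∧ x ∈ MA k Y A}.ncard : ℝ) ≤ C * X * Y ^ (-(6 / 100 : ℝ)) := by
  classical
  obtain ⟨C, hC, h⟩ := meet_fwd hk hk3 (ε := 94 / 100 - η) (by linarith)
  refine ⟨C * (D + 1), by positivity, ?_⟩
  intro Y hY A hA hAc X hX
  have hY0 : 0 < Y := by linarith
  have hX0 : 0 < X := by linarith
  have hfin : {y : ℤ | |(y : ℝ)| ≤ Y ∧ (y ∈ A ∧ |(y : ℝ)| < Y)}.Finite := fin_abs Y _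
  have h1 := h Y hY A hfin.toFinset hA (by
    intro y hy hyY
    rw [Set.Finite.mem_toFinset]
    exact ⟨hyY.le, hy, hyY⟩) X hX
  have h2 := hAc hfin.toFinset (by
    intro y hy
    rw [Set.Finite.mem_toFinset] at hy
    exact ⟨hy.2.1, hy.1⟩)
  refine h1.trans ?_
  have h3 : (hfin.toFinset.card : ℝ) * Y ^ (94 / 100 - η - 1) ≤ D * Y ^ (-(6 / 100 : ℝ)) := by
    calc (hfin.toFinset.card : ℝ) * Y ^ (94 / 100 - η - 1) ≤ D * Y ^ η * Y ^ (94 / 100 - η - 1) :=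
          mul_le_mul_of_nonneg_right h2 (Real.rpow_nonneg hY0.le _)
      _ = D * (Y ^ η * Y ^ (94 / 100 - η - 1)) := by ring
      _ = D * Y ^ (-(6 / 100 : ℝ)) := by
          rw [← Real.rpow_add hY0]
          congr 2
          ring
  have h4 : (hfin.toFinset.card : ℝ) * Y ^ (94 / 100 - η - 1) + Y ^ (-(6 / 100 : ℝ)) ≤
      (D + 1) * Y ^ (-(6 / 100 : ℝ)) := by linarith
  calc _ ≤ C * X * ((D + 1) * Y ^ (-(6 / 100 : ℝ))) := mul_le_mul_of_nonneg_left h4 (by positivity)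
    _ = _ := by ring

/-- EVERY ORBIT -/
theorem meet_orbit {k : ℤ} (hk : Odd k) (hk3 : IsCoprime k 3) :
    ∃ C : ℝ, 0 < C ∧ ∀ b : ℤ, ∀ Y : ℝ, 1 ≤ Y → ∀ X : ℝ, 1 ≤ X →
        ({x : ℤ | |(x : ℝ)| ≤ X ∧ x ∈ MA k Y {z | ∃ i : ℕ, (Tz k)^[i] b = z}}.ncard : ℝ) ≤
          C * X * Y ^ (-(6 / 100 : ℝ)) := by
  classical
  obtain ⟨η, h1, h2⟩ := exists_between eta0_lt
  obtain ⟨A₀, hA₀, h3⟩ := sparse_ex (η := η) h1 (by linarith)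
  obtain ⟨C, hC, h⟩ := meet_sparse hk hk3 h2 (D := A₀ * |(k : ℝ)| ^ (1 - η)) (by positivity)
  refine ⟨C, hC, ?_⟩
  intro b Y hY X hX
  apply h Y hY _ _ _ X hX
  · rintro x ⟨i, rfl⟩
    exact ⟨i + 1, Function.iterate_succ_apply' _ _ _⟩
  · intro EF hEF
    obtain ⟨r, hinj, hr⟩ := Pool.Agent.H319R2.G.finite_subset_path (Tz k) b EF
      (fun z hz => (hEF z hz).1)
    apply h3 k hk _ (Pool.Agent.H319R2.G.tame_path (Tz k) b r hinj) 0 Y hY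
    intro z hz
    obtain ⟨i, hi, he⟩ := hr z hz
    refine ⟨⟨i, hi, he⟩, ?_⟩
    rw [sub_zero]
    exact (hEF z hz).2

/-- ALL CYCLES -/
theorem meet_periodic {k : ℤ} (hk : Odd k) (hk3 : IsCoprime k 3) :
    ∃ C : ℝ, 0 < C ∧ ∀ Y : ℝ, 1 ≤ Y → ∀ X : ℝ, 1 ≤ X →
        ({x : ℤ | |(x : ℝ)| ≤ X ∧ x ∈ MA k Y (Function.periodicPts (Tz k))}.ncard : ℝ) ≤
          C * X * Y ^ (-(6 / 100 : ℝ)) := by
  classical
  obtain ⟨η, h1, h2⟩ := exists_between eta0_lt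
  obtain ⟨A₀, hA₀, h3⟩ := sparse_ex (η := η) h1 (by linarith)
  obtain ⟨C, hC, h⟩ := meet_sparse hk hk3 h2 (D := A₀ * |(k : ℝ)| ^ (1 - η)) (by positivity)
  refine ⟨C, hC, ?_⟩
  intro Y hY X hX
  apply h Y hY _ _ _ X hX
  · intro x hx
    exact (Function.bijOn_periodicPts (Tz k)).mapsTo hx
  · intro EF hEF
    apply h3 k hk _ (Pool.Agent.H319R2.G.tame_periodic (Tz k)) 0 Y hY
    intro z hz
    rw [sub_zero]
    exact hEF z hz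

end Pool.Agent.U457.PS
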