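import Pool.Agent.U457.PS.AC
import Pool.Agent.U457.PS.Orb

/-! Forward invariant sets at two scales. -/

set_option autoImplicit false

namespace Pool.Agent.U457.PS

open Finset Filter Topology
open Pool.Agent.H499R2.CO (Tz)

/-- number of elements of `E` below `Y` -/
noncomputable def nb (E : Set ℤ) (Y : ℝ) : ℝ := ({y : ℤ | y ∈ E ∧ |(y : ℝ)| < Y}.ncard : ℝ)

theorem nb_nonneg (E : Set ℤ) (Y : ℝ) : 0 ≤ nb E Y := Nat.cast_nonneg _

theorem nb_fin (E : Set ℤ) (Y : ℝ) : {y : ℤ | y ∈ E ∧ |(y : ℝ)| < Y}.Finite := by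
  apply (fin_abs Y (fun _ => True)).subset
  rintro w ⟨_, h2⟩
  exact ⟨h2.le, trivial⟩

theorem nb_le (E : Set ℤ) {Y : ℝ} (hY : 1 ≤ Y) : nb E Y ≤ 3 * Y := by
  refine le_trans ?_ (triv_abs hY (fun _ => True))
  unfold nb
  have : {y : ℤ | y ∈ E ∧ |(y : ℝ)| < Y} ⊆ {x : ℤ | |(x : ℝ)| ≤ Y ∧ True} := by
    rintro w ⟨_, h2⟩
    exact ⟨h2.le, trivial⟩
  exact_mod_cast Set.ncard_le_ncard this (fin_abs Y (fun _ => True))

/-- the logarithm in the bounds -/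
noncomputable def lg (E : Set ℤ) (Y : ℝ) : ℝ := Real.log (2 + Y / (1 + nb E Y))

theorem lg_pos (E : Set ℤ) {Y : ℝ} (hY : 0 ≤ Y) : 0 < lg E Y := by
  apply Real.log_pos
  have := nb_nonneg E Y
  have : 0 ≤ Y / (1 + nb E Y) := by positivity
  linarith

/-- ABSOLUTE CONTINUITY OF THE FIRST PASSAGES -/
theorem ac_all' {k : ℤ} (hk : Odd k) (hk3 : IsCoprime k 3) (B : ℕ) :
    ∃ C : ℝ, 0 < C ∧ ∀ Y : ℝ, 0 < Y → ∀ (E : Set ℤ), ∀ X : ℝ, 1 ≤ X →
        ({x : ℤ | |(x : ℝ)| ≤ X ∧ x ∈ SZk k Y E}.ncard : ℝ) ≤ C * X / (lg E Y) ^ B := by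
  obtain ⟨C, hC, h⟩ := ac_all hk hk3 B
  refine ⟨C, hC, ?_⟩
  intro Y hY E X hX
  have hX0 : 0 < X := by linarith
  have hlg := lg_pos E hY.le
  rcases Nat.eq_zero_or_pos ({y : ℤ | y ∈ E ∧ |(y : ℝ)| < Y}.ncard) with h0 | hpos
  · have hE : {y : ℤ | y ∈ E ∧ |(y : ℝ)| < Y} = ∅ := by
      rwa [Set.ncard_eq_zero (nb_fin E Y)] at h0
    have : {x : ℤ | |(x : ℝ)| ≤ X ∧ x ∈ SZk k Y E} = ∅ := by
      rw [Set.eq_empty_iff_forall_notMem]
      rintro x ⟨_, hx⟩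
      rw [mem_SZk] at hx
      obtain ⟨_, n, _, h3, h4⟩ := hx
      have : (Tz k)^[n] x ∈ {y : ℤ | y ∈ E ∧ |(y : ℝ)| < Y} := ⟨h4, h3⟩
      rw [hE] at this
      exact this
    rw [this, Set.ncard_empty, Nat.cast_zero]
    positivity
  · refine (h Y hY E X hX).trans ?_
    have hn1 : (1 : ℝ) ≤ nb E Y := by
      unfold nb
      exact_mod_cast hpos
    apply div_le_div_of_nonneg_left (by positivity) (by positivity)
    apply pow_le_pow_left₀ hlg.le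
    unfold lg
    apply Real.log_le_log
    · have : 0 ≤ Y / (1 + nb E Y) := by positivity
      linarith
    · have : Y / (1 + nb E Y) ≤ Y / nb E Y :=
        div_le_div_of_nonneg_left hY.le (by linarith) (by linarith)
      unfold nb at this ⊢
      linarith

/-- small terms against powers of the logarithm: the elements below the level -/
theorem nb_lg (B : ℕ) (E : Set ℤ) {Y : ℝ} (hY : 1 ≤ Y) :
    nb E Y ≤ 9 * (B.factorial : ℝ) * Y / (lg E Y) ^ B := by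
  have hn0 := nb_nonneg E Y
  have hn3 := nb_le E hY
  have hG := lg_pos E (show 0 ≤ Y by linarith)
  set t := Y / (1 + nb E Y) with ht
  have ht4 : 1 / 4 ≤ t := by
    rw [ht, le_div_iff₀ (by positivity)]; linarith
  have ht0 : 0 < t := by linarith
  have h1 := exp_lower B hG
  have h2 : Real.exp (-(lg E Y)) = 1 / (2 + t) := by
    unfold lg
    rw [Real.exp_neg, ← ht, Real.exp_log (by positivity), one_div]
  rw [h2] at h1
  have h3 : nb E Y ≤ Y / t := by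
    rw [ht, div_div_eq_mul_div, mul_div_assoc, mul_comm, div_mul_cancel₀ _ (by linarith : Y ≠ 0)]
    linarith
  have h4 : 1 / t ≤ 9 * (1 / (2 + t)) := by
    rw [mul_one_div, div_le_div_iff₀ ht0 (by positivity)]; linarith
  calc nb E Y ≤ Y / t := h3
    _ = Y * (1 / t) := by ring
    _ ≤ Y * (9 * ((B.factorial : ℝ) / (lg E Y) ^ B)) := by
        apply mul_le_mul_of_nonneg_left _ (by linarith)
        linarith
    _ = _ := by ring

/-- small terms against powers of the logarithm: the power of the level -/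
theorem rpow_lg (B : ℕ) (E : Set ℤ) {Y : ℝ} (hY : 1 ≤ Y) :
    Y ^ (-(6 / 100 : ℝ)) ≤ 3 * (B.factorial : ℝ) * 20 ^ B / (lg E Y) ^ B := by
  have hY0 : 0 < Y := by linarith
  have hn0 := nb_nonneg E Y
  have hG := lg_pos E (show 0 ≤ Y by linarith)
  set D := Real.log (2 + Y) with hD
  have hDp : 0 < D := Real.log_pos (by linarith)
  have hGD : lg E Y ≤ D := by
    unfold lg
    apply Real.log_le_log
    · have : 0 ≤ Y / (1 + nb E Y) := by positivity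
      linarith
    · have : Y / (1 + nb E Y) ≤ Y := div_le_self hY0.le (by linarith)
      linarith
  have h1 := exp_lower B (x := 6 / 100 * D) (by positivity)
  have h2 : Real.exp (-(6 / 100 * D)) = (2 + Y) ^ (-(6 / 100 : ℝ)) := by
    rw [Real.rpow_def_of_pos (by positivity), ← hD]
    congr 1; ring
  have h3 : Y ^ (-(6 / 100 : ℝ)) ≤ 3 * (2 + Y) ^ (-(6 / 100 : ℝ)) := by
    have h4 : (3 * Y) ^ (-(6 / 100 : ℝ)) ≤ (2 + Y) ^ (-(6 / 100 : ℝ)) :=
      Real.rpow_le_rpow_of_nonpos (by positivity) (by linarith) (by norm_num)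
    rw [Real.mul_rpow (by norm_num) hY0.le] at h4
    have h5 : (1 / 3 : ℝ) ≤ (3 : ℝ) ^ (-(6 / 100 : ℝ)) := by
      have : (3 : ℝ) ^ (-1 : ℝ) ≤ (3 : ℝ) ^ (-(6 / 100 : ℝ)) :=
        Real.rpow_le_rpow_of_exponent_le (by norm_num) (by norm_num)
      rw [Real.rpow_neg_one] at this
      linarith
    have h6 : 0 < Y ^ (-(6 / 100 : ℝ)) := Real.rpow_pos_of_pos hY0 _
    have h7 := mul_le_mul_of_nonneg_right h5 h6.le
    linarith
  refine h3.trans ?_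
  rw [← h2]
  have h8 : (B.factorial : ℝ) / (6 / 100 * D) ^ B ≤ (B.factorial : ℝ) * 20 ^ B / (lg E Y) ^ B := by
    rw [div_le_div_iff₀ (by positivity) (by positivity)]
    have h9 : (lg E Y) ^ B ≤ D ^ B := pow_le_pow_left₀ hG.le hGD B
    have h10 : D ^ B ≤ (20 * (6 / 100 * D)) ^ B := by
      apply pow_le_pow_left₀ hDp.le; linarith
    rw [mul_pow] at h10
    calc (B.factorial : ℝ) * (lg E Y) ^ B ≤ (B.factorial : ℝ) * (20 ^ B * (6 / 100 * D) ^ B) :=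
          mul_le_mul_of_nonneg_left (h9.trans h10) (Nat.cast_nonneg _)
      _ = _ := by ring
  calc 3 * Real.exp (-(6 / 100 * D)) ≤ 3 * ((B.factorial : ℝ) * 20 ^ B / (lg E Y) ^ B) := by linarith
    _ = _ := by ring

/-- FORWARD INVARIANT SETS AT TWO SCALES -/
theorem inv_set {k : ℤ} (hk : Odd k) (hk3 : IsCoprime k 3) (B : ℕ) :
    ∃ C : ℝ, 0 < C ∧ ∀ S : Set ℤ, (∀ x ∈ S, Tz k x ∈ S) → ∀ Y X : ℝ, 1 ≤ Y → Y ≤ X →
        ({x : ℤ | |(x : ℝ)| ≤ X ∧ x ∈ S}.ncard : ℝ) ≤ C * X / (lg S Y) ^ B := by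
  classical
  obtain ⟨C₁, hC₁, h1⟩ := ac_all' hk hk3 B
  obtain ⟨C₂, hC₂, h2⟩ := never_all hk
  refine ⟨9 * (B.factorial : ℝ) + C₂ * (3 * (B.factorial : ℝ) * 20 ^ B) + C₁, by positivity, ?_⟩
  intro S hS Y X hY hYX
  have hX : 1 ≤ X := hY.trans hYX
  have hX0 : 0 < X := by linarith
  have hY0 : 0 < Y := by linarith
  have hG := lg_pos S hY0.le
  have hsub : {x : ℤ | |(x : ℝ)| ≤ X ∧ x ∈ S} ⊆ {x : ℤ | x ∈ S ∧ |(x : ℝ)| < Y} ∪
      ({x : ℤ | |(x : ℝ)| ≤ X ∧ ∀ n : ℕ, Y ≤ |(((Tz k)^[n] x : ℤ) : ℝ)|} ∪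
        {x : ℤ | |(x : ℝ)| ≤ X ∧ x ∈ SZk k Y S}) := by
    rintro x ⟨hx, hxS⟩
    rcases lt_or_ge |(x : ℝ)| Y with hc | hc
    · exact Or.inl ⟨hxS, hc⟩
    · right
      have : x ∈ MA k Y S := by
        refine ⟨0, hxS, ?_⟩
        intro j hj
        have : j = 0 := by omega
        rw [this]; exact hc
      rcases MA_sub hS this with h | h
      · exact Or.inl ⟨hx, h⟩
      · exact Or.inr ⟨hx, h⟩
  have h3 := (Set.ncard_le_ncard hsub ((nb_fin S Y).union ((fin_abs X _).union (fin_abs X _)))).trans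
    ((Set.ncard_union_le _ _).trans (Nat.add_le_add_left (Set.ncard_union_le _ _) _))
  have h4 : ({x : ℤ | |(x : ℝ)| ≤ X ∧ x ∈ S}.ncard : ℝ) ≤ nb S Y +
      (({x : ℤ | |(x : ℝ)| ≤ X ∧ ∀ n : ℕ, Y ≤ |(((Tz k)^[n] x : ℤ) : ℝ)|}.ncard : ℝ) +
        ({x : ℤ | |(x : ℝ)| ≤ X ∧ x ∈ SZk k Y S}.ncard : ℝ)) := by
    unfold nb
    exact_mod_cast h3
  have h5 := nb_lg B S hY
  have h6 := h2 Y hY X hX
  have h7 := rpow_lg B S hY
  have h8 := h1 Y hY0 S X hX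
  have h9 : 9 * (B.factorial : ℝ) * Y / (lg S Y) ^ B ≤ 9 * (B.factorial : ℝ) * X / (lg S Y) ^ B := by
    apply div_le_div_of_nonneg_right _ (by positivity)
    exact mul_le_mul_of_nonneg_left hYX (by positivity)
  have h10 : C₂ * X * Y ^ (-(6 / 100 : ℝ)) ≤
      C₂ * X * (3 * (B.factorial : ℝ) * 20 ^ B / (lg S Y) ^ B) :=
    mul_le_mul_of_nonneg_left h7 (by positivity)
  calc ({x : ℤ | |(x : ℝ)| ≤ X ∧ x ∈ S}.ncard : ℝ) ≤ 9 * (B.factorial : ℝ) * X / (lg S Y) ^ B +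
        (C₂ * X * (3 * (B.factorial : ℝ) * 20 ^ B / (lg S Y) ^ B) + C₁ * X / (lg S Y) ^ B) := by
          linarith
    _ = _ := by ring

/-- FORWARD INVARIANT SETS: UPPER AND LOWER DENSITY -/
theorem inv_asym {k : ℤ} (hk : Odd k) (hk3 : IsCoprime k 3) (B : ℕ) :
    ∃ C : ℝ, 0 < C ∧ ∀ S : Set ℤ, (∀ x ∈ S, Tz k x ∈ S) → ∀ δ : ℝ, 0 < δ →
      (∃ᶠ Y : ℝ in atTop, nb S Y ≤ δ * Y) → ∀ᶠ X : ℝ in atTop,
        ({x : ℤ | |(x : ℝ)| ≤ X ∧ x ∈ S}.ncard : ℝ) ≤ C * X / (Real.log (2 + 1 / δ)) ^ B := by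
  obtain ⟨C, hC, h⟩ := inv_set hk hk3 B
  refine ⟨C * 2 ^ B, by positivity, ?_⟩
  intro S hS δ hδ hfr
  obtain ⟨Y, h1, h2⟩ := (hfr.and_eventually (eventually_ge_atTop (max 1 (1 / δ)))).exists
  have hY1 : 1 ≤ Y := (le_max_left _ _).trans h2
  have hYδ : 1 / δ ≤ Y := (le_max_right _ _).trans h2
  have hY0 : 0 < Y := by linarith
  filter_upwards [eventually_ge_atTop Y] with X hX
  have hX0 : 0 < X := by linarith
  refine (h S hS Y X hY1 hX).trans ?_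
  have hG := lg_pos S hY0.le
  have hδi : 0 < 1 / δ := by positivity
  have hL : 0 < Real.log (2 + 1 / δ) := Real.log_pos (by linarith)
  have h3 : 1 + nb S Y ≤ 2 * δ * Y := by
    rw [div_le_iff₀ hδ] at hYδ
    linarith
  have hn0 := nb_nonneg S Y
  have h4 : 1 / (2 * δ) ≤ Y / (1 + nb S Y) := by
    rw [div_le_div_iff₀ (by positivity) (by positivity)]
    linarith
  have h5 : Real.log (2 + 1 / δ) ≤ 2 * lg S Y := by
    unfold lg
    have e1 : 2 * Real.log (2 + Y / (1 + nb S Y)) = Real.log ((2 + Y / (1 + nb S Y)) ^ 2) := by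
      rw [Real.log_pow]; norm_num
    rw [e1]
    apply Real.log_le_log (by positivity)
    have e2 : 0 < 1 / (2 * δ) := by positivity
    have e3 : 1 / δ = 2 * (1 / (2 * δ)) := by field_simp
    rw [e3]
    have e4 : (2 + 1 / (2 * δ)) ^ 2 ≤ (2 + Y / (1 + nb S Y)) ^ 2 :=
      pow_le_pow_left₀ (by positivity) (by linarith) 2
    nlinarith
  have h6 : (Real.log (2 + 1 / δ)) ^ B ≤ 2 ^ B * (lg S Y) ^ B := by
    rw [← mul_pow]
    exact pow_le_pow_left₀ hL.le h5 B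
  rw [div_le_div_iff₀ (by positivity) (by positivity)]
  calc C * X * (Real.log (2 + 1 / δ)) ^ B ≤ C * X * (2 ^ B * (lg S Y) ^ B) :=
        mul_le_mul_of_nonneg_left h6 (by positivity)
    _ = _ := by ring

end Pool.Agent.U457.PS
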