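import Pool.Agent.U457.PS.Crude

/-! Absolute continuity of the first passages. -/

set_option autoImplicit false

namespace Pool.Agent.U457.PS

open Finset Filter Topology
open Pool.Agent.H499R2.CO (Tz)

theorem exp_lower (B : ℕ) {x : ℝ} (hx : 0 < x) : Real.exp (-x) ≤ (B.factorial : ℝ) / x ^ B := by
  rw [Real.exp_neg, inv_eq_one_div, div_le_div_iff₀ (Real.exp_pos _) (by positivity)]
  have h1 := Real.pow_div_factorial_le_exp x hx.le B
  rw [div_le_iff₀ (by positivity)] at h1
  linarith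

/-- the density bound for first passages at all scales -/
theorem ac_PB {k : ℤ} (hk : Odd k) (hk3 : IsCoprime k 3) (B : ℕ) (hB : 1 ≤ B) :
    ∃ C : ℝ, 0 < C ∧ ∃ L₀ : ℝ, 100 ≤ L₀ ∧ ∀ (Y : ℝ) (E : Set ℤ) (EF : Finset ℤ),
      (∀ y ∈ E, |(y : ℝ)| < Y → y ∈ EF) → 1 ≤ EF.card → 0 < Y → L₀ ≤ Real.log (Y / EF.card) →
        ∀ A : ℝ, Y / 2 ≤ A →
        Pool.Agent.H499R2.ND.PB (SZk k Y E) A 0 (C / (Real.log (Y / EF.card)) ^ B) := by
  obtain ⟨l₀, K, hl₀, hK, hsc⟩ := scalesD hk hk3 (γ := 1 / 2) (by norm_num) le_rfl B hB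
  set R : ℝ := |(k : ℝ)| with hRdef
  have hR0 : 0 ≤ R := abs_nonneg _
  refine ⟨100 ^ B * (16 * (4 ^ B * (B.factorial : ℝ)) + K), by positivity, 100 * (max l₀ 8 + R),
    by nlinarith [le_max_right l₀ 8], ?_⟩
  intro Y E EF hE hEF hY0 hL A hAY
  have hm8 : 8 ≤ max l₀ 8 := le_max_right _ _
  have hml : l₀ ≤ max l₀ 8 := le_max_left _ _
  have hn1 : (1 : ℝ) ≤ EF.card := by exact_mod_cast hEF
  have hn0 : (0 : ℝ) < EF.card := by linarith
  set L := Real.log (Y / EF.card) with hLdef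
  obtain ⟨l, hl⟩ : ∃ l : ℝ, l = L / 100 := ⟨_, rfl⟩
  have hL100 : L = 100 * l := by rw [hl]; ring
  have hl1 : max l₀ 8 + R ≤ l := by linarith
  have hl8 : 8 ≤ l := by linarith
  have hlR : R ≤ l := by linarith
  have hll : l₀ ≤ l := by linarith
  have hl0 : 0 < l := by linarith
  -- the size of the set
  have hYn : Y / EF.card = Real.exp (100 * l) := by
    rw [← hL100, hLdef, Real.exp_log (div_pos hY0 hn0)]
  have hYE : Y = EF.card * Real.exp (100 * l) := by
    rw [← hYn, mul_comm, div_mul_cancel₀ _ hn0.ne']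
  have hYexp : Real.exp (100 * l) ≤ Y := by
    rw [hYE]
    exact le_mul_of_one_le_left (Real.exp_pos _).le hn1
  have h100l : 0 ≤ 100 * l := by linarith
  have hY1 : 1 ≤ Y := (Real.one_le_exp h100l).trans hYexp
  have hquad : 5000 * l ^ 2 ≤ Y := by
    have h1 := Real.pow_div_factorial_le_exp (100 * l) h100l 2
    have h2 : (100 * l) ^ 2 / ((2 : ℕ).factorial : ℝ) = 5000 * l ^ 2 := by
      rw [Nat.factorial_two]; push_cast; ring
    rw [h2] at h1
    linarith
  have hRY : R ≤ Y := by nlinarith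
  -- the number of steps
  obtain ⟨N, hN⟩ : ∃ N : ℕ, N = ⌈40 * l⌉₊ := ⟨_, rfl⟩
  have hN1 : 40 * l ≤ N := by rw [hN]; exact Nat.le_ceil _
  have hN2 : (N : ℝ) ≤ 40 * l + 1 := by rw [hN]; exact (Nat.ceil_lt_add_one (by positivity)).le
  have hNR : 4 * (N : ℝ) * R ≤ Y := by
    have h1 : 4 * (N : ℝ) * R ≤ 4 * (40 * l + 1) * l :=
      mul_le_mul (by linarith) hlR hR0 (by positivity)
    nlinarith
  have h2N : (2 : ℝ) ^ N ≤ Real.exp (28.5 * l) := by
    have e1 : (2 : ℝ) ^ N = Real.exp ((N : ℝ) * Real.log 2) := by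
      rw [Real.exp_nat_mul, Real.exp_log (by norm_num)]
    rw [e1]
    apply Real.exp_le_exp.2
    have hln2 := Real.log_two_lt_d9
    have hln20 : 0 < Real.log 2 := Real.log_pos (by norm_num)
    calc (N : ℝ) * Real.log 2 ≤ (40 * l + 1) * 0.6931471808 :=
          mul_le_mul hN2 hln2.le hln20.le (by positivity)
      _ ≤ _ := by nlinarith
  have h966 : (1.932 / 2 : ℝ) ^ N ≤ Real.exp (-(1.25 * l)) := by
    have h1 : (1.932 / 2 : ℝ) ≤ Real.exp (-(1 / 32)) := by
      have := Real.add_one_le_exp (-(1 / 32) : ℝ)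
      linarith
    refine (pow_le_pow_left₀ (by norm_num) h1 N).trans ?_
    rw [← Real.exp_nat_mul]
    apply Real.exp_le_exp.2
    nlinarith
  set ρ : ℝ := 16 * Real.exp (-(l / 4)) with hρ
  have hρ0 : 0 ≤ ρ := by positivity
  -- the scales near the level
  have hlow : ∀ A : ℝ, Y / 2 ≤ A → A ≤ Y * Real.exp (2 * l) → ∀ m : ℕ,
      (3 : ℝ) ^ m ≤ Real.exp l → Pool.Agent.H499R2.ND.PB (SZk k Y E) A m ρ := by
    intro A hA1 hA2 m hm
    have hA0 : 0 < A := by linarith
    have hx30 : Real.exp (28.5 * l) * Real.exp l ≤ Real.exp (30 * l) := by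
      rw [← Real.exp_add]; apply Real.exp_le_exp.2; linarith
    have h1 : (2 : ℝ) ^ N * 3 ^ m ≤ Real.exp (30 * l) :=
      (mul_le_mul h2N hm (by positivity) (by positivity)).trans hx30
    have h2 : (2 : ℝ) ^ N * 3 ^ m ≤ A := by
      refine h1.trans ?_
      have h3 : Real.exp (30 * l) * 2 ≤ Real.exp (100 * l) := by
        have h4 : Real.exp (100 * l) = Real.exp (30 * l) * Real.exp (70 * l) := by
          rw [← Real.exp_add]; congr 1; ring
        rw [h4]
        apply mul_le_mul_of_nonneg_left _ (Real.exp_pos _).le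
        have := Real.add_one_le_exp (70 * l)
        linarith
      linarith
    have h3 := crude hk hY0 hNR hE hA0 (m := m) h2
    intro u v hu
    refine (h3 u v hu).trans ?_
    apply mul_le_mul_of_nonneg_right _ (by positivity)
    have e1 : (2 : ℝ) ^ (N + 2) * 3 ^ m * (EF.card / A) ≤ 8 * Real.exp (-(l / 4)) := by
      have f1 : (EF.card : ℝ) / A ≤ 2 * Real.exp (-(100 * l)) := by
        rw [div_le_iff₀ hA0]
        have f2 : Real.exp (-(100 * l)) * Real.exp (100 * l) = 1 := by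
          rw [← Real.exp_add]; simp
        have f3 : (EF.card : ℝ) = Real.exp (-(100 * l)) * Y := by
          rw [hYE]
          calc (EF.card : ℝ) = EF.card * 1 := (mul_one _).symm
            _ = EF.card * (Real.exp (-(100 * l)) * Real.exp (100 * l)) := by rw [f2]
            _ = _ := by ring
        have f4 : Real.exp (-(100 * l)) * Y ≤ Real.exp (-(100 * l)) * (2 * A) :=
          mul_le_mul_of_nonneg_left (by linarith) (Real.exp_pos _).le
        linarith
      have f5 : (2 : ℝ) ^ (N + 2) * 3 ^ m = 4 * (2 ^ N * 3 ^ m) := by ring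
      rw [f5]
      calc 4 * ((2 : ℝ) ^ N * 3 ^ m) * (EF.card / A) ≤
          4 * Real.exp (30 * l) * (2 * Real.exp (-(100 * l))) :=
            mul_le_mul (by linarith) f1 (div_nonneg hn0.le hA0.le) (by positivity)
        _ = 8 * Real.exp (-(70 * l)) := by
            have : Real.exp (-(70 * l)) = Real.exp (30 * l) * Real.exp (-(100 * l)) := by
              rw [← Real.exp_add]; congr 1; ring
            rw [this]; ring
        _ ≤ _ := by
            apply mul_le_mul_of_nonneg_left _ (by norm_num)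
            apply Real.exp_le_exp.2; linarith
    have e2 : 4 * ((4 * A / Y) ^ (1 / 2 : ℝ) * (1.932 / 2) ^ N) ≤ 8 * Real.exp (-(l / 4)) := by
      have f1 : (4 * A / Y) ^ (1 / 2 : ℝ) ≤ 2 * Real.exp l := by
        rw [← Real.sqrt_eq_rpow, Real.sqrt_le_left (by positivity)]
        rw [mul_pow, ← Real.exp_nat_mul, div_le_iff₀ hY0]
        push_cast
        linarith
      calc 4 * ((4 * A / Y) ^ (1 / 2 : ℝ) * (1.932 / 2) ^ N) ≤
          4 * ((2 * Real.exp l) * Real.exp (-(1.25 * l))) := by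
            apply mul_le_mul_of_nonneg_left _ (by norm_num)
            exact mul_le_mul f1 h966 (by positivity) (by positivity)
        _ = 8 * Real.exp (-(l / 4)) := by
            have : Real.exp (-(l / 4)) = Real.exp l * Real.exp (-(1.25 * l)) := by
              rw [← Real.exp_add]; congr 1; ring
            rw [this]; ring
    rw [hρ]
    linarith
  have hρB : ρ + K / l ^ B = 16 * Real.exp (-(l / 4)) + K / l ^ B := by rw [hρ]
  have hbd : 16 * Real.exp (-(l / 4)) + K / l ^ B ≤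
      100 ^ B * (16 * (4 ^ B * (B.factorial : ℝ)) + K) / L ^ B := by
    have f1 := exp_lower B (x := l / 4) (by positivity)
    have f2 : (100 : ℝ) ^ B * (16 * (4 ^ B * (B.factorial : ℝ)) + K) / L ^ B =
        16 * ((B.factorial : ℝ) / (l / 4) ^ B) + K / l ^ B := by
      rw [hL100, mul_pow, div_pow]
      field_simp
    rw [f2]
    linarith
  have hfin : ∀ ρ' : ℝ, ρ' ≤ 16 * Real.exp (-(l / 4)) + K / l ^ B →
      Pool.Agent.H499R2.ND.PB (SZk k Y E) A 0 ρ' →
      Pool.Agent.H499R2.ND.PB (SZk k Y E) A 0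
        (100 ^ B * (16 * (4 ^ B * (B.factorial : ℝ)) + K) / L ^ B) := by
    intro ρ' hρ' h u v hu
    refine (h u v hu).trans ?_
    apply mul_le_mul_of_nonneg_right (hρ'.trans hbd)
    have : 0 < A := by linarith
    positivity
  have hA0 : 0 < A := by linarith
  rcases le_or_gt (Real.log (A / Y)) l with hcase | hcase
  · apply hfin ρ (by rw [hρ]; have : 0 ≤ K / l ^ B := by positivity
                     linarith)
    apply hlow A hAY _ 0 (by rw [pow_zero]; exact Real.one_le_exp hl0.le)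
    have h1 : A / Y ≤ Real.exp l := by
      rw [← Real.log_le_iff_le_exp (by positivity)]; exact hcase
    rw [div_le_iff₀ hY0] at h1
    refine h1.trans ?_
    rw [mul_comm]
    apply mul_le_mul_of_nonneg_left _ hY0.le
    apply Real.exp_le_exp.2; linarith
  · apply hfin (ρ + K / l ^ B) (by rw [hρ])
    refine hsc l hll (SZk k Y E) Y hRY hY1
      (SZk_fwd (Int.odd_iff.1 hk) hY0 E) ρ hρ0 ?_ A hA0 hcase.le 0 (by
        rw [Nat.cast_zero]
        apply Real.rpow_nonneg
        linarith)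
    intro A' hA' h1 h2 m hm
    apply hlow A'
    · have h3 : 0 ≤ Real.log (A' / Y) := by linarith
      have h4 := (Real.log_nonneg_iff (by positivity)).1 h3
      rw [le_div_iff₀ hY0] at h4
      linarith
    · have h3 : A' / Y ≤ Real.exp (2 * l) := by
        rw [← Real.log_le_iff_le_exp (by positivity)]; exact h2
      rw [div_le_iff₀ hY0] at h3
      linarith
    · -- the modulus is small
      set t := Real.log (A' / Y) with ht
      have ht0 : 0 < t := by linarith
      have : (3 : ℝ) ^ m = Real.exp (m * Real.log 3) := by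
        rw [Real.exp_nat_mul, Real.exp_log (by norm_num)]
      rw [this]
      apply Real.exp_le_exp.2
      have hl3 : Real.log 3 ≤ 1.11 := by
        have h9 : Real.log 3 ≤ 8 / 5 * Real.log 2 := Pool.Agent.H499R2.ND.log3_le
        have := Real.log_two_lt_d9
        linarith
      have hm' : (m : ℝ) ≤ (2 * l) ^ ((1 : ℝ) / 4) := by
        refine hm.trans ?_
        have e : ((1 : ℝ) / 2 / 2) = 1 / 4 := by norm_num
        rw [e]
        exact Real.rpow_le_rpow ht0.le h2 (by norm_num)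
      have h30 : 0 ≤ Real.log 3 := Real.log_nonneg (by norm_num)
      have h9 : (2 * l) ^ ((1 : ℝ) / 4) * (2 * l) ^ ((3 : ℝ) / 4) = 2 * l := by
        rw [← Real.rpow_add (by positivity)]; norm_num
      have h10 : (8 : ℝ) ≤ (2 * l) ^ ((3 : ℝ) / 4) := by
        have h11 : (16 : ℝ) ^ ((3 : ℝ) / 4) ≤ (2 * l) ^ ((3 : ℝ) / 4) :=
          Real.rpow_le_rpow (by norm_num) (by linarith) (by norm_num)
        have h12 : (16 : ℝ) ^ ((3 : ℝ) / 4) = 8 := by
          rw [show (16 : ℝ) = (2 : ℝ) ^ (4 : ℝ) by norm_num, ← Real.rpow_mul (by norm_num)]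
          norm_num
        linarith
      have h13 : 0 ≤ (2 * l) ^ ((1 : ℝ) / 4) := by positivity
      have h14 : 8 * (2 * l) ^ ((1 : ℝ) / 4) ≤ 2 * l := by
        calc 8 * (2 * l) ^ ((1 : ℝ) / 4) = (2 * l) ^ ((1 : ℝ) / 4) * 8 := by ring
          _ ≤ (2 * l) ^ ((1 : ℝ) / 4) * (2 * l) ^ ((3 : ℝ) / 4) :=
              mul_le_mul_of_nonneg_left h10 h13
          _ = 2 * l := h9
      calc (m : ℝ) * Real.log 3 ≤ (2 * l) ^ ((1 : ℝ) / 4) * 1.11 :=
            mul_le_mul hm' hl3 h30 h13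
        _ ≤ l := by linarith

/-- the positive side -/
theorem ac_pos {k : ℤ} (hk : Odd k) (hk3 : IsCoprime k 3) (B : ℕ) (hB : 1 ≤ B) :
    ∃ C : ℝ, 0 < C ∧ ∃ L₀ : ℝ, 100 ≤ L₀ ∧ ∀ (Y : ℝ) (E : Set ℤ) (EF : Finset ℤ),
      (∀ y ∈ E, |(y : ℝ)| < Y → y ∈ EF) → 1 ≤ EF.card → 0 < Y → L₀ ≤ Real.log (Y / EF.card) →
        ∀ X : ℝ, 0 < X → fc k Y E X ≤ C / (Real.log (Y / EF.card)) ^ B * X := by
  obtain ⟨C, hC, L₀, hL₀, h⟩ := ac_PB hk hk3 B hB
  refine ⟨2 * C + 2 * (B.factorial : ℝ), by positivity, L₀, hL₀, ?_⟩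
  intro Y E EF hE hEF hY hL X hX
  have hn1 : (1 : ℝ) ≤ EF.card := by exact_mod_cast hEF
  have hn0 : (0 : ℝ) < EF.card := by linarith
  set L := Real.log (Y / EF.card) with hLdef
  have hLp : 0 < L := by linarith
  obtain ⟨n, hn⟩ := pow_unbounded_of_one_lt (X / Y) (show (1 : ℝ) < 2 by norm_num)
  rw [div_lt_iff₀ hY] at hn
  have h1 := fc_bound hY hE (by positivity) (h Y E EF hE hEF hY hL) n X hX hn
  refine h1.trans ?_
  apply mul_le_mul_of_nonneg_right _ hX.le
  have h2 : (EF.card : ℝ) / Y ≤ (B.factorial : ℝ) / L ^ B := by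
    have h3 : (EF.card : ℝ) / Y = Real.exp (-L) := by
      rw [Real.exp_neg, hLdef, Real.exp_log (by positivity), inv_div]
    rw [h3]
    exact exp_lower B hLp
  rw [add_div, mul_div_assoc, mul_div_assoc]
  linarith

/-- ABSOLUTE CONTINUITY OF THE FIRST PASSAGES -/
theorem ac_all {k : ℤ} (hk : Odd k) (hk3 : IsCoprime k 3) (B : ℕ) :
    ∃ C : ℝ, 0 < C ∧ ∀ Y : ℝ, 0 < Y → ∀ (E : Set ℤ), ∀ X : ℝ, 1 ≤ X →
        ({x : ℤ | |(x : ℝ)| ≤ X ∧ x ∈ SZk k Y E}.ncard : ℝ) ≤
          C * X / (Real.log (2 + Y / ({y : ℤ | y ∈ E ∧ |(y : ℝ)| < Y}.ncard : ℝ))) ^ B := by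
  classical
  have hk' : Odd (-k) := hk.neg
  have hk3' : IsCoprime (-k) 3 := hk3.neg_left
  obtain ⟨C₁, hC₁, Y₁, hY₁, h1⟩ := ac_pos hk hk3 (B + 1) (by omega)
  obtain ⟨C₂, hC₂, Y₂, hY₂, h2⟩ := ac_pos hk' hk3' (B + 1) (by omega)
  set M := max Y₁ Y₂ with hM
  have hM100 : 100 ≤ M := hY₁.trans (le_max_left _ _)
  set D := Real.log (2 + Real.exp M) with hD
  have hDp : 0 < D := Real.log_pos (by have := Real.exp_pos M; linarith)
  refine ⟨(C₁ + C₂) * 2 ^ B + 3 * D ^ B, by positivity, ?_⟩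
  intro Y hY E X hX
  have hX0 : 0 < X := by linarith
  have hfinE : {y : ℤ | y ∈ E ∧ |(y : ℝ)| < Y}.Finite := by
    apply (fin_abs Y (fun _ => True)).subset
    rintro w ⟨_, h2⟩
    exact ⟨h2.le, trivial⟩
  set EF := hfinE.toFinset with hEF
  have hcard : ({y : ℤ | y ∈ E ∧ |(y : ℝ)| < Y}.ncard : ℝ) = EF.card := by
    rw [hEF, Set.ncard_eq_toFinset_card _ hfinE]
  rw [hcard]
  have hE : ∀ y ∈ E, |(y : ℝ)| < Y → y ∈ EF := by
    intro y hy hyY
    rw [hEF, Set.Finite.mem_toFinset]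
    exact ⟨hy, hyY⟩
  set G := Real.log (2 + Y / (EF.card : ℝ)) with hG
  have hGp : 0 < G := by
    apply Real.log_pos
    have : 0 ≤ Y / (EF.card : ℝ) := by positivity
    linarith
  rcases Nat.eq_zero_or_pos EF.card with h0 | hpos
  · -- the empty set
    have : {x : ℤ | |(x : ℝ)| ≤ X ∧ x ∈ SZk k Y E} = ∅ := by
      rw [Set.eq_empty_iff_forall_notMem]
      rintro x ⟨_, hx⟩
      rw [mem_SZk] at hx
      obtain ⟨_, n, _, h3, h4⟩ := hx
      have := hE _ h4 h3
      rw [card_eq_zero] at h0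
      rw [h0] at this
      exact absurd this (notMem_empty _)
    rw [this, Set.ncard_empty, Nat.cast_zero]
    positivity
  have hn1 : (1 : ℝ) ≤ EF.card := by exact_mod_cast hpos
  have hn0 : (0 : ℝ) < EF.card := by linarith
  rcases lt_or_ge (Real.log (Y / EF.card)) M with hsm | hbig
  · refine (triv_abs hX _).trans ?_
    have h3 : Y / EF.card ≤ Real.exp M := by
      rw [← Real.log_le_iff_le_exp (by positivity)]; exact hsm.le
    have h4 : G ≤ D := by
      apply Real.log_le_log (by positivity)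
      linarith
    rw [le_div_iff₀ (by positivity)]
    have h5 : G ^ B ≤ D ^ B := pow_le_pow_left₀ hGp.le h4 B
    calc 3 * X * G ^ B ≤ 3 * X * D ^ B := mul_le_mul_of_nonneg_left h5 (by positivity)
      _ = 0 + 3 * D ^ B * X := by ring
      _ ≤ (C₁ + C₂) * 2 ^ B * X + 3 * D ^ B * X := by
          have : 0 ≤ (C₁ + C₂) * 2 ^ B * X := by positivity
          linarith
      _ = _ := by ring
  · have hb1 : Y₁ ≤ Real.log (Y / EF.card) := (le_max_left _ _).trans hbig
    have hb2 : Y₂ ≤ Real.log (Y / EF.card) := (le_max_right _ _).trans hbig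
    set L := Real.log (Y / EF.card) with hLdef
    have hL100 : 100 ≤ L := hM100.trans hbig
    have hLp : 0 < L := by linarith
    have h3 := h1 Y E EF hE hpos hY hb1 X hX0
    have hcimg : (EF.image (fun y => -y)).card = EF.card := card_image_of_injective _ neg_injective
    have h4 := h2 Y {y | -y ∈ E} (EF.image (fun y => -y)) (by
      intro y hy hyY
      rw [mem_image]
      refine ⟨-y, hE _ hy (by rwa [Int.cast_neg, abs_neg]), neg_neg y⟩) (by rw [hcimg]; exact hpos) hY
      (by rw [hcimg]; exact hb2) X hX0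
    rw [hcimg] at h4
    have hsub : {x : ℤ | |(x : ℝ)| ≤ X ∧ x ∈ SZk k Y E} ⊆
        (((Icc (1 : ℤ) ⌊X⌋).filter (fun x => x ∈ SP k Y E) : Finset ℤ) : Set ℤ) ∪
        (((((Icc (1 : ℤ) ⌊X⌋).filter (fun x => x ∈ SP (-k) Y {y | -y ∈ E})).image (fun x => -x) :
          Finset ℤ) : Set ℤ) ∪ (({0} : Finset ℤ) : Set ℤ)) := by
      rintro x ⟨hx1, hx2⟩
      have hx3 := hx2
      rw [mem_SZk] at hx3
      have hxY := hx3.1
      rcases lt_or_ge x 0 with hneg | hpos
      · right; left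
        rw [mem_coe, mem_image]
        have hxR : (x : ℝ) < 0 := by exact_mod_cast hneg
        rw [abs_of_neg hxR] at hxY hx1
        refine ⟨-x, ?_, neg_neg x⟩
        rw [mem_filter, mem_Icc, Int.le_floor]
        refine ⟨⟨by omega, by push_cast; exact hx1⟩, SZk_neg hk hx2, by push_cast; exact hxY⟩
      · rcases eq_or_lt_of_le hpos with h0 | hpos'
        · right; right
          rw [mem_coe, mem_singleton]; exact h0.symm
        left
        have hxR : (0 : ℝ) ≤ x := by exact_mod_cast hpos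
        rw [abs_of_nonneg hxR] at hxY hx1
        rw [mem_coe, mem_filter, mem_Icc, Int.le_floor]
        exact ⟨⟨by omega, hx1⟩, hx2, hxY⟩
    have h0not : (0 : ℤ) ∉ {x : ℤ | |(x : ℝ)| ≤ X ∧ x ∈ SZk k Y E} := by
      rintro ⟨_, h⟩
      rw [mem_SZk] at h
      have := h.1
      rw [Int.cast_zero, abs_zero] at this
      linarith
    have hsub' : {x : ℤ | |(x : ℝ)| ≤ X ∧ x ∈ SZk k Y E} ⊆
        (((Icc (1 : ℤ) ⌊X⌋).filter (fun x => x ∈ SP k Y E) : Finset ℤ) : Set ℤ) ∪
        ((((Icc (1 : ℤ) ⌊X⌋).filter (fun x => x ∈ SP (-k) Y {y | -y ∈ E})).image (fun x => -x) :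
          Finset ℤ) : Set ℤ) := by
      intro x hx
      rcases hsub hx with h | h | h
      · exact Or.inl h
      · exact Or.inr h
      · rw [mem_coe, mem_singleton] at h
        rw [h] at hx
        exact absurd hx h0not
    have h5 := (Set.ncard_le_ncard hsub' ((Finset.finite_toSet _).union (Finset.finite_toSet _))).trans
      (Set.ncard_union_le _ _)
    rw [Set.ncard_coe_finset, Set.ncard_coe_finset] at h5
    have h6 := h5.trans (Nat.add_le_add_left card_image_le _)
    have h7 : ({x : ℤ | |(x : ℝ)| ≤ X ∧ x ∈ SZk k Y E}.ncard : ℝ) ≤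
        fc k Y E X + fc (-k) Y {y | -y ∈ E} X := by
      unfold fc
      exact_mod_cast h6
    refine h7.trans ((add_le_add h3 h4).trans ?_)
    have h8 : G ≤ 2 * L := by
      have h9 : G ≤ Real.log (3 * (Y / EF.card)) := by
        apply Real.log_le_log (by positivity)
        have : 1 ≤ Y / (EF.card : ℝ) := by
          have := (Real.log_nonneg_iff (x := Y / (EF.card : ℝ)) (by positivity)).1 (by rw [← hLdef]; linarith)
          exact this
        linarith
      rw [Real.log_mul (by norm_num) (by positivity), ← hLdef] at h9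
      have h10 : Real.log 3 ≤ 3 - 1 := Real.log_le_sub_one_of_pos (by norm_num)
      linarith
    have h11 : 1 / L ^ (B + 1) ≤ 2 ^ B / G ^ B := by
      have h12 : G ^ B ≤ (2 * L) ^ B := pow_le_pow_left₀ hGp.le h8 B
      have h13 : L ^ B ≤ L ^ (B + 1) := pow_le_pow_right₀ (by linarith) (by omega)
      rw [div_le_div_iff₀ (by positivity) (by positivity), one_mul]
      calc G ^ B ≤ (2 * L) ^ B := h12
        _ = 2 ^ B * L ^ B := mul_pow _ _ _
        _ ≤ 2 ^ B * L ^ (B + 1) := mul_le_mul_of_nonneg_left h13 (by positivity)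
    calc C₁ / L ^ (B + 1) * X + C₂ / L ^ (B + 1) * X = (C₁ + C₂) * X * (1 / L ^ (B + 1)) := by ring
      _ ≤ (C₁ + C₂) * X * (2 ^ B / G ^ B) := mul_le_mul_of_nonneg_left h11 (by positivity)
      _ = (C₁ + C₂) * 2 ^ B * X / G ^ B := by ring
      _ ≤ ((C₁ + C₂) * 2 ^ B + 3 * D ^ B) * X / G ^ B := by
          apply div_le_div_of_nonneg_right _ (by positivity)
          have : 0 ≤ 3 * D ^ B * X := by positivity
          linarith

end Pool.Agent.U457.PS
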