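import Pool.Agent.TH930.PS.Main

/-! First passages below a real level `Y` with prescribed values, at the lowest scales. -/

set_option autoImplicit false

namespace Pool.Agent.U457.PS

open Finset Pool.Agent.H319R3.GC Pool.Agent.H828R3.GP Pool.Agent.TH930.PS

variable {d : ℕ} {m r : ℕ → ℤ}

/-- first passage below `Y` after exactly `n` steps -/
def FY (d : ℕ) (m r : ℕ → ℤ) (Y : ℝ) (n : ℕ) (x : ℤ) : Prop :=
  (∀ j < n, Y ≤ |(((Tm d m r)^[j] x : ℤ) : ℝ)|) ∧ |(((Tm d m r)^[n] x : ℤ) : ℝ)| < Y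

theorem fiberY (h : Adm d m r) {R Y X : ℝ} (hR : ∀ i < d, |(r i : ℝ)| ≤ R) (hR0 : 0 ≤ R) (hY : 0 < Y)
    (hX : 0 < X) {n : ℕ} (hn : 4 * n * R ≤ Y) (S : Finset ℤ) {q : ℕ} (hq : 0 < q)
    (c M y : ℤ)
    (hS : ∀ x ∈ S, |(x : ℝ)| < X ∧ (q : ℤ) ∣ x - c ∧ FY d m r Y n x ∧
      (Tm d m r)^[n] x = y ∧ Mu d m r n x = M) (hy : Y / (2 * d) ≤ |(y : ℝ)|) :
    (S.card : ℝ) ≤ 16 * n * R * d * X / Y / q + 1 := by
  have hd0 : (0 : ℝ) < d := by exact_mod_cast (by have := h.two_le; omega : 0 < d)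
  have hnn : (0 : ℝ) ≤ n := Nat.cast_nonneg n
  have hD : 0 < (d : ℝ) ^ n := by positivity
  have key : ∀ x ∈ S, |(M : ℝ) * x - (d : ℝ) ^ n * y| ≤ 2 * n * R * (d : ℝ) ^ n ∧
      (d : ℝ) ^ n ≤ 4 * |(M : ℝ)| * (d * X / Y) := by
    intro x hx
    obtain ⟨h1, h2, h3, h4, h5⟩ := hS x hx
    have h6 := approx h hR hR0 hY n h3.1 (by nlinarith)
    have h7 := h3.2
    rw [h4] at h6 h7
    rw [h5] at h6
    constructor
    · refine h6.trans ?_
      calc n * (2 * R / Y) * ((d : ℝ) ^ n * |(y : ℝ)|)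
          ≤ n * (2 * R / Y) * ((d : ℝ) ^ n * Y) := by
            apply mul_le_mul_of_nonneg_left _ (by positivity)
            exact mul_le_mul_of_nonneg_left h7.le hD.le
        _ = _ := by field_simp
    · have h8 : n * (2 * R / Y) ≤ 1 / 2 := by
        rw [mul_div_assoc', div_le_iff₀ hY]; linarith
      have h9 : |(M : ℝ) * x - (d : ℝ) ^ n * y| ≤ 1 / 2 * ((d : ℝ) ^ n * |(y : ℝ)|) :=
        h6.trans (mul_le_mul_of_nonneg_right h8 (by positivity))
      have h10 : (d : ℝ) ^ n * |(y : ℝ)| ≤ 2 * (|(M : ℝ)| * |(x : ℝ)|) := by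
        have e1 : (d : ℝ) ^ n * |(y : ℝ)| = |(d : ℝ) ^ n * y| := by rw [abs_mul, abs_of_pos hD]
        have e2 := abs_sub_abs_le_abs_sub ((d : ℝ) ^ n * y) ((M : ℝ) * x)
        rw [abs_sub_comm, ← e1, abs_mul (M : ℝ)] at e2
        linarith
      have h11 : (d : ℝ) ^ n * (Y / (2 * d)) ≤ 2 * (|(M : ℝ)| * X) := by
        calc (d : ℝ) ^ n * (Y / (2 * d)) ≤ (d : ℝ) ^ n * |(y : ℝ)| :=
              mul_le_mul_of_nonneg_left hy hD.le
          _ ≤ 2 * (|(M : ℝ)| * |(x : ℝ)|) := h10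
          _ ≤ 2 * (|(M : ℝ)| * X) := by
              apply mul_le_mul_of_nonneg_left _ (by norm_num)
              exact mul_le_mul_of_nonneg_left h1.le (abs_nonneg _)
      have h12 : (d : ℝ) ^ n = (d : ℝ) ^ n * (Y / (2 * d)) * (2 * d / Y) := by field_simp
      rw [h12]
      calc (d : ℝ) ^ n * (Y / (2 * d)) * (2 * d / Y) ≤ 2 * (|(M : ℝ)| * X) * (2 * d / Y) :=
            mul_le_mul_of_nonneg_right h11 (by positivity)
        _ = _ := by ring
  have hL : (0 : ℝ) ≤ 16 * n * R * d * X / Y := by positivity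
  refine card_ap S q hq c _ hL (fun x hx => (hS x hx).2.1) ?_
  intro x hx z hz
  obtain ⟨a1, a2⟩ := key x hx
  obtain ⟨b1, b2⟩ := key z hz
  have hM0 : 0 < |(M : ℝ)| := by
    by_contra hcon
    push Not at hcon
    have : |(M : ℝ)| = 0 := le_antisymm hcon (abs_nonneg _)
    rw [this, mul_zero, zero_mul] at a2
    linarith
  have h3 : |(M : ℝ)| * |(x : ℝ) - z| ≤ 4 * n * R * (d : ℝ) ^ n := by
    rw [← abs_mul]
    have : (M : ℝ) * ((x : ℝ) - z) = ((M : ℝ) * x - (d : ℝ) ^ n * y) - ((M : ℝ) * z - (d : ℝ) ^ n * y) := by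
      ring
    rw [this]
    refine (abs_sub _ _).trans ?_
    linarith
  have h4 : |(M : ℝ)| * |(x : ℝ) - z| ≤ |(M : ℝ)| * (16 * n * R * d * X / Y) := by
    refine h3.trans ?_
    calc 4 * n * R * (d : ℝ) ^ n ≤ 4 * n * R * (4 * |(M : ℝ)| * (d * X / Y)) :=
          mul_le_mul_of_nonneg_left a2 (by positivity)
      _ = _ := by ring
  have h5 := le_of_mul_le_mul_left h4 hM0
  push_cast
  exact (le_abs_self _).trans h5

/-- `x` is at least `Y` in absolute value and its orbit passes below `Y` for the first time in `E` -/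
def SE (d : ℕ) (m r : ℕ → ℤ) (Y : ℝ) (E : Set ℤ) : Set ℤ :=
  {x : ℤ | Y ≤ |(x : ℝ)| ∧ ∃ n, FY d m r Y n x ∧ (Tm d m r)^[n] x ∈ E}

theorem FY_pos {Y : ℝ} {n : ℕ} {x : ℤ} (hx : Y ≤ |(x : ℝ)|) (h : FY d m r Y n x) : 1 ≤ n := by
  rcases Nat.eq_zero_or_pos n with rfl | h0
  · exact absurd h.2 (not_lt.2 (by simpa using hx))
  · exact h0

/-- the value at the first passage is not small -/
theorem FY_val (h : Adm d m r) {R Y : ℝ} (hR : ∀ i < d, |(r i : ℝ)| ≤ R) (hRY : 2 * R ≤ Y) {n : ℕ}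
    {x : ℤ} (hx : Y ≤ |(x : ℝ)|) (hf : FY d m r Y n x) :
    Y / (2 * d) ≤ |(((Tm d m r)^[n] x : ℤ) : ℝ)| := by
  have hn := FY_pos hx hf
  obtain ⟨k, rfl⟩ : ∃ k, n = k + 1 := ⟨n - 1, by omega⟩
  have hd0 : (0 : ℝ) < d := by exact_mod_cast (by have := h.two_le; omega : 0 < d)
  have hz := hf.1 k (by omega)
  rw [Function.iterate_succ_apply']
  set z : ℤ := (Tm d m r)^[k] x with hzdef
  obtain ⟨e1, e2⟩ := toNat_mod h.two_le z
  have hTz := Tm_eq h z
  set i := (z % d).toNat with hi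
  have hT : (d : ℝ) * ((Tm d m r z : ℤ) : ℝ) = (m i : ℝ) * z - (r i : ℝ) := by exact_mod_cast hTz
  have hmi := m_abs h e2
  have hri := hR i e2
  have h1 : (d : ℝ) * |((Tm d m r z : ℤ) : ℝ)| = |(m i : ℝ) * z - (r i : ℝ)| := by
    rw [← hT, abs_mul, abs_of_pos hd0]
  have h2 := abs_sub_abs_le_abs_sub ((m i : ℝ) * z) (r i : ℝ)
  rw [abs_mul] at h2
  have h3 : |(z : ℝ)| ≤ |(m i : ℝ)| * |(z : ℝ)| := le_mul_of_one_le_left (abs_nonneg _) hmi
  have h4 : Y / 2 ≤ (d : ℝ) * |((Tm d m r z : ℤ) : ℝ)| := by linarith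
  rw [div_le_iff₀ (by positivity)]
  linarith

open Classical in
/-- the points of `(-X, X)` in the class of `c` mod `q` whose first passage below `Y`, within `N` steps,
is in `B` -/
noncomputable def PaY (d : ℕ) (m r : ℕ → ℤ) (X : ℝ) (Y : ℝ) (N q : ℕ) (c : ℤ) (B : Finset ℤ) : Finset ℤ :=
  (Ioo (-⌈X⌉) ⌈X⌉).filter (fun x => |(x : ℝ)| < X ∧ (q : ℤ) ∣ x - c ∧ Y ≤ |(x : ℝ)| ∧
    ∃ n ≤ N, FY d m r Y n x ∧ (Tm d m r)^[n] x ∈ B)

theorem mem_Ioo_of_abs {X : ℝ} {x : ℤ} (hx : |(x : ℝ)| < X) : x ∈ Ioo (-⌈X⌉) ⌈X⌉ := by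
  have h1 := abs_lt.1 hx
  have h2 := Int.le_ceil X
  rw [Finset.mem_Ioo]
  constructor
  · have : (-(⌈X⌉ : ℤ) : ℝ) < x := by linarith
    exact_mod_cast this
  · have : (x : ℝ) < (⌈X⌉ : ℤ) := by linarith
    exact_mod_cast this

theorem card_PaY (h : Adm d m r) {R X Y : ℝ} (hR : ∀ i < d, |(r i : ℝ)| ≤ R) (hR0 : 0 ≤ R)
    (hY : 0 < Y) (hX : 0 < X) (hRY : 2 * R ≤ Y) {N q : ℕ} (hN : 4 * N * R ≤ Y) (hq : 0 < q) (c : ℤ)
    (B : Finset ℤ) :
    ((PaY d m r X Y N q c B).card : ℝ) ≤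
      B.card * ((N + 1) * ((N + 1) ^ d * (16 * N * R * d * X / Y / q + 1))) := by
  classical
  have hqR : (0 : ℝ) < q := by exact_mod_cast hq
  have hd0 : (0 : ℝ) < d := by exact_mod_cast (by have := h.two_le; omega : 0 < d)
  set E : ℝ := 16 * N * R * d * X / Y / q + 1 with hE
  have hE0 : 0 ≤ E := by positivity
  set Fi : ℤ → ℕ → ℤ → Finset ℤ := fun y n M => (PaY d m r X Y N q c B).filter
    (fun x => FY d m r Y n x ∧ (Tm d m r)^[n] x = y ∧ Mu d m r n x = M) with hFi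
  have hsub : PaY d m r X Y N q c B ⊆ B.biUnion (fun y => (range (N + 1)).biUnion (fun n =>
      (Ms d m n).biUnion (fun M => Fi y n M))) := by
    intro x hx
    have hx' := hx
    unfold PaY at hx'
    rw [mem_filter] at hx'
    obtain ⟨_, _, _, _, n, hn, hfp, hB'⟩ := hx'
    rw [mem_biUnion]
    refine ⟨_, hB', ?_⟩
    rw [mem_biUnion]
    refine ⟨n, mem_range.2 (by omega), ?_⟩
    rw [mem_biUnion]
    refine ⟨Mu d m r n x, Mu_mem h.two_le n x, ?_⟩
    rw [hFi]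
    exact mem_filter.2 ⟨hx, hfp, rfl, rfl⟩
  have hfib : ∀ y ∈ B, ∀ n ∈ range (N + 1), ∀ M ∈ Ms d m n, ((Fi y n M).card : ℝ) ≤ E := by
    intro y hy n hn M _
    rw [mem_range] at hn
    have hnN : (n : ℝ) ≤ N := by exact_mod_cast (by omega : n ≤ N)
    have hnn : (0 : ℝ) ≤ n := Nat.cast_nonneg n
    rcases (Fi y n M).eq_empty_or_nonempty with h0 | ⟨x₀, hx₀⟩
    · rw [h0, card_empty, Nat.cast_zero]; exact hE0
    have hyv : Y / (2 * d) ≤ |(y : ℝ)| := by
      rw [hFi] at hx₀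
      simp only [mem_filter, PaY] at hx₀
      obtain ⟨⟨_, h1, h2, hYx, _⟩, h3, h4, h5⟩ := hx₀
      have := FY_val h hR hRY hYx h3
      rwa [h4] at this
    have h1 := fiberY h hR hR0 hY hX (n := n) (by
      refine le_trans ?_ hN
      apply mul_le_mul_of_nonneg_right _ hR0
      linarith) (Fi y n M) hq c M y (by
      intro x hx
      rw [hFi] at hx
      simp only [mem_filter, PaY] at hx
      obtain ⟨⟨_, h1, h2, _, _⟩, h3, h4, h5⟩ := hx
      exact ⟨h1, h2, h3, h4, h5⟩) hyv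
    refine h1.trans ?_
    rw [hE]
    have : 16 * (n : ℝ) * R * d * X / Y / q ≤ 16 * N * R * d * X / Y / q := by
      apply div_le_div_of_nonneg_right _ hqR.le
      apply div_le_div_of_nonneg_right _ hY.le
      apply mul_le_mul_of_nonneg_right _ hX.le
      apply mul_le_mul_of_nonneg_right _ hd0.le
      apply mul_le_mul_of_nonneg_right _ hR0
      linarith
    linarith
  have h1 : ((PaY d m r X Y N q c B).card : ℝ) ≤
      ∑ y ∈ B, ∑ n ∈ range (N + 1), ∑ M ∈ Ms d m n, ((Fi y n M).card : ℝ) := by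
    have : (PaY d m r X Y N q c B).card ≤
        ∑ y ∈ B, ∑ n ∈ range (N + 1), ∑ M ∈ Ms d m n, (Fi y n M).card := by
      refine (card_le_card hsub).trans ?_
      refine card_biUnion_le.trans (sum_le_sum fun y _ => ?_)
      refine card_biUnion_le.trans (sum_le_sum fun n _ => ?_)
      exact card_biUnion_le
    exact_mod_cast this
  refine h1.trans ?_
  have h2 : ∀ y ∈ B, ∑ n ∈ range (N + 1), ∑ M ∈ Ms d m n, ((Fi y n M).card : ℝ) ≤
      (N + 1) * ((N + 1) ^ d * E) := by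
    intro y hy
    have h3 : ∀ n ∈ range (N + 1), ∑ M ∈ Ms d m n, ((Fi y n M).card : ℝ) ≤ ((N : ℝ) + 1) ^ d * E := by
      intro n hn
      refine (sum_le_card_nsmul _ _ E (hfib y hy n hn)).trans ?_
      rw [nsmul_eq_mul]
      apply mul_le_mul_of_nonneg_right _ hE0
      have h4 : ((Ms d m n).card : ℝ) ≤ ((n : ℝ) + 1) ^ d := by exact_mod_cast card_Ms (d := d) (m := m) n
      refine h4.trans ?_
      rw [mem_range] at hn
      have hnN : (n : ℝ) ≤ N := by exact_mod_cast (by omega : n ≤ N)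
      exact pow_le_pow_left₀ (by positivity) (by linarith) d
    refine (sum_le_card_nsmul _ _ _ h3).trans ?_
    rw [card_range, nsmul_eq_mul]
    push_cast
    exact le_refl _
  refine (sum_le_card_nsmul _ _ _ h2).trans ?_
  rw [nsmul_eq_mul]

open Classical in
/-- the points whose orbit may get stuck above `d ^ l` -/
noncomputable def Bad (d : ℕ) (m r : ℕ → ℤ) (τ : ℝ) (k l q : ℕ) (c : ℤ) : Finset ℤ :=
  (Ioc l k).biUnion (fun i => Pa d m r k i (2 * (k * k)) q c (Sj d m r τ i))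

theorem card_Bad (h : Adm d m r) {R : ℝ} (hR : ∀ i < d, |(r i : ℝ)| ≤ R) (hR0 : 0 ≤ R) {τ A K : ℝ}
    (hA : 0 ≤ A) (hK1 : 1 ≤ K) (hKd : K < d)
    (hSt : ∀ i : ℕ, 1 ≤ i → ((Sj d m r τ i).card : ℝ) ≤ A * K ^ i)
    {k l q : ℕ} (hq : 0 < q) (c : ℤ) (hk1 : 1 ≤ k)
    (hl : 4 * (2 * (k * k)) * R ≤ (d : ℝ) ^ l) :
    ((Bad d m r τ k l q c).card : ℝ) ≤ k * (A * ((2 * (k * k) + 1) ^ (d + 1) *
      (8 * (2 * (k * k)) * R * d * ((d : ℝ) ^ k * (K / d) ^ l) / q + (d : ℝ) ^ k * (K / d) ^ k))) := by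
  classical
  have hqR : (0 : ℝ) < q := by exact_mod_cast hq
  have hd1 : (1 : ℝ) ≤ d := by exact_mod_cast (by have := h.two_le; omega : 1 ≤ d)
  have hd0 : (0 : ℝ) < d := by linarith
  have hkR : (1 : ℝ) ≤ k := by exact_mod_cast hk1
  have hK0 : 0 < K := by linarith
  have hκ1 : K / d ≤ 1 := by rw [div_le_one hd0]; exact hKd.le
  have hκ0 : 0 ≤ K / d := by positivity
  have h1 : ((Bad d m r τ k l q c).card : ℝ) ≤
      ∑ i ∈ Ioc l k, ((Pa d m r k i (2 * (k * k)) q c (Sj d m r τ i)).card : ℝ) := by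
    unfold Bad
    exact_mod_cast card_biUnion_le
  set W : ℝ := A * ((2 * (k * k) + 1) ^ (d + 1) *
      (8 * (2 * (k * k)) * R * d * ((d : ℝ) ^ k * (K / d) ^ l) / q + (d : ℝ) ^ k * (K / d) ^ k)) with hW
  have hW0 : 0 ≤ W := by positivity
  have h2 : ∀ i ∈ Ioc l k, ((Pa d m r k i (2 * (k * k)) q c (Sj d m r τ i)).card : ℝ) ≤ W := by
    intro i hi
    rw [mem_Ioc] at hi
    have a1 := card_Pa h hR hR0 (k := k) (i := i) (N := 2 * (k * k)) (q := q) (by omega) hi.2 (by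
      push_cast
      exact hl.trans (pow_le_pow_right₀ hd1 hi.1.le)) hq c (Sj d m r τ i) (by
      intro y hy
      unfold Sj at hy
      rw [mem_filter] at hy
      have := hy.2.2 0 (Nat.zero_le _)
      simpa using this)
    have a2 := hSt i (by omega)
    refine a1.trans ?_
    push_cast
    have a4 : K ^ i ≤ K ^ k := pow_le_pow_right₀ hK1 hi.2
    have a5 : K ^ i * (d : ℝ) ^ (k - i + 1) ≤ d * ((d : ℝ) ^ k * (K / d) ^ l) := by
      have e1 : K ^ i = (d : ℝ) ^ i * (K / d) ^ i := by rw [← mul_pow]; congr 1; field_simp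
      have e2 : (K / d) ^ i ≤ (K / d) ^ l := pow_le_pow_of_le_one hκ0 hκ1 hi.1.le
      have e3 : (d : ℝ) ^ i * (d : ℝ) ^ (k - i + 1) = d * (d : ℝ) ^ k := by
        rw [← pow_add, ← pow_succ']; congr 1; omega
      calc K ^ i * (d : ℝ) ^ (k - i + 1) = ((d : ℝ) ^ i * (d : ℝ) ^ (k - i + 1)) * (K / d) ^ i := by
            rw [e1]; ring
        _ ≤ ((d : ℝ) ^ i * (d : ℝ) ^ (k - i + 1)) * (K / d) ^ l :=
            mul_le_mul_of_nonneg_left e2 (by positivity)
        _ = _ := by rw [e3]; ring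
    have a6 : K ^ k = (d : ℝ) ^ k * (K / d) ^ k := by rw [← mul_pow]; congr 1; field_simp
    have a7 : (Sj d m r τ i).card * (8 * (2 * ((k : ℝ) * k)) * R * (d : ℝ) ^ (k - i + 1) / q + 1) ≤
        A * (8 * (2 * (k * k)) * R * d * ((d : ℝ) ^ k * (K / d) ^ l) / q +
          (d : ℝ) ^ k * (K / d) ^ k) := by
      refine (mul_le_mul_of_nonneg_right a2 (by positivity)).trans ?_
      rw [mul_assoc A]
      apply mul_le_mul_of_nonneg_left _ hA
      rw [mul_add, mul_one]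
      apply add_le_add
      · calc K ^ i * (8 * (2 * ((k : ℝ) * k)) * R * (d : ℝ) ^ (k - i + 1) / q)
            = 8 * (2 * ((k : ℝ) * k)) * R * (K ^ i * (d : ℝ) ^ (k - i + 1)) / q := by ring
          _ ≤ 8 * (2 * ((k : ℝ) * k)) * R * (d * ((d : ℝ) ^ k * (K / d) ^ l)) / q := by
              apply div_le_div_of_nonneg_right _ hqR.le
              exact mul_le_mul_of_nonneg_left a5 (by positivity)
          _ = _ := by ring
      · rw [← a6]; exact a4
    calc ((Sj d m r τ i).card : ℝ) * ((2 * (k * k) + 1) * ((2 * (k * k) + 1) ^ d *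
          (8 * (2 * (k * k)) * R * (d : ℝ) ^ (k - i + 1) / q + 1)))
        = (2 * (k * k) + 1) ^ (d + 1) * ((Sj d m r τ i).card *
          (8 * (2 * (k * k)) * R * (d : ℝ) ^ (k - i + 1) / q + 1)) := by ring
      _ ≤ (2 * (k * k) + 1) ^ (d + 1) * (A *
          (8 * (2 * (k * k)) * R * d * ((d : ℝ) ^ k * (K / d) ^ l) / q + (d : ℝ) ^ k * (K / d) ^ k)) :=
          mul_le_mul_of_nonneg_left a7 (by positivity)
      _ = W := by rw [hW]; ring
  calc ((Bad d m r τ k l q c).card : ℝ)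
      ≤ ∑ i ∈ Ioc l k, ((Pa d m r k i (2 * (k * k)) q c (Sj d m r τ i)).card : ℝ) := h1
    _ ≤ (Ioc l k).card • W := sum_le_card_nsmul _ _ _ h2
    _ = ((k - l : ℕ) : ℝ) * W := by rw [Nat.card_Ioc, nsmul_eq_mul]
    _ ≤ k * W := by
        apply mul_le_mul_of_nonneg_right _ hW0
        exact_mod_cast Nat.sub_le _ _

open Classical in
/-- the two kinds of points with a prescribed first passage -/
theorem sub_first (h : Adm d m r) {τ : ℝ} (hτ : τ ≤ 1) {k l q : ℕ} {c : ℤ} (hlk : l ≤ k) {Y : ℝ}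
    (hlY : (d : ℝ) ^ l ≤ Y) {E : Set ℤ} {EF : Finset ℤ} (hE : ∀ y ∈ E, |(y : ℝ)| < Y → y ∈ EF)
    (S : Finset ℤ) (hS : ∀ x ∈ S, |(x : ℝ)| < (d : ℝ) ^ k ∧ (q : ℤ) ∣ x - c ∧ x ∈ SE d m r Y E) :
    S ⊆ PaY d m r ((d : ℝ) ^ k) Y (2 * (k * k)) q c EF ∪ Bad d m r τ k l q c := by
  intro x hx
  obtain ⟨h1, h2, hYx, n0, hf0, hE0⟩ := hS x hx
  rw [mem_union]
  by_cases hbad : x ∈ Bad d m r τ k l q c
  · exact Or.inr hbad
  left
  obtain ⟨n, hn, hfp⟩ := descend' h hτ (k := k) (l := l) h1 (by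
    intro i hi hik n hn hfp hst
    apply hbad
    unfold Bad
    rw [mem_biUnion]
    refine ⟨i, mem_Ioc.2 ⟨hi, hik⟩, ?_⟩
    unfold Pa
    rw [mem_filter]
    exact ⟨mem_Icc_of_abs h1, h1, h2, n, hn, hfp, hst⟩) (k - l) (by omega)
  have e : k - (k - l) = l := by omega
  rw [e] at hfp
  have hn2 : n ≤ 2 * (k * k) := by
    refine hn.trans ?_
    calc (k - l) * (2 * k) ≤ k * (2 * k) := Nat.mul_le_mul_right _ (by omega)
      _ = 2 * (k * k) := by ring
  have hn0 : n0 ≤ n := by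
    by_contra hcon
    push Not at hcon
    have := hf0.1 n hcon
    have := hfp.2
    linarith
  unfold PaY
  rw [mem_filter]
  exact ⟨mem_Ioo_of_abs h1, h1, h2, hYx, n0, hn0.trans hn2, hf0, hE _ hE0 hf0.2⟩

/-- the constant -/
noncomputable def Cst2 (d : ℕ) (R : ℝ) : ℝ := 51 ^ (d + 1) * (1600 * R * d * d + 1)

/-- the density bound at the starting scales -/
theorem pb_first (h : Adm d m r) {R : ℝ} (hR : ∀ i < d, |(r i : ℝ)| ≤ R) (hR0 : 0 ≤ R) {τ A η : ℝ}
    (hA : 0 ≤ A) (hτ : τ ≤ 1) (hη0 : 0 ≤ η) (hη1 : η < 1)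
    (hSt : ∀ i : ℕ, 1 ≤ i → ((Sj d m r τ i).card : ℝ) ≤ A * ((d : ℝ) ^ η) ^ i)
    {y t₁ a : ℝ} (hy : 1 ≤ y) (ht₁ : 1 ≤ t₁) (ha : 0 < a) (hya : y ≤ 2 * a) (hat : Real.log a ≤ t₁)
    (hyt : 200 * t₁ ^ 2 * R * d ≤ y) {Q : ℕ} (hQ0 : 0 < Q) (hQ : (Q : ℝ) ≤ (2 * a / y) ^ (1 - η))
    {E : Set ℤ} {EF : Finset ℤ} (hE : ∀ x ∈ E, |(x : ℝ)| < y → x ∈ EF) :
    PB (SE d m r y E) a Q (Cst2 d R * t₁ ^ (2 * d + 4) * (EF.card / y)
      + Cst' d R A * t₁ ^ (2 * d + 5) * y ^ (-(1 - η))) := by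
  classical
  have hy0 : 0 < y := by linarith
  have hd2 := h.two_le
  have hdR : (2 : ℝ) ≤ d := by exact_mod_cast hd2
  have hd0 : (0 : ℝ) < d := by linarith
  have hQR : (0 : ℝ) < Q := by exact_mod_cast hQ0
  have hl2 := Real.log_two_gt_d9
  have hl2' := Real.log_two_lt_d9
  have hη' : 0 < 1 - η := by linarith
  intro c
  obtain ⟨l, hl1, hl3⟩ := exists_pow hd2 hy
  obtain ⟨k0, hk1, hk3⟩ := exists_pow hd2 (y := 2 * a) (by linarith)
  set k := k0 + 1 with hk
  have hkA : (d : ℝ) ^ k ≤ 2 * a * d := by rw [hk, pow_succ]; nlinarith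
  have hkA2 : 2 * a < (d : ℝ) ^ k := by rw [hk, pow_succ]; linarith
  have hlk : l < k := by
    have : (d : ℝ) ^ l < (d : ℝ) ^ k := by linarith
    exact (pow_lt_pow_iff_right₀ (by linarith)).1 this
  have hlogd : 1 / 2 ≤ Real.log d := by
    have := Real.log_le_log (by norm_num) hdR
    linarith
  have hkt : (k : ℝ) ≤ 5 * t₁ := by
    have h1 : (k0 : ℝ) * Real.log d ≤ Real.log (2 * a) := by
      rw [← Real.log_pow]
      exact Real.log_le_log (by positivity) hk1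
    rw [Real.log_mul (by norm_num) ha.ne'] at h1
    have h2 : (k0 : ℝ) * (1 / 2) ≤ k0 * Real.log d := mul_le_mul_of_nonneg_left hlogd (Nat.cast_nonneg _)
    rw [hk]; push_cast
    linarith
  have hkR : (1 : ℝ) ≤ k := by
    have : 1 ≤ k := by omega
    exact_mod_cast this
  have hk2 : (k : ℝ) * k ≤ 25 * t₁ ^ 2 := by nlinarith
  -- finset of the window
  set W : Set ℤ := {x : ℤ | x ∈ SE d m r y E ∧ a ≤ |(x : ℝ)| ∧ |(x : ℝ)| < 2 * a ∧ (Q : ℤ) ∣ x - c} with hW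
  have hWfin : W.Finite := by
    apply (I1_window_finite (SE d m r y E) (2 * a)).subset
    rintro x ⟨h1, -, h3, -⟩
    exact ⟨h1, h3⟩
  have hwc : wc (SE d m r y E) a Q c = (hWfin.toFinset.card : ℝ) := by
    unfold wc
    rw [← Set.ncard_eq_toFinset_card W hWfin]
  rw [hwc]
  set K : ℝ := (d : ℝ) ^ η with hK
  have hK1 : 1 ≤ K := Real.one_le_rpow (by linarith) hη0
  have hKd : K < d := by
    calc K = (d : ℝ) ^ η := rfl
      _ < (d : ℝ) ^ (1 : ℝ) := Real.rpow_lt_rpow_of_exponent_lt (by linarith) hη1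
      _ = d := Real.rpow_one _
  have hκ : K / d = (d : ℝ) ^ (-(1 - η)) := by
    rw [hK, show -(1 - η) = η - 1 by ring, Real.rpow_sub hd0, Real.rpow_one]
  have hκ0 : 0 < K / d := by positivity
  have hsub := sub_first h hτ (k := k) (l := l) (q := Q) (c := c) hlk.le (Y := y) hl1 hE hWfin.toFinset (by
      intro x hx
      rw [Set.Finite.mem_toFinset] at hx
      obtain ⟨h1, h2, h3, h4⟩ := hx
      exact ⟨by linarith, h4, h1⟩)
  have hcard : (hWfin.toFinset.card : ℝ) ≤ ((PaY d m r ((d : ℝ) ^ k) y (2 * (k * k)) Q c EF).card : ℝ)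
      + ((Bad d m r τ k l Q c).card : ℝ) := by
    have := (card_le_card hsub).trans (card_union_le _ _)
    exact_mod_cast this
  have hl2k : 4 * (2 * ((k : ℝ) * k)) * R ≤ (d : ℝ) ^ l := by
    have h1 : 4 * (2 * ((k : ℝ) * k)) * R * d ≤ (d : ℝ) ^ l * d := by
      have h2 : 4 * (2 * ((k : ℝ) * k)) * R * d ≤ 200 * t₁ ^ 2 * R * d := by
        apply mul_le_mul_of_nonneg_right _ hd0.le
        apply mul_le_mul_of_nonneg_right _ hR0
        linarith
      linarith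
    exact le_of_mul_le_mul_right h1 hd0
  have hbadc := card_Bad h hR hR0 (τ := τ) hA hK1 hKd hSt (k := k) (l := l) (q := Q) hQ0 c (by omega) hl2k
  have hpac := card_PaY h hR hR0 (X := (d : ℝ) ^ k) (Y := y) hy0 (by positivity) (by
      have h3 : 2 * R ≤ 4 * (2 * ((k : ℝ) * k)) * R := by
        apply mul_le_mul_of_nonneg_right _ hR0
        nlinarith
      linarith) (N := 2 * (k * k)) (q := Q) (by push_cast; linarith) hQ0 c EF
  refine hcard.trans ?_
  have hsplit : (Cst2 d R * t₁ ^ (2 * d + 4) * (EF.card / y)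
      + Cst' d R A * t₁ ^ (2 * d + 5) * y ^ (-(1 - η))) * (2 * a) / Q =
      Cst2 d R * t₁ ^ (2 * d + 4) * (EF.card / y) * (2 * a) / Q
      + Cst' d R A * t₁ ^ (2 * d + 5) * y ^ (-(1 - η)) * (2 * a) / Q := by
    rw [← add_div, ← add_mul]
  rw [hsplit]
  have e5 : 1 ≤ t₁ ^ 2 := by nlinarith
  have h2 : (2 * ((k : ℝ) * k) + 1) ^ (d + 1) ≤ (51 * t₁ ^ 2) ^ (d + 1) := by
    apply pow_le_pow_left₀ (by positivity)
    linarith
  apply add_le_add
  · -- the points with a fast first passage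
    refine hpac.trans ?_
    push_cast
    have hQy : (Q : ℝ) ≤ 2 * a / y := by
      refine hQ.trans ?_
      have h1 : 1 ≤ 2 * a / y := by rw [le_div_iff₀ hy0]; linarith
      calc (2 * a / y) ^ (1 - η) ≤ (2 * a / y) ^ (1 : ℝ) :=
            Real.rpow_le_rpow_of_exponent_le h1 (by linarith)
        _ = _ := Real.rpow_one _
    have hone : (1 : ℝ) ≤ 2 * a / y / Q := by
      rw [le_div_iff₀ hQR]; linarith
    have hfac : 16 * (2 * ((k : ℝ) * k)) * R * d * (d : ℝ) ^ k / y / Q + 1 ≤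
        (1600 * R * d * d + 1) * t₁ ^ 2 * (2 * a / y / Q) := by
      have e1 : 16 * (2 * ((k : ℝ) * k)) * R * d * (d : ℝ) ^ k / y / Q ≤
          1600 * R * d * d * t₁ ^ 2 * (2 * a / y / Q) := by
        have e2 : 16 * (2 * ((k : ℝ) * k)) * R * d * (d : ℝ) ^ k ≤
            16 * (2 * (25 * t₁ ^ 2)) * R * d * (2 * a * d) := by
          apply mul_le_mul _ hkA (by positivity) (by positivity)
          apply mul_le_mul_of_nonneg_right _ hd0.le
          apply mul_le_mul_of_nonneg_right _ hR0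
          linarith
        calc 16 * (2 * ((k : ℝ) * k)) * R * d * (d : ℝ) ^ k / y / Q
            ≤ 16 * (2 * (25 * t₁ ^ 2)) * R * d * (2 * a * d) / y / Q := by
              apply div_le_div_of_nonneg_right _ hQR.le
              exact div_le_div_of_nonneg_right e2 hy0.le
          _ = 800 * R * d * d * t₁ ^ 2 * (2 * a / y / Q) := by ring
          _ ≤ 1600 * R * d * d * t₁ ^ 2 * (2 * a / y / Q) := by
              apply mul_le_mul_of_nonneg_right _ (by positivity)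
              apply mul_le_mul_of_nonneg_right _ (by positivity)
              apply mul_le_mul_of_nonneg_right _ hd0.le
              apply mul_le_mul_of_nonneg_right _ hd0.le
              apply mul_le_mul_of_nonneg_right _ hR0
              norm_num
      have e3 : (1 : ℝ) ≤ t₁ ^ 2 * (2 * a / y / Q) := one_le_mul_of_one_le_of_one_le e5 hone
      have e4 : (1600 * R * d * d + 1) * t₁ ^ 2 * (2 * a / y / Q) =
          1600 * R * d * d * t₁ ^ 2 * (2 * a / y / Q) + t₁ ^ 2 * (2 * a / y / Q) := by ring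
      rw [e4]
      linarith
    calc (EF.card : ℝ) * ((2 * ((k : ℝ) * k) + 1) * ((2 * ((k : ℝ) * k) + 1) ^ d *
        (16 * (2 * ((k : ℝ) * k)) * R * d * (d : ℝ) ^ k / y / Q + 1)))
        = (EF.card : ℝ) * ((2 * ((k : ℝ) * k) + 1) ^ (d + 1) *
        (16 * (2 * ((k : ℝ) * k)) * R * d * (d : ℝ) ^ k / y / Q + 1)) := by ring
      _ ≤ (EF.card : ℝ) * ((51 * t₁ ^ 2) ^ (d + 1) *
        ((1600 * R * d * d + 1) * t₁ ^ 2 * (2 * a / y / Q))) := by
          apply mul_le_mul_of_nonneg_left _ (Nat.cast_nonneg _)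
          exact mul_le_mul h2 hfac (by positivity) (by positivity)
      _ = _ := by
          unfold Cst2
          rw [mul_pow, ← pow_mul]
          have e : t₁ ^ (2 * d + 4) = t₁ ^ (2 * (d + 1)) * t₁ ^ 2 := by rw [← pow_add]; congr 1
          rw [e]
          ring
  · refine hbadc.trans ?_
    -- `κ^k ≤ κ^l / Q`
    have hpk : ∀ n : ℕ, (K / d) ^ n = ((d : ℝ) ^ n) ^ (-(1 - η)) := by
      intro n
      rw [hκ, ← Real.rpow_natCast, ← Real.rpow_natCast (d : ℝ) n, ← Real.rpow_mul hd0.le,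
        ← Real.rpow_mul hd0.le, mul_comm]
    have hkl : (K / d) ^ k ≤ (K / d) ^ l / Q := by
      rw [le_div_iff₀ hQR]
      have h1 : (K / d) ^ k ≤ (K / d) ^ l * (2 * a / y) ^ (-(1 - η)) := by
        rw [hpk, hpk, ← Real.mul_rpow (by positivity) (by positivity)]
        apply Real.rpow_le_rpow_of_nonpos (by positivity) _ (by linarith)
        calc (d : ℝ) ^ l * (2 * a / y) ≤ y * (2 * a / y) :=
              mul_le_mul_of_nonneg_right hl1 (by positivity)
          _ = 2 * a := by field_simp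
          _ ≤ _ := hkA2.le
      have h2 : (2 * a / y) ^ (-(1 - η)) * (2 * a / y) ^ (1 - η) = 1 := by
        rw [← Real.rpow_add (by positivity), neg_add_cancel, Real.rpow_zero]
      calc (K / d) ^ k * Q ≤ ((K / d) ^ l * (2 * a / y) ^ (-(1 - η))) * (2 * a / y) ^ (1 - η) :=
            mul_le_mul h1 hQ hQR.le (by positivity)
        _ = (K / d) ^ l * ((2 * a / y) ^ (-(1 - η)) * (2 * a / y) ^ (1 - η)) := by ring
        _ = _ := by rw [h2, mul_one]
    have hly : (K / d) ^ l ≤ d * y ^ (-(1 - η)) := by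
      rw [hpk]
      have h1 : y / d ≤ (d : ℝ) ^ l := by rw [div_le_iff₀ hd0]; linarith
      have h2 : ((d : ℝ) ^ l) ^ (-(1 - η)) ≤ (y / d) ^ (-(1 - η)) :=
        Real.rpow_le_rpow_of_nonpos (by positivity) h1 (by linarith)
      refine h2.trans ?_
      rw [Real.div_rpow hy0.le hd0.le, div_eq_mul_inv, mul_comm]
      apply mul_le_mul_of_nonneg_right _ (Real.rpow_nonneg hy0.le _)
      rw [← Real.rpow_neg hd0.le, neg_neg]
      calc (d : ℝ) ^ (1 - η) ≤ (d : ℝ) ^ (1 : ℝ) :=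
            Real.rpow_le_rpow_of_exponent_le (by linarith) (by linarith)
        _ = d := Real.rpow_one _
    set V : ℝ := (K / d) ^ l / Q with hV
    have hV0 : 0 < V := by positivity
    have h1 : 8 * (2 * ((k : ℝ) * k)) * R * d * ((d : ℝ) ^ k * (K / d) ^ l) / Q + (d : ℝ) ^ k * (K / d) ^ k ≤
        (400 * R * d + 1) * t₁ ^ 2 * (2 * a * d) * V := by
      have e1 : 8 * (2 * ((k : ℝ) * k)) * R * d * ((d : ℝ) ^ k * (K / d) ^ l) / Q =
          8 * (2 * ((k : ℝ) * k)) * R * d * (d : ℝ) ^ k * V := by rw [hV]; ring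
      rw [e1]
      have e2 : (d : ℝ) ^ k * (K / d) ^ k ≤ (d : ℝ) ^ k * V :=
        mul_le_mul_of_nonneg_left hkl (by positivity)
      have e3 : 8 * (2 * ((k : ℝ) * k)) * R * d + 1 ≤ (400 * R * d + 1) * t₁ ^ 2 := by
        have e4 : 8 * (2 * ((k : ℝ) * k)) * R * d ≤ 8 * (2 * (25 * t₁ ^ 2)) * R * d := by
          apply mul_le_mul_of_nonneg_right _ hd0.le
          apply mul_le_mul_of_nonneg_right _ hR0
          linarith
        nlinarith
      calc 8 * (2 * ((k : ℝ) * k)) * R * d * (d : ℝ) ^ k * V + (d : ℝ) ^ k * (K / d) ^ k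
          ≤ 8 * (2 * ((k : ℝ) * k)) * R * d * (d : ℝ) ^ k * V + (d : ℝ) ^ k * V := by linarith
        _ = (8 * (2 * ((k : ℝ) * k)) * R * d + 1) * (d : ℝ) ^ k * V := by ring
        _ ≤ ((400 * R * d + 1) * t₁ ^ 2) * (2 * a * d) * V := by
            apply mul_le_mul_of_nonneg_right _ hV0.le
            exact mul_le_mul e3 hkA (by positivity) (by positivity)
    calc (k : ℝ) * (A * ((2 * ((k : ℝ) * k) + 1) ^ (d + 1) *
        (8 * (2 * ((k : ℝ) * k)) * R * d * ((d : ℝ) ^ k * (K / d) ^ l) / Q + (d : ℝ) ^ k * (K / d) ^ k)))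
        ≤ (5 * t₁) * (A * ((51 * t₁ ^ 2) ^ (d + 1) *
          ((400 * R * d + 1) * t₁ ^ 2 * (2 * a * d) * V))) := by
          apply mul_le_mul hkt _ (by positivity) (by positivity)
          apply mul_le_mul_of_nonneg_left _ (by positivity)
          exact mul_le_mul h2 h1 (by positivity) (by positivity)
      _ = (A * d * (5 * 51 ^ (d + 1) * (400 * R * d + 1))) * t₁ ^ (2 * d + 5) *
          (K / d) ^ l * (2 * a) / Q := by
          rw [hV, mul_pow, ← pow_mul]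
          have e : t₁ ^ (2 * d + 5) = t₁ * t₁ ^ (2 * (d + 1)) * t₁ ^ 2 := by
            rw [← pow_succ', ← pow_add]; congr 1
          rw [e]
          ring
      _ ≤ (A * d * (5 * 51 ^ (d + 1) * (400 * R * d + 1))) * t₁ ^ (2 * d + 5) *
          (d * y ^ (-(1 - η))) * (2 * a) / Q := by
          apply div_le_div_of_nonneg_right _ hQR.le
          apply mul_le_mul_of_nonneg_right _ (by positivity)
          exact mul_le_mul_of_nonneg_left hly (by positivity)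
      _ = Cst' d R A * t₁ ^ (2 * d + 5) * y ^ (-(1 - η)) * (2 * a) / Q := by
          unfold Cst'; ring

end Pool.Agent.U457.PS
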