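import Pool.Agent.U457.PS.Mom
import Pool.Agent.H499R2.NDHt

/-! Visits of the trajectories of the map `C` on the odd numbers: first moments. -/

set_option autoImplicit false

namespace Pool.Agent.U457.PS

open Finset Filter Topology
open Pool.Agent.H499R2.CO (Tz)
open Pool.Agent.H363R2 (Cm)
open Pool.Agent.H499R2.ND (IsHt ht_unique)

/-- the exponent of 2 -/
def ex2 (q : ℕ) : ℕ := padicValNat 2 (3 * q + 1)

theorem TN_two_mul (a : ℕ) : TN (2 * a) = a := by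
  unfold TN; rw [if_pos (by omega)]; omega

theorem Cm_step {q : ℕ} (hq : Odd q) : 1 ≤ ex2 q ∧ Odd (Cm q) ∧
    ∀ j, 1 ≤ j → j ≤ ex2 q → TN^[j] q = 2 ^ (ex2 q - j) * Cm q := by
  obtain ⟨e, r, hr, he⟩ := Nat.exists_eq_two_pow_mul_odd (n := 3 * q + 1) (by omega)
  have hv : padicValNat 2 (3 * q + 1) = e := by
    rw [he, padicValNat.mul (by positivity) (by rintro rfl; simp at hr), padicValNat.prime_pow,
      padicValNat.eq_zero_of_not_dvd (by rw [← even_iff_two_dvd, Nat.not_even_iff_odd]; exact hr)]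
    rfl
  have hC : Cm q = r := by
    unfold Cm
    rw [hv]
    conv_lhs => rw [he]
    exact Nat.mul_div_cancel_left _ (by positivity)
  have hq2 : q % 2 = 1 := Nat.odd_iff.1 hq
  have hr2 : r % 2 = 1 := Nat.odd_iff.1 hr
  have he1 : 1 ≤ e := by
    by_contra h0
    have h0 : e = 0 := by omega
    rw [h0, pow_zero, one_mul] at he
    omega
  have hex : ex2 q = e := hv
  rw [hex, hC]
  refine ⟨he1, hr, ?_⟩
  intro j hj1
  induction j, hj1 using Nat.le_induction with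
  | base =>
    intro _
    obtain ⟨f, rfl⟩ := Nat.exists_eq_add_of_le he1
    rw [Function.iterate_one]
    unfold TN
    rw [if_neg (by omega), Nat.add_sub_cancel_left]
    have h2 : 2 ^ (1 + f) * r = 2 * (2 ^ f * r) := by ring
    omega
  | succ j hj ih =>
    intro hj2
    rw [Function.iterate_succ_apply', ih (by omega)]
    have h3 : e - j = (e - (j + 1)) + 1 := by omega
    rw [h3, pow_succ, show 2 ^ (e - (j + 1)) * 2 * r = 2 * (2 ^ (e - (j + 1)) * r) by ring, TN_two_mul]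

/-- the times of the odd terms -/
def tau (m : ℕ) : ℕ → ℕ
  | 0 => 0
  | k + 1 => tau m k + ex2 (Cm^[k] m)

theorem tau_spec {m : ℕ} (hm : Odd m) (k : ℕ) : Odd (Cm^[k] m) ∧ TN^[tau m k] m = Cm^[k] m := by
  induction k with
  | zero => exact ⟨hm, rfl⟩
  | succ k ih =>
    obtain ⟨h1, h2⟩ := ih
    obtain ⟨h3, h4, h5⟩ := Cm_step h1
    rw [Function.iterate_succ_apply']
    refine ⟨h4, ?_⟩
    rw [tau, Nat.add_comm, Function.iterate_add_apply, h2, h5 _ h3 le_rfl, Nat.sub_self, pow_zero, one_mul]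

theorem tau_lt {m : ℕ} (hm : Odd m) (k : ℕ) : tau m k < tau m (k + 1) := by
  rw [tau]
  have := (Cm_step (tau_spec hm k).1).1
  omega

theorem tau_mono {m : ℕ} (hm : Odd m) : StrictMono (tau m) := strictMono_nat_of_lt_succ (tau_lt hm)

/-- the first odd term at or after a time is at most the term at this time -/
theorem first_odd {m : ℕ} (hm : Odd m) (s : ℕ) : ∃ k, s ≤ tau m k ∧ (∀ k' < k, tau m k' < s) ∧
    Cm^[k] m ≤ TN^[s] m := by
  classical
  have hex : ∃ k, s ≤ tau m k := ⟨s, (tau_mono hm).id_le s⟩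
  refine ⟨Nat.find hex, Nat.find_spec hex, fun k' hk' => not_le.1 (Nat.find_min hex hk'), ?_⟩
  have h1 := Nat.find_spec hex
  have h2 : ∀ k' < Nat.find hex, tau m k' < s := fun k' hk' => not_le.1 (Nat.find_min hex hk')
  set k := Nat.find hex with hk
  rcases Nat.eq_zero_or_pos k with h0 | hpos
  · rw [h0] at h1 ⊢
    have : s = 0 := by
      rw [tau] at h1; omega
    rw [this]
    exact le_rfl
  · obtain ⟨k', hk'⟩ : ∃ k', k = k' + 1 := ⟨k - 1, by omega⟩
    rw [hk'] at h1 ⊢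
    have h3 := h2 k' (by omega)
    rw [tau] at h1
    obtain ⟨h4, h5, h6⟩ := Cm_step (tau_spec hm k').1
    have h7 := h6 (s - tau m k') (by omega) (by omega)
    have h8 : TN^[s] m = TN^[s - tau m k'] (Cm^[k'] m) := by
      rw [← (tau_spec hm k').2, ← Function.iterate_add_apply, Nat.sub_add_cancel h3.le]
    rw [h8, h7, Function.iterate_succ_apply']
    exact Nat.le_mul_of_pos_left _ (by positivity)

theorem exists_G (M : ℕ) : ∃ G : ℕ, ∀ m < M, ∀ h, IsHt m h → h ≤ G := by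
  induction M with
  | zero => exact ⟨0, fun m hm => absurd hm (Nat.not_lt_zero m)⟩
  | succ M ih =>
    obtain ⟨F, hF⟩ := ih
    by_cases h : ∃ t, IsHt M t
    · obtain ⟨t₀, ht₀⟩ := h
      refine ⟨max F t₀, fun m hm t ht => ?_⟩
      rcases Nat.lt_succ_iff_lt_or_eq.1 hm with h1 | h1
      · exact (hF m h1 t ht).trans (le_max_left _ _)
      · rw [h1] at ht
        rw [ht_unique ht ht₀]
        exact le_max_right _ _
    · refine ⟨F, fun m hm t ht => ?_⟩
      rcases Nat.lt_succ_iff_lt_or_eq.1 hm with h1 | h1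
      · exact hF m h1 t ht
      · rw [h1] at ht
        exact absurd ⟨t, ht⟩ h

open scoped Classical in
/-- the visits of the trajectory of `m` under `C` to `E` at times `< min h L` -/
noncomputable def vC (E : Set ℕ) (m h L : ℕ) : ℕ :=
  ((range (min h L)).filter (fun k => Cm^[k] m ∈ E)).card

theorem vC_le (E : Set ℕ) (m h L : ℕ) : vC E m h L ≤ L := by
  classical
  unfold vC
  refine (card_filter_le _ _).trans ?_
  rw [card_range]
  exact min_le_right _ _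

/-- few visits off the exceptional set -/
theorem vC_pr (i₀ : ℕ) : ∃ G : ℕ, ∀ (E : Set ℕ) (m h L I : ℕ), Odd m → IsHt m h → m < 2 ^ (I + 1) →
    (m : ℤ) ∉ BZ 1 i₀ I → vC E m h L ≤ pr 1 (toZ E) i₀ I m + G := by
  classical
  obtain ⟨G, hG⟩ := exists_G (2 ^ i₀)
  refine ⟨G, ?_⟩
  intro E m h L I hm hh hmI hb
  have hm1 : 1 ≤ m := hm.pos
  set K := (range (min h L)).filter (fun k => Cm^[k] m ∈ E) with hK
  set K1 := K.filter (fun k => ∀ i ≤ tau m k, 2 ^ i₀ ≤ TN^[i] m) with hK1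
  set K2 := (range h).filter (fun k => ∃ i ≤ tau m k, TN^[i] m < 2 ^ i₀) with hK2
  have hsub : K ⊆ K1 ∪ K2 := by
    intro k hk
    have hk' := hk
    rw [hK, mem_filter, mem_range] at hk'
    rw [mem_union]
    by_cases hc : ∀ i ≤ tau m k, 2 ^ i₀ ≤ TN^[i] m
    · left
      rw [hK1, mem_filter]
      exact ⟨hk, hc⟩
    · right
      push Not at hc
      rw [hK2, mem_filter, mem_range]
      exact ⟨lt_of_lt_of_le hk'.1 (min_le_left _ _), hc⟩
  have c1 : K1.card ≤ pr 1 (toZ E) i₀ I m := by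
    have e1 : (K1.image (tau m)).card = K1.card := card_image_of_injective _ (tau_mono hm).injective
    rw [← e1]
    apply visits_le (by rw [Int.cast_natCast, abs_of_nonneg (Nat.cast_nonneg _)]; exact_mod_cast hmI) hb
    intro j hj
    rw [mem_image] at hj
    obtain ⟨k, hk, rfl⟩ := hj
    rw [hK1, mem_filter, hK, mem_filter] at hk
    refine ⟨?_, ?_⟩
    · intro j' hj'
      rw [TN_iter, Int.cast_natCast, abs_of_nonneg (Nat.cast_nonneg _)]
      exact_mod_cast hk.2 j' hj'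
    · rw [TN_iter, mem_toZ (TN_pos hm1 _), (tau_spec hm k).2]
      exact hk.1.2
  have c2 : K2.card ≤ G := by
    rcases K2.eq_empty_or_nonempty with h0 | ⟨k₀, hk₀⟩
    · rw [h0, card_empty]; exact Nat.zero_le _
    · rw [hK2, mem_filter, mem_range] at hk₀
      obtain ⟨hk₀h, i, hi1, hi2⟩ := hk₀
      have hex : ∃ i, TN^[i] m < 2 ^ i₀ := ⟨i, hi2⟩
      set s := Nat.find hex with hs
      have hs1 : TN^[s] m < 2 ^ i₀ := Nat.find_spec hex
      have hs2 : ∀ i, TN^[i] m < 2 ^ i₀ → s ≤ i := fun i hi => Nat.find_min' hex hi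
      obtain ⟨k₁, g1, g2, g3⟩ := first_odd hm s
      have hk₁ : k₁ ≤ k₀ := by
        by_contra hcon
        push Not at hcon
        have := g2 k₀ hcon
        have := hs2 i hi2
        omega
      have hht : IsHt (Cm^[k₁] m) (h - k₁) := by
        refine ⟨by omega, ?_, ?_⟩
        · rw [← Function.iterate_add_apply, Nat.sub_add_cancel (by omega)]; exact hh.2.1
        · intro k hk1 hk2
          rw [← Function.iterate_add_apply]
          exact hh.2.2 _ (by omega) (by omega)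
      have h3 := hG _ (lt_of_le_of_lt g3 hs1) _ hht
      have hsub2 : K2 ⊆ Ico k₁ h := by
        intro k hk
        rw [hK2, mem_filter, mem_range] at hk
        obtain ⟨hkh, i', hi1', hi2'⟩ := hk
        rw [mem_Ico]
        refine ⟨?_, hkh⟩
        by_contra hcon
        push Not at hcon
        have := g2 k hcon
        have := hs2 i' hi2'
        omega
      have := card_le_card hsub2
      rw [Nat.card_Ico] at this
      omega
  have := (card_le_card hsub).trans (card_union_le _ _)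
  have hvc : vC E m h L = K.card := by
    unfold vC
    rw [hK]
  omega

/-- THE SUM OF THE VISITS -/
theorem vC_sum (E : Set ℕ) (i₀ G L I N : ℕ) (hG : ∀ (m h : ℕ), Odd m → IsHt m h → m < 2 ^ (I + 1) →
    (m : ℤ) ∉ BZ 1 i₀ I → vC E m h L ≤ pr 1 (toZ E) i₀ I m + G) (hN : N < 2 ^ (I + 1))
    (S : Finset ℕ) (f : ℕ → ℕ) (hS : ∀ m ∈ S, 1 ≤ m ∧ m ≤ N ∧ Odd m ∧ ∃ h, IsHt m h ∧ f m = vC E m h L) :
    (∑ m ∈ S, (f m : ℝ)) ≤ (∑ n ∈ ballZ N, (pr 1 (toZ E) i₀ I n : ℝ)) + G * N +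
      L * ({n : ℤ | |(n : ℝ)| ≤ (N : ℝ) ∧ n ∈ BZ 1 i₀ I}.ncard : ℝ) := by
  classical
  set Z : Finset ℕ := S.filter (fun m => (m : ℤ) ∈ BZ 1 i₀ I) with hZ
  have hterm : ∀ m ∈ S, (f m : ℝ) ≤ (pr 1 (toZ E) i₀ I m : ℝ) + G +
      (if (m : ℤ) ∈ BZ 1 i₀ I then (L : ℝ) else 0) := by
    intro m hm
    obtain ⟨h1, h2, h3, h, h4, h5⟩ := hS m hm
    rw [h5]
    by_cases hc : (m : ℤ) ∈ BZ 1 i₀ I
    · rw [if_pos hc]
      have : (vC E m h L : ℝ) ≤ L := by exact_mod_cast vC_le E m h L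
      have h6 : (0 : ℝ) ≤ (pr 1 (toZ E) i₀ I m : ℝ) := Nat.cast_nonneg _
      have h7 : (0 : ℝ) ≤ (G : ℝ) := Nat.cast_nonneg _
      linarith
    · rw [if_neg hc, add_zero]
      exact_mod_cast hG m h h3 h4 (by omega) hc
  refine (sum_le_sum hterm).trans ?_
  rw [sum_add_distrib, sum_add_distrib, sum_const, nsmul_eq_mul, ← sum_filter, sum_const, nsmul_eq_mul]
  have e1 : ∑ m ∈ S, (pr 1 (toZ E) i₀ I (m : ℤ) : ℝ) ≤ ∑ n ∈ ballZ N, (pr 1 (toZ E) i₀ I n : ℝ) := by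
    have e2 : ∑ m ∈ S, (pr 1 (toZ E) i₀ I (m : ℤ) : ℝ) =
        ∑ n ∈ S.image (fun m : ℕ => (m : ℤ)), (pr 1 (toZ E) i₀ I n : ℝ) := by
      rw [sum_image]
      intro a _ b _ hab
      exact Nat.cast_injective (R := ℤ) hab
    rw [e2]
    apply sum_le_sum_of_subset_of_nonneg
    · intro n hn
      rw [mem_image] at hn
      obtain ⟨m, hm, rfl⟩ := hn
      rw [mem_ballZ, Int.cast_natCast, abs_of_nonneg (Nat.cast_nonneg _)]
      exact_mod_cast (hS m hm).2.1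
    · intro n _ _
      exact Nat.cast_nonneg _
  have e3 : (S.card : ℝ) * G ≤ G * N := by
    have : S.card ≤ N := by
      have hs : S ⊆ Icc 1 N := fun m hm => mem_Icc.2 ⟨(hS m hm).1, (hS m hm).2.1⟩
      have := card_le_card hs
      rwa [Nat.card_Icc, Nat.add_sub_cancel] at this
    have h1 : (S.card : ℝ) ≤ N := by exact_mod_cast this
    have h2 : (0 : ℝ) ≤ G := Nat.cast_nonneg _
    nlinarith
  have e4 : ((S.filter (fun m : ℕ => (m : ℤ) ∈ BZ 1 i₀ I)).card : ℝ) * L ≤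
      L * ({n : ℤ | |(n : ℝ)| ≤ (N : ℝ) ∧ n ∈ BZ 1 i₀ I}.ncard : ℝ) := by
    rw [mul_comm]
    apply mul_le_mul_of_nonneg_left _ (Nat.cast_nonneg _)
    have hs : (((S.filter (fun m : ℕ => (m : ℤ) ∈ BZ 1 i₀ I)).image (fun m : ℕ => (m : ℤ)) : Finset ℤ) :
        Set ℤ) ⊆ {n : ℤ | |(n : ℝ)| ≤ (N : ℝ) ∧ n ∈ BZ 1 i₀ I} := by
      intro n hn
      rw [mem_coe, mem_image] at hn
      obtain ⟨m, hm, rfl⟩ := hn
      rw [mem_filter] at hm
      refine ⟨?_, hm.2⟩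
      rw [Int.cast_natCast, abs_of_nonneg (Nat.cast_nonneg _)]
      exact_mod_cast (hS m hm.1).2.1
    have := Set.ncard_le_ncard hs (fin_abs _ _)
    rw [Set.ncard_coe_finset, card_image_of_injective _ Nat.cast_injective] at this
    exact_mod_cast this
  linarith

/-- THE AVERAGE NUMBER OF VISITS -/
theorem vC_avg (B : ℕ) : ∃ C : ℝ, 0 < C ∧ ∀ (E : Set ℕ) (δ : ℝ), 0 < δ →
    (∀ᶠ N : ℕ in atTop, rec E N ≤ δ * Real.log N) → ∀ (Λ : ℝ), 0 < Λ → ∀ ε : ℝ, 0 < ε →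
      ∀ᶠ N : ℕ in atTop, ∀ (S : Finset ℕ) (f : ℕ → ℕ),
        (∀ m ∈ S, 1 ≤ m ∧ m ≤ N ∧ Odd m ∧ ∃ h, IsHt m h ∧ f m = vC E m h ⌊Λ * Real.log N⌋₊) →
        (2 / (N : ℝ) * ∑ m ∈ S, (f m : ℝ)) / Real.log N ≤ C / (Real.log (2 + 1 / δ)) ^ B + ε := by
  obtain ⟨C₁, hC₁, i₁, h1⟩ := first_moment odd_one isCoprime_one_left B
  obtain ⟨C₂, hC₂, i₂, h2⟩ := bz_count odd_one isCoprime_one_left
  obtain ⟨K, hK, i₃, h3⟩ := ell_asym odd_one B
  refine ⟨6 * C₁ * K * 2 ^ B, by positivity, ?_⟩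
  intro E δ hδ hE Λ hΛ ε hε
  obtain ⟨a, ha⟩ := exists_nat_ge (2 * Λ * C₂ / (ε / 2))
  set i₀ := max (max i₁ i₂) (max i₃ a) with hi₀
  have hi₀C : 2 * Λ * C₂ / ((i₀ : ℝ) + 1) ≤ ε / 2 := by
    have h1 : (a : ℝ) ≤ i₀ := by exact_mod_cast (le_max_right i₃ a).trans (le_max_right _ _)
    rw [div_le_iff₀ (by positivity)]
    rw [div_le_iff₀ (by positivity)] at ha
    nlinarith
  obtain ⟨G, hG⟩ := vC_pr i₀
  have h4 := h3 (toZ E) (2 * δ) (by positivity) (DE_of_rec hδ hE) i₀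
    ((le_max_left _ _).trans (le_max_right _ _))
  obtain ⟨I₀, hI₀⟩ := Filter.eventually_atTop.1 h4
  filter_upwards [eventually_ge_atTop (2 ^ (I₀ + 1)), log_ge (max 1 (2 * G / (ε / 2)))] with N hN1 hN2 S f hS
  have hNone : 1 ≤ N := Nat.one_le_two_pow.trans hN1
  have hN0 : (0 : ℝ) < N := by exact_mod_cast hNone
  set L := Real.log (N : ℝ) with hL
  have hL1 : 1 ≤ L := (le_max_left _ _).trans hN2
  have hL0 : 0 < L := by linarith
  have hLG : 2 * G / (ε / 2) ≤ L := (le_max_right _ _).trans hN2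
  obtain ⟨I, hI1, hI2⟩ := exists_nat_pow_near (x := (N : ℝ)) (y := (2 : ℝ)) (by exact_mod_cast hNone)
    (by norm_num)
  have hI2N : N < 2 ^ (I + 1) := by exact_mod_cast hI2
  have hII : I₀ ≤ I := by
    have : 2 ^ (I₀ + 1) < 2 ^ (I + 1) := lt_of_le_of_lt hN1 hI2N
    have := (Nat.pow_lt_pow_iff_right (by norm_num : 1 < 2)).1 this
    omega
  have h5 := vC_sum E i₀ G ⌊Λ * L⌋₊ I N (fun m h a1 a2 a3 a4 => hG E m h _ I a1 a2 a3 a4) hI2N S f hS
  have h6 := h1 (toZ E) i₀ I N ((le_max_left _ _).trans (le_max_left _ _)) hI1 hI2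
  have h7 := h2 i₀ I N ((le_max_right _ _).trans (le_max_left _ _)) hI1 hI2
  have h8 := hI₀ I hII
  have hfl : ((⌊Λ * L⌋₊ : ℕ) : ℝ) ≤ Λ * L := Nat.floor_le (by positivity)
  have hI0 : (0 : ℝ) ≤ I := Nat.cast_nonneg I
  have hIlog : (I : ℝ) + 1 ≤ 3 * L := by
    have e1 : Real.log ((2 : ℝ) ^ I) ≤ L := Real.log_le_log (by positivity) hI1
    rw [Real.log_pow] at e1
    have e2 := Real.log_two_gt_d9
    nlinarith
  have hδi : 0 < 1 / δ := by positivity
  have hLg : 0 < Real.log (2 + 1 / δ) := Real.log_pos (by linarith)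
  have hδi2 : 0 < 1 / (2 * δ) := by positivity
  have hLg2 : 0 < Real.log (2 + 1 / (2 * δ)) := Real.log_pos (by linarith)
  have h9 : Real.log (2 + 1 / δ) ≤ 2 * Real.log (2 + 1 / (2 * δ)) := by
    have e1 : 2 * Real.log (2 + 1 / (2 * δ)) = Real.log ((2 + 1 / (2 * δ)) ^ 2) := by
      rw [Real.log_pow]; norm_num
    rw [e1]
    apply Real.log_le_log (by positivity)
    have e3 : 1 / δ = 2 * (1 / (2 * δ)) := by field_simp
    rw [e3]
    nlinarith
  have h10 : K * (I + 1) / (Real.log (2 + 1 / (2 * δ))) ^ B ≤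
      3 * K * 2 ^ B * L / (Real.log (2 + 1 / δ)) ^ B := by
    have e1 : (Real.log (2 + 1 / δ)) ^ B ≤ 2 ^ B * (Real.log (2 + 1 / (2 * δ))) ^ B := by
      rw [← mul_pow]; exact pow_le_pow_left₀ hLg.le h9 B
    rw [div_le_div_iff₀ (by positivity) (by positivity)]
    calc K * (I + 1) * (Real.log (2 + 1 / δ)) ^ B ≤
          K * (3 * L) * (2 ^ B * (Real.log (2 + 1 / (2 * δ))) ^ B) :=
            mul_le_mul (mul_le_mul_of_nonneg_left hIlog hK.le) e1 (by positivity) (by positivity)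
      _ = _ := by ring
  have h11 : (∑ m ∈ S, (f m : ℝ)) ≤ C₁ * N * (3 * K * 2 ^ B * L / (Real.log (2 + 1 / δ)) ^ B) + G * N +
      (Λ * L) * (C₂ * N / (i₀ + 1)) := by
    have e1 : C₁ * N * (∑ i ∈ Icc i₀ I, 1 / (ell 1 (toZ E) i) ^ B) ≤
        C₁ * N * (3 * K * 2 ^ B * L / (Real.log (2 + 1 / δ)) ^ B) :=
      mul_le_mul_of_nonneg_left (h8.trans h10) (by positivity)
    have e2 : ((⌊Λ * L⌋₊ : ℕ) : ℝ) * ({n : ℤ | |(n : ℝ)| ≤ (N : ℝ) ∧ n ∈ BZ 1 i₀ I}.ncard : ℝ) ≤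
        (Λ * L) * (C₂ * N / (i₀ + 1)) :=
      mul_le_mul hfl h7 (Nat.cast_nonneg _) (by positivity)
    linarith
  have h12 : (2 / (N : ℝ) * ∑ m ∈ S, (f m : ℝ)) / L ≤
      (2 / (N : ℝ) * (C₁ * N * (3 * K * 2 ^ B * L / (Real.log (2 + 1 / δ)) ^ B) + G * N +
      (Λ * L) * (C₂ * N / (i₀ + 1)))) / L := by
    apply div_le_div_of_nonneg_right _ hL0.le
    exact mul_le_mul_of_nonneg_left h11 (by positivity)
  refine h12.trans ?_
  have h13 : (2 / (N : ℝ) * (C₁ * N * (3 * K * 2 ^ B * L / (Real.log (2 + 1 / δ)) ^ B) + G * N +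
      (Λ * L) * (C₂ * N / (i₀ + 1)))) / L =
      6 * C₁ * K * 2 ^ B / (Real.log (2 + 1 / δ)) ^ B + 2 * G / L + 2 * Λ * C₂ / (i₀ + 1) := by
    field_simp
    ring
  rw [h13]
  have h14 : 2 * (G : ℝ) / L ≤ ε / 2 := by
    rw [div_le_iff₀ hL0]
    rw [div_le_iff₀ (by positivity)] at hLG
    linarith
  linarith

end Pool.Agent.U457.PS
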