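import Pool.Agent.U457.PS.CM

/-! The truncated average over the finite heights. -/

set_option autoImplicit false

namespace Pool.Agent.U457.PS

open Finset Filter Topology
open Pool.Agent.H363R2 (Cm)
open Pool.Agent.H499R2.ND

open scoped Classical in
/-- the height cut at `L` -/
noncomputable def fT (m L : ℕ) : ℕ := if h : ∃ h, IsHt m h then min h.choose L else L

theorem fT_eq {m h : ℕ} (hh : IsHt m h) (L : ℕ) : fT m L = min h L := by
  unfold fT
  have hex : ∃ h, IsHt m h := ⟨h, hh⟩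
  rw [dif_pos hex, ht_unique hex.choose_spec hh]

theorem fT_not {m : ℕ} (hh : ¬ ∃ h, IsHt m h) (L : ℕ) : fT m L = L := by
  unfold fT
  rw [dif_neg hh]

theorem fT_le (m L : ℕ) : fT m L ≤ L := by
  unfold fT
  split_ifs with h
  · exact min_le_right _ _
  · exact le_rfl

open scoped Classical in
theorem fin_avg {D : ℝ} (h3 : Dn Bas D) {Λ : ℝ} (hΛ : 1 / Real.log (4 / 3) < Λ) :
    Tendsto (fun N : ℕ => (2 / (N : ℝ) *
      ∑ m ∈ (Icc 1 N).filter (fun m => m % 2 = 1 ∧ ∃ h, IsHt m h), (fT m ⌊Λ * Real.log N⌋₊ : ℝ)) /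
        Real.log N) atTop (𝓝 (D * (1 / Real.log (4 / 3)))) := by
  have hB : Dn (fun m => m % 2 = 1 ∧ Bas m) (D / 2) := by
    have := inv_prog Bas_inv h3 (q := 2) (by norm_num) 1
    exact_mod_cast this
  have hc0 : 0 < 1 / Real.log (4 / 3) := one_div_pos.2 (Real.log_pos (by norm_num))
  have hΛ0 : 0 < Λ := hc0.trans hΛ
  have h1 := trunc_avg (H := IsHt) (f := fT) hc0 hΛ hB (fun ε hε => ht_zd h3 hε)
    (fun m h L _ hh => fT_eq hh L)
    (fun m L hm hb => fT_not (fun h => hb ((ht_iff (Nat.odd_iff.2 hm)).2 h)) L) fT_le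
  -- the odd numbers of infinite height
  have h2 : Tendsto (fun N : ℕ => 2 * ((cnt (fun m => m % 2 = 1) N / N) -
      (cnt (fun m => m % 2 = 1 ∧ Bas m) N / N))) atTop (𝓝 (1 - D)) := by
    have := (odd_density.sub hB).const_mul 2
    have e : (2 : ℝ) * (1 / 2 - D / 2) = 1 - D := by ring
    rwa [e] at this
  have h4 : Tendsto (fun N : ℕ => ((⌊Λ * Real.log N⌋₊ : ℕ) : ℝ) / Real.log N) atTop (𝓝 Λ) :=
    (tendsto_nat_floor_mul_div_atTop hΛ0.le).comp
      (Real.tendsto_log_atTop.comp tendsto_natCast_atTop_atTop)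
  have h5 := h1.sub (h2.mul h4)
  have e5 : D * (1 / Real.log (4 / 3)) + (1 - D) * Λ - (1 - D) * Λ = D * (1 / Real.log (4 / 3)) := by
    ring
  rw [e5] at h5
  refine h5.congr' ?_
  filter_upwards [eventually_ge_atTop 1, log_ge 1] with N hN hL
  have hN0 : (0 : ℝ) < N := by exact_mod_cast hN
  have hL0 : 0 < Real.log (N : ℝ) := by linarith
  set L := ⌊Λ * Real.log (N : ℝ)⌋₊ with hLdef
  have e1 : ∑ m ∈ (Icc 1 N).filter (fun m => m % 2 = 1), (fT m L : ℝ) =
      ∑ m ∈ (Icc 1 N).filter (fun m => m % 2 = 1 ∧ ∃ h, IsHt m h), (fT m L : ℝ) +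
      ∑ m ∈ (Icc 1 N).filter (fun m => m % 2 = 1 ∧ ¬ ∃ h, IsHt m h), (fT m L : ℝ) := by
    rw [← filter_filter, ← filter_filter, sum_filter_add_sum_filter_not]
  have e2 : ∑ m ∈ (Icc 1 N).filter (fun m => m % 2 = 1 ∧ ¬ ∃ h, IsHt m h), (fT m L : ℝ) =
      (((Icc 1 N).filter (fun m => m % 2 = 1 ∧ ¬ ∃ h, IsHt m h)).card : ℝ) * L := by
    rw [sum_congr rfl (g := fun _ => (L : ℝ)), sum_const, nsmul_eq_mul]
    intro m hm
    rw [mem_filter] at hm
    rw [fT_not hm.2.2]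
  have e3 : (((Icc 1 N).filter (fun m => m % 2 = 1 ∧ ¬ ∃ h, IsHt m h)).card : ℝ) =
      cnt (fun m => m % 2 = 1) N - cnt (fun m => m % 2 = 1 ∧ Bas m) N := by
    rw [cnt_eq, cnt_eq]
    have f1 : ((Icc 1 N).filter (fun m => m % 2 = 1 ∧ Bas m)) =
        (Icc 1 N).filter (fun m => m % 2 = 1 ∧ ∃ h, IsHt m h) := by
      apply filter_congr
      intro m _
      exact and_congr_right fun h => ht_iff (Nat.odd_iff.2 h)
    rw [f1]
    have f2 := card_filter_add_card_filter_not (s := (Icc 1 N).filter (fun m => m % 2 = 1))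
      (fun m => ∃ h, IsHt m h)
    rw [filter_filter, filter_filter] at f2
    have f3 : (((Icc 1 N).filter (fun m => m % 2 = 1 ∧ ∃ h, IsHt m h)).card : ℝ) +
        (((Icc 1 N).filter (fun m => m % 2 = 1 ∧ ¬ ∃ h, IsHt m h)).card : ℝ) =
        (((Icc 1 N).filter (fun m => m % 2 = 1)).card : ℝ) := by exact_mod_cast f2
    linarith
  rw [e1, e2, e3]
  field_simp
  ring

end Pool.Agent.U457.PS
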