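import Pool.Agent.U457.PS.Thin1

/-! Many points whose orbit climbs to a high level. -/

set_option autoImplicit false

namespace Pool.Agent.U457.PS

open Finset Filter Topology
open Pool.Agent.H499R2.CO (Tz)
open Pool.Agent.TH930.EBQ (words wd ones cw Pre wd_mem wd_inj wd_append wd_length wd_congr image_wd
  iter_eq mem_words sum_words_succ ones_cons_true ones_cons_false ones_append ones_nil)

/-! ### The largest term of a binomial expansion (proof as in the starting file H517R2.RS.MODE) -/

/-- the term `k` of the expansion of `(t + (l - t)) ^ l` -/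
def modeU (l t k : ℕ) : ℕ := l.choose k * (t ^ k * (l - t) ^ (l - k))

theorem mode_step_up (l t k : ℕ) (hk : k < t) (ht : t ≤ l) : modeU l t k ≤ modeU l t (k + 1) := by
  unfold modeU
  rcases Nat.eq_or_lt_of_le ht with rfl | htl
  · rw [Nat.sub_self, zero_pow (by omega)]
    simp
  have h1 := Nat.choose_succ_right_eq l k
  have e1 : (l - t) ^ (l - k) = (l - t) ^ (l - (k + 1)) * (l - t) := by
    rw [← pow_succ]
    congr 1
    omega
  have e2 : t ^ (k + 1) = t ^ k * t := pow_succ _ _
  rw [e1, e2]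
  have h2 : (k + 1) * (l - t) ≤ (l - k) * t := by
    obtain ⟨m, rfl⟩ : ∃ m, l = t + m := ⟨l - t, by omega⟩
    obtain ⟨j, rfl⟩ : ∃ j, t = k + 1 + j := ⟨t - (k + 1), by omega⟩
    have e3 : k + 1 + j + m - (k + 1 + j) = m := by omega
    have e4 : k + 1 + j + m - k = 1 + j + m := by omega
    rw [e3, e4]
    nlinarith
  apply Nat.le_of_mul_le_mul_right (c := k + 1) _ (by omega)
  calc l.choose k * (t ^ k * ((l - t) ^ (l - (k + 1)) * (l - t))) * (k + 1)
      = (l.choose k * (t ^ k * (l - t) ^ (l - (k + 1)))) * ((k + 1) * (l - t)) := by ring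
    _ ≤ (l.choose k * (t ^ k * (l - t) ^ (l - (k + 1)))) * ((l - k) * t) :=
        Nat.mul_le_mul_left _ h2
    _ = (l.choose k * (l - k)) * (t ^ k * t * (l - t) ^ (l - (k + 1))) := by ring
    _ = (l.choose (k + 1) * (k + 1)) * (t ^ k * t * (l - t) ^ (l - (k + 1))) := by rw [h1]
    _ = _ := by ring

theorem mode_step_down (l t k : ℕ) (hk : t ≤ k) (hkl : k < l) : modeU l t (k + 1) ≤ modeU l t k := by
  unfold modeU
  have h1 := Nat.choose_succ_right_eq l k
  have e1 : (l - t) ^ (l - k) = (l - t) ^ (l - (k + 1)) * (l - t) := by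
    rw [← pow_succ]
    congr 1
    omega
  have e2 : t ^ (k + 1) = t ^ k * t := pow_succ _ _
  rw [e1, e2]
  have h2 : (l - k) * t ≤ (k + 1) * (l - t) := by
    obtain ⟨m, rfl⟩ : ∃ m, l = k + 1 + m := ⟨l - (k + 1), by omega⟩
    obtain ⟨j, rfl⟩ : ∃ j, k = t + j := ⟨k - t, by omega⟩
    have e3 : t + j + 1 + m - (t + j) = 1 + m := by omega
    have e4 : t + j + 1 + m - t = j + 1 + m := by omega
    rw [e3, e4]
    nlinarith
  apply Nat.le_of_mul_le_mul_right (c := k + 1) _ (by omega)
  calc l.choose (k + 1) * (t ^ k * t * (l - t) ^ (l - (k + 1))) * (k + 1)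
      = (l.choose (k + 1) * (k + 1)) * (t ^ k * t * (l - t) ^ (l - (k + 1))) := by ring
    _ = (l.choose k * (l - k)) * (t ^ k * t * (l - t) ^ (l - (k + 1))) := by rw [h1]
    _ = (l.choose k * (t ^ k * (l - t) ^ (l - (k + 1)))) * ((l - k) * t) := by ring
    _ ≤ (l.choose k * (t ^ k * (l - t) ^ (l - (k + 1)))) * ((k + 1) * (l - t)) :=
        Nat.mul_le_mul_left _ h2
    _ = _ := by ring

theorem mode_max (l t k : ℕ) (ht : t ≤ l) (hk : k ≤ l) : modeU l t k ≤ modeU l t t := by
  rcases le_total k t with h | h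
  · obtain ⟨d, hd⟩ : ∃ d, t = k + d := ⟨t - k, by omega⟩
    have : ∀ d, k + d ≤ t → modeU l t k ≤ modeU l t (k + d) := by
      intro d
      induction d with
      | zero => intro _; exact le_rfl
      | succ d ih =>
        intro h2
        exact (ih (by omega)).trans (mode_step_up l t (k + d) (by omega) ht)
    have h3 := this d (by omega)
    rwa [← hd] at h3
  · obtain ⟨d, hd⟩ : ∃ d, k = t + d := ⟨k - t, by omega⟩
    have : ∀ d, t + d ≤ l → modeU l t (t + d) ≤ modeU l t t := by
      intro d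
      induction d with
      | zero => intro _; exact le_rfl
      | succ d ih =>
        intro h2
        exact (mode_step_down l t (t + d) (by omega) (by omega)).trans (ih (by omega))
    rw [hd]
    exact this d (by omega)

theorem mode_nat (l t : ℕ) (ht : t ≤ l) :
    l ^ l ≤ (l + 1) * (l.choose t * (t ^ t * (l - t) ^ (l - t))) := by
  have h1 : l ^ l = ∑ k ∈ Finset.range (l + 1), t ^ k * (l - t) ^ (l - k) * l.choose k := by
    conv_lhs => rw [show l ^ l = (t + (l - t)) ^ l by rw [Nat.add_sub_of_le ht]]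
    rw [add_pow]
    simp
  rw [h1]
  calc ∑ k ∈ Finset.range (l + 1), t ^ k * (l - t) ^ (l - k) * l.choose k
      ≤ ∑ k ∈ Finset.range (l + 1), modeU l t t := by
        refine Finset.sum_le_sum fun k hk => ?_
        have := mode_max l t k ht (by have := Finset.mem_range.1 hk; omega)
        refine le_trans (le_of_eq ?_) this
        unfold modeU
        ring
    _ = _ := by
        rw [Finset.sum_const, Finset.card_range, smul_eq_mul]
        rfl

theorem mode4 {b : ℕ} (hb : 1 ≤ b) : 256 ^ b ≤ (4 * b + 1) * (4 * b).choose (3 * b) * 27 ^ b := by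
  have h := mode_nat (4 * b) (3 * b) (by omega)
  have e : 4 * b - 3 * b = b := by omega
  rw [e] at h
  have e1 : (4 * b) ^ (4 * b) = 256 ^ b * b ^ (4 * b) := by
    rw [mul_pow, pow_mul 4 4 b]; norm_num
  have e2 : (3 * b) ^ (3 * b) * b ^ b = 27 ^ b * b ^ (4 * b) := by
    rw [mul_pow, pow_mul 3 3 b, mul_assoc, ← pow_add, show 3 * b + b = 4 * b by ring]
    norm_num
  rw [e1, e2] at h
  have hpos : 0 < b ^ (4 * b) := by positivity
  apply Nat.le_of_mul_le_mul_right _ hpos
  calc 256 ^ b * b ^ (4 * b) ≤ (4 * b + 1) * ((4 * b).choose (3 * b) * (27 ^ b * b ^ (4 * b))) := h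
    _ = _ := by ring

/-! ### Words -/

theorem card_ones (n q : ℕ) : ((words n).filter (fun v => ones v = q)).card = n.choose q := by
  induction n generalizing q with
  | zero =>
    cases q with
    | zero => simp [words, filter_singleton]
    | succ q => simp [words, filter_singleton]
  | succ n ih =>
    rw [card_filter, sum_words_succ]
    simp only [ones_cons_true, ones_cons_false]
    rw [sum_add_distrib, ← card_filter, ← card_filter, ih q]
    cases q with
    | zero => simp
    | succ q =>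
      have e : (words n).filter (fun v => ones v + 1 = q + 1) = (words n).filter (fun v => ones v = q) := by
        apply filter_congr
        intro v _
        omega
      rw [e, ih q, Nat.choose_succ_succ]

/-- the blocks -/
def UB (b : ℕ) : Finset (List Bool) := (words (4 * b)).filter (fun v => ones v = 3 * b)

/-- `t` blocks -/
def Bl (b : ℕ) : ℕ → Finset (List Bool)
  | 0 => {[]}
  | t + 1 => ((UB b) ×ˢ (Bl b t)).image (fun p => p.1 ++ p.2)

theorem Bl_prop {b t : ℕ} {v : List Bool} (hv : v ∈ Bl b t) :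
    v.length = 4 * b * t ∧ ones v = 3 * b * t ∧ Pre (16 ^ b) v := by
  induction t generalizing v with
  | zero =>
    rw [Bl, mem_singleton] at hv
    subst hv
    refine ⟨by simp, by simp, ?_⟩
    intro j hj
    have : j = 0 := by simpa using hj
    subst this
    simp
    exact Nat.one_le_pow _ _ (by norm_num)
  | succ t ih =>
    rw [Bl, mem_image] at hv
    obtain ⟨⟨u, w⟩, huw, rfl⟩ := hv
    rw [mem_product] at huw
    obtain ⟨hu, hw⟩ := huw
    unfold UB at hu
    rw [mem_filter, mem_words] at hu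
    obtain ⟨h1, h2, h3⟩ := ih hw
    simp only at hu h1 h2 h3 ⊢
    refine ⟨by rw [List.length_append, hu.1, h1]; ring, by rw [ones_append, hu.2, h2]; ring, ?_⟩
    intro j hj
    rw [List.length_append] at hj
    rcases le_or_gt j (4 * b) with hc | hc
    · calc 2 ^ j ≤ 2 ^ (4 * b) := Nat.pow_le_pow_right (by norm_num) hc
        _ = 16 ^ b * 1 := by rw [pow_mul]; norm_num
        _ ≤ 16 ^ b * 3 ^ ones ((u ++ w).take j) := Nat.mul_le_mul_left _ (Nat.one_le_pow _ _ (by norm_num))
    · obtain ⟨i, rfl⟩ : ∃ i, j = 4 * b + i := ⟨j - 4 * b, by omega⟩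
      have e : (u ++ w).take (4 * b + i) = u ++ w.take i := by
        rw [← hu.1, List.take_length_add_append]
      rw [e, ones_append, hu.2]
      have h4 := h3 i (by omega)
      calc 2 ^ (4 * b + i) = 16 ^ b * 2 ^ i := by rw [pow_add, pow_mul]; norm_num
        _ ≤ 16 ^ b * (16 ^ b * 3 ^ ones (w.take i)) := Nat.mul_le_mul_left _ h4
        _ ≤ 16 ^ b * (27 ^ b * 3 ^ ones (w.take i)) := by
            apply Nat.mul_le_mul_left
            apply Nat.mul_le_mul_right
            exact Nat.pow_le_pow_left (by norm_num) b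
        _ = 16 ^ b * 3 ^ (3 * b + ones (w.take i)) := by rw [pow_add, pow_mul]; norm_num

theorem card_Bl (b t : ℕ) : (Bl b t).card = ((4 * b).choose (3 * b)) ^ t := by
  induction t with
  | zero => simp [Bl]
  | succ t ih =>
    rw [Bl, card_image_of_injOn, card_product, ih]
    · unfold UB
      rw [card_ones, pow_succ']
    · rintro ⟨u, w⟩ h1 ⟨u', w'⟩ h2 h3
      rw [mem_coe, mem_product] at h1 h2
      unfold UB at h1 h2
      rw [mem_filter, mem_words] at h1 h2
      simp only at h1 h2 h3
      obtain ⟨h4, h5⟩ := List.append_inj h3 (by rw [h1.1.1, h2.1.1])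
      rw [h4, h5]

/-- the words which climb -/
def CW (b t : ℕ) : Finset (List Bool) := (Bl b t).image (fun v => List.replicate (7 * b) true ++ v)

theorem ones_replicate (n : ℕ) : ones (List.replicate n true) = n := by
  unfold Pool.Agent.TH930.EBQ.ones
  simp

theorem CW_prop {b t : ℕ} {v : List Bool} (hv : v ∈ CW b t) :
    v.length = 7 * b + 4 * b * t ∧ ones v = 7 * b + 3 * b * t ∧
      ∀ j ≤ v.length, 2 ^ j ≤ 3 ^ ones (v.take j) := by
  unfold CW at hv
  rw [mem_image] at hv
  obtain ⟨w, hw, rfl⟩ := hv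
  obtain ⟨h1, h2, h3⟩ := Bl_prop hw
  refine ⟨by rw [List.length_append, List.length_replicate, h1], by rw [ones_append, ones_replicate, h2], ?_⟩
  intro j hj
  rw [List.length_append, List.length_replicate] at hj
  rcases le_or_gt j (7 * b) with hc | hc
  · have e : (List.replicate (7 * b) true ++ w).take j = List.replicate j true := by
      rw [List.take_append_of_le_length (by rw [List.length_replicate]; exact hc), List.take_replicate,
        min_eq_left hc]
    rw [e, ones_replicate]
    exact Nat.pow_le_pow_left (by norm_num) j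
  · obtain ⟨i, rfl⟩ : ∃ i, j = 7 * b + i := ⟨j - 7 * b, by omega⟩
    have e : (List.replicate (7 * b) true ++ w).take (7 * b + i) =
        List.replicate (7 * b) true ++ w.take i := by
      have : 7 * b = (List.replicate (7 * b) true).length := by rw [List.length_replicate]
      conv_lhs => rw [this, List.length_replicate]
      rw [show 7 * b + i = (List.replicate (7 * b) true).length + i by rw [List.length_replicate],
        List.take_length_add_append]
    rw [e, ones_append, ones_replicate]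
    have h4 := h3 i (by omega)
    calc 2 ^ (7 * b + i) = 128 ^ b * 2 ^ i := by rw [pow_add, pow_mul]; norm_num
      _ ≤ 128 ^ b * (16 ^ b * 3 ^ ones (w.take i)) := Nat.mul_le_mul_left _ h4
      _ = 2048 ^ b * 3 ^ ones (w.take i) := by rw [← mul_assoc, ← mul_pow]; norm_num
      _ ≤ 2187 ^ b * 3 ^ ones (w.take i) :=
          Nat.mul_le_mul_right _ (Nat.pow_le_pow_left (by norm_num) b)
      _ = 3 ^ (7 * b + ones (w.take i)) := by rw [pow_add, pow_mul]; norm_num

theorem card_CW (b t : ℕ) : (CW b t).card = ((4 * b).choose (3 * b)) ^ t := by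
  unfold CW
  rw [card_image_of_injective _ (fun u v h => List.append_cancel_left h), card_Bl]

/-! ### Points with such words -/

theorem wd_take {k : ℤ} {n j : ℕ} (hj : j ≤ n) (x : ℤ) : (wd k n x).take j = wd k j x := by
  obtain ⟨i, rfl⟩ : ∃ i, n = j + i := ⟨n - j, by omega⟩
  rw [wd_append, List.take_left' (wd_length k j x)]

theorem climb_point {k : ℤ} (hk : Odd k) (hk0 : 0 < k) {n : ℕ} {x : ℤ} (hx : 0 ≤ x)
    (hv : ∀ j ≤ n, 2 ^ j ≤ 3 ^ ones ((wd k n x).take j)) :
    (∀ j ≤ n, x ≤ (Tz k)^[j] x) ∧ 3 ^ ones (wd k n x) * x ≤ 2 ^ n * (Tz k)^[n] x := by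
  have key : ∀ j : ℕ, (3 : ℤ) ^ ones (wd k j x) * x ≤ 2 ^ j * (Tz k)^[j] x := by
    intro j
    have h := iter_eq hk j x
    rw [Tz_eq_T] at h
    rw [h]
    have : (0 : ℤ) ≤ k * cw (wd k j x) := by positivity
    linarith
  refine ⟨?_, key n⟩
  intro j hj
  have h1 := hv j hj
  rw [wd_take hj] at h1
  have h2 : (2 : ℤ) ^ j ≤ 3 ^ ones (wd k j x) := by exact_mod_cast h1
  have h3 : (2 : ℤ) ^ j * x ≤ 2 ^ j * (Tz k)^[j] x :=
    (mul_le_mul_of_nonneg_right h2 hx).trans (key j)
  exact le_of_mul_le_mul_left h3 (by positivity)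

theorem card_class {k : ℤ} (hk : Odd k) {n L : ℕ} (hn : n ≤ L) (V : Finset (List Bool))
    (hV : V ⊆ words n) (S : Finset ℤ)
    (hS : ∀ x : ℤ, 2 ^ L ≤ x → x < 2 ^ (L + 1) → wd k n x ∈ V → x ∈ S) :
    V.card * 2 ^ (L - n) ≤ S.card := by
  classical
  have hex : ∀ v ∈ V, ∃ m : ℕ, m < 2 ^ n ∧ wd k n (m : ℤ) = v := by
    intro v hv
    have h1 := hV hv
    rw [← image_wd hk n, mem_image] at h1
    obtain ⟨m, hm, h2⟩ := h1
    exact ⟨m, mem_range.1 hm, h2⟩
  choose! g hg1 hg2 using hex
  set f : List Bool × ℕ → ℤ := fun p => 2 ^ L + g p.1 + 2 ^ n * p.2 with hf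
  have hdvd : ∀ p : List Bool × ℕ, (2 : ℤ) ^ n ∣ f p - g p.1 := by
    intro p
    rw [hf]
    have h1 : (2 : ℤ) ^ n ∣ 2 ^ L := pow_dvd_pow 2 hn
    obtain ⟨c, hc⟩ := h1
    exact ⟨c + p.2, by simp only; rw [hc]; ring⟩
  have hwd : ∀ p ∈ V ×ˢ range (2 ^ (L - n)), wd k n (f p) = p.1 := by
    intro p hp
    rw [mem_product] at hp
    rw [wd_congr hk (hdvd p), hg2 _ hp.1]
  have himg : (V ×ˢ range (2 ^ (L - n))).image f ⊆ S := by
    intro x hx
    rw [mem_image] at hx
    obtain ⟨p, hp, rfl⟩ := hx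
    have hw := hwd p hp
    rw [mem_product, mem_range] at hp
    have h1 := hg1 _ hp.1
    have e : (2 : ℤ) ^ (L - n) * 2 ^ n = 2 ^ L := by rw [← pow_add, Nat.sub_add_cancel hn]
    apply hS
    · rw [hf]
      have : (0 : ℤ) ≤ (g p.1 : ℤ) + 2 ^ n * p.2 := by positivity
      simp only
      linarith
    · rw [hf]
      have h2 : ((g p.1 : ℕ) : ℤ) < 2 ^ n := by exact_mod_cast h1
      have h3 : ((p.2 : ℕ) : ℤ) + 1 ≤ 2 ^ (L - n) := by exact_mod_cast hp.2
      have h4 : (2 : ℤ) ^ n * (p.2 + 1) ≤ 2 ^ n * 2 ^ (L - n) :=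
        mul_le_mul_of_nonneg_left h3 (by positivity)
      simp only
      rw [pow_succ]
      linarith
    · rw [hw]; exact hp.1
  have hinj : Set.InjOn f ((V ×ˢ range (2 ^ (L - n)) : Finset (List Bool × ℕ)) : Set (List Bool × ℕ)) := by
    intro p hp q hq h
    rw [mem_coe] at hp hq
    have h1 := hwd p hp
    have h2 := hwd q hq
    rw [h, h2] at h1
    have h3 : p.1 = q.1 := h1.symm
    rw [hf] at h
    simp only [h3] at h
    have h4 : (2 : ℤ) ^ n * p.2 = 2 ^ n * q.2 := by linarith
    have h5 : (p.2 : ℤ) = q.2 := by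
      have : (2 : ℤ) ^ n ≠ 0 := by positivity
      exact mul_left_cancel₀ this h4
    exact Prod.ext h3 (by exact_mod_cast h5)
  have h := card_le_card himg
  rwa [card_image_of_injOn hinj, card_product, card_range] at h

end Pool.Agent.U457.PS
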