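import Pool.Agent.U457.PS.First

/-! Counting the integers with a prescribed first passage. -/

set_option autoImplicit false

namespace Pool.Agent.U457.PS

open Finset Filter Topology
open Pool.Agent.H499R2.CO (Tz)
open Pool.Agent.R344.TH (odd_count)
open Pool.Agent.H499R2.ND (mem_cls)

/-- the part of `SZk` on the positive side -/
def SP (k : ℤ) (Y : ℝ) (E : Set ℤ) : Set ℤ := {x : ℤ | x ∈ SZk k Y E ∧ Y ≤ (x : ℝ)}

theorem even_step {k : ℤ} {Y : ℝ} {E : Set ℤ} {EF : Finset ℤ} (hE : ∀ y ∈ E, |(y : ℝ)| < Y → y ∈ EF)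
    (hY : 0 < Y) {x : ℤ} (hx : x ∈ SP k Y E) (he : x % 2 = 0) : x / 2 ∈ EF ∨ x / 2 ∈ SP k Y E := by
  obtain ⟨h1, h2⟩ := hx
  rw [mem_SZk] at h1
  obtain ⟨h3, n, h4, h5, h6⟩ := h1
  have hn : 1 ≤ n := by
    rcases Nat.eq_zero_or_pos n with rfl | h0
    · exact absurd h5 (not_lt.2 (by simpa using h3))
    · exact h0
  obtain ⟨k', rfl⟩ : ∃ k', n = k' + 1 := ⟨n - 1, by omega⟩
  have hT : Tz k x = x / 2 := by unfold Tz; rw [if_pos he]
  rw [Function.iterate_succ_apply, hT] at h5 h6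
  have hxpos : (0 : ℝ) < ((x / 2 : ℤ) : ℝ) := by
    have h7 : ((x / 2 : ℤ) : ℝ) * 2 = x := by
      have : (x / 2) * 2 = x := by omega
      exact_mod_cast this
    linarith
  rcases lt_or_ge ((x / 2 : ℤ) : ℝ) Y with hc | hc
  · left
    rcases Nat.eq_zero_or_pos k' with rfl | hk0
    · exact hE _ h6 h5
    · exfalso
      have := h4 1 (by omega)
      rw [Function.iterate_one, hT, abs_of_pos hxpos] at this
      linarith
  · right
    refine ⟨?_, hc⟩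
    rw [mem_SZk]
    refine ⟨hc.trans (le_abs_self _), k', ?_, h5, h6⟩
    intro j hj
    have := h4 (j + 1) (by omega)
    rwa [Function.iterate_succ_apply, hT] at this

open scoped Classical in
/-- the count -/
noncomputable def fc (k : ℤ) (Y : ℝ) (E : Set ℤ) (X : ℝ) : ℝ :=
  (((Icc (1 : ℤ) ⌊X⌋).filter (fun x => x ∈ SP k Y E)).card : ℝ)

theorem fc_zero {k : ℤ} {Y : ℝ} {E : Set ℤ} {X : ℝ} (h : X < Y) : fc k Y E X = 0 := by
  classical
  unfold fc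
  rw [Nat.cast_eq_zero, card_eq_zero, Finset.eq_empty_iff_forall_notMem]
  intro x hx
  rw [mem_filter, mem_Icc, Int.le_floor] at hx
  have := hx.2.2
  linarith [hx.1.2]

theorem fc_step {k : ℤ} {Y : ℝ} (hY : 0 < Y) {E : Set ℤ} {EF : Finset ℤ}
    (hE : ∀ y ∈ E, |(y : ℝ)| < Y → y ∈ EF) {ρ : ℝ} (hρ : 0 ≤ ρ)
    (hPB : ∀ A : ℝ, Y / 2 ≤ A → Pool.Agent.H499R2.ND.PB (SZk k Y E) A 0 ρ) {X : ℝ} (hX : 0 < X) :
    fc k Y E X ≤ ρ * X + (EF.card + fc k Y E (X / 2)) := by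
  classical
  have hPB' : ∀ A : ℝ, Y / 2 ≤ A → Pool.Agent.H499R2.ND.PB (SP k Y E) A 0 ρ := by
    intro A hA u v hu
    refine le_trans ?_ (hPB A hA u v hu)
    have : Pool.Agent.H499R2.ND.cls (SP k Y E) A (2 * A) 0 u v ⊆
        Pool.Agent.H499R2.ND.cls (SZk k Y E) A (2 * A) 0 u v := by
      intro x hx
      rw [mem_cls] at hx ⊢
      exact ⟨hx.1, hx.2.1, hx.2.2.1.1, hx.2.2.2⟩
    exact_mod_cast card_le_card this
  have hodd := odd_count (S := SP k Y E) (z := Y) hρ (fun x hx => hx.2) hPB' hX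
  have hsub : (Icc (1 : ℤ) ⌊X⌋).filter (fun x => x ∈ SP k Y E) ⊆
      (Icc (1 : ℤ) ⌊X⌋).filter (fun x => Odd x ∧ x ∈ SP k Y E) ∪
      (EF ∪ (Icc (1 : ℤ) ⌊X / 2⌋).filter (fun x => x ∈ SP k Y E)).image (fun x => 2 * x) := by
    intro x hx
    rw [mem_filter, mem_Icc] at hx
    rw [mem_union, mem_filter, mem_image]
    rcases Int.even_or_odd x with he | ho
    · right
      have he' : x % 2 = 0 := Int.even_iff.1 he
      refine ⟨x / 2, ?_, by omega⟩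
      rw [mem_union]
      rcases even_step hE hY hx.2 he' with h1 | h1
      · exact Or.inl h1
      · right
        rw [mem_filter, mem_Icc]
        refine ⟨⟨by omega, ?_⟩, h1⟩
        rw [Int.le_floor]
        have h2 : (x : ℝ) ≤ X := Int.le_floor.1 hx.1.2
        have h7 : ((x / 2 : ℤ) : ℝ) * 2 = x := by
          have : (x / 2) * 2 = x := by omega
          exact_mod_cast this
        linarith
    · left
      exact ⟨mem_Icc.2 hx.1, ho, hx.2⟩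
  have h1 := (card_le_card hsub).trans (card_union_le _ _)
  have h2 : ((EF ∪ (Icc (1 : ℤ) ⌊X / 2⌋).filter (fun x => x ∈ SP k Y E)).image (fun x => 2 * x)).card ≤
      EF.card + ((Icc (1 : ℤ) ⌊X / 2⌋).filter (fun x => x ∈ SP k Y E)).card :=
    card_image_le.trans (card_union_le _ _)
  have h3 : (((Icc (1 : ℤ) ⌊X⌋).filter (fun x => x ∈ SP k Y E)).card : ℝ) ≤
      (((Icc (1 : ℤ) ⌊X⌋).filter (fun x => Odd x ∧ x ∈ SP k Y E)).card : ℝ) +
      ((EF.card : ℝ) + (((Icc (1 : ℤ) ⌊X / 2⌋).filter (fun x => x ∈ SP k Y E)).card : ℝ)) := by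
    have := h1.trans (Nat.add_le_add_left h2 _)
    exact_mod_cast this
  unfold fc
  linarith

theorem fc_bound {k : ℤ} {Y : ℝ} (hY : 0 < Y) {E : Set ℤ} {EF : Finset ℤ}
    (hE : ∀ y ∈ E, |(y : ℝ)| < Y → y ∈ EF) {ρ : ℝ} (hρ : 0 ≤ ρ)
    (hPB : ∀ A : ℝ, Y / 2 ≤ A → Pool.Agent.H499R2.ND.PB (SZk k Y E) A 0 ρ) :
    ∀ n : ℕ, ∀ X : ℝ, 0 < X → X < 2 ^ n * Y → fc k Y E X ≤ (2 * ρ + 2 * (EF.card / Y)) * X := by
  intro n
  induction n with
  | zero =>
    intro X hX h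
    rw [pow_zero, one_mul] at h
    rw [fc_zero h]
    positivity
  | succ n ih =>
    intro X hX h
    rcases lt_or_ge X Y with hc | hc
    · rw [fc_zero hc]; positivity
    · have h1 := fc_step hY hE hρ hPB hX
      have h2 := ih (X / 2) (by positivity) (by rw [pow_succ] at h; linarith)
      have h3 : (EF.card : ℝ) ≤ EF.card / Y * X := by
        rw [div_mul_eq_mul_div, le_div_iff₀ hY]
        exact mul_le_mul_of_nonneg_left hc (Nat.cast_nonneg _)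
      calc fc k Y E X ≤ ρ * X + (EF.card + fc k Y E (X / 2)) := h1
        _ ≤ ρ * X + (EF.card / Y * X + (2 * ρ + 2 * (EF.card / Y)) * (X / 2)) := by linarith
        _ = _ := by ring

/-- the positive side -/
theorem spread_pos {k : ℤ} (hk : Odd k) (hk3 : IsCoprime k 3) {ε : ℝ} (hε : 0 < ε) :
    ∃ C : ℝ, 0 < C ∧ ∃ Y₀ : ℝ, 2 ≤ Y₀ ∧ ∀ Y : ℝ, Y₀ ≤ Y → ∀ (E : Set ℤ) (EF : Finset ℤ),
      (∀ y ∈ E, |(y : ℝ)| < Y → y ∈ EF) → ∀ X : ℝ, 0 < X →
        fc k Y E X ≤ C * X * ((EF.card : ℝ) * Y ^ (ε - 1) + Y ^ (-(6 / 100 : ℝ))) := by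
  obtain ⟨C, hC, Y₀, hY₀, h⟩ := spread_PB hk hk3 hε
  refine ⟨2 * C + 2, by positivity, Y₀, hY₀, ?_⟩
  intro Y hY E EF hE X hX
  have hY2 : 2 ≤ Y := hY₀.trans hY
  have hY0 : 0 < Y := by linarith
  set D : ℝ := (EF.card : ℝ) * Y ^ (ε - 1) + Y ^ (-(6 / 100 : ℝ)) with hD
  have hYc : 0 < Y ^ (-(6 / 100 : ℝ)) := Real.rpow_pos_of_pos hY0 _
  have hD0 : 0 ≤ D := by positivity
  obtain ⟨n, hn⟩ := pow_unbounded_of_one_lt (X / Y) (show (1 : ℝ) < 2 by norm_num)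
  rw [div_lt_iff₀ hY0] at hn
  have h1 := fc_bound hY0 hE (by positivity) (h Y hY E EF hE) n X hX hn
  refine h1.trans ?_
  have h2 : (EF.card : ℝ) / Y ≤ D := by
    have h3 : (EF.card : ℝ) / Y ≤ EF.card * Y ^ (ε - 1) := by
      rw [div_eq_mul_inv]
      apply mul_le_mul_of_nonneg_left _ (Nat.cast_nonneg _)
      rw [← Real.rpow_neg_one]
      apply Real.rpow_le_rpow_of_exponent_le (by linarith)
      linarith
    linarith
  calc (2 * (C * D) + 2 * ((EF.card : ℝ) / Y)) * X ≤ (2 * (C * D) + 2 * D) * X := by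
        apply mul_le_mul_of_nonneg_right _ hX.le
        linarith
    _ = _ := by ring

/-! ### Both signs -/

theorem Tz_neg {k : ℤ} (hk : Odd k) (x : ℤ) : Tz (-k) (-x) = -Tz k x := by
  obtain ⟨t, ht⟩ := hk
  unfold Tz
  by_cases h : x % 2 = 0
  · rw [if_pos h, if_pos (by omega)]; omega
  · rw [if_neg h, if_neg (by omega)]; omega

theorem Tz_neg_iter {k : ℤ} (hk : Odd k) (x : ℤ) (n : ℕ) : (Tz (-k))^[n] (-x) = -(Tz k)^[n] x := by
  induction n with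
  | zero => rfl
  | succ n ih => rw [Function.iterate_succ_apply', Function.iterate_succ_apply', ih, Tz_neg hk]

theorem SZk_neg {k : ℤ} (hk : Odd k) {Y : ℝ} {E : Set ℤ} {x : ℤ} (h : x ∈ SZk k Y E) :
    -x ∈ SZk (-k) Y {y | -y ∈ E} := by
  rw [mem_SZk] at h ⊢
  obtain ⟨h1, n, h2, h3, h4⟩ := h
  refine ⟨by rwa [Int.cast_neg, abs_neg], n, ?_, ?_, ?_⟩
  · intro j hj
    rw [Tz_neg_iter hk, Int.cast_neg, abs_neg]
    exact h2 j hj
  · rwa [Tz_neg_iter hk, Int.cast_neg, abs_neg]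
  · rw [Tz_neg_iter hk]
    change -(-(Tz k)^[n] x) ∈ E
    rwa [neg_neg]

theorem fin_abs (X : ℝ) (P : ℤ → Prop) : {x : ℤ | |(x : ℝ)| ≤ X ∧ P x}.Finite := by
  apply (Set.finite_Icc (-⌈X⌉) ⌈X⌉).subset
  rintro x ⟨hx, -⟩
  have h1 := abs_le.1 hx
  have h2 := Int.le_ceil X
  rw [Set.mem_Icc]
  constructor
  · have h3 : (-(⌈X⌉ : ℤ) : ℝ) ≤ x := by linarith
    exact_mod_cast h3
  · have h3 : (x : ℝ) ≤ (⌈X⌉ : ℤ) := by linarith
    exact_mod_cast h3

theorem triv_abs {X : ℝ} (hX : 1 ≤ X) (P : ℤ → Prop) :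
    ({x : ℤ | |(x : ℝ)| ≤ X ∧ P x}.ncard : ℝ) ≤ 3 * X :=
  Pool.Agent.H319R3.GC.ncard_trivial X hX _ (fun _ hx => hx.1)

/-- THE SPREAD OF FIRST PASSAGES -/
theorem spread_all {k : ℤ} (hk : Odd k) (hk3 : IsCoprime k 3) {ε : ℝ} (hε : 0 < ε) :
    ∃ C : ℝ, 0 < C ∧ ∀ Y : ℝ, 1 ≤ Y → ∀ (E : Set ℤ) (EF : Finset ℤ),
      (∀ y ∈ E, |(y : ℝ)| < Y → y ∈ EF) → ∀ X : ℝ, 1 ≤ X →
        ({x : ℤ | |(x : ℝ)| ≤ X ∧ x ∈ SZk k Y E}.ncard : ℝ) ≤
          C * X * ((EF.card : ℝ) * Y ^ (ε - 1) + Y ^ (-(6 / 100 : ℝ))) := by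
  classical
  have hk' : Odd (-k) := hk.neg
  have hk3' : IsCoprime (-k) 3 := hk3.neg_left
  obtain ⟨C₁, hC₁, Y₁, hY₁, h1⟩ := spread_pos hk hk3 hε
  obtain ⟨C₂, hC₂, Y₂, hY₂, h2⟩ := spread_pos hk' hk3' hε
  refine ⟨C₁ + C₂ + 3 * max Y₁ Y₂, by positivity, ?_⟩
  intro Y hY E EF hE X hX
  have hY0 : 0 < Y := by linarith
  have hX0 : 0 < X := by linarith
  set D : ℝ := (EF.card : ℝ) * Y ^ (ε - 1) + Y ^ (-(6 / 100 : ℝ)) with hD
  have hYc : 0 < Y ^ (-(6 / 100 : ℝ)) := Real.rpow_pos_of_pos hY0 _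
  have hE0 : 0 ≤ (EF.card : ℝ) * Y ^ (ε - 1) := by positivity
  have hD0 : 0 ≤ D := by positivity
  rcases lt_or_ge Y (max Y₁ Y₂) with hsm | hbig
  · refine (triv_abs hX _).trans ?_
    have h3 : 1 ≤ max Y₁ Y₂ * D := by
      have h4 : 1 ≤ max Y₁ Y₂ * Y ^ (-(6 / 100 : ℝ)) := by
        have h5 : Y * Y ^ (-(6 / 100 : ℝ)) ≤ max Y₁ Y₂ * Y ^ (-(6 / 100 : ℝ)) :=
          mul_le_mul_of_nonneg_right hsm.le hYc.le
        refine le_trans ?_ h5
        have h6 : Y * Y ^ (-(6 / 100 : ℝ)) = Y ^ (1 + -(6 / 100 : ℝ)) := by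
          rw [Real.rpow_add hY0, Real.rpow_one]
        rw [h6]
        exact Real.one_le_rpow hY (by norm_num)
      have h7 : max Y₁ Y₂ * Y ^ (-(6 / 100 : ℝ)) ≤ max Y₁ Y₂ * D := by
        apply mul_le_mul_of_nonneg_left _ (by positivity)
        linarith
      linarith
    have h4 : 0 ≤ (C₁ + C₂) * X * D := by positivity
    have h5 : 3 * X * 1 ≤ 3 * X * (max Y₁ Y₂ * D) := mul_le_mul_of_nonneg_left h3 (by positivity)
    calc 3 * X = 3 * X * 1 := (mul_one _).symm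
      _ ≤ 3 * X * (max Y₁ Y₂ * D) := h5
      _ ≤ (C₁ + C₂) * X * D + 3 * X * (max Y₁ Y₂ * D) := by linarith
      _ = _ := by ring
  · have hb1 : Y₁ ≤ Y := (le_max_left _ _).trans hbig
    have hb2 : Y₂ ≤ Y := (le_max_right _ _).trans hbig
    have h3 := h1 Y hb1 E EF hE X hX0
    have h4 := h2 Y hb2 {y | -y ∈ E} (EF.image (fun y => -y)) (by
      intro y hy hyY
      rw [mem_image]
      refine ⟨-y, hE _ hy (by rwa [Int.cast_neg, abs_neg]), neg_neg y⟩) X hX0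
    have hcimg : (EF.image (fun y => -y)).card = EF.card := card_image_of_injective _ neg_injective
    rw [hcimg] at h4
    have hsub : {x : ℤ | |(x : ℝ)| ≤ X ∧ x ∈ SZk k Y E} ⊆
        (((Icc (1 : ℤ) ⌊X⌋).filter (fun x => x ∈ SP k Y E) : Finset ℤ) : Set ℤ) ∪
        ((((Icc (1 : ℤ) ⌊X⌋).filter (fun x => x ∈ SP (-k) Y {y | -y ∈ E})).image (fun x => -x) :
          Finset ℤ) : Set ℤ) := by
      rintro x ⟨hx1, hx2⟩
      have hx3 := hx2
      rw [mem_SZk] at hx3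
      have hxY := hx3.1
      rcases lt_or_ge x 0 with hneg | hpos
      · right
        rw [mem_coe, mem_image]
        have hxR : (x : ℝ) < 0 := by exact_mod_cast hneg
        rw [abs_of_neg hxR] at hxY hx1
        refine ⟨-x, ?_, neg_neg x⟩
        rw [mem_filter, mem_Icc, Int.le_floor]
        refine ⟨⟨by omega, by push_cast; exact hx1⟩, SZk_neg hk hx2, by push_cast; exact hxY⟩
      · left
        have hxR : (0 : ℝ) ≤ x := by exact_mod_cast hpos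
        rw [abs_of_nonneg hxR] at hxY hx1
        have hx0 : 1 ≤ x := by
          have : (1 : ℝ) ≤ x := by linarith
          exact_mod_cast this
        rw [mem_coe, mem_filter, mem_Icc, Int.le_floor]
        exact ⟨⟨hx0, hx1⟩, hx2, hxY⟩
    have h5 := (Set.ncard_le_ncard hsub ((Finset.finite_toSet _).union (Finset.finite_toSet _))).trans
      (Set.ncard_union_le _ _)
    rw [Set.ncard_coe_finset, Set.ncard_coe_finset] at h5
    have h6 := h5.trans (Nat.add_le_add_left card_image_le _)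
    have h7 : ({x : ℤ | |(x : ℝ)| ≤ X ∧ x ∈ SZk k Y E}.ncard : ℝ) ≤
        fc k Y E X + fc (-k) Y {y | -y ∈ E} X := by
      unfold fc
      exact_mod_cast h6
    refine h7.trans ?_
    have h8 : 0 ≤ 3 * max Y₁ Y₂ * X * D := by positivity
    calc fc k Y E X + fc (-k) Y {y | -y ∈ E} X ≤ C₁ * X * D + C₂ * X * D := add_le_add h3 h4
      _ ≤ C₁ * X * D + C₂ * X * D + 3 * max Y₁ Y₂ * X * D := by linarith
      _ = _ := by ring

end Pool.Agent.U457.PS
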