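import Pool.Agent.U457.PS.Scales

/-! All scales, with the scale measured from the level of invariance: sets which are forward
invariant above a level `Z`, from the scales `l ≤ log (A / Z) ≤ 2 l` to all scales above, with an error
`K / l ^ B` that does not depend on `Z`. -/

set_option autoImplicit false

namespace Pool.Agent.U457.PS

open Finset
open Pool.Agent.H320R2.PD Pool.Agent.H499R2.ND
open Pool.Agent.H499R2.CO (Tz)
open Pool.Agent.R344.SP Pool.Agent.R344.TH

theorem Err_anti (d : ℤ) {A₁ A : ℝ} (h1 : 0 < A₁) (h : A₁ ≤ A) (k m m' : ℕ) :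
    Err d A k m m' ≤ Err d A₁ k m m' := by
  unfold Err
  have hA : 0 < A := by linarith
  have h2 : (2 * 3 ^ m / A : ℝ) ≤ 2 * 3 ^ m / A₁ :=
    div_le_div_of_nonneg_left (by positivity) h1 h
  have h3 : 0 ≤ ∑ T ∈ range (k * (3 * k) + 1), dev (FWT (3 * k) k T) wwt (fun w => (Wo w : ℤ)) (k + m) m' :=
    sum_nonneg fun _ _ => sum_nonneg fun _ _ => abs_nonneg _
  have hd0 : 0 ≤ |(d : ℝ)| := abs_nonneg _
  have h4 : (1 + 2 ^ (41 * k / 20) * (2 * 3 ^ m / A) : ℝ) ≤ 1 + 2 ^ (41 * k / 20) * (2 * 3 ^ m / A₁) := by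
    have := mul_le_mul_of_nonneg_left h2 (show (0 : ℝ) ≤ 2 ^ (41 * k / 20) by positivity)
    linarith
  have h5 := mul_le_mul_of_nonneg_right h4 h3
  have h6 : (1 + (|(d : ℝ)| + 2) * 2 ^ (41 * k / 20)) * (2 * 3 ^ m / A) ≤
      (1 + (|(d : ℝ)| + 2) * 2 ^ (41 * k / 20)) * (2 * 3 ^ m / A₁) :=
    mul_le_mul_of_nonneg_left h2 (by positivity)
  linarith

/-- all scales above the level `Z` -/
theorem scalesD {d : ℤ} (hd : Odd d) (hd3 : IsCoprime d 3) {γ : ℝ} (hγ0 : 0 < γ) (hγ : γ ≤ 1 / 2)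
    (B : ℕ) (hB : 1 ≤ B) :
    ∃ l₀ K : ℝ, 0 < l₀ ∧ 0 < K ∧ ∀ l : ℝ, l₀ ≤ l → ∀ (S : Set ℤ) (Z : ℝ), |(d : ℝ)| ≤ Z → 1 ≤ Z →
      FwdA d Z S → ∀ ρ : ℝ, 0 ≤ ρ →
      (∀ A : ℝ, 0 < A → l ≤ Real.log (A / Z) → Real.log (A / Z) ≤ 2 * l → ∀ m : ℕ,
        (m : ℝ) ≤ (Real.log (A / Z)) ^ (γ / 2) → PB S A m ρ) →
      ∀ A : ℝ, 0 < A → l ≤ Real.log (A / Z) → ∀ m : ℕ,
        (m : ℝ) ≤ (Real.log (A / Z)) ^ (γ / 2) → PB S A m (ρ + K / l ^ B) := by
  have hd2 : d % 2 = 1 := Int.odd_iff.1 hd
  obtain ⟨C, hC, herr⟩ := err_bound2 hγ0 hγ (B + 1) d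
  refine ⟨max 1000 ((16 : ℝ) ^ (1 / γ)), 2 * C, by positivity, by positivity, ?_⟩
  intro l hl S Z hdZ hZ1 hfwd ρ hρ0 hbase
  have hZ0 : 0 < Z := by linarith
  have hl1000 : 1000 ≤ l := (le_max_left _ _).trans hl
  have hl16 : (16 : ℝ) ^ (1 / γ) ≤ l := (le_max_right _ _).trans hl
  have hl0 : 0 < l := by linarith
  have h16 : ∀ t : ℝ, l ≤ t → 16 ≤ t ^ γ := by
    intro t ht
    have h1 : ((16 : ℝ) ^ (1 / γ)) ^ γ ≤ t ^ γ :=
      Real.rpow_le_rpow (by positivity) (hl16.trans ht) hγ0.le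
    rwa [← Real.rpow_mul (by positivity), one_div, inv_mul_cancel₀ hγ0.ne', Real.rpow_one] at h1
  have hln2a := Real.log_two_gt_d9
  have hln2b := Real.log_two_lt_d9
  have hplB : 0 < l ^ B := by positivity
  have hmono : ∀ s : ℝ, l ≤ s → 1 / s ^ B ≤ 1 / l ^ B := fun s hs =>
    one_div_le_one_div_of_le hplB (pow_le_pow_left₀ hl0.le hs B)
  have hbase' : ∀ A : ℝ, 0 < A → l ≤ Real.log (A / Z) → Real.log (A / Z) ≤ 2 * l → ∀ m : ℕ,
      (m : ℝ) ≤ (Real.log (A / Z)) ^ (γ / 2) →
        PB S A m (ρ + C * (2 * (1 / l ^ B) - 1 / (Real.log (A / Z)) ^ B)) := by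
    intro A hA hlA hcase m hm u v hu
    refine (hbase A hA hlA hcase m hm u v hu).trans ?_
    apply mul_le_mul_of_nonneg_right _ (by positivity)
    have h2 := hmono _ hlA
    have h3 : 0 ≤ C * (2 * (1 / l ^ B) - 1 / Real.log (A / Z) ^ B) := by
      apply mul_nonneg hC.le
      have : 0 < 1 / l ^ B := by positivity
      linarith
    linarith
  have main : ∀ n : ℕ, ∀ A : ℝ, 0 < A → l ≤ Real.log (A / Z) → Real.log (A / Z) ≤ l + n → ∀ m : ℕ,
      (m : ℝ) ≤ (Real.log (A / Z)) ^ (γ / 2) →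
        PB S A m (ρ + C * (2 * (1 / l ^ B) - 1 / (Real.log (A / Z)) ^ B)) := by
    intro n
    induction n with
    | zero =>
      intro A hA hlA hAn m hm
      rw [Nat.cast_zero, add_zero] at hAn
      exact hbase' A hA hlA (by linarith) m hm
    | succ n ih =>
      intro A hA hlA hAn m hm
      rcases le_or_gt (Real.log (A / Z)) (2 * l) with hcase | hcase
      · exact hbase' A hA hlA hcase m hm
      have hA₁ : 0 < A / Z := by positivity
      have hA₁A : A / Z ≤ A := div_le_self hA.le hZ1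
      set t := Real.log (A / Z) with htdef
      have ht0 : 0 < t := by linarith
      have hexpA : Real.exp t = A / Z := Real.exp_log hA₁
      obtain ⟨k, hk⟩ : ∃ k : ℕ, k = ⌊t ^ γ⌋₊ := ⟨_, rfl⟩
      obtain ⟨m', hm'⟩ : ∃ m' : ℕ, m' = ⌊(0.9 * t) ^ (γ / 2)⌋₊ := ⟨_, rfl⟩
      have ht1000 : 1000 ≤ t := by linarith
      set r := t ^ (γ / 2) with hr
      have hrsq : r ^ 2 = t ^ γ := by
        rw [hr, ← Real.rpow_natCast, ← Real.rpow_mul ht0.le]; congr 1; push_cast; ring
      have hr0 : 0 < r := by positivity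
      have ht16 := h16 t hlA
      have hr4 : 4 ≤ r := by
        by_contra hcon
        push Not at hcon
        nlinarith
      have hsqrt : t ^ γ ≤ Real.sqrt t := by
        rw [Real.sqrt_eq_rpow]
        exact Real.rpow_le_rpow_of_exponent_le (by linarith) hγ
      have hsq31 : Real.sqrt t ≤ t / 31 := by
        rw [Real.sqrt_le_left (by positivity)]
        nlinarith
      have hk1 : (k : ℝ) ≤ t ^ γ := by rw [hk]; exact Nat.floor_le (by positivity)
      have hk2 : t ^ γ - 1 ≤ k := by rw [hk]; linarith [Nat.lt_floor_add_one (t ^ γ)]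
      have hk15 : (15 : ℝ) ≤ k := by linarith
      have hk1N : 1 ≤ k := by
        have : (1 : ℝ) ≤ k := by linarith
        exact_mod_cast this
      have hm'2 : (m' : ℝ) ≤ r := by
        rw [hm']
        refine (Nat.floor_le (by positivity)).trans ?_
        exact Real.rpow_le_rpow (by positivity) (by linarith) (by positivity)
      have hm'k : m' ≤ k := by
        have : (m' : ℝ) ≤ k := by nlinarith
        exact_mod_cast this
      have hpath : (2 : ℝ) ^ (41 * k / 20) * Z ≤ A := by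
        rw [← le_div_iff₀ hZ0, ← hexpA]
        have e1 : (2 : ℝ) ^ (41 * k / 20) = Real.exp (((41 * k / 20 : ℕ) : ℝ) * Real.log 2) := by
          rw [Real.exp_nat_mul, Real.exp_log (by norm_num)]
        rw [e1]
        apply Real.exp_le_exp.2
        have e3 : 20 * (41 * k / 20) ≤ 41 * k := Nat.mul_div_le _ _
        have e4 : (20 : ℝ) * ((41 * k / 20 : ℕ) : ℝ) ≤ 41 * k := by exact_mod_cast e3
        have e5 : ((41 * k / 20 : ℕ) : ℝ) * Real.log 2 ≤ (41 / 20 * t ^ γ) * 0.6931471808 :=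
          mul_le_mul (by linarith) hln2b.le (by linarith) (by positivity)
        have e6 : 0 < t ^ γ := by positivity
        nlinarith
      have hE := (Err_anti d hA₁ hA₁A k m m').trans (herr (A / Z) hA₁ ht1000 hr4 k m m' hm hk hm')
      rw [← htdef] at hE
      have ht1l : l ≤ t - 1 := by linarith
      have hρ : 0 ≤ ρ + C * (2 * (1 / l ^ B) - 1 / (t - 1) ^ B) := by
        have e1 := hmono (t - 1) ht1l
        have e2 : 0 < 1 / l ^ B := by positivity
        have e3 : 0 ≤ C * (2 * (1 / l ^ B) - 1 / (t - 1) ^ B) := mul_nonneg hC.le (by linarith)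
        linarith
      have hst := stageA hd hd3 (Z := Z) hdZ hfwd hA hk1N hm'k (m := m) hpath hρ (by
        intro T hT1 hT2
        have hn := next_scale2 hA₁ hT1 hT2
        rw [← htdef] at hn
        have hA'pos : 0 < A * 3 ^ k / 2 ^ T := by positivity
        have heq : A * 3 ^ k / 2 ^ T / Z = A / Z * 3 ^ k / 2 ^ T := by
          field_simp
        rw [← heq] at hn
        have hge : l ≤ Real.log (A * 3 ^ k / 2 ^ T / Z) := by
          have : 0 < t ^ γ := by positivity
          linarith [hn.1]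
        have hih := ih (A * 3 ^ k / 2 ^ T) hA'pos hge (by
            push_cast at hAn
            linarith [hn.2]) m' (by
            rw [hm']
            refine (Nat.floor_le (by positivity)).trans ?_
            apply Real.rpow_le_rpow (by positivity) _ (by positivity)
            linarith [hn.1])
        intro u v hu
        refine (hih u v hu).trans ?_
        apply mul_le_mul_of_nonneg_right _ (by positivity)
        apply add_le_add_right
        apply mul_le_mul_of_nonneg_left _ hC.le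
        have : 1 / (t - 1) ^ B ≤ 1 / Real.log (A * 3 ^ k / 2 ^ T / Z) ^ B :=
          one_div_le_one_div_of_le (pow_pos (by linarith) B)
            (pow_le_pow_left₀ (by linarith) (by linarith [hn.2]) B)
        linarith)
      intro u v hu
      refine (hst u v hu).trans ?_
      apply mul_le_mul_of_nonneg_right _ (by positivity)
      have e1 := pow_step B hB (t := t) (by linarith)
      have e2 := mul_le_mul_of_nonneg_left e1 hC.le
      have e3 : C / t ^ (B + 1) = C * (1 / t ^ (B + 1)) := by ring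
      rw [e3] at hE
      rw [mul_sub, mul_sub]
      linarith
  intro A hA hc m hm
  obtain ⟨n, hn⟩ := exists_nat_ge (Real.log (A / Z) - l)
  have h1 := main n A hA hc (by linarith) m hm
  intro u v hu
  refine (h1 u v hu).trans ?_
  apply mul_le_mul_of_nonneg_right _ (by positivity)
  have e1 : 0 < 1 / (Real.log (A / Z)) ^ B := by
    have : 0 < Real.log (A / Z) := by linarith
    positivity
  have e2 : 2 * C / l ^ B = C * (2 * (1 / l ^ B)) := by ring
  rw [e2]
  have := mul_nonneg hC.le e1.le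
  rw [mul_sub]
  linarith

end Pool.Agent.U457.PS
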