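import Pool.Agent.U457.PS.Thin1
import Pool.Agent.U457.PS.ScalesD

/-! The crude bound near the level: first passages in a set, without any mixing. -/

set_option autoImplicit false

namespace Pool.Agent.U457.PS

open Finset Filter Topology
open Pool.Agent.H499R2.CO (Tz)
open Pool.Agent.TH930.EBQ (words wd ones wd_mem wd_inj iter_eq card_words)
open Pool.Agent.H828R3.GP (card_ap)
open Pool.Agent.H499R2.ND (cls mem_cls cls_unit)

/-- the multiplier bounds the iterate -/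
theorem mult2 {k : ℤ} (hk : Odd k) {z : ℝ} (hz : 0 < z) {n : ℕ} (hn : 4 * (n : ℝ) * |(k : ℝ)| ≤ z) {w : ℤ}
    (hst : ∀ j < n, z ≤ |(((Tz k)^[j] w : ℤ) : ℝ)|) :
    (2 : ℝ) ^ n * |(((Tz k)^[n] w : ℤ) : ℝ)| ≤ 2 * (3 ^ ones (wd k n w) * |(w : ℝ)|) := by
  have h6 := app3 hk hz hn hst
  set y : ℝ := (((Tz k)^[n] w : ℤ) : ℝ) with hy
  set M : ℝ := (3 : ℝ) ^ ones (wd k n w) with hM
  have hM0 : 0 < M := by positivity
  have hD : (0 : ℝ) < 2 ^ n := by positivity
  have h8 : n * (2 * |(k : ℝ)| / z) ≤ 1 / 2 := by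
    rw [mul_div_assoc', div_le_iff₀ hz]; linarith
  have h9 : |M * w - (2 : ℝ) ^ n * y| ≤ 1 / 2 * ((2 : ℝ) ^ n * |y|) :=
    h6.trans (mul_le_mul_of_nonneg_right h8 (by positivity))
  have e1 : (2 : ℝ) ^ n * |y| = |(2 : ℝ) ^ n * y| := by rw [abs_mul, abs_of_pos hD]
  have e2 := abs_sub_abs_le_abs_sub ((2 : ℝ) ^ n * y) (M * w)
  rw [abs_sub_comm, ← e1, abs_mul M, abs_of_pos hM0] at e2
  linarith

theorem sqrt_sum : (1 / 2 : ℝ) ^ (1 / 2 : ℝ) + (3 / 2 : ℝ) ^ (1 / 2 : ℝ) ≤ 1.932 := by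
  rw [← Real.sqrt_eq_rpow, ← Real.sqrt_eq_rpow]
  have h1 : Real.sqrt (1 / 2) ≤ 0.7072 := by
    rw [Real.sqrt_le_left (by norm_num)]; norm_num
  have h2 : Real.sqrt (3 / 2) ≤ 1.2248 := by
    rw [Real.sqrt_le_left (by norm_num)]; norm_num
  linarith

/-- the words with a large multiplier -/
theorem card_sw (n : ℕ) {M : ℝ} (hM : 0 < M) (V : Finset (List Bool)) (hV : V ⊆ words n)
    (h : ∀ v ∈ V, (2 : ℝ) ^ n ≤ M * 3 ^ ones v) : (V.card : ℝ) ≤ M ^ (1 / 2 : ℝ) * 1.932 ^ n := by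
  have h1 : ∀ v ∈ V, (1 : ℝ) ≤ M ^ (1 / 2 : ℝ) * ((3 : ℝ) ^ ones v / 2 ^ n) ^ (1 / 2 : ℝ) := by
    intro v hv
    have h2 := h v hv
    rw [← Real.mul_rpow hM.le (by positivity)]
    apply Real.one_le_rpow _ (by norm_num)
    rw [← mul_div_assoc, le_div_iff₀ (by positivity)]
    linarith
  calc (V.card : ℝ) = ∑ v ∈ V, (1 : ℝ) := by simp
    _ ≤ ∑ v ∈ V, M ^ (1 / 2 : ℝ) * ((3 : ℝ) ^ ones v / 2 ^ n) ^ (1 / 2 : ℝ) := sum_le_sum h1
    _ ≤ ∑ v ∈ words n, M ^ (1 / 2 : ℝ) * ((3 : ℝ) ^ ones v / 2 ^ n) ^ (1 / 2 : ℝ) := by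
        apply sum_le_sum_of_subset_of_nonneg hV
        intro v _ _
        positivity
    _ = M ^ (1 / 2 : ℝ) * ((1 / 2 : ℝ) ^ (1 / 2 : ℝ) + (3 / 2 : ℝ) ^ (1 / 2 : ℝ)) ^ n := by
        rw [← mul_sum, sum_weight]
    _ ≤ _ := by
        apply mul_le_mul_of_nonneg_left _ (by positivity)
        exact pow_le_pow_left₀ (by positivity) sqrt_sum n

theorem geo2 (n : ℕ) : (∑ i ∈ range n, 2 ^ i) + 1 = 2 ^ n := by
  induction n with
  | zero => simp
  | succ n ih => rw [sum_range_succ, pow_succ]; omega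

/-- at most one integer with a given word and a given iterate -/
theorem wd_iter_inj {k : ℤ} (hk : Odd k) {n : ℕ} {x y : ℤ} (h1 : wd k n x = wd k n y)
    (h2 : (Tz k)^[n] x = (Tz k)^[n] y) : x = y := by
  have hT : Pool.Agent.TH930.EBQ.T k = Tz k := by
    ext z
    rfl
  have hx := iter_eq hk n x
  have hy := iter_eq hk n y
  rw [hT] at hx hy
  rw [h1, h2, hy] at hx
  have h3 : (3 : ℤ) ^ ones (wd k n y) * x = 3 ^ ones (wd k n y) * y := by linarith
  exact mul_left_cancel₀ (by positivity) h3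

/-- THE CRUDE BOUND -/
theorem crude {k : ℤ} (hk : Odd k) {Y : ℝ} (hY : 0 < Y) {N : ℕ} (hN : 4 * (N : ℝ) * |(k : ℝ)| ≤ Y)
    {E : Set ℤ} {EF : Finset ℤ} (hE : ∀ y ∈ E, |(y : ℝ)| < Y → y ∈ EF) {A : ℝ} (hA0 : 0 < A)
    {m : ℕ} (hm : (2 : ℝ) ^ N * 3 ^ m ≤ A) :
    Pool.Agent.H499R2.ND.PB (SZk k Y E) A m (2 ^ (N + 2) * 3 ^ m * (EF.card / A) +
      4 * ((4 * A / Y) ^ (1 / 2 : ℝ) * (1.932 / 2) ^ N)) := by
  classical
  intro u v hu
  obtain ⟨c, hc⟩ := cls_unit (SZk k Y E) A (2 * A) m hu v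
  rw [hc]
  set S := cls (SZk k Y E) A (2 * A) m 1 c with hS
  set S1 := S.filter (fun x => ∀ j ≤ N, Y ≤ |(((Tz k)^[j] x : ℤ) : ℝ)|) with hS1
  set S2 : ℕ → Finset ℤ := fun n => S.filter (fun x => (Tz k)^[n] x ∈ EF) with hS2
  have hsub : S ⊆ S1 ∪ (range (N + 1)).biUnion S2 := by
    intro x hx
    have hx' := hx
    rw [hS, mem_cls] at hx
    obtain ⟨-, -, h1, -⟩ := hx
    rw [mem_SZk] at h1
    obtain ⟨_, n, h2, h3, h4⟩ := h1
    rw [mem_union]
    rcases lt_or_ge N n with hcase | hcase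
    · left
      rw [hS1, mem_filter]
      exact ⟨hx', fun j hj => h2 j (by omega)⟩
    · right
      rw [mem_biUnion]
      refine ⟨n, mem_range.2 (by omega), ?_⟩
      rw [hS2, mem_filter]
      exact ⟨hx', hE _ h4 h3⟩
  have c2 : ((range (N + 1)).biUnion S2).card ≤ 2 ^ (N + 1) * EF.card := by
    refine card_biUnion_le.trans ?_
    have h1 : ∀ n ∈ range (N + 1), (S2 n).card ≤ 2 ^ n * EF.card := by
      intro n _
      have h2 : (S2 n).card ≤ (words n ×ˢ EF).card := by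
        apply card_le_card_of_injOn (fun x => (wd k n x, (Tz k)^[n] x))
        · intro x hx
          rw [hS2, mem_coe, mem_filter] at hx
          rw [mem_coe, mem_product]
          exact ⟨wd_mem k n x, hx.2⟩
        · intro x _ y _ hxy
          simp only [Prod.mk.injEq] at hxy
          exact wd_iter_inj hk hxy.1 hxy.2
      rwa [card_product, card_words] at h2
    refine (sum_le_sum h1).trans ?_
    rw [← sum_mul]
    apply Nat.mul_le_mul_right
    have := geo2 (N + 1)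
    omega
  set V : Finset (List Bool) := (words N).filter (fun v => (2 : ℝ) ^ N ≤ (4 * A / Y) * 3 ^ ones v) with hV
  have hVc := card_sw N (M := 4 * A / Y) (by positivity) V (filter_subset _ _) (by
    intro v hv
    rw [hV, mem_filter] at hv
    exact hv.2)
  have hSV : ∀ x ∈ S1, wd k N x ∈ V := by
    intro x hx
    rw [hS1, mem_filter, hS, mem_cls] at hx
    obtain ⟨⟨⟨h1, h2⟩, -, -, -⟩, h3⟩ := hx
    rw [hV, mem_filter]
    refine ⟨wd_mem k N x, ?_⟩
    have h4 := mult2 hk hY hN (w := x) (fun j hj => h3 j hj.le)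
    have h5 : |(x : ℝ)| ≤ 2 * A := by rw [abs_of_pos (by linarith)]; exact h2.le
    have h6 : (2 : ℝ) ^ N * Y ≤ 2 * (3 ^ ones (wd k N x) * (2 * A)) := by
      calc (2 : ℝ) ^ N * Y ≤ (2 : ℝ) ^ N * |(((Tz k)^[N] x : ℤ) : ℝ)| :=
            mul_le_mul_of_nonneg_left (h3 N le_rfl) (by positivity)
        _ ≤ 2 * (3 ^ ones (wd k N x) * |(x : ℝ)|) := h4
        _ ≤ _ := by
            apply mul_le_mul_of_nonneg_left _ (by norm_num)
            exact mul_le_mul_of_nonneg_left h5 (by positivity)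
    rw [div_mul_eq_mul_div, le_div_iff₀ hY]
    linarith
  have c1 : (S1.card : ℝ) ≤ V.card * (2 * A / (2 ^ N * 3 ^ m)) := by
    have h1 : S1.card = ∑ v ∈ V, (S1.filter (fun w => wd k N w = v)).card :=
      card_eq_sum_card_fiberwise (fun w hw => hSV w hw)
    have h2 : ∀ v ∈ V, (((S1.filter (fun w => wd k N w = v)).card : ℕ) : ℝ) ≤
        2 * A / (2 ^ N * 3 ^ m) := by
      intro v _
      rcases (S1.filter (fun w => wd k N w = v)).eq_empty_or_nonempty with h0 | ⟨w₀, hw₀⟩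
      · rw [h0, card_empty, Nat.cast_zero]; positivity
      have hcl : ∀ x ∈ S1.filter (fun w => wd k N w = v), (A ≤ x ∧ (x : ℝ) < 2 * A) ∧
          (3 : ℤ) ^ m ∣ 1 * x - c ∧ wd k N x = v := by
        intro x hx
        rw [mem_filter, hS1, mem_filter, hS, mem_cls] at hx
        exact ⟨hx.1.1.1, hx.1.1.2.2.2, hx.2⟩
      have hw₀' := hcl w₀ hw₀
      have h3 := card_ap (S1.filter (fun w => wd k N w = v)) (2 ^ N * 3 ^ m) (by positivity) w₀ A
        hA0.le (by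
          intro x hx
          have hx' := hcl x hx
          have d1 : (2 : ℤ) ^ N ∣ x - w₀ := wd_inj hk (hx'.2.2.trans hw₀'.2.2.symm)
          have d2 : (3 : ℤ) ^ m ∣ x - w₀ := by
            have := dvd_sub hx'.2.1 hw₀'.2.1
            rwa [show 1 * x - c - (1 * w₀ - c) = x - w₀ by ring] at this
          push_cast
          apply IsCoprime.mul_dvd _ d1 d2
          apply IsCoprime.pow
          rw [Int.isCoprime_iff_gcd_eq_one]; norm_num) (by
        intro x hx y hy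
        have hx1 := (hcl x hx).1
        have hy1 := (hcl y hy).1
        push_cast
        linarith [hx1.2, hy1.1])
      refine h3.trans ?_
      push_cast
      have h4 : (1 : ℝ) ≤ A / (2 ^ N * 3 ^ m) := by rw [le_div_iff₀ (by positivity)]; linarith
      have h5 : 2 * A / ((2 : ℝ) ^ N * 3 ^ m) = A / (2 ^ N * 3 ^ m) + A / (2 ^ N * 3 ^ m) := by
        rw [← add_div]; ring
      rw [h5]; linarith
    rw [h1]
    push_cast
    refine (sum_le_card_nsmul _ _ _ h2).trans ?_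
    rw [nsmul_eq_mul]
  have hfin := (card_le_card hsub).trans (card_union_le _ _)
  have hfin' : (S.card : ℝ) ≤ S1.card + (2 ^ (N + 1) * EF.card : ℝ) := by
    have := hfin.trans (Nat.add_le_add_left c2 _)
    exact_mod_cast this
  refine hfin'.trans ?_
  rw [add_mul]
  have e1 : (2 : ℝ) ^ (N + 2) * 3 ^ m * (EF.card / A) * (A / (2 * 3 ^ m)) = 2 ^ (N + 1) * EF.card := by
    rw [pow_succ, pow_succ]
    field_simp
  rw [e1]
  have e2 : (S1.card : ℝ) ≤ 4 * ((4 * A / Y) ^ (1 / 2 : ℝ) * (1.932 / 2) ^ N) * (A / (2 * 3 ^ m)) := by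
    refine c1.trans ?_
    calc (V.card : ℝ) * (2 * A / (2 ^ N * 3 ^ m)) ≤
        ((4 * A / Y) ^ (1 / 2 : ℝ) * 1.932 ^ N) * (2 * A / (2 ^ N * 3 ^ m)) :=
          mul_le_mul_of_nonneg_right hVc (by positivity)
      _ = _ := by rw [div_pow]; field_simp; ring
  linarith

end Pool.Agent.U457.PS
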