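import Pool.Agent.U457.PS.Low7

/-! Predecessors among all integers, reached as record lows at controlled times. -/

set_option autoImplicit false

namespace Pool.Agent.U457.PS

open Finset Filter Topology
open Pool.Agent.H499R2.CO (Tz)
open Pool.Agent.H320R2.PD (fT fT_halve)

/-- `a` is the first term of absolute value below `2 |a|` of the trajectory of `n`, after `t` steps -/
def LowZ (a n : ℤ) (t : ℕ) : Prop := (Tz 1)^[t] n = a ∧ ∀ j < t, 2 * |a| ≤ |(Tz 1)^[j] n|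

theorem minor_z : ∃ c K : ℝ, 0 < c ∧ 1 ≤ K ∧ ∀ a : ℤ, ¬ (3 : ℤ) ∣ a → ∀ X : ℝ, K * |(a : ℝ)| ≤ X →
    c * X / |(a : ℝ)| ≤ ({n : ℤ | |(n : ℝ)| ≤ X ∧ ∃ t : ℕ, 6 * Real.log (X / |(a : ℝ)|) - K ≤ t ∧
      (t : ℝ) ≤ 8 * Real.log (X / |(a : ℝ)|) + K ∧ LowZ a n t}.ncard : ℝ) := by
  classical
  obtain ⟨κ, C, K, A, D, hκ, hC, hK, hA, hD, hcore⟩ := low_core_t
  obtain ⟨J, hJ⟩ := pow_unbounded_of_one_lt (max A (2 / κ)) (by norm_num : (1 : ℝ) < 2)
  have hJA : A ≤ 2 ^ J := (le_max_left _ _).trans hJ.le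
  have hJκ : 2 ≤ κ * 2 ^ J := by
    have := (le_max_right A (2 / κ)).trans hJ.le
    rw [div_le_iff₀ hκ] at this
    linarith
  have h2J : (1 : ℝ) ≤ 2 ^ J := one_le_pow₀ (by norm_num)
  have hC0 : 0 < C := by linarith
  have hCJ : 1 ≤ C * 2 ^ J := by nlinarith
  have hlog : 0 ≤ Real.log (C * 2 ^ J) := Real.log_nonneg hCJ
  have hKC : 1 ≤ K * C * 2 ^ J := by
    have : 1 ≤ K * C := by nlinarith
    nlinarith
  have hJ0 : (0 : ℝ) ≤ J := Nat.cast_nonneg J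
  refine ⟨1 / (64 * C * 2 ^ J), K * C * 2 ^ J + 6 * Real.log (C * 2 ^ J) + 5 + D + J, by positivity,
    by linarith, ?_⟩
  intro a ha X hX
  have ha1 : 1 ≤ |(a : ℝ)| := by
    have : a ≠ 0 := by rintro rfl; exact ha (dvd_zero 3)
    have h1 : 1 ≤ |a| := Int.one_le_abs this
    exact_mod_cast h1
  have ha0 : 0 < |(a : ℝ)| := by linarith
  have hX' : K * C * 2 ^ J * |(a : ℝ)| ≤ X := by
    refine le_trans (mul_le_mul_of_nonneg_right ?_ ha0.le) hX
    linarith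
  have hX0 : 0 < X := lt_of_lt_of_le (by positivity) hX'
  set b : ℤ := 2 ^ J * a with hb
  have hbabs : |(b : ℝ)| = 2 ^ J * |(a : ℝ)| := by
    rw [hb]; push_cast; rw [abs_mul, abs_pow, abs_two]
  have hb3 : ¬ (3 : ℤ) ∣ b := by
    intro h
    have hc : IsCoprime (3 : ℤ) (2 ^ J) := IsCoprime.pow_right (by norm_num)
    exact ha (hc.dvd_of_dvd_mul_left h)
  have hbA : A ≤ |(b : ℝ)| := by rw [hbabs]; nlinarith
  have hb0 : 0 < |(b : ℝ)| := by linarith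
  set Y : ℝ := X / (C * |(b : ℝ)|) with hY
  have hKpos : 0 < K := by linarith
  have hYK : K ≤ Y := by
    rw [hY, le_div_iff₀ (by positivity), hbabs]
    refine le_trans (le_of_eq ?_) hX'
    ring
  have hYe : Y = X / |(a : ℝ)| / (C * 2 ^ J) := by rw [hY, hbabs]; field_simp
  have hlY : Real.log Y = Real.log (X / |(a : ℝ)|) - Real.log (C * 2 ^ J) := by
    rw [hYe, Real.log_div (by positivity) (by positivity)]
  obtain ⟨S, hS, hcard⟩ := hcore b hb3 hbA Y hYK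
  have hZ1 : (2 : ℝ) * |(a : ℝ)| ≤ κ * |(b : ℝ)| := by
    rw [hbabs, ← mul_assoc]
    exact mul_le_mul_of_nonneg_right hJκ ha0.le
  have hfl : ∀ p ∈ S, (∀ j < p.2 + J, (2 : ℝ) * |(a : ℝ)| ≤ |((fT^[j] p.1 : ℤ) : ℝ)|) ∧
      fT^[p.2 + J] p.1 = a := by
    intro p hp
    exact first_low (hS p hp).2.1 hZ1 le_rfl
  have hazZ : |(a : ℝ)| < 2 * |(a : ℝ)| := by linarith
  have hinj : Set.InjOn Prod.fst (S : Set (ℤ × ℕ)) := by
    intro p hp q hq h
    obtain ⟨h1, h2⟩ := hfl p hp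
    obtain ⟨h3, h4⟩ := hfl q hq
    rw [← h] at h3 h4
    have := first_unique h1 (by rw [h2]; exact hazZ) h3 (by rw [h4]; exact hazZ)
    exact Prod.ext h (by omega)
  have hsub : ((S.image Prod.fst : Finset ℤ) : Set ℤ) ⊆
      {n : ℤ | |(n : ℝ)| ≤ X ∧ ∃ t : ℕ, 6 * Real.log (X / |(a : ℝ)|) -
      (K * C * 2 ^ J + 6 * Real.log (C * 2 ^ J) + 5 + D + J) ≤ t ∧
      (t : ℝ) ≤ 8 * Real.log (X / |(a : ℝ)|) + (K * C * 2 ^ J + 6 * Real.log (C * 2 ^ J) + 5 + D + J) ∧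
      LowZ a n t} := by
    intro y hy
    rw [mem_coe, mem_image] at hy
    obtain ⟨p, hp, rfl⟩ := hy
    obtain ⟨h1, h2⟩ := hfl p hp
    obtain ⟨h3, h4, h5, h6⟩ := hS p hp
    refine ⟨?_, p.2 + J, ?_, ?_, ?_, ?_⟩
    · refine h3.trans (le_of_eq ?_)
      rw [hY]
      field_simp
    · push_cast
      rw [hlY] at h5
      nlinarith
    · push_cast
      rw [hlY] at h6
      nlinarith
    · rw [← fT_eq_Tz]; exact h2
    · intro j hj
      have := h1 j hj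
      rw [← fT_eq_Tz]
      exact_mod_cast this
  have h6 := Set.ncard_le_ncard hsub (fin_abs X _)
  rw [Set.ncard_coe_finset, card_image_of_injOn hinj] at h6
  refine le_trans ?_ (hcard.trans (Nat.cast_le.2 h6))
  rw [hYe]
  apply le_of_eq
  field_simp

end Pool.Agent.U457.PS
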