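import Pool.Agent.U457.PS.Low5

/-! The Harnack inequality in the form of the final statement; cycles; merging pairs. -/

set_option autoImplicit false

namespace Pool.Agent.U457.PS

open Finset Filter Topology
open Pool.Agent.H499R2.CO (Tz)

/-- number of the integers up to `X` with the property `P` -/
noncomputable def ctX (X : ℝ) (P : ℤ → Prop) : ℝ := ({n : ℤ | |(n : ℝ)| ≤ X ∧ P n}.ncard : ℝ)

theorem ctX_mono {X : ℝ} {P Q : ℤ → Prop} (h : ∀ n : ℤ, |(n : ℝ)| ≤ X → P n → Q n) :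
    ctX X P ≤ ctX X Q := by
  unfold ctX
  have hsub : {n : ℤ | |(n : ℝ)| ≤ X ∧ P n} ⊆ {n : ℤ | |(n : ℝ)| ≤ X ∧ Q n} := by
    rintro n ⟨h1, h2⟩
    exact ⟨h1, h n h1 h2⟩
  exact_mod_cast Set.ncard_le_ncard hsub (fin_abs X _)

theorem ctX_nonneg (X : ℝ) (P : ℤ → Prop) : 0 ≤ ctX X P := Nat.cast_nonneg _

theorem Tz1_zero_iff (x : ℤ) : Tz 1 x = 0 ↔ x = 0 := by
  constructor
  · intro h
    by_contra hx
    exact Tz1_ne hx h
  · rintro rfl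
    rw [Tz1_even (by norm_num)]
    norm_num

theorem harnack' : ∃ C : ℝ, 1 ≤ C ∧ ∀ B : Set ℤ, (∀ x, x ∈ B ↔ Tz 1 x ∈ B) → ∀ Y X : ℝ,
    1 ≤ Y → Y ≤ X → ctX Y (fun n => n ∈ B ∧ n ≠ 0) / Y ≤ C * (ctX X (fun n => n ∈ B ∧ n ≠ 0) / X) := by
  obtain ⟨C, hC, h⟩ := harnack
  refine ⟨2 * C, by linarith, ?_⟩
  intro B hB Y X hY hYX
  have hX : 1 ≤ X := hY.trans hYX
  have hX0 : 0 < X := by linarith
  have hY0 : 0 < Y := by linarith
  have hB' : ∀ x, x ∈ {x | x ∈ B ∧ x ≠ 0} ↔ Tz 1 x ∈ {x | x ∈ B ∧ x ≠ 0} := by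
    intro x
    constructor
    · rintro ⟨h1, h2⟩
      exact ⟨(hB x).1 h1, Tz1_ne h2⟩
    · rintro ⟨h1, h2⟩
      refine ⟨(hB x).2 h1, ?_⟩
      rintro rfl
      exact h2 ((Tz1_zero_iff 0).2 rfl)
  have hN : NB {x | x ∈ B ∧ x ≠ 0} X = ctX X (fun n => n ∈ B ∧ n ≠ 0) := rfl
  have hN0 := ctX_nonneg X (fun n => n ∈ B ∧ n ≠ 0)
  rw [← mul_div_assoc, div_le_div_iff₀ hY0 hX0]
  rcases le_or_gt (2 * Y) X with hc | hc
  · have h1 := h _ hB' (2 * Y) X (by linarith) hc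
    rw [hN] at h1
    have h2 : ctX Y (fun n => n ∈ B ∧ n ≠ 0) ≤
        ({b : ℤ | b ∈ {x | x ∈ B ∧ x ≠ 0} ∧ b ≠ 0 ∧ |(b : ℝ)| < 2 * Y}.ncard : ℝ) := by
      unfold ctX
      have hsub : {n : ℤ | |(n : ℝ)| ≤ Y ∧ n ∈ B ∧ n ≠ 0} ⊆
          {b : ℤ | b ∈ {x | x ∈ B ∧ x ≠ 0} ∧ b ≠ 0 ∧ |(b : ℝ)| < 2 * Y} := by
        rintro n ⟨g1, g2, g3⟩
        exact ⟨⟨g2, g3⟩, g3, by linarith⟩
      have hfin : {b : ℤ | b ∈ {x | x ∈ B ∧ x ≠ 0} ∧ b ≠ 0 ∧ |(b : ℝ)| < 2 * Y}.Finite := by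
        refine (fin_lt (2 * Y) (fun _ => True)).subset ?_
        rintro w ⟨_, _, h2⟩
        exact ⟨trivial, h2⟩
      exact_mod_cast Set.ncard_le_ncard hsub hfin
    have h3 := mul_le_mul_of_nonneg_right h2 hX0.le
    linarith
  · have h1 : ctX Y (fun n => n ∈ B ∧ n ≠ 0) ≤ ctX X (fun n => n ∈ B ∧ n ≠ 0) := by
      unfold ctX
      have hsub : {n : ℤ | |(n : ℝ)| ≤ Y ∧ n ∈ B ∧ n ≠ 0} ⊆ {n : ℤ | |(n : ℝ)| ≤ X ∧ n ∈ B ∧ n ≠ 0} := by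
        rintro n ⟨g1, g2⟩
        exact ⟨g1.trans hYX, g2⟩
      exact_mod_cast Set.ncard_le_ncard hsub (fin_abs X _)
    have h2 : ctX Y (fun n => n ∈ B ∧ n ≠ 0) * X ≤ ctX X (fun n => n ∈ B ∧ n ≠ 0) * (2 * Y) :=
      mul_le_mul h1 hc.le hX0.le hN0
    have h3 : 0 ≤ ctX X (fun n => n ∈ B ∧ n ≠ 0) * Y := by positivity
    nlinarith

theorem harnack_back' : ∃ C : ℝ, 1 ≤ C ∧ ∀ B : Set ℤ, (∀ x, Tz 1 x ∈ B → x ∈ B) → ∀ Y X : ℝ,
    1 ≤ Y → Y ≤ X → ctX Y (fun n => n ∈ B ∧ ¬ (3 : ℤ) ∣ n) / Y ≤ C * (ctX X (fun n => n ∈ B) / X) := by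
  obtain ⟨C, hC, h⟩ := harnack_back
  refine ⟨2 * C, by linarith, ?_⟩
  intro B hB Y X hY hYX
  have hX : 1 ≤ X := hY.trans hYX
  have hX0 : 0 < X := by linarith
  have hY0 : 0 < Y := by linarith
  have hN : NB B X = ctX X (fun n => n ∈ B) := rfl
  have hN0 := ctX_nonneg X (fun n => n ∈ B)
  rw [← mul_div_assoc, div_le_div_iff₀ hY0 hX0]
  rcases le_or_gt (2 * Y) X with hc | hc
  · have h1 := h _ hB (2 * Y) X (by linarith) hc
    rw [hN] at h1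
    have h2 : ctX Y (fun n => n ∈ B ∧ ¬ (3 : ℤ) ∣ n) ≤ gB B (2 * Y) := by
      unfold ctX gB
      have hsub : {n : ℤ | |(n : ℝ)| ≤ Y ∧ n ∈ B ∧ ¬ (3 : ℤ) ∣ n} ⊆
          {b : ℤ | b ∈ B ∧ ¬ (3 : ℤ) ∣ b ∧ |(b : ℝ)| < 2 * Y} := by
        rintro n ⟨g1, g2, g3⟩
        exact ⟨g2, g3, by linarith⟩
      exact_mod_cast Set.ncard_le_ncard hsub (gB_fin B (2 * Y))
    have h3 := mul_le_mul_of_nonneg_right h2 hX0.le
    linarith
  · have h1 : ctX Y (fun n => n ∈ B ∧ ¬ (3 : ℤ) ∣ n) ≤ ctX X (fun n => n ∈ B) := by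
      unfold ctX
      have hsub : {n : ℤ | |(n : ℝ)| ≤ Y ∧ n ∈ B ∧ ¬ (3 : ℤ) ∣ n} ⊆ {n : ℤ | |(n : ℝ)| ≤ X ∧ n ∈ B} := by
        rintro n ⟨g1, g2, _⟩
        exact ⟨g1.trans hYX, g2⟩
      exact_mod_cast Set.ncard_le_ncard hsub (fin_abs X _)
    have h2 : ctX Y (fun n => n ∈ B ∧ ¬ (3 : ℤ) ∣ n) * X ≤ ctX X (fun n => n ∈ B) * (2 * Y) :=
      mul_le_mul h1 hc.le hX0.le hN0
    have h3 : 0 ≤ ctX X (fun n => n ∈ B) * Y := by positivity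
    nlinarith

/-- the cycle of a periodic point -/
theorem cyc_inj {x : ℤ} {p : ℕ} (hp : 0 < p) (hx : (Tz 1)^[p] x = x) :
    (∀ y ∈ {y : ℤ | ∃ i < p, (Tz 1)^[i] x = y}, Tz 1 y ∈ {y : ℤ | ∃ i < p, (Tz 1)^[i] x = y}) ∧
    Set.InjOn (Tz 1) {y : ℤ | ∃ i < p, (Tz 1)^[i] x = y} := by
  have hret : ∀ i, (Tz 1)^[p] ((Tz 1)^[i] x) = (Tz 1)^[i] x := by
    intro i
    rw [← Function.iterate_add_apply, add_comm, Function.iterate_add_apply, hx]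
  constructor
  · rintro y ⟨i, hi, rfl⟩
    rw [← Function.iterate_succ_apply' (Tz 1) i x]
    rcases Nat.lt_or_ge (i + 1) p with h | h
    · exact ⟨i + 1, h, rfl⟩
    · rw [show i.succ = p by omega, hx]
      exact ⟨0, hp, rfl⟩
  · rintro a ⟨i, hi, rfl⟩ b ⟨j, hj, rfl⟩ hab
    obtain ⟨q, rfl⟩ : ∃ q, p = q + 1 := ⟨p - 1, by omega⟩
    have h1 := congrArg ((Tz 1)^[q]) hab
    rw [← Function.iterate_succ_apply, ← Function.iterate_succ_apply, hret, hret] at h1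
    exact h1

/-- CYCLES: the basin of a cycle -/
theorem cycle_low : ∃ c : ℝ, 0 < c ∧ ∀ (x : ℤ) (p : ℕ), x ≠ 0 → 0 < p → (Tz 1)^[p] x = x →
    (∀ q, 0 < q → q < p → (Tz 1)^[q] x ≠ x) →
    ∀ᶠ X : ℝ in atTop, c * X * ∑ i ∈ range p, 1 / |(((Tz 1)^[i] x : ℤ) : ℝ)| ≤
      ctX X (fun n => ∃ k, (Tz 1)^[k] n = x) := by
  classical
  obtain ⟨c, K, hc, hK, h⟩ := basin_low
  refine ⟨c, hc, ?_⟩
  intro x p hx hp hxp hmin
  set A : Set ℤ := {y : ℤ | ∃ i < p, (Tz 1)^[i] x = y} with hA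
  obtain ⟨h1, h2⟩ := cyc_inj hp hxp
  have h0 : (0 : ℤ) ∉ A := by
    rintro ⟨i, _, hi⟩
    exact iter_ne hx i hi
  set M : ℝ := ∑ i ∈ range p, |(((Tz 1)^[i] x : ℤ) : ℝ)| with hM
  filter_upwards [eventually_ge_atTop (max 0 (K * M))] with X hX
  have hX0 : 0 ≤ X := (le_max_left _ _).trans hX
  have hXM : K * M ≤ X := (le_max_right _ _).trans hX
  have hK0 : 0 < K := by linarith
  have h3 := h A h1 h2 h0 X hX0
  have hret : ∀ i, (Tz 1)^[p] ((Tz 1)^[i] x) = (Tz 1)^[i] x := by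
    intro i
    rw [← Function.iterate_add_apply, add_comm, Function.iterate_add_apply, hxp]
  have hinj : Set.InjOn (fun i => (Tz 1)^[i] x) (range p : Set ℕ) := by
    have key : ∀ i j, i < j → j < p → (Tz 1)^[i] x ≠ (Tz 1)^[j] x := by
      intro i j hij hj he
      have h4 := congrArg ((Tz 1)^[p - i]) he
      rw [← Function.iterate_add_apply, ← Function.iterate_add_apply,
        show p - i + i = p by omega, hxp, show p - i + j = (j - i) + p by omega,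
        Function.iterate_add_apply, hxp] at h4
      exact hmin (j - i) (by omega) (by omega) h4.symm
    intro i hi j hj he
    rw [mem_coe, mem_range] at hi hj
    rcases lt_trichotomy i j with hh | hh | hh
    · exact absurd he (key i j hh hj)
    · exact hh
    · exact absurd he.symm (key j i hh hi)
  have h5 : ∑ i ∈ range p, 1 / |(((Tz 1)^[i] x : ℤ) : ℝ)| ≤ ∑ y ∈ FA A (X / K), 1 / |(y : ℝ)| := by
    rw [← Finset.sum_image (s := range p) (g := fun i => (Tz 1)^[i] x)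
      (f := fun y : ℤ => 1 / |(y : ℝ)|) hinj]
    apply Finset.sum_le_sum_of_subset_of_nonneg
    · intro y hy
      rw [mem_image] at hy
      obtain ⟨i, hi, rfl⟩ := hy
      rw [mem_FA]
      refine ⟨?_, i, mem_range.1 hi, rfl⟩
      rw [le_div_iff₀ hK0]
      have h6 : |(((Tz 1)^[i] x : ℤ) : ℝ)| ≤ M := by
        rw [hM]
        exact Finset.single_le_sum (f := fun i => |(((Tz 1)^[i] x : ℤ) : ℝ)|)
          (fun i _ => abs_nonneg _) hi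
      nlinarith
    · intro y _ _
      positivity
  have h6 := mul_le_mul_of_nonneg_left h5 (show 0 ≤ c * X by positivity)
  refine (h6.trans h3).trans ?_
  unfold NB
  refine ctX_mono (X := X) (P := fun n => n ∈ Ent A) ?_
  rintro n _ ⟨k, i, hi, hk⟩
  refine ⟨(p - i) + k, ?_⟩
  rw [Function.iterate_add_apply, ← hk, ← Function.iterate_add_apply, show p - i + i = p by omega, hxp]

/-- pairs of integers up to `Y` and up to `X` with merging orbits -/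
theorem merge_pairs_low : ∃ C : ℝ, 1 ≤ C ∧ ∀ Y X : ℝ, 1 ≤ Y → Y ≤ X →
    ({q : ℤ × ℤ | (q.1 ≠ 0 ∧ |(q.1 : ℝ)| ≤ Y) ∧ (q.2 ≠ 0 ∧ |(q.2 : ℝ)| ≤ Y) ∧
      ∃ i j : ℕ, (Tz 1)^[i] q.1 = (Tz 1)^[j] q.2}.ncard : ℝ) / Y ^ 2 ≤
    C * (({q : ℤ × ℤ | (q.1 ≠ 0 ∧ |(q.1 : ℝ)| ≤ X) ∧ (q.2 ≠ 0 ∧ |(q.2 : ℝ)| ≤ X) ∧
      ∃ i j : ℕ, (Tz 1)^[i] q.1 = (Tz 1)^[j] q.2}.ncard : ℝ) / X ^ 2) := by
  classical
  obtain ⟨C, hC, h⟩ := harnack'
  refine ⟨C * C, by nlinarith, ?_⟩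
  intro Y X hY hYX
  have hX0 : 0 < X := by linarith
  have hY0 : 0 < Y := by linarith
  set R : ℤ → ℤ → Prop := fun a b => ∃ i j : ℕ, (Tz 1)^[i] a = (Tz 1)^[j] b with hR
  set F : ℝ → Finset ℤ := fun Z => (fin_abs Z (fun n => n ≠ 0)).toFinset with hF
  have hFm : ∀ Z n, n ∈ F Z ↔ |(n : ℝ)| ≤ Z ∧ n ≠ 0 := by
    intro Z n
    rw [hF, Set.Finite.mem_toFinset]
    rfl
  set P : ℝ → ℝ → ℝ := fun Z W => ∑ a ∈ F Z, (((F W).filter (fun b => R a b)).card : ℝ) with hP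
  have hsymm : ∀ a b, R a b ↔ R b a := by
    intro a b
    constructor
    · rintro ⟨i, j, h⟩; exact ⟨j, i, h.symm⟩
    · rintro ⟨i, j, h⟩; exact ⟨j, i, h.symm⟩
  have hPs : ∀ Z W, P Z W = P W Z := by
    intro Z W
    rw [hP]
    simp only [Finset.card_filter]
    push_cast
    rw [Finset.sum_comm]
    refine Finset.sum_congr rfl fun b _ => Finset.sum_congr rfl fun a _ => ?_
    simp only [hsymm a b]
  have hPn : ∀ Z, ({q : ℤ × ℤ | (q.1 ≠ 0 ∧ |(q.1 : ℝ)| ≤ Z) ∧ (q.2 ≠ 0 ∧ |(q.2 : ℝ)| ≤ Z) ∧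
      R q.1 q.2}.ncard : ℝ) = P Z Z := by
    intro Z
    have e : {q : ℤ × ℤ | (q.1 ≠ 0 ∧ |(q.1 : ℝ)| ≤ Z) ∧ (q.2 ≠ 0 ∧ |(q.2 : ℝ)| ≤ Z) ∧
        R q.1 q.2} = (((F Z ×ˢ F Z).filter (fun q => R q.1 q.2) : Finset (ℤ × ℤ)) : Set (ℤ × ℤ)) := by
      ext q
      rw [mem_coe, mem_filter, mem_product, hFm, hFm, Set.mem_ofPred_eq]
      tauto
    rw [e, Set.ncard_coe_finset, hP]
    simp only
    rw [Finset.card_filter, Finset.sum_product]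
    push_cast
    refine Finset.sum_congr rfl fun a _ => ?_
    rw [Finset.card_filter]
    push_cast
    rfl
  have hrow : ∀ a : ℤ, (((F Y).filter (fun b => R a b)).card : ℝ) / Y ≤
      C * ((((F X).filter (fun b => R a b)).card : ℝ) / X) := by
    intro a
    have hinv : ∀ x, x ∈ {x : ℤ | R a x} ↔ Tz 1 x ∈ {x : ℤ | R a x} := by
      intro x
      constructor
      · rintro ⟨i, j, hij⟩
        refine ⟨i + 1, j, ?_⟩
        rw [Function.iterate_succ_apply', hij, ← Function.iterate_succ_apply' (Tz 1) j x,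
          Function.iterate_succ_apply]
      · rintro ⟨i, j, hij⟩
        exact ⟨i, j + 1, by rw [hij, Function.iterate_succ_apply]⟩
    have h1 := h _ hinv Y X hY hYX
    have e : ∀ Z, ctX Z (fun n => n ∈ {x : ℤ | R a x} ∧ n ≠ 0) =
        (((F Z).filter (fun b => R a b)).card : ℝ) := by
      intro Z
      unfold ctX
      rw [← Set.ncard_coe_finset]
      congr 2
      ext n
      rw [mem_coe, mem_filter, hFm]
      change (|(n : ℝ)| ≤ Z ∧ (R a n ∧ n ≠ 0)) ↔ _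
      tauto
    rw [e, e] at h1
    exact h1
  have hsum : ∀ Z, P Z Y / Y ≤ C * (P Z X / X) := by
    intro Z
    rw [hP]
    simp only
    rw [Finset.sum_div, Finset.sum_div, Finset.mul_sum]
    exact Finset.sum_le_sum fun a _ => hrow a
  have h1 := hsum Y
  have h2 := hsum X
  rw [hPs X Y] at h2
  have e1 := hPn Y
  have e2 := hPn X
  rw [hR] at e1 e2
  rw [e1, e2]
  have h3 : P Y Y / Y ^ 2 = P Y Y / Y / Y := by rw [div_div, sq]
  have h4 : P X X / X ^ 2 = P X X / X / X := by rw [div_div, sq]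
  rw [h3, h4]
  calc P Y Y / Y / Y ≤ C * (P Y X / X) / Y := div_le_div_of_nonneg_right h1 hY0.le
    _ = C * (P Y X / Y) / X := by ring
    _ ≤ C * (C * (P X X / X)) / X :=
        div_le_div_of_nonneg_right (mul_le_mul_of_nonneg_left h2 (by linarith)) hX0.le
    _ = _ := by ring

end Pool.Agent.U457.PS
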