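import Pool.Agent.U142.FE7
import Pool.Agent.U457.PS.Low12
import Pool.Agent.U457.PS.Low6

/-! Sizes of the Fatou components of `f₀` containing integers, and Harnack inequality for families. -/

set_option autoImplicit false

namespace Pool.Agent.U457.PS.Dom

open Filter Topology Metric Set
open Pool.Agent.H384R2.Fatou
open Pool.Agent.H499R2.CO (Tz)
open Pool.Agent.U142.FE
open Pool.Agent.R105.WR (D D_pos main_log V V_nonneg V_le_one)
open Pool.Agent.H723R2.LSW (f₀)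

theorem one_add_log_div {x : ℝ} (hx : 1 ≤ x) : (1 + Real.log x) / x ≤ 1 := by
  rw [div_le_one (by linarith)]
  have := Real.log_le_sub_one_of_pos (show 0 < x by linarith)
  linarith

theorem abs_ge_one {n : ℤ} (hn : n ≠ 0) : (1 : ℝ) ≤ |(n : ℝ)| := by
  have h1 : 1 ≤ |n| := Int.one_le_abs hn
  exact_mod_cast h1

theorem sizes : ∃ c C : ℝ, 0 < c ∧ c ≤ C ∧ ∀ n : ℤ, n ≠ 0 →
    c / |(n : ℝ)| ≤ diam (FatouComponent f₀ (n : ℂ)) ∧ diam (FatouComponent f₀ (n : ℂ)) ≤ C / |(n : ℝ)| := by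
  obtain ⟨K1, h1, hK1⟩ := main_log
  obtain ⟨K2, h2, hK2⟩ := outer_log
  have key : ∀ n : ℤ, n ≠ 0 → 16 / (3 * Real.pi ^ 2) * Real.exp (-K1) / |(n : ℝ)| ≤
      diam (FatouComponent f₀ (n : ℂ)) ∧ diam (FatouComponent f₀ (n : ℂ)) ≤
      16 / Real.pi ^ 2 * Real.exp K2 / |(n : ℝ)| := by
    intro n hn
    have hn1 := abs_ge_one hn
    have hn0 : 0 < |(n : ℝ)| := by linarith
    have hlog := one_add_log_div hn1
    have hp0 : 0 < Real.pi ^ 2 := by positivity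
    have h3V : (0 : ℝ) < 3 ^ V n := Real.rpow_pos_of_pos (by norm_num) _
    have h3V1 : (1 : ℝ) ≤ 3 ^ V n := Real.one_le_rpow (by norm_num) (V_nonneg n)
    have h3V3 : (3 : ℝ) ^ V n ≤ 3 := by
      have := Real.rpow_le_rpow_of_exponent_le (by norm_num : (1 : ℝ) ≤ 3) (V_le_one n)
      rwa [Real.rpow_one] at this
    have hD := D_pos n
    have hO := O_pos n
    have e1 := hK1 n hn
    have e2 := hK2 n hn
    rw [mul_div_assoc] at e1 e2
    have e1' : |Real.log (Real.pi ^ 2 / 8 * 3 ^ V n * |(n : ℝ)| * D n)| ≤ K1 := e1.trans (by nlinarith)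
    have e2' : |Real.log (Real.pi ^ 2 / 8 * 3 ^ V n * |(n : ℝ)| * O n)| ≤ K2 := e2.trans (by nlinarith)
    have p1 : 0 < Real.pi ^ 2 / 8 * 3 ^ V n * |(n : ℝ)| * D n := by positivity
    have p2 : 0 < Real.pi ^ 2 / 8 * 3 ^ V n * |(n : ℝ)| * O n := by positivity
    have g1 : Real.exp (-K1) ≤ Real.pi ^ 2 / 8 * 3 ^ V n * |(n : ℝ)| * D n := by
      rw [← Real.le_log_iff_exp_le p1]
      linarith [(abs_le.1 e1').1]
    have g2 : Real.pi ^ 2 / 8 * 3 ^ V n * |(n : ℝ)| * O n ≤ Real.exp K2 := by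
      rw [← Real.log_le_iff_le_exp p2]
      linarith [(abs_le.1 e2').2]
    constructor
    · refine le_trans ?_ (le_diam n)
      rw [div_le_iff₀ hn0]
      have g3 : Real.pi ^ 2 / 8 * 3 ^ V n * |(n : ℝ)| * D n ≤ Real.pi ^ 2 / 8 * 3 * |(n : ℝ)| * D n := by
        apply mul_le_mul_of_nonneg_right _ hD.le
        apply mul_le_mul_of_nonneg_right _ hn0.le
        exact mul_le_mul_of_nonneg_left h3V3 (by positivity)
      have g4 := g1.trans g3
      calc 16 / (3 * Real.pi ^ 2) * Real.exp (-K1) ≤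
          16 / (3 * Real.pi ^ 2) * (Real.pi ^ 2 / 8 * 3 * |(n : ℝ)| * D n) :=
            mul_le_mul_of_nonneg_left g4 (by positivity)
        _ = 2 * D n * |(n : ℝ)| := by field_simp; ring
    · refine (diam_le n).trans ?_
      rw [le_div_iff₀ hn0]
      have g3 : Real.pi ^ 2 / 8 * 1 * |(n : ℝ)| * O n ≤ Real.pi ^ 2 / 8 * 3 ^ V n * |(n : ℝ)| * O n := by
        apply mul_le_mul_of_nonneg_right _ hO.le
        apply mul_le_mul_of_nonneg_right _ hn0.le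
        exact mul_le_mul_of_nonneg_left h3V1 (by positivity)
      have g4 := g3.trans g2
      calc 2 * O n * |(n : ℝ)| = 16 / Real.pi ^ 2 * (Real.pi ^ 2 / 8 * 1 * |(n : ℝ)| * O n) := by
            field_simp; ring
        _ ≤ _ := mul_le_mul_of_nonneg_left g4 (by positivity)
  refine ⟨16 / (3 * Real.pi ^ 2) * Real.exp (-K1), 16 / Real.pi ^ 2 * Real.exp K2, by positivity, ?_, key⟩
  have h3 := key 1 one_ne_zero
  have h4 := h3.1.trans h3.2
  simpa using h4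

/-- number of the nonzero integers of `S` whose component has diameter at least `r` -/
noncomputable def cnt (S : Set ℤ) (r : ℝ) : ℝ :=
  ({n : ℤ | n ≠ 0 ∧ n ∈ S ∧ r ≤ diam (FatouComponent f₀ (n : ℂ))}.ncard : ℝ)

theorem cnt_nonneg (S : Set ℤ) (r : ℝ) : 0 ≤ cnt S r := Nat.cast_nonneg _

theorem small_fin {C : ℝ} (hC : ∀ n : ℤ, n ≠ 0 → diam (FatouComponent f₀ (n : ℂ)) ≤ C / |(n : ℝ)|)
    {r : ℝ} (hr : 0 < r) : {n : ℤ | n ≠ 0 ∧ r ≤ diam (FatouComponent f₀ (n : ℂ))}.Finite := by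
  apply (fin_abs (C / r) (fun _ => True)).subset
  rintro n ⟨h1, h2⟩
  refine ⟨?_, trivial⟩
  have hn0 : 0 < |(n : ℝ)| := by linarith [abs_ge_one h1]
  have := h2.trans (hC n h1)
  rw [le_div_iff₀ hn0] at this
  rw [le_div_iff₀ hr]
  linarith

theorem cnt_le {C : ℝ} (hC : ∀ n : ℤ, n ≠ 0 → diam (FatouComponent f₀ (n : ℂ)) ≤ C / |(n : ℝ)|)
    (S : Set ℤ) {r : ℝ} (hr : 0 < r) : cnt S r ≤ ctX (C / r) (fun n => n ∈ S ∧ n ≠ 0) := by
  unfold cnt ctX
  have hsub : {n : ℤ | n ≠ 0 ∧ n ∈ S ∧ r ≤ diam (FatouComponent f₀ (n : ℂ))} ⊆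
      {n : ℤ | |(n : ℝ)| ≤ C / r ∧ (n ∈ S ∧ n ≠ 0)} := by
    rintro n ⟨h1, h2, h3⟩
    have hn0 : 0 < |(n : ℝ)| := by linarith [abs_ge_one h1]
    have := h3.trans (hC n h1)
    rw [le_div_iff₀ hn0] at this
    exact ⟨by rw [le_div_iff₀ hr]; linarith, h2, h1⟩
  exact_mod_cast Set.ncard_le_ncard hsub (fin_abs _ _)

theorem le_cnt {c C : ℝ} (hc : ∀ n : ℤ, n ≠ 0 → c / |(n : ℝ)| ≤ diam (FatouComponent f₀ (n : ℂ)))
    (hC : ∀ n : ℤ, n ≠ 0 → diam (FatouComponent f₀ (n : ℂ)) ≤ C / |(n : ℝ)|)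
    (S : Set ℤ) {r : ℝ} (hr : 0 < r) : ctX (c / r) (fun n => n ∈ S ∧ n ≠ 0) ≤ cnt S r := by
  unfold cnt ctX
  have hsub : {n : ℤ | |(n : ℝ)| ≤ c / r ∧ (n ∈ S ∧ n ≠ 0)} ⊆
      {n : ℤ | n ≠ 0 ∧ n ∈ S ∧ r ≤ diam (FatouComponent f₀ (n : ℂ))} := by
    rintro n ⟨h1, h2, h3⟩
    have hn0 : 0 < |(n : ℝ)| := by linarith [abs_ge_one h3]
    refine ⟨h3, h2, le_trans ?_ (hc n h3)⟩
    rw [le_div_iff₀ hr] at h1
    rw [le_div_iff₀ hn0]
    linarith
  have hf : {n : ℤ | n ≠ 0 ∧ n ∈ S ∧ r ≤ diam (FatouComponent f₀ (n : ℂ))}.Finite :=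
    (small_fin hC hr).subset (fun n h => ⟨h.1, h.2.2⟩)
  exact_mod_cast Set.ncard_le_ncard hsub hf

theorem cnt_mono {C : ℝ} (hC : ∀ n : ℤ, n ≠ 0 → diam (FatouComponent f₀ (n : ℂ)) ≤ C / |(n : ℝ)|)
    {S S' : Set ℤ} (hS : S ⊆ S') {r ρ : ℝ} (hr : 0 < r) (h : r ≤ ρ) : cnt S ρ ≤ cnt S' r := by
  unfold cnt
  have hsub : {n : ℤ | n ≠ 0 ∧ n ∈ S ∧ ρ ≤ diam (FatouComponent f₀ (n : ℂ))} ⊆
      {n : ℤ | n ≠ 0 ∧ n ∈ S' ∧ r ≤ diam (FatouComponent f₀ (n : ℂ))} := by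
    rintro n ⟨h1, h2, h3⟩
    exact ⟨h1, hS h2, h.trans h3⟩
  have hf : {n : ℤ | n ≠ 0 ∧ n ∈ S' ∧ r ≤ diam (FatouComponent f₀ (n : ℂ))}.Finite :=
    (small_fin hC hr).subset (fun n h => ⟨h.1, h.2.2⟩)
  exact_mod_cast Set.ncard_le_ncard hsub hf

/-- from a comparison of the counts of integers to a comparison of the counts of components -/
theorem transfer {c C H : ℝ} (hc0 : 0 < c) (hcC : c ≤ C) (hH : 1 ≤ H)
    (hc : ∀ n : ℤ, n ≠ 0 → c / |(n : ℝ)| ≤ diam (FatouComponent f₀ (n : ℂ)))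
    (hC : ∀ n : ℤ, n ≠ 0 → diam (FatouComponent f₀ (n : ℂ)) ≤ C / |(n : ℝ)|)
    {S S' : Set ℤ} (hS : S ⊆ S')
    (h : ∀ Y X : ℝ, 1 ≤ Y → Y ≤ X → ctX Y (fun n => n ∈ S ∧ n ≠ 0) / Y ≤
      H * (ctX X (fun n => n ∈ S' ∧ n ≠ 0) / X)) {r ρ : ℝ} (hr : 0 < r) (hrρ : r ≤ ρ) :
    c / (H * C) * (ρ * cnt S ρ) ≤ r * cnt S' r := by
  have hC0 : 0 < C := by linarith
  have hρ : 0 < ρ := by linarith
  have n1 := cnt_nonneg S ρ
  have n2 := cnt_nonneg S' r
  have hH0 : 0 < H := by linarith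
  rcases lt_or_ge (c / r) (C / ρ) with h1 | h1
  · rw [div_lt_div_iff₀ hr hρ] at h1
    have h2 := cnt_mono hC hS hr hrρ
    have h3 : c / (H * C) * (ρ * cnt S ρ) ≤ c / C * (ρ * cnt S ρ) := by
      apply mul_le_mul_of_nonneg_right _ (by positivity)
      apply div_le_div_of_nonneg_left hc0.le hC0
      nlinarith
    refine h3.trans ?_
    rw [div_mul_eq_mul_div, div_le_iff₀ hC0]
    calc c * (ρ * cnt S ρ) = (c * ρ) * cnt S ρ := by ring
      _ ≤ (C * r) * cnt S' r := mul_le_mul h1.le h2 n1 (by positivity)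
      _ = _ := by ring
  · rcases lt_or_ge (C / ρ) 1 with h2 | h2
    · have h3 : cnt S ρ = 0 := by
        have h4 := cnt_le hC S hρ
        have h5 : ctX (C / ρ) (fun n => n ∈ S ∧ n ≠ 0) = 0 := by
          unfold ctX
          have : {n : ℤ | |(n : ℝ)| ≤ C / ρ ∧ (n ∈ S ∧ n ≠ 0)} = ∅ := by
            ext n
            simp only [Set.mem_empty_iff_false, iff_false]
            rintro ⟨g1, g2, g3⟩
            linarith [abs_ge_one g3]
          rw [this]; simp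
        linarith
      rw [h3]
      simp only [mul_zero]
      positivity
    · have h3 := h (C / ρ) (c / r) h2 h1
      have h4 := cnt_le hC S hρ
      have h5 := le_cnt hc hC S' hr
      have h6 : cnt S ρ / (C / ρ) ≤ H * (cnt S' r / (c / r)) := by
        refine (div_le_div_of_nonneg_right h4 (by positivity)).trans (h3.trans ?_)
        apply mul_le_mul_of_nonneg_left _ hH0.le
        exact div_le_div_of_nonneg_right h5 (by positivity)
      have e1 : cnt S ρ / (C / ρ) = ρ * cnt S ρ / C := by field_simp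
      have e2 : H * (cnt S' r / (c / r)) = H * (r * cnt S' r) / c := by field_simp
      rw [e1, e2, div_le_div_iff₀ hC0 hc0] at h6
      rw [div_mul_eq_mul_div, div_le_iff₀ (by positivity)]
      linarith

end Pool.Agent.U457.PS.Dom
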