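import Pool.Agent.U457.PS.Dom

/-! Families of Fatou components of `f₀` at all scales. -/

set_option autoImplicit false

namespace Pool.Agent.U457.PS.Dom

open Filter Topology Metric Set
open Pool.Agent.H384R2.Fatou
open Pool.Agent.H499R2.CO (Tz)
open Pool.Agent.U142.FE
open Pool.Agent.H723R2.LSW (f₀ f₀_iter)

/-- `U n` falls into `U a` after about `log (diam (U a) / r)` steps, through components which are not much
larger than `U a` -/
def Falls (K r : ℝ) (n a : ℤ) : Prop :=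
  ∃ t : ℕ, 6 * Real.log (diam (FatouComponent f₀ (a : ℂ)) / r) - K ≤ t ∧
    (t : ℝ) ≤ 8 * Real.log (diam (FatouComponent f₀ (a : ℂ)) / r) + K ∧
    f₀^[t] '' FatouComponent f₀ (n : ℂ) ⊆ FatouComponent f₀ (a : ℂ) ∧
    ∀ j < t, ∃ m : ℤ, f₀^[j] '' FatouComponent f₀ (n : ℂ) ⊆ FatouComponent f₀ (m : ℂ) ∧
      diam (FatouComponent f₀ (m : ℂ)) ≤ K * diam (FatouComponent f₀ (a : ℂ))

theorem falls : ∃ c K : ℝ, 0 < c ∧ 1 ≤ K ∧ ∀ (a : ℤ) (r : ℝ), ¬ (3 : ℤ) ∣ a → 0 < r →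
    K * r ≤ diam (FatouComponent f₀ (a : ℂ)) → c * (diam (FatouComponent f₀ (a : ℂ)) / r) ≤
      ({n : ℤ | n ≠ 0 ∧ r ≤ diam (FatouComponent f₀ (n : ℂ)) ∧ Falls K r n a}.ncard : ℝ) := by
  obtain ⟨c, C, hc0, hcC, hsz⟩ := sizes
  obtain ⟨cz, Kz, hcz, hKz, hmin⟩ := minor_z
  have hC0 : 0 < C := by linarith
  have hq : 1 ≤ C / c := by rw [le_div_iff₀ hc0]; linarith
  have hlq : 0 ≤ Real.log (C / c) := Real.log_nonneg hq
  set K : ℝ := Kz * (C / c) + 6 * Real.log (C / c) with hK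
  have hK1 : Kz ≤ Kz * (C / c) := le_mul_of_one_le_right (by linarith) hq
  have hK2 : C / c ≤ Kz * (C / c) := le_mul_of_one_le_left (by positivity) hKz
  refine ⟨cz * c / C, K, by positivity, by linarith, ?_⟩
  intro a r ha hr hKr
  set δ : ℝ := diam (FatouComponent f₀ (a : ℂ)) with hδ
  have ha0 : a ≠ 0 := by rintro rfl; exact ha (dvd_zero 3)
  have ha1 := abs_ge_one ha0
  have haR : 0 < |(a : ℝ)| := by linarith
  obtain ⟨s1, s2⟩ := hsz a ha0
  have hδ0 : 0 < δ := lt_of_lt_of_le (by positivity) s1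
  set X : ℝ := c / r with hX
  have hX0 : 0 < X := by positivity
  have hKX : Kz * |(a : ℝ)| ≤ X := by
    rw [hX, le_div_iff₀ hr]
    have h1 : Kz * (C / c) * r ≤ C / |(a : ℝ)| := by
      refine le_trans ?_ (hKr.trans s2)
      apply mul_le_mul_of_nonneg_right _ hr.le
      linarith
    rw [le_div_iff₀ haR] at h1
    have h2 : Kz * (C / c) * r * |(a : ℝ)| = (Kz * |(a : ℝ)| * r) * C / c := by ring
    rw [h2, div_le_iff₀ hc0] at h1
    have h3 : Kz * |(a : ℝ)| * r * C ≤ c * C := by linarith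
    exact le_of_mul_le_mul_right h3 hC0
  have hXa0 : 0 < X / |(a : ℝ)| := by positivity
  have hXa1 : X / |(a : ℝ)| ≤ δ / r := by
    rw [hX, div_right_comm]
    exact div_le_div_of_nonneg_right s1 hr.le
  have hXa2 : δ / r ≤ C / c * (X / |(a : ℝ)|) := by
    have e : C / c * (X / |(a : ℝ)|) = C / |(a : ℝ)| / r := by rw [hX]; field_simp
    rw [e]
    exact div_le_div_of_nonneg_right s2 hr.le
  have hl1 : Real.log (X / |(a : ℝ)|) ≤ Real.log (δ / r) := Real.log_le_log hXa0 hXa1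
  have hl2 : Real.log (δ / r) ≤ Real.log (C / c) + Real.log (X / |(a : ℝ)|) := by
    rw [← Real.log_mul (by positivity) hXa0.ne']
    exact Real.log_le_log (by positivity) hXa2
  have g := hmin a ha X hKX
  have hsub : {n : ℤ | |(n : ℝ)| ≤ X ∧ ∃ t : ℕ, 6 * Real.log (X / |(a : ℝ)|) - Kz ≤ t ∧
      (t : ℝ) ≤ 8 * Real.log (X / |(a : ℝ)|) + Kz ∧ LowZ a n t} ⊆
      {n : ℤ | n ≠ 0 ∧ r ≤ diam (FatouComponent f₀ (n : ℂ)) ∧ Falls K r n a} := by
    rintro n ⟨h1, t, h2, h3, h4, h5⟩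
    have hn0 : n ≠ 0 := by
      rintro rfl
      apply ha0
      rw [← h4]
      clear * -
      induction t with
      | zero => rfl
      | succ t ih => rw [Function.iterate_succ_apply', ih]; rfl
    have hnR : 0 < |(n : ℝ)| := by linarith [abs_ge_one hn0]
    refine ⟨hn0, ?_, t, by linarith, by linarith, ?_, ?_⟩
    · refine le_trans ?_ (hsz n hn0).1
      rw [le_div_iff₀ hnR]
      rw [hX, le_div_iff₀ hr] at h1
      linarith
    · rintro _ ⟨z, hz, rfl⟩
      have h6 := comp_iter hz t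
      have h7 : (Pool.Agent.H723R2.LSW.T)^[t] n = a := h4
      rw [h7] at h6
      exact h6
    · intro j hj
      refine ⟨(Tz 1)^[j] n, ?_, ?_⟩
      · rintro _ ⟨z, hz, rfl⟩
        exact comp_iter hz j
      · have h6 := h5 j hj
        set m := (Tz 1)^[j] n with hm
        have h7 : 2 * |(a : ℝ)| ≤ |(m : ℝ)| := by exact_mod_cast h6
        have hm0 : m ≠ 0 := by
          intro h
          rw [h, Int.cast_zero, abs_zero] at h7
          linarith
        have hmR : 0 < |(m : ℝ)| := by linarith [abs_ge_one hm0]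
        refine (hsz m hm0).2.trans ?_
        have h8 : C / |(m : ℝ)| ≤ C / |(a : ℝ)| :=
          div_le_div_of_nonneg_left hC0.le haR (by linarith)
        refine h8.trans ?_
        have h9 : C / |(a : ℝ)| = C / c * (c / |(a : ℝ)|) := by field_simp
        rw [h9]
        exact mul_le_mul (by linarith) s1 (by positivity) (by linarith)
  have hf : {n : ℤ | n ≠ 0 ∧ r ≤ diam (FatouComponent f₀ (n : ℂ)) ∧ Falls K r n a}.Finite :=
    (small_fin (fun n hn => (hsz n hn).2) hr).subset (fun n h => ⟨h.1, h.2.1⟩)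
  have h1 := g.trans (Nat.cast_le.2 (Set.ncard_le_ncard hsub hf))
  refine le_trans ?_ h1
  have h2 : c * (δ / r) ≤ C * (X / |(a : ℝ)|) := by
    have := mul_le_mul_of_nonneg_left hXa2 hc0.le
    refine this.trans (le_of_eq ?_)
    field_simp
  calc cz * c / C * (δ / r) = cz / C * (c * (δ / r)) := by ring
    _ ≤ cz / C * (C * (X / |(a : ℝ)|)) := mul_le_mul_of_nonneg_left h2 (by positivity)
    _ = cz * X / |(a : ℝ)| := by field_simp

theorem families : ∃ c : ℝ, 0 < c ∧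
    (∀ S : Set ℤ, (∀ n, n ∈ S ↔ Tz 1 n ∈ S) → ∀ r ρ : ℝ, 0 < r → r ≤ ρ →
      c * (ρ * cnt S ρ) ≤ r * cnt S r) ∧
    (∀ S : Set ℤ, (∀ n, Tz 1 n ∈ S → n ∈ S) → ∀ r ρ : ℝ, 0 < r → r ≤ ρ →
      c * (ρ * cnt {n | n ∈ S ∧ ¬ (3 : ℤ) ∣ n} ρ) ≤ r * cnt S r) := by
  obtain ⟨c, C, hc0, hcC, hsz⟩ := sizes
  obtain ⟨H1, hH1, h1⟩ := harnack'
  obtain ⟨H2, hH2, h2⟩ := harnack_back'
  have hC0 : 0 < C := by linarith
  have hc' := fun n hn => (hsz n hn).1
  have hC' := fun n hn => (hsz n hn).2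
  set H := H1 + 2 * H2 with hH
  have hH0 : 1 ≤ H := by linarith
  refine ⟨c / (H * C), by positivity, ?_, ?_⟩
  · intro S hS r ρ hr hrρ
    apply transfer hc0 hcC hH0 hc' hC' (le_refl S) _ hr hrρ
    intro Y X hY hYX
    refine (h1 S hS Y X hY hYX).trans ?_
    have : 0 ≤ ctX X (fun n => n ∈ S ∧ n ≠ 0) / X := div_nonneg (ctX_nonneg _ _) (by linarith)
    exact mul_le_mul_of_nonneg_right (by linarith) this
  · intro S hS r ρ hr hrρ
    apply transfer hc0 hcC hH0 hc' hC' (fun n hn => hn.1) _ hr hrρ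
    intro Y X hY hYX
    have hY0 : 0 < Y := by linarith
    have hX0 : 0 < X := by linarith
    have g := h2 S hS Y X hY hYX
    have g1 : ctX Y (fun n => n ∈ {n | n ∈ S ∧ ¬ (3 : ℤ) ∣ n} ∧ n ≠ 0) ≤
        ctX Y (fun n => n ∈ S ∧ ¬ (3 : ℤ) ∣ n) := ctX_mono (fun n _ h => h.1)
    rcases Nat.lt_or_ge 0 0 with hh | hh
    · exact absurd hh (lt_irrefl _)
    by_cases hemp : ∃ m : ℤ, m ∈ S ∧ ¬ (3 : ℤ) ∣ m ∧ |(m : ℝ)| ≤ Y
    · obtain ⟨m, hm1, hm2, hm3⟩ := hemp
      have hm0 : m ≠ 0 := by rintro rfl; exact hm2 (dvd_zero 3)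
      -- the point 0 contributes at most as much as m
      have g2 : ctX X (fun n => n ∈ S) ≤ 2 * ctX X (fun n => n ∈ S ∧ n ≠ 0) := by
        have e1 : ctX X (fun n => n ∈ S) ≤ ctX X (fun n => n ∈ S ∧ n ≠ 0) + 1 := by
          unfold ctX
          have hsub : {n : ℤ | |(n : ℝ)| ≤ X ∧ n ∈ S} ⊆ {n : ℤ | |(n : ℝ)| ≤ X ∧ (n ∈ S ∧ n ≠ 0)} ∪ {0} := by
            rintro n ⟨k1, k2⟩
            by_cases h : n = 0
            · exact Or.inr h
            · exact Or.inl ⟨k1, k2, h⟩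
          have := (Set.ncard_le_ncard hsub ((fin_abs X _).union (Set.finite_singleton 0))).trans
            (Set.ncard_union_le _ _)
          rw [Set.ncard_singleton] at this
          exact_mod_cast this
        have e2 : 1 ≤ ctX X (fun n => n ∈ S ∧ n ≠ 0) := by
          unfold ctX
          have hsub : ({m} : Set ℤ) ⊆ {n : ℤ | |(n : ℝ)| ≤ X ∧ (n ∈ S ∧ n ≠ 0)} := by
            rintro n rfl
            exact ⟨hm3.trans hYX, hm1, hm0⟩
          have := Set.ncard_le_ncard hsub (fin_abs X _)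
          rw [Set.ncard_singleton] at this
          exact_mod_cast this
        linarith
      have g3 : ctX Y (fun n => n ∈ {n | n ∈ S ∧ ¬ (3 : ℤ) ∣ n} ∧ n ≠ 0) / Y ≤
          H2 * (2 * ctX X (fun n => n ∈ S ∧ n ≠ 0) / X) :=
        (div_le_div_of_nonneg_right g1 hY0.le).trans (g.trans
          (mul_le_mul_of_nonneg_left (div_le_div_of_nonneg_right g2 hX0.le) (by linarith)))
      refine g3.trans ?_
      have : 0 ≤ ctX X (fun n => n ∈ S ∧ n ≠ 0) / X := div_nonneg (ctX_nonneg _ _) hX0.le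
      have e : H2 * (2 * ctX X (fun n => n ∈ S ∧ n ≠ 0) / X) =
          2 * H2 * (ctX X (fun n => n ∈ S ∧ n ≠ 0) / X) := by ring
      rw [e]
      exact mul_le_mul_of_nonneg_right (by linarith) this
    · have g4 : ctX Y (fun n => n ∈ {n | n ∈ S ∧ ¬ (3 : ℤ) ∣ n} ∧ n ≠ 0) = 0 := by
        unfold ctX
        have : {n : ℤ | |(n : ℝ)| ≤ Y ∧ (n ∈ {n | n ∈ S ∧ ¬ (3 : ℤ) ∣ n} ∧ n ≠ 0)} = ∅ := by
          ext n
          simp only [Set.mem_empty_iff_false, iff_false]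
          rintro ⟨k1, k2, k3⟩
          exact hemp ⟨n, k2.1, k2.2, k1⟩
        rw [this]; simp
      rw [g4, zero_div]
      have : 0 ≤ ctX X (fun n => n ∈ S ∧ n ≠ 0) / X := div_nonneg (ctX_nonneg _ _) hX0.le
      positivity

end Pool.Agent.U457.PS.Dom
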