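import Pool.Agent.U457.PS.Scales
import Pool.Agent.U457.PS.Base
import Pool.Agent.R344.TH.F
import Pool.Agent.N905.EX.Three

/-! First passages of the `3x+k` maps are spread out: all scales, positive side. -/

set_option autoImplicit false

namespace Pool.Agent.U457.PS

open Finset Filter Topology
open Pool.Agent.H499R2.CO (Tz)
open Pool.Agent.H319R3.GC (Tm Adm)
open Pool.Agent.H828R3.GP (m3 r3 adm3 Tm3)
open Pool.Agent.TH930.PS (Sj Cst')
open Pool.Agent.R344.TH (FwdA iter_syr odd_count)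
open Pool.Agent.N905.EX (card_Sj_ex eta0_lt eta0_pos)
open Pool.Agent.N905.FM (η0)

theorem Tm_eq_Tz (k : ℤ) : Tm 2 m3 (r3 k) = Tz k := by
  rw [Tm3]; rfl

/-- the orbit of `x`, `|x| ≥ Y`, passes below `Y` for the first time in `E` -/
def SZk (k : ℤ) (Y : ℝ) (E : Set ℤ) : Set ℤ := SE 2 m3 (r3 k) Y E

theorem mem_SZk {k : ℤ} {Y : ℝ} {E : Set ℤ} {x : ℤ} : x ∈ SZk k Y E ↔ Y ≤ |(x : ℝ)| ∧
    ∃ n, (∀ j < n, Y ≤ |(((Tz k)^[j] x : ℤ) : ℝ)|) ∧ |(((Tz k)^[n] x : ℤ) : ℝ)| < Y ∧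
      (Tz k)^[n] x ∈ E := by
  unfold SZk SE FY
  rw [Tm_eq_Tz]
  constructor
  · rintro ⟨h1, n, ⟨h2, h3⟩, h4⟩; exact ⟨h1, n, h2, h3, h4⟩
  · rintro ⟨h1, n, h2, h3, h4⟩; exact ⟨h1, n, ⟨h2, h3⟩, h4⟩

theorem SZk_fwd {k : ℤ} (hk : k % 2 = 1) {Y : ℝ} (hY : 0 < Y) (E : Set ℤ) : FwdA k Y (SZk k Y E) := by
  intro M x e he hM hx hMz hxz hMS h
  rw [mem_SZk] at hMS ⊢
  obtain ⟨_, n, h1, h2, h3⟩ := hMS
  have hx0 : (0 : ℝ) < x := by linarith
  have hval : ∀ i ≤ e, Y ≤ |(((Tz k)^[i] M : ℤ) : ℝ)| := by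
    intro i hi
    rcases Nat.eq_zero_or_pos i with rfl | hi0
    · rw [Function.iterate_zero, id]
      exact hMz.trans (le_abs_self _)
    · obtain ⟨i', rfl⟩ : ∃ i', i = i' + 1 := ⟨i - 1, by omega⟩
      rw [iter_syr hk hM h i' hi]
      push_cast
      have : (1 : ℝ) ≤ 2 ^ (e - (i' + 1)) := one_le_pow₀ (by norm_num)
      refine le_trans ?_ (le_abs_self _)
      exact hxz.trans (le_mul_of_one_le_left (by linarith) this)
  have hj : e < n := by
    by_contra hcon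
    push Not at hcon
    have := hval n hcon
    linarith
  have hx' : (Tz k)^[e] M = x := by
    obtain ⟨i', rfl⟩ : ∃ i', e = i' + 1 := ⟨e - 1, by omega⟩
    rw [iter_syr hk hM h i' le_rfl]
    simp
  have hsh : ∀ j, (Tz k)^[j] x = (Tz k)^[j + e] M := by
    intro j
    rw [Function.iterate_add_apply, hx']
  refine ⟨hxz.trans (le_abs_self _), n - e, ?_, ?_, ?_⟩
  · intro j hj'
    rw [hsh]; exact h1 _ (by omega)
  · rw [hsh, Nat.sub_add_cancel (by omega)]; exact h2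
  · rw [hsh, Nat.sub_add_cancel (by omega)]; exact h3

/-- conversion of the density bounds -/
theorem conv {S : Set ℤ} {A : ℝ} {m : ℕ} {ρ : ℝ} (h : Pool.Agent.H319R3.GC.PB S A (3 ^ m) ρ) :
    Pool.Agent.H499R2.ND.PB S A m (4 * ρ) := by
  intro u v hu
  obtain ⟨c, hc⟩ := Pool.Agent.H499R2.ND.cls_unit S A (2 * A) m hu v
  rw [hc]
  have h1 := h c
  unfold Pool.Agent.H319R3.GC.wc at h1
  have hfin : {x : ℤ | x ∈ S ∧ A ≤ |(x : ℝ)| ∧ |(x : ℝ)| < 2 * A ∧ ((3 ^ m : ℕ) : ℤ) ∣ x - c}.Finite := by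
    apply (Pool.Agent.H319R3.GC.I1_window_finite S (2 * A)).subset
    rintro x ⟨h1, -, h3, -⟩
    exact ⟨h1, h3⟩
  have hsub : ((Pool.Agent.H499R2.ND.cls S A (2 * A) m 1 c : Finset ℤ) : Set ℤ) ⊆
      {x : ℤ | x ∈ S ∧ A ≤ |(x : ℝ)| ∧ |(x : ℝ)| < 2 * A ∧ ((3 ^ m : ℕ) : ℤ) ∣ x - c} := by
    intro x hx
    rw [mem_coe, Pool.Agent.H499R2.ND.mem_cls] at hx
    obtain ⟨⟨a1, a2⟩, _, a3, a4⟩ := hx
    have hA : 0 < A := by
      by_contra hcon
      push Not at hcon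
      linarith
    refine ⟨a3, a1.trans (le_abs_self _), ?_, ?_⟩
    · rw [abs_of_pos (by linarith)]; exact a2
    · push_cast
      rwa [one_mul] at a4
  have h2 := Set.ncard_le_ncard hsub hfin
  rw [Set.ncard_coe_finset] at h2
  have h3 : ((Pool.Agent.H499R2.ND.cls S A (2 * A) m 1 c).card : ℝ) ≤ ρ * (2 * A) / ((3 ^ m : ℕ) : ℝ) :=
    le_trans (by exact_mod_cast h2) h1
  refine h3.trans (le_of_eq ?_)
  push_cast
  field_simp
  ring

/-- the density bound for first passages at all scales -/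
theorem spread_PB {k : ℤ} (hk : Odd k) (hk3 : IsCoprime k 3) {ε : ℝ} (hε : 0 < ε) :
    ∃ C : ℝ, 0 < C ∧ ∃ Y₀ : ℝ, 2 ≤ Y₀ ∧ ∀ Y : ℝ, Y₀ ≤ Y → ∀ (E : Set ℤ) (EF : Finset ℤ),
      (∀ y ∈ E, |(y : ℝ)| < Y → y ∈ EF) → ∀ A : ℝ, Y / 2 ≤ A →
        Pool.Agent.H499R2.ND.PB (SZk k Y E) A 0
          (C * ((EF.card : ℝ) * Y ^ (ε - 1) + Y ^ (-(6 / 100 : ℝ)))) := by
  obtain ⟨Ast, hAst, hSt⟩ := card_Sj_ex hk
  have hη1 := eta0_lt
  have hη0 := eta0_pos
  have hadm := adm3 hk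
  set R : ℝ := |(k : ℝ)| with hRdef
  have hR0 : 0 ≤ R := abs_nonneg _
  have hR : ∀ i < 2, |((r3 k i : ℤ) : ℝ)| ≤ R := by
    intro i hi
    interval_cases i
    · simp [r3, hRdef]
    · simp [r3, hRdef]
  obtain ⟨g, hg0, hgε, hgη, hg10⟩ : ∃ g : ℝ, 0 < g ∧ 10 * g ≤ ε ∧ 10 * g ≤ 1 - η0 - 6 / 100 ∧
      10 * g ≤ 1 := by
    refine ⟨min (min (ε / 10) ((1 - η0 - 6 / 100) / 10)) (1 / 10), ?_, ?_, ?_, ?_⟩
    · apply lt_min (lt_min _ _) (by norm_num)
      · positivity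
      · apply div_pos (by linarith) (by norm_num)
    · have := (min_le_left (min (ε / 10) ((1 - η0 - 6 / 100) / 10)) (1 / 10)).trans (min_le_left _ _)
      linarith
    · have := (min_le_left (min (ε / 10) ((1 - η0 - 6 / 100) / 10)) (1 / 10)).trans (min_le_right _ _)
      linarith
    · have := min_le_right (min (ε / 10) ((1 - η0 - 6 / 100) / 10)) (1 / 10)
      linarith
  obtain ⟨B, hB⟩ := exists_nat_ge (1 / g)
  have hBg : 1 ≤ g * (B + 1 : ℕ) := by
    rw [div_le_iff₀ hg0] at hB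
    push_cast
    nlinarith
  obtain ⟨l₀, K, hl₀, hK, hsc⟩ := scales hk hk3 (γ := 1 / 2) (by norm_num) le_rfl (B + 1) (by omega)
  have e1 : ∀ᶠ y : ℝ in atTop, max (max l₀ 1) 100000 ≤ y ^ g :=
    (tendsto_rpow_atTop hg0).eventually_ge_atTop _
  have e2 : ∀ᶠ y : ℝ in atTop, ‖Real.log y‖ ≤ (1 / 4) * ‖y ^ g‖ :=
    (isLittleO_log_rpow_atTop hg0).bound (by positivity)
  have e3 : ∀ᶠ y : ℝ in atTop, 1600 * R ≤ y ^ ((1 : ℝ) / 2) :=
    (tendsto_rpow_atTop (by norm_num)).eventually_ge_atTop _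
  have e4 : ∀ᶠ y : ℝ in atTop, R ≤ y := eventually_ge_atTop _
  obtain ⟨Y₁, hY₁⟩ := Filter.eventually_atTop.1 ((e1.and e2).and (e3.and e4))
  have hC2 : 0 ≤ Cst2 2 R := by unfold Cst2; positivity
  have hC' : 0 ≤ Cst' 2 R Ast := by unfold Cst'; positivity
  refine ⟨4 * (2 ^ 8 * Cst2 2 R + 2 ^ 9 * Cst' 2 R Ast) + K, by positivity, max Y₁ 2, le_max_right _ _, ?_⟩
  intro Y hYY E EF hE A hAY
  obtain ⟨⟨h1, h2⟩, h3, h4⟩ := hY₁ Y (le_trans (le_max_left _ _) hYY)
  have hY2 : 2 ≤ Y := le_trans (le_max_right _ _) hYY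
  have hY0 : 0 < Y := by linarith
  set l := Y ^ g with hldef
  have hl1 : 1 ≤ l := le_trans (le_trans (le_max_right _ _) (le_max_left _ _)) h1
  have hll : l₀ ≤ l := le_trans (le_trans (le_max_left _ _) (le_max_left _ _)) h1
  have hl5 : 100000 ≤ l := le_trans (le_max_right _ _) h1
  have hl0 : 0 < l := by linarith
  have hlogY : Real.log Y ≤ l / 4 := by
    rw [Real.norm_eq_abs, Real.norm_eq_abs, abs_of_pos hl0] at h2
    have := le_abs_self (Real.log Y)
    linarith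
  have hlogY0 : 0 ≤ Real.log Y := Real.log_nonneg (by linarith)
  have hyt : 200 * (2 * l) ^ 2 * R * (2 : ℕ) ≤ Y := by
    have h5 : l ^ 2 ≤ Y ^ ((1 : ℝ) / 2) := by
      rw [hldef, ← Real.rpow_natCast, ← Real.rpow_mul hY0.le]
      apply Real.rpow_le_rpow_of_exponent_le (by linarith)
      push_cast
      linarith
    have h6 : Y ^ ((1 : ℝ) / 2) * Y ^ ((1 : ℝ) / 2) = Y := by
      rw [← Real.rpow_add hY0]; norm_num
    calc 200 * (2 * l) ^ 2 * R * ((2 : ℕ) : ℝ) = (1600 * R) * l ^ 2 := by push_cast; ring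
      _ ≤ Y ^ ((1 : ℝ) / 2) * Y ^ ((1 : ℝ) / 2) := mul_le_mul h3 h5 (by positivity) (by positivity)
      _ = Y := h6
  set D : ℝ := (EF.card : ℝ) * Y ^ (ε - 1) + Y ^ (-(6 / 100 : ℝ)) with hD
  have hYc : 0 < Y ^ (-(6 / 100 : ℝ)) := Real.rpow_pos_of_pos hY0 _
  have hD0 : 0 ≤ D := by positivity
  -- the bound at the low scales
  set ρ' : ℝ := Cst2 2 R * (2 * l) ^ (2 * 2 + 4) * (EF.card / Y)
      + Cst' 2 R Ast * (2 * l) ^ (2 * 2 + 5) * Y ^ (-(1 - η0)) with hρ'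
  have hρ'0 : 0 ≤ ρ' := by positivity
  have hρD : ρ' ≤ (2 ^ 8 * Cst2 2 R + 2 ^ 9 * Cst' 2 R Ast) * D := by
    have a1 : l ^ 8 * ((EF.card : ℝ) / Y) ≤ (EF.card : ℝ) * Y ^ (ε - 1) := by
      have : l ^ 8 * ((EF.card : ℝ) / Y) = (EF.card : ℝ) * (Y ^ (g * 8) * Y ^ (-1 : ℝ)) := by
        rw [hldef, ← Real.rpow_natCast, ← Real.rpow_mul hY0.le, Real.rpow_neg_one]
        push_cast
        ring
      rw [this]
      apply mul_le_mul_of_nonneg_left _ (Nat.cast_nonneg _)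
      rw [← Real.rpow_add hY0]
      apply Real.rpow_le_rpow_of_exponent_le (by linarith)
      linarith
    have a2 : l ^ 9 * Y ^ (-(1 - η0)) ≤ Y ^ (-(6 / 100 : ℝ)) := by
      rw [hldef, ← Real.rpow_natCast, ← Real.rpow_mul hY0.le, ← Real.rpow_add hY0]
      apply Real.rpow_le_rpow_of_exponent_le (by linarith)
      push_cast
      linarith
    have a3 : ρ' = 2 ^ 8 * Cst2 2 R * (l ^ 8 * ((EF.card : ℝ) / Y))
        + 2 ^ 9 * Cst' 2 R Ast * (l ^ 9 * Y ^ (-(1 - η0))) := by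
      rw [hρ']; ring
    rw [a3, hD]
    have b1 : 2 ^ 8 * Cst2 2 R * (l ^ 8 * ((EF.card : ℝ) / Y)) ≤
        2 ^ 8 * Cst2 2 R * ((EF.card : ℝ) * Y ^ (ε - 1)) := mul_le_mul_of_nonneg_left a1 (by positivity)
    have b2 : 2 ^ 9 * Cst' 2 R Ast * (l ^ 9 * Y ^ (-(1 - η0))) ≤
        2 ^ 9 * Cst' 2 R Ast * Y ^ (-(6 / 100 : ℝ)) := mul_le_mul_of_nonneg_left a2 (by positivity)
    have b3 : 0 ≤ 2 ^ 8 * Cst2 2 R * Y ^ (-(6 / 100 : ℝ)) := by positivity
    have b4 : 0 ≤ 2 ^ 9 * Cst' 2 R Ast * ((EF.card : ℝ) * Y ^ (ε - 1)) := by positivity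
    nlinarith
  have hlow : ∀ A : ℝ, Y / 2 ≤ A → Real.log A ≤ 2 * l → ∀ m : ℕ,
      (((3 ^ m : ℕ) : ℝ)) ≤ (2 * A / Y) ^ (1 - η0) →
      Pool.Agent.H499R2.ND.PB (SZk k Y E) A m (4 * ρ') := by
    intro A hA1 hA2 m hm
    apply conv
    exact pb_first hadm hR hR0 (τ := 1 / 3) (A := Ast) (η := η0) hAst (by norm_num) hη0.le (by linarith)
      hSt (y := Y) (t₁ := 2 * l) (a := A) (by linarith) (by linarith) (by linarith) (by linarith) hA2 hyt
      (Q := 3 ^ m) (by positivity) hm hE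
  have hfin : ∀ ρ : ℝ, ρ ≤ (4 * (2 ^ 8 * Cst2 2 R + 2 ^ 9 * Cst' 2 R Ast) + K) * D →
      Pool.Agent.H499R2.ND.PB (SZk k Y E) A 0 ρ →
      Pool.Agent.H499R2.ND.PB (SZk k Y E) A 0
        ((4 * (2 ^ 8 * Cst2 2 R + 2 ^ 9 * Cst' 2 R Ast) + K) * D) := by
    intro ρ hρ h u v hu
    refine (h u v hu).trans ?_
    apply mul_le_mul_of_nonneg_right hρ
    have : 0 < A := by linarith
    positivity
  rcases le_or_gt (Real.log A) l with hcase | hcase
  · apply hfin (4 * ρ') _ (hlow A hAY (by linarith) 0 _)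
    · have : 0 ≤ K * D := by positivity
      nlinarith
    · rw [pow_zero, Nat.cast_one]
      apply Real.one_le_rpow _ (by linarith)
      rw [le_div_iff₀ hY0]; linarith
  · have hApos : 0 < A := by linarith
    have h5 := hsc l hll (SZk k Y E) Y (by rw [← hRdef]; exact h4) (SZk_fwd (Int.odd_iff.1 hk) hY0 E)
      hlogY (4 * ρ') (by positivity) (by
        intro A' hA' hl1' hl2' m hm
        apply hlow A' _ hl2' m
        · -- the modulus is small
          set t := Real.log A' with ht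
          have ht5 : 100000 ≤ t := by linarith
          have ht0 : 0 < t := by linarith
          push_cast
          have hlhs : (3 : ℝ) ^ m ≤ Real.exp (1.11 * t ^ ((1 : ℝ) / 4)) := by
            have : (3 : ℝ) ^ m = Real.exp (m * Real.log 3) := by
              rw [Real.exp_nat_mul, Real.exp_log (by norm_num)]
            rw [this]
            apply Real.exp_le_exp.2
            have hl3 : Real.log 3 ≤ 1.11 := by
              have h9 : Real.log 3 ≤ 8 / 5 * Real.log 2 := Pool.Agent.H499R2.ND.log3_le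
              have := Real.log_two_lt_d9
              linarith
            have hm' : (m : ℝ) ≤ t ^ ((1 : ℝ) / 4) := by
              refine hm.trans (le_of_eq ?_)
              congr 1; norm_num
            have h30 : 0 ≤ Real.log 3 := Real.log_nonneg (by norm_num)
            calc (m : ℝ) * Real.log 3 ≤ t ^ ((1 : ℝ) / 4) * 1.11 :=
                  mul_le_mul hm' hl3 h30 (by positivity)
              _ = _ := by ring
          have hrhs : Real.exp (0.045 * t) ≤ (2 * A' / Y) ^ (1 - η0) := by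
            have hpos : 0 < 2 * A' / Y := by positivity
            rw [Real.rpow_def_of_pos hpos]
            apply Real.exp_le_exp.2
            rw [Real.log_div (by positivity) hY0.ne', Real.log_mul (by norm_num) hA'.ne', ← ht]
            have hl2p : 0 < Real.log 2 := Real.log_pos (by norm_num)
            have h7 : 3 / 4 * t ≤ Real.log 2 + t - Real.log Y := by linarith
            have h8 : (6 / 100 : ℝ) ≤ 1 - η0 := by linarith
            calc 0.045 * t = (3 / 4 * t) * (6 / 100) := by ring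
              _ ≤ (Real.log 2 + t - Real.log Y) * (1 - η0) :=
                  mul_le_mul h7 h8 (by norm_num) (by linarith)
          refine hlhs.trans (le_trans ?_ hrhs)
          apply Real.exp_le_exp.2
          -- `1.11 t^(1/4) ≤ 0.045 t`
          have h9 : t ^ ((1 : ℝ) / 4) * t ^ ((3 : ℝ) / 4) = t := by
            rw [← Real.rpow_add ht0]; norm_num
          have h10 : (1000 : ℝ) ≤ t ^ ((3 : ℝ) / 4) := by
            have h11 : (10000 : ℝ) ^ ((3 : ℝ) / 4) ≤ t ^ ((3 : ℝ) / 4) :=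
              Real.rpow_le_rpow (by norm_num) (by linarith) (by norm_num)
            have h12 : (10000 : ℝ) ^ ((3 : ℝ) / 4) = 1000 := by
              rw [show (10000 : ℝ) = (10 : ℝ) ^ (4 : ℝ) by norm_num, ← Real.rpow_mul (by norm_num)]
              norm_num
            linarith
          have h13 : 0 ≤ t ^ ((1 : ℝ) / 4) := by positivity
          nlinarith
        · have : Real.log Y ≤ Real.log A' := by linarith
          have := (Real.log_le_log_iff hY0 hA').1 this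
          linarith) A hApos hcase.le 0 (by
        rw [Nat.cast_zero]
        apply Real.rpow_nonneg
        linarith)
    apply hfin _ _ h5
    have h6 : K / l ^ (B + 1) ≤ K * D := by
      rw [div_eq_mul_inv]
      apply mul_le_mul_of_nonneg_left _ hK.le
      have h7 : (l ^ (B + 1))⁻¹ ≤ Y ^ (-(6 / 100 : ℝ)) := by
        rw [hldef, ← Real.rpow_natCast, ← Real.rpow_mul hY0.le, ← Real.rpow_neg hY0.le]
        apply Real.rpow_le_rpow_of_exponent_le (by linarith)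
        linarith
      have h8 : 0 ≤ (EF.card : ℝ) * Y ^ (ε - 1) := by positivity
      linarith
    have h7 : 4 * ρ' ≤ 4 * ((2 ^ 8 * Cst2 2 R + 2 ^ 9 * Cst' 2 R Ast) * D) := by linarith
    calc 4 * ρ' + K / l ^ (B + 1) ≤ 4 * ((2 ^ 8 * Cst2 2 R + 2 ^ 9 * Cst' 2 R Ast) * D) + K * D := by
          linarith
      _ = _ := by ring

end Pool.Agent.U457.PS
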