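import Pool.Agent.W26.WsHit
import Pool.Agent.H320R2.PDFinal
import Pool.Agent.U457.PS.Inv

/-! Lower bounds for first passages: paths which stay above a level. -/

set_option autoImplicit false

namespace Pool.Agent.U457.PS

open Finset Filter Topology
open Pool.Agent.H499R2.CO (Tz)
open Pool.Agent.H320R2.PD (fT Wo Nice U cod word_cons endpoint_reach endpoint_cod Wo_inj fT_halve
  fT_letter good_class quenched fT_odd fT_two_mul)
open Pool.Agent.H320R2.PD.Cnt (Wo_take_le Wo_nice_le count_uniform)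

theorem fT_eq_Tz : fT = Tz 1 := by
  funext x
  unfold fT Tz
  rfl

/-- the orbit of `y` reaches `x` after `t` steps, its terms up to `x` have absolute value at least `L` -/
def Pth (L : ℝ) (t : ℕ) (y x : ℤ) : Prop :=
  fT^[t] y = x ∧ ∀ j ≤ t, L ≤ |((fT^[j] y : ℤ) : ℝ)|

theorem Pth.trans {L : ℝ} {s t : ℕ} {y z x : ℤ} (h1 : Pth L s y z) (h2 : Pth L t z x) :
    Pth L (s + t) y x := by
  refine ⟨?_, ?_⟩
  · rw [add_comm, Function.iterate_add_apply, h1.1, h2.1]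
  · intro j hj
    rcases le_or_gt j s with h | h
    · exact h1.2 j h
    · obtain ⟨i, rfl⟩ : ∃ i, j = i + s := ⟨j - s, by omega⟩
      rw [Function.iterate_add_apply, h1.1]
      exact h2.2 i (by omega)

theorem Pth.mono {L L' : ℝ} {t : ℕ} {y x : ℤ} (h : Pth L t y x) (hL : L' ≤ L) : Pth L' t y x :=
  ⟨h.1, fun j hj => hL.trans (h.2 j hj)⟩

theorem abs_pow_mul (i : ℕ) (x : ℤ) : |(x : ℝ)| ≤ |(((2 : ℤ) ^ i * x : ℤ) : ℝ)| := by
  push_cast
  rw [abs_mul, abs_pow, abs_two]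
  exact le_mul_of_one_le_left (abs_nonneg _) (one_le_pow₀ (by norm_num))

theorem Pth_halve (e : ℕ) {x : ℤ} {L : ℝ} (hx : L ≤ |(x : ℝ)|) : Pth L e (2 ^ e * x) x := by
  refine ⟨fT_halve e x, ?_⟩
  intro j hj
  have h1 : (2 : ℤ) ^ e * x = 2 ^ j * (2 ^ (e - j) * x) := by
    rw [← mul_assoc, ← pow_add, show j + (e - j) = e by omega]
  rw [h1, fT_halve]
  exact hx.trans (abs_pow_mul _ _)

theorem Pth_letter {e : ℕ} (he : 1 ≤ e) {x b : ℤ} (hb : 3 * b + 1 = 2 ^ e * x) {L : ℝ}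
    (hx : L ≤ |(x : ℝ)|) (hb' : L ≤ |(b : ℝ)|) : Pth L e b x := by
  refine ⟨fT_letter he hb, ?_⟩
  intro j hj
  rcases Nat.eq_zero_or_pos j with rfl | hj0
  · simpa using hb'
  · obtain ⟨i, rfl⟩ : ∃ i, j = i + 1 := ⟨j - 1, by omega⟩
    obtain ⟨e', rfl⟩ : ∃ e', e = e' + 1 := ⟨e - 1, by omega⟩
    have h2 : (2 : ℤ) ^ (e' + 1) * x = 2 * (2 ^ e' * x) := by ring
    rw [h2] at hb
    rw [Function.iterate_succ_apply, fT_odd (by omega)]
    have h3 : (3 * b + 1) / 2 = 2 ^ e' * x := by omega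
    rw [h3]
    exact (Pth_halve e' hx).2 i (by omega)

/-- a word gives a path; its terms are bounded below by its nodes -/
theorem Pth_word {L : ℝ} {w : List ℕ} : ∀ {x : ℤ}, (∀ e ∈ w, 1 ≤ e) →
    (3 : ℤ) ^ w.length ∣ 2 ^ w.sum * x - Wo w →
    (∀ i ≤ w.length, ∀ n : ℤ, 3 ^ i * n = 2 ^ (w.take i).sum * x - Wo (w.take i) → L ≤ |(n : ℝ)|) →
    Pth L w.sum ((2 ^ w.sum * x - Wo w) / 3 ^ w.length) x := by
  induction w with
  | nil =>
    intro x _ _ h
    have := h 0 le_rfl x (by simp [Wo])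
    refine ⟨by simp [Wo], ?_⟩
    intro j hj
    have hj0 : j = 0 := by simpa using hj
    subst hj0
    simpa [Wo] using this
  | cons e w ih =>
    intro x hw hd h
    obtain ⟨b, hb, hdb, hq⟩ := word_cons hd
    have hnode : ∀ i ≤ w.length, ∀ n : ℤ,
        3 ^ i * n = 2 ^ (w.take i).sum * b - Wo (w.take i) → L ≤ |(n : ℝ)| := by
      intro i hi n hn
      refine h (i + 1) (by simpa using hi) n ?_
      rw [List.take_succ_cons, List.sum_cons, Wo]
      push_cast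
      rw [pow_succ, pow_add]
      linear_combination 3 * hn + (2 : ℤ) ^ (w.take i).sum * hb
    rw [hq]
    have h1 := ih (fun e he => hw e (List.mem_cons_of_mem _ he)) hdb hnode
    have hb' : L ≤ |(b : ℝ)| := hnode 0 (Nat.zero_le _) b (by simp [Wo])
    have hx' : L ≤ |(x : ℝ)| := h 0 (Nat.zero_le _) x (by simp [Wo])
    have h2 := h1.trans (Pth_letter (hw e List.mem_cons_self) hb hx' hb')
    rw [List.sum_cons, add_comm]
    exact h2

theorem Wo_le (w : List ℕ) : Wo w + 2 ^ w.sum ≤ 3 ^ w.length * 2 ^ w.sum := by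
  induction w with
  | nil => simp [Wo]
  | cons e w ih =>
    rw [Wo, List.sum_cons, List.length_cons, pow_succ, pow_add]
    have h1 : 1 ≤ 3 ^ w.length * 3 := by have := Nat.one_le_pow w.length 3 (by norm_num); omega
    have h2 : 1 ≤ 2 ^ e := Nat.one_le_two_pow
    have h3 : 3 ^ w.length * 3 + 2 ^ e ≤ 3 ^ w.length * 3 * 2 ^ e + 1 := by nlinarith
    have h4 := Nat.mul_le_mul_right (2 ^ w.sum) h3
    have h5 : 0 < 2 ^ w.sum := by positivity
    have h6 : (3 ^ w.length * 3 + 2 ^ e) * 2 ^ w.sum =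
        3 * (3 ^ w.length * 2 ^ w.sum) + 2 ^ e * 2 ^ w.sum := by ring
    have h7 : (3 ^ w.length * 3 * 2 ^ e + 1) * 2 ^ w.sum =
        3 ^ w.length * 3 * (2 ^ e * 2 ^ w.sum) + 2 ^ w.sum := by ring
    rw [h6, h7] at h4
    omega

end Pool.Agent.U457.PS
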