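import Pool.Agent.U457.PS.Low9

/-! Almost monotonicity of the tails of the total stopping time over the scales. -/

set_option autoImplicit false

namespace Pool.Agent.U457.PS

open Finset Filter Topology

theorem log_two_six : 6 * Real.log 2 ≤ 5 := by have := Real.log_two_lt_d9; linarith

theorem sum_half (L : ℕ) : ∑ j ∈ range L, (2 : ℝ) / 2 ^ j ≤ 4 := by
  have h : ∀ L : ℕ, ∑ j ∈ range L, (2 : ℝ) / 2 ^ j = 4 - 4 / 2 ^ L := by
    intro L
    induction L with
    | zero => simp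
    | succ L ih => rw [sum_range_succ, ih, pow_succ]; field_simp; ring
  rw [h]
  have : (0 : ℝ) ≤ 4 / 2 ^ L := by positivity
  linarith

theorem ncard_biUnion_le {ι : Type*} (s : Finset ι) (S : Set ℕ) (E : ι → Set ℕ) (hE : ∀ i, (E i).Finite)
    (h : ∀ n ∈ S, ∃ i ∈ s, n ∈ E i) : (S.ncard : ℝ) ≤ ∑ i ∈ s, ((E i).ncard : ℝ) := by
  classical
  have h1 : S ⊆ ((s.biUnion (fun i => (hE i).toFinset) : Finset ℕ) : Set ℕ) := by
    intro n hn
    obtain ⟨i, hi, hn⟩ := h n hn
    rw [Finset.mem_coe, Finset.mem_biUnion]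
    exact ⟨i, hi, by simpa using hn⟩
  have h2 := Set.ncard_le_ncard h1 (Finset.finite_toSet _)
  rw [Set.ncard_coe_finset] at h2
  have h3 := h2.trans Finset.card_biUnion_le
  have h4 : (S.ncard : ℝ) ≤ ((∑ i ∈ s, ((hE i).toFinset).card : ℕ) : ℝ) := Nat.cast_le.2 h3
  refine h4.trans (le_of_eq ?_)
  push_cast
  apply Finset.sum_congr rfl
  intro i _
  rw [Set.ncard_eq_toFinset_card _ (hE i)]

theorem exists_scale {Y : ℝ} {a : ℝ} (ha : 1 ≤ a) (haY : a ≤ Y) {L : ℕ} (hL : Y < 2 ^ L) :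
    ∃ j ∈ range (L + 1), Y / 2 ^ j ≤ a ∧ a < 2 * Y / 2 ^ j := by
  classical
  have hY0 : 0 < Y := by linarith
  have hex : ∃ j : ℕ, Y / 2 ^ j ≤ a := ⟨L, by
    rw [div_le_iff₀ (by positivity)]
    have : (0 : ℝ) < 2 ^ L := by positivity
    nlinarith⟩
  refine ⟨Nat.find hex, ?_, Nat.find_spec hex, ?_⟩
  · rw [mem_range]
    have : Nat.find hex ≤ L := Nat.find_min' hex (by
      rw [div_le_iff₀ (by positivity)]
      have : (0 : ℝ) < 2 ^ L := by positivity
      nlinarith)
    omega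
  · rcases Nat.eq_zero_or_pos (Nat.find hex) with h | h
    · rw [h, pow_zero, div_one]; linarith
    · obtain ⟨i, hi⟩ : ∃ i, Nat.find hex = i + 1 := ⟨Nat.find hex - 1, by omega⟩
      have h1 := Nat.find_min hex (show i < Nat.find hex by omega)
      rw [hi, pow_succ]
      rw [not_le, lt_div_iff₀ (by positivity)] at h1
      rw [lt_div_iff₀ (by positivity)]
      nlinarith

theorem tail3 : ∃ C K : ℝ, 1 ≤ C ∧ 0 ≤ K ∧ ∀ B X Y : ℝ, 0 < Y → Y ≤ X →
    N3 B Y * X ≤ C * Y * NN (B + 6 * Real.log (X / Y) - K) X := by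
  classical
  obtain ⟨c, K, hc, hK, hmin⟩ := minor_t
  have hlK : 0 ≤ Real.log (2 * K) := Real.log_nonneg (by linarith)
  refine ⟨2 * K + 4 / c, K + 5 + 6 * Real.log (2 * K), ?_, by linarith, ?_⟩
  · have : 0 < 4 / c := by positivity
    linarith
  intro B X Y hY hXY
  have hX : 0 < X := by linarith
  have hlXY : 0 ≤ Real.log (X / Y) := Real.log_nonneg (by rw [le_div_iff₀ hY]; linarith)
  set M : ℝ := NN (B + 6 * Real.log (X / Y) - (K + 5 + 6 * Real.log (2 * K))) X with hM
  have hM0 : 0 ≤ M := NN_nonneg _ _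
  rcases lt_or_ge X (2 * K * Y) with hc1 | hc1
  · -- small ratio
    have h1 : Real.log (X / Y) ≤ Real.log (2 * K) :=
      Real.log_le_log (by positivity) (by rw [div_le_iff₀ hY]; exact hc1.le)
    have h2 : N3 B Y ≤ M := by
      have h3 : N3 B Y ≤ NN B Y := by
        unfold N3 NN
        apply Nat.cast_le.2
        apply Set.ncard_le_ncard _ (fin_le' Y _ _)
        rintro n ⟨h1, h2, h3⟩
        exact ⟨h1.2, h2, h3⟩
      exact h3.trans (NN_mono (by linarith) hXY)
    have h0 : 0 ≤ N3 B Y := Nat.cast_nonneg _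
    calc N3 B Y * X ≤ M * (2 * K * Y) := mul_le_mul h2 hc1.le hX.le hM0
      _ = 2 * K * Y * M := by ring
      _ ≤ (2 * K + 4 / c) * Y * M := by
        apply mul_le_mul_of_nonneg_right _ hM0
        apply mul_le_mul_of_nonneg_right _ hY.le
        have : 0 < 4 / c := by positivity
        linarith
  · obtain ⟨L, hL⟩ := pow_unbounded_of_one_lt Y (by norm_num : (1 : ℝ) < 2)
    set E : ℕ → Set ℕ := fun j => {a : ℕ | (¬ 3 ∣ a ∧ 1 ≤ a) ∧ (a : ℝ) ≤ 2 * Y / 2 ^ j ∧
      (2 * Y / 2 ^ j / 2 ≤ a ∧ (a : ℝ) < 2 * Y / 2 ^ j) ∧ ¬ Rch B a} with hE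
    have hEf : ∀ j, (E j).Finite := fun j => fin_le' _ _ _
    have hcov : N3 B Y ≤ ∑ j ∈ range (L + 1), ((E j).ncard : ℝ) := by
      unfold N3
      apply ncard_biUnion_le (range (L + 1)) _ E hEf
      rintro n ⟨h1, h2, h3⟩
      obtain ⟨j, hj, h4, h5⟩ := exists_scale (show (1 : ℝ) ≤ n by exact_mod_cast h1.2) h2 hL
      refine ⟨j, hj, h1, h5.le, ⟨?_, h5⟩, h3⟩
      refine le_trans (le_of_eq ?_) h4
      ring
    have hEj : ∀ j ∈ range (L + 1), ((E j).ncard : ℝ) ≤ M * Y / (c * X) * (2 / 2 ^ j) := by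
      intro j _
      have h2j : (1 : ℝ) ≤ 2 ^ j := one_le_pow₀ (by norm_num)
      have hZ : 0 < 2 * Y / 2 ^ j := by positivity
      have hKZ : K * (2 * Y / 2 ^ j) ≤ X := by
        refine le_trans ?_ hc1
        rw [show 2 * K * Y = K * (2 * Y) by ring]
        apply mul_le_mul_of_nonneg_left _ (by linarith)
        exact div_le_self (by positivity) h2j
      have g := dyad hc hK hmin (B := B) hZ hKZ
      have hlog : Real.log (X / Y) - Real.log 2 ≤ Real.log (X / (2 * Y / 2 ^ j)) := by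
        rw [← Real.log_div (by positivity) (by norm_num)]
        apply Real.log_le_log (by positivity)
        rw [div_div, div_le_div_iff₀ (by positivity) (by positivity)]
        have : 2 * Y / 2 ^ j ≤ 2 * Y := div_le_self (by positivity) h2j
        nlinarith
      have g2 : NN (B + 6 * Real.log (X / (2 * Y / 2 ^ j)) - K) X ≤ M := by
        apply NN_mono _ le_rfl
        have := log_two_six
        linarith
      have g3 := g.trans g2
      have g4 : ((E j).ncard : ℝ) * (c * X / (2 * Y / 2 ^ j)) ≤ M := g3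
      have g5 : 0 < c * X / (2 * Y / 2 ^ j) := by positivity
      rw [← le_div_iff₀ g5] at g4
      refine g4.trans (le_of_eq ?_)
      field_simp
    have h1 := hcov.trans (Finset.sum_le_sum hEj)
    rw [← Finset.mul_sum] at h1
    have h2 : N3 B Y ≤ M * Y / (c * X) * 4 :=
      h1.trans (mul_le_mul_of_nonneg_left (sum_half _) (by positivity))
    calc N3 B Y * X ≤ M * Y / (c * X) * 4 * X := mul_le_mul_of_nonneg_right h2 hX.le
      _ = 4 / c * Y * M := by field_simp
      _ ≤ (2 * K + 4 / c) * Y * M := by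
        apply mul_le_mul_of_nonneg_right _ hM0
        apply mul_le_mul_of_nonneg_right _ hY.le
        linarith

theorem TN_odd {u : ℕ} (h : u % 2 = 1) : TN u = (3 * u + 1) / 2 := by unfold TN; rw [if_neg (by omega)]

theorem exists_odd_part {m : ℕ} (hm : 1 ≤ m) : ∃ v u : ℕ, m = 2 ^ v * u ∧ u % 2 = 1 := by
  obtain ⟨v, u, hu, rfl⟩ := Nat.exists_eq_two_pow_mul_odd (n := m) (by omega)
  exact ⟨v, u, rfl, Nat.odd_iff.1 hu⟩

/-- ALMOST MONOTONICITY of the tails -/
theorem tails : ∃ C K : ℝ, 1 ≤ C ∧ 0 ≤ K ∧ ∀ B X Y : ℝ, 0 < Y → Y ≤ X →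
    NN B Y * X ≤ C * Y * NN (B + 6 * Real.log (X / Y) - K) X := by
  classical
  obtain ⟨C, K, hC, hK, h3⟩ := tail3
  refine ⟨5 * C, K + 6, by linarith, by linarith, ?_⟩
  intro B X Y hY hXY
  have hX : 0 < X := by linarith
  set M : ℝ := NN (B + 6 * Real.log (X / Y) - (K + 6)) X with hM
  have hM0 : 0 ≤ M := NN_nonneg _ _
  have hl2 := log_two_six
  have hl2' := Real.log_two_gt_d9
  rcases lt_or_ge X (2 * Y) with hc1 | hc1
  · have h1 : Real.log (X / Y) ≤ Real.log 2 :=
      Real.log_le_log (by positivity) (by rw [div_le_iff₀ hY]; exact hc1.le)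
    have h2 : NN B Y ≤ M := NN_mono (by linarith) hXY
    calc NN B Y * X ≤ M * (2 * Y) := mul_le_mul h2 hc1.le hX.le hM0
      _ = 2 * Y * M := by ring
      _ ≤ 5 * C * Y * M := by
        apply mul_le_mul_of_nonneg_right _ hM0
        apply mul_le_mul_of_nonneg_right _ hY.le
        linarith
  · obtain ⟨L, hL⟩ := pow_unbounded_of_one_lt Y (by norm_num : (1 : ℝ) < 2)
    set E : ℕ → Set ℕ := fun v => {m : ℕ | (3 ∣ m ∧ 1 ≤ m ∧ ∃ u, m = 2 ^ v * u ∧ u % 2 = 1) ∧
      (m : ℝ) ≤ Y ∧ ¬ Rch B m} with hE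
    have hEf : ∀ v, (E v).Finite := fun v => fin_le' _ _ _
    have hcov : NN B Y ≤ N3 B Y + ∑ v ∈ range L, ((E v).ncard : ℝ) := by
      have h4 : ({n : ℕ | (3 ∣ n ∧ 1 ≤ n) ∧ (n : ℝ) ≤ Y ∧ ¬ Rch B n}.ncard : ℝ) ≤
          ∑ v ∈ range L, ((E v).ncard : ℝ) := by
        apply ncard_biUnion_le (range L) _ E hEf
        rintro n ⟨⟨h1, h2⟩, h4, h5⟩
        obtain ⟨v, u, hu1, hu2⟩ := exists_odd_part h2
        refine ⟨v, ?_, ⟨h1, h2, u, hu1, hu2⟩, h4, h5⟩
        rw [mem_range]
        by_contra hv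
        push Not at hv
        have h6 : (2 : ℝ) ^ L ≤ 2 ^ v := pow_le_pow_right₀ (by norm_num) hv
        have h7 : (2 : ℝ) ^ v ≤ n := by
          rw [hu1]; push_cast
          apply le_mul_of_one_le_right (by positivity)
          have : 1 ≤ u := by omega
          exact_mod_cast this
        linarith
      have h5 : NN B Y ≤ N3 B Y + ({n : ℕ | (3 ∣ n ∧ 1 ≤ n) ∧ (n : ℝ) ≤ Y ∧ ¬ Rch B n}.ncard : ℝ) := by
        unfold NN N3
        have h6 : {n : ℕ | 1 ≤ n ∧ (n : ℝ) ≤ Y ∧ ¬ Rch B n} ⊆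
            {n : ℕ | (¬ 3 ∣ n ∧ 1 ≤ n) ∧ (n : ℝ) ≤ Y ∧ ¬ Rch B n} ∪
            {n : ℕ | (3 ∣ n ∧ 1 ≤ n) ∧ (n : ℝ) ≤ Y ∧ ¬ Rch B n} := by
          rintro n ⟨h1, h2, h3⟩
          by_cases h : 3 ∣ n
          · exact Or.inr ⟨⟨h, h1⟩, h2, h3⟩
          · exact Or.inl ⟨⟨h, h1⟩, h2, h3⟩
        have h7 := (Set.ncard_le_ncard h6 ((fin_le' _ _ _).union (fin_le' _ _ _))).trans
          (Set.ncard_union_le _ _)
        exact_mod_cast h7
      linarith
    have hEv : ∀ v ∈ range L, ((E v).ncard : ℝ) ≤ C * Y * M / X * (2 / 2 ^ v) := by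
      intro v _
      have h2v : (1 : ℝ) ≤ 2 ^ v := one_le_pow₀ (by norm_num)
      have hcard : ((E v).ncard : ℝ) ≤ N3 (B - v - 1) (2 * Y / 2 ^ v) := by
        unfold N3
        apply Nat.cast_le.2
        apply Set.ncard_le_ncard_of_injOn (fun m => TN^[v + 1] m) _ _ (fin_le' _ _ _)
        · rintro m ⟨⟨g1, g2, u, g3, g4⟩, g5, g6⟩
          have hg : TN^[v + 1] m = (3 * u + 1) / 2 := by
            rw [Function.iterate_succ_apply', g3, TN_pow, TN_odd g4]
          have hu1 : 1 ≤ u := by omega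
          refine ⟨⟨?_, ?_⟩, ?_, ?_⟩
          · show ¬ 3 ∣ TN^[v + 1] m
            rw [hg]; omega
          · show 1 ≤ TN^[v + 1] m
            rw [hg]; omega
          · show ((TN^[v + 1] m : ℕ) : ℝ) ≤ _
            rw [hg]
            have k1 : (((3 * u + 1) / 2 : ℕ) : ℝ) ≤ 2 * u := by
              have : (3 * u + 1) / 2 ≤ 2 * u := by omega
              exact_mod_cast this
            refine k1.trans ?_
            rw [le_div_iff₀ (by positivity)]
            have : (m : ℝ) = 2 ^ v * u := by rw [g3]; push_cast; ring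
            nlinarith
          · rintro ⟨t, ht, ht1⟩
            apply g6
            refine ⟨t + (v + 1), ?_, ?_⟩
            · push_cast; linarith
            · rw [Function.iterate_add_apply]; exact ht1
        · rintro m ⟨⟨g1, g2, u, g3, g4⟩, g5, g6⟩ m' ⟨⟨g1', g2', u', g3', g4'⟩, g5', g6'⟩ hmm
          simp only at hmm
          have hg : TN^[v + 1] m = (3 * u + 1) / 2 := by
            rw [Function.iterate_succ_apply', g3, TN_pow, TN_odd g4]
          have hg' : TN^[v + 1] m' = (3 * u' + 1) / 2 := by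
            rw [Function.iterate_succ_apply', g3', TN_pow, TN_odd g4']
          rw [hg, hg'] at hmm
          have : u = u' := by omega
          rw [g3, g3', this]
      have hZ : 0 < 2 * Y / 2 ^ v := by positivity
      have hZX : 2 * Y / 2 ^ v ≤ X := (div_le_self (by positivity) h2v).trans hc1
      have g := h3 (B - v - 1) X (2 * Y / 2 ^ v) hZ hZX
      have hlog : Real.log (X / (2 * Y / 2 ^ v)) = Real.log (X / Y) + v * Real.log 2 - Real.log 2 := by
        have e : X / (2 * Y / 2 ^ v) = X / Y * 2 ^ v / 2 := by field_simp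
        rw [e, Real.log_div (by positivity) (by norm_num), Real.log_mul (by positivity) (by positivity),
          Real.log_pow]
      have g2 : NN (B - v - 1 + 6 * Real.log (X / (2 * Y / 2 ^ v)) - K) X ≤ M := by
        apply NN_mono _ le_rfl
        rw [hlog]
        have hv0 : (0 : ℝ) ≤ v := Nat.cast_nonneg v
        nlinarith
      have g3 : N3 (B - v - 1) (2 * Y / 2 ^ v) * X ≤ C * (2 * Y / 2 ^ v) * M :=
        g.trans (mul_le_mul_of_nonneg_left g2 (by positivity))
      rw [← le_div_iff₀ hX] at g3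
      refine (hcard.trans g3).trans (le_of_eq ?_)
      field_simp
    have h1 := hcov.trans (add_le_add le_rfl (Finset.sum_le_sum hEv))
    rw [← Finset.mul_sum] at h1
    have h2 := h1.trans (add_le_add le_rfl (mul_le_mul_of_nonneg_left (sum_half L) (by positivity)))
    have h5 : N3 B Y * X ≤ C * Y * M :=
      (h3 B X Y hY hXY).trans (mul_le_mul_of_nonneg_left (NN_mono (by linarith) le_rfl) (by positivity))
    calc NN B Y * X ≤ (N3 B Y + C * Y * M / X * 4) * X := mul_le_mul_of_nonneg_right h2 hX.le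
      _ = N3 B Y * X + 4 * (C * Y * M) := by field_simp
      _ ≤ 5 * C * Y * M := by linarith

end Pool.Agent.U457.PS
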