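import Pool.Agent.U457.PS.Low10

/-! The logarithmic bound and power savings for the exceptional set. -/

set_option autoImplicit false

namespace Pool.Agent.U457.PS

open Finset Filter Topology

/-- a power saving beyond `C log X` bounds all total stopping times -/
theorem log_of_saving {C δ C1 : ℝ} (hδ : 0 < δ) (hδ1 : δ ≤ 1) (hC1 : 6 + (C - 6) / δ < C1)
    (h : ∀ᶠ X : ℝ in atTop, NN (C * Real.log X) X ≤ X ^ (1 - δ)) :
    ∀ᶠ n : ℕ in atTop, Rch (C1 * Real.log n) n := by
  obtain ⟨D, K, hD, hK, ht⟩ := tails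
  obtain ⟨X0, hX0⟩ := Filter.eventually_atTop.1 h
  set g : ℝ := C1 - (6 + (C - 6) / δ) with hg
  have hg0 : 0 < g := by rw [hg]; linarith
  have hl2D : 0 ≤ Real.log (2 * D) := Real.log_nonneg (by linarith)
  obtain ⟨N0, hN0⟩ := Filter.eventually_atTop.1
    ((Real.tendsto_log_atTop.comp tendsto_natCast_atTop_atTop).eventually_ge_atTop
      ((K + (C - 6) / δ * Real.log (2 * D)) / g))
  obtain ⟨N1, hN1⟩ := exists_nat_ge X0
  rw [Filter.eventually_atTop]
  refine ⟨max 1 (max N0 N1), fun n hn => ?_⟩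
  have hn1 : 1 ≤ n := (le_max_left _ _).trans hn
  have hnN0 : N0 ≤ n := ((le_max_left _ _).trans (le_max_right _ _)).trans hn
  have hnN1 : N1 ≤ n := ((le_max_right _ _).trans (le_max_right _ _)).trans hn
  have hnR : (1 : ℝ) ≤ n := by exact_mod_cast hn1
  have hn0 : (0 : ℝ) < n := by linarith
  by_contra hbad
  set X : ℝ := (2 * D * n) ^ (1 / δ) with hX
  have hb1 : 1 ≤ 2 * D * n := by nlinarith
  have hbn : (n : ℝ) ≤ 2 * D * n := by nlinarith
  have h1δ : 1 ≤ 1 / δ := by rw [le_div_iff₀ hδ]; linarith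
  have hXb : 2 * D * n ≤ X := by
    have := Real.rpow_le_rpow_of_exponent_le hb1 h1δ
    rwa [Real.rpow_one] at this
  have hXn : (n : ℝ) ≤ X := hbn.trans hXb
  have hXpos : 0 < X := by linarith
  have hXX0 : X0 ≤ X := by
    have : (N1 : ℝ) ≤ n := by exact_mod_cast hnN1
    linarith
  have hXδ : X ^ δ = 2 * D * n := by
    rw [hX, ← Real.rpow_mul (by linarith), one_div_mul_cancel hδ.ne', Real.rpow_one]
  have hlX : Real.log X = (Real.log (2 * D) + Real.log n) / δ := by
    rw [hX, Real.log_rpow (by linarith), Real.log_mul (by positivity) (by positivity)]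
    ring
  -- the number of exceptions at scale `n` is at least 1
  have h1 : 1 ≤ NN (C1 * Real.log n) n := by
    unfold NN
    have hf := fin_le' (n : ℝ) (fun m : ℕ => 1 ≤ m) (fun m => ¬ Rch (C1 * Real.log n) m)
    have : ({n} : Set ℕ) ⊆ {m : ℕ | 1 ≤ m ∧ (m : ℝ) ≤ n ∧ ¬ Rch (C1 * Real.log n) m} := by
      rintro m rfl
      exact ⟨hn1, le_rfl, hbad⟩
    have h2 := Set.ncard_le_ncard this hf
    rw [Set.ncard_singleton] at h2
    exact_mod_cast h2
  have h2 := ht (C1 * Real.log n) X n hn0 hXn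
  have h3 : C * Real.log X ≤ C1 * Real.log n + 6 * Real.log (X / n) - K := by
    rw [Real.log_div hXpos.ne' hn0.ne']
    have h4 := hN0 n hnN0
    simp only [Function.comp_apply] at h4
    rw [div_le_iff₀ hg0] at h4
    have h5 : (C - 6) * Real.log X = (C - 6) / δ * Real.log (2 * D) + (C - 6) / δ * Real.log n := by
      rw [hlX]; ring
    have h6 : Real.log n * g = C1 * Real.log n - 6 * Real.log n - (C - 6) / δ * Real.log n := by
      rw [hg]; ring
    linarith
  have h4 : NN (C1 * Real.log n + 6 * Real.log (X / n) - K) X ≤ X ^ (1 - δ) :=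
    (NN_mono h3 le_rfl).trans (hX0 X hXX0)
  have h5 : 1 * X ≤ D * n * X ^ (1 - δ) :=
    ((mul_le_mul_of_nonneg_right h1 hXpos.le).trans h2).trans
      (mul_le_mul_of_nonneg_left h4 (by positivity))
  have h6 : X ^ (1 - δ) * X ^ δ = X := by
    rw [← Real.rpow_add hXpos, sub_add_cancel, Real.rpow_one]
  have h7 : 0 < X ^ (1 - δ) := Real.rpow_pos_of_pos hXpos _
  rw [hXδ] at h6
  nlinarith

theorem Rch_pow {B : ℝ} {k n : ℕ} (hn : 2 ≤ n) (h : Rch B (2 ^ k * n)) : Rch B n := by
  obtain ⟨t, ht, h1⟩ := h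
  rcases lt_or_ge t k with hc | hc
  · exfalso
    obtain ⟨i, hi⟩ : ∃ i, k = t + i := ⟨k - t, by omega⟩
    rw [hi, pow_add, mul_assoc, TN_pow] at h1
    have : 1 ≤ 2 ^ i := Nat.one_le_two_pow
    nlinarith
  · refine ⟨t - k, ?_, ?_⟩
    · have : ((t - k : ℕ) : ℝ) ≤ t := by exact_mod_cast Nat.sub_le _ _
      linarith
    · have h2 : TN^[t] (2 ^ k * n) = TN^[t - k] n := by
        rw [show t = (t - k) + k by omega, Function.iterate_add_apply, TN_pow, Nat.add_sub_cancel]
      rw [← h2]; exact h1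

/-- the logarithmic bound is equivalent to a power saving -/
theorem log_iff_saving : (∃ C : ℝ, ∀ n : ℕ, 2 ≤ n → Rch (C * Real.log n) n) ↔
    ∃ C δ : ℝ, 0 < δ ∧ ∀ᶠ X : ℝ in atTop, NN (C * Real.log X) X ≤ X ^ (1 - δ) := by
  constructor
  · rintro ⟨C, hC⟩
    refine ⟨max C 0, 1, one_pos, ?_⟩
    rw [Filter.eventually_atTop]
    refine ⟨1, fun X hX => ?_⟩
    have h1 : NN (max C 0 * Real.log X) X = 0 := by
      unfold NN
      have : {n : ℕ | 1 ≤ n ∧ (n : ℝ) ≤ X ∧ ¬ Rch (max C 0 * Real.log X) n} = ∅ := by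
        ext n
        simp only [Set.mem_empty_iff_false, iff_false]
        rintro ⟨h1, h2, h3⟩
        apply h3
        have hX1 : 0 ≤ Real.log X := Real.log_nonneg hX
        have hm : 0 ≤ max C 0 := le_max_right _ _
        rcases Nat.lt_or_ge n 2 with h4 | h4
        · obtain rfl : n = 1 := by omega
          exact ⟨0, by push_cast; positivity, rfl⟩
        · apply (hC n h4).mono
          have h5 : (0 : ℝ) < n := by exact_mod_cast h1
          have h6 : 0 ≤ Real.log n := Real.log_nonneg (by exact_mod_cast h1)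
          have h7 : Real.log n ≤ Real.log X := Real.log_le_log h5 h2
          calc C * Real.log n ≤ max C 0 * Real.log n := mul_le_mul_of_nonneg_right (le_max_left _ _) h6
            _ ≤ _ := mul_le_mul_of_nonneg_left h7 hm
      rw [this]; simp
    rw [h1]
    exact Real.rpow_nonneg (by linarith) _
  · rintro ⟨C, δ, hδ, h⟩
    set C' := max C 6
    set δ' := min δ 1
    have hδ' : 0 < δ' := lt_min hδ one_pos
    have h' : ∀ᶠ X : ℝ in atTop, NN (C' * Real.log X) X ≤ X ^ (1 - δ') := by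
      filter_upwards [h, eventually_ge_atTop (1 : ℝ)] with X hX hX1
      have hl : 0 ≤ Real.log X := Real.log_nonneg hX1
      refine (NN_mono (mul_le_mul_of_nonneg_right (le_max_left _ _) hl) le_rfl).trans (hX.trans ?_)
      exact Real.rpow_le_rpow_of_exponent_le hX1 (by linarith [min_le_left δ 1])
    set C1 : ℝ := 6 + (C' - 6) / δ' + 1 with hC1
    have hC'6 : 6 ≤ C' := le_max_right _ _
    have hC10 : 0 ≤ C1 := by
      have : 0 ≤ (C' - 6) / δ' := div_nonneg (by linarith) hδ'.le
      linarith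
    have h2 := log_of_saving hδ' (min_le_right _ _) (by linarith : 6 + (C' - 6) / δ' < C1) h'
    obtain ⟨N0, hN0⟩ := Filter.eventually_atTop.1 h2
    refine ⟨C1 * (N0 + 1), fun n hn => ?_⟩
    have h3 : N0 ≤ 2 ^ N0 * n := by
      have : N0 < 2 ^ N0 := Nat.lt_two_pow_self
      nlinarith
    have h4 := Rch_pow hn (hN0 _ h3)
    apply h4.mono
    have hn0 : (0 : ℝ) < n := by exact_mod_cast (by omega : 0 < n)
    have hl : Real.log 2 ≤ Real.log n := Real.log_le_log (by norm_num) (by exact_mod_cast hn)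
    push_cast
    rw [Real.log_mul (by positivity) hn0.ne', Real.log_pow]
    have : (N0 : ℝ) * Real.log 2 ≤ N0 * Real.log n := mul_le_mul_of_nonneg_left hl (Nat.cast_nonneg _)
    calc C1 * (N0 * Real.log 2 + Real.log n) ≤ C1 * (N0 * Real.log n + Real.log n) :=
          mul_le_mul_of_nonneg_left (by linarith) hC10
      _ = C1 * (N0 + 1) * Real.log n := by ring

end Pool.Agent.U457.PS
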