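import Pool.Agent.U457.PS.Low1

/-! Lower bounds for first passages: many paths from above which stay above a multiple of the end. -/

set_option autoImplicit false

namespace Pool.Agent.U457.PS

open Finset Filter Topology
open Pool.Agent.H499R2.CO (Tz)
open Pool.Agent.H320R2.PD (fT Wo Nice U cod word_cons endpoint_reach endpoint_cod Wo_inj fT_halve
  fT_letter good_class quenched fT_odd fT_two_mul)
open Pool.Agent.H320R2.PD.Cnt (Wo_take_le Wo_nice_le count_uniform)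
open Pool.Agent.W26.Ws (hit_unif)

theorem node_abs {i s W : ℕ} {n x : ℤ} (h : 3 ^ i * n = 2 ^ s * x - W) :
    (2 : ℝ) ^ s * |(x : ℝ)| - W ≤ 3 ^ i * |(n : ℝ)| ∧
      3 ^ i * |(n : ℝ)| ≤ 2 ^ s * |(x : ℝ)| + W := by
  have h3 : (3 : ℝ) ^ i * |(n : ℝ)| = |(2 : ℝ) ^ s * x - W| := by
    have h1 : ((3 : ℝ) ^ i * (n : ℝ)) = (2 : ℝ) ^ s * x - W := by exact_mod_cast h
    rw [← h1, abs_mul, abs_of_pos (by positivity : (0 : ℝ) < 3 ^ i)]
  have h4 : |(2 : ℝ) ^ s * x| = 2 ^ s * |(x : ℝ)| := by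
    rw [abs_mul, abs_of_pos (by positivity : (0 : ℝ) < 2 ^ s)]
  constructor
  · rw [h3]
    have := abs_sub_abs_le_abs_sub ((2 : ℝ) ^ s * x) (W : ℝ)
    rw [h4, Nat.abs_cast] at this
    exact this
  · rw [h3]
    have := abs_sub ((2 : ℝ) ^ s * x) (W : ℝ)
    rw [h4, Nat.abs_cast] at this
    exact this

theorem three_le_two {i s : ℕ} (h : 39 * i ≤ 20 * s) : (3 : ℝ) ^ i ≤ 2 ^ s := by
  have h1 : ((3 : ℝ) ^ i) ^ 20 ≤ ((2 : ℝ) ^ s) ^ 20 := by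
    calc ((3 : ℝ) ^ i) ^ 20 = (3 ^ 20) ^ i := by rw [← pow_mul, ← pow_mul, mul_comm]
      _ ≤ (2 ^ 39) ^ i := pow_le_pow_left₀ (by norm_num) (by norm_num) i
      _ = 2 ^ (39 * i) := by rw [← pow_mul]
      _ ≤ 2 ^ (20 * s) := pow_le_pow_right₀ (by norm_num) h
      _ = _ := by rw [← pow_mul, mul_comm]
  exact le_of_pow_le_pow_left₀ (by norm_num) (by positivity) h1

/-- nodes of nice words -/
theorem node_nice {N0 : ℕ} {w : List ℕ} (hw : ∀ e ∈ w, 1 ≤ e) (hn : Nice N0 w) {x : ℤ}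
    (hx : 10 * 2 ^ N0 ≤ |(x : ℝ)|) : ∀ i ≤ w.length, ∀ n : ℤ,
    3 ^ i * n = 2 ^ (w.take i).sum * x - Wo (w.take i) → |(x : ℝ)| / (2 * 3 ^ N0) ≤ |(n : ℝ)| := by
  intro i hi n h
  have h1 := Wo_take_le hw hn i hi
  have hm := (node_abs h).1
  set s := (w.take i).sum with hs
  have h2 : (Wo (w.take i) : ℝ) ≤ 5 * 2 ^ N0 * 2 ^ s := by
    refine h1.trans ?_
    apply mul_le_mul_of_nonneg_right _ (by positivity)
    have h1 : (0 : ℝ) ≤ (4 / 5) ^ i := by positivity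
    have h2 : (0 : ℝ) ≤ 5 * 2 ^ N0 := by positivity
    nlinarith
  have h2s : (0 : ℝ) < 2 ^ s := by positivity
  have h5 : (2 : ℝ) ^ s * |(x : ℝ)| ≤ 2 * (3 ^ i * |(n : ℝ)|) := by
    have h6 : (2 : ℝ) ^ s * (10 * 2 ^ N0) ≤ 2 ^ s * |(x : ℝ)| := mul_le_mul_of_nonneg_left hx h2s.le
    linarith
  have h6 : (3 : ℝ) ^ i ≤ 3 ^ N0 * 2 ^ s := by
    rcases lt_or_ge i N0 with hc | hc
    · calc (3 : ℝ) ^ i ≤ 3 ^ N0 := pow_le_pow_right₀ (by norm_num) hc.le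
        _ ≤ 3 ^ N0 * 2 ^ s := le_mul_of_one_le_right (by positivity) (one_le_pow₀ (by norm_num))
    · calc (3 : ℝ) ^ i ≤ 2 ^ s := three_le_two (hn i hc hi).1
        _ ≤ 3 ^ N0 * 2 ^ s := le_mul_of_one_le_left h2s.le (one_le_pow₀ (by norm_num))
  rw [div_le_iff₀ (by positivity)]
  have h7 : (3 : ℝ) ^ i * |(n : ℝ)| ≤ 3 ^ N0 * 2 ^ s * |(n : ℝ)| :=
    mul_le_mul_of_nonneg_right h6 (abs_nonneg _)
  have h8 : (2 : ℝ) ^ s * |(x : ℝ)| ≤ 2 ^ s * (|(n : ℝ)| * (2 * 3 ^ N0)) := by nlinarith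
  exact le_of_mul_le_mul_left h8 h2s

theorem sum_take_le (u : List ℕ) (i : ℕ) : (u.take i).sum ≤ u.sum := by
  have := List.sum_take_add_sum_drop u i
  omega

/-- nodes of short words -/
theorem node_any {u : List ℕ} {L B : ℕ} (hl : u.length ≤ L) (hs : u.sum ≤ B) {a : ℤ}
    (ha : 2 * (3 ^ L * 2 ^ B) ≤ |(a : ℝ)|) : ∀ i ≤ u.length, ∀ n : ℤ,
    3 ^ i * n = 2 ^ (u.take i).sum * a - Wo (u.take i) →
      |(a : ℝ)| / (2 * 3 ^ L) ≤ |(n : ℝ)| ∧ |(n : ℝ)| ≤ 2 * 2 ^ B * |(a : ℝ)| := by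
  intro i hi n h
  have hm := node_abs h
  have hW : (Wo (u.take i) : ℝ) ≤ 3 ^ L * 2 ^ B := by
    have h1 := Wo_le (u.take i)
    have h2 : (u.take i).length = i := List.length_take_of_le hi
    rw [h2] at h1
    have h3 : (Wo (u.take i) : ℝ) ≤ 3 ^ i * 2 ^ (u.take i).sum := by
      have : Wo (u.take i) ≤ 3 ^ i * 2 ^ (u.take i).sum := (Nat.le_add_right _ _).trans h1
      exact_mod_cast this
    refine h3.trans ?_
    exact mul_le_mul (pow_le_pow_right₀ (by norm_num) (hi.trans hl))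
      (pow_le_pow_right₀ (by norm_num) ((sum_take_le u i).trans hs)) (by positivity) (by positivity)
  set s := (u.take i).sum with hs'
  have h2s : (1 : ℝ) ≤ 2 ^ s := one_le_pow₀ (by norm_num)
  have h2B : (2 : ℝ) ^ s ≤ 2 ^ B := pow_le_pow_right₀ (by norm_num) ((sum_take_le u i).trans hs)
  have h3i : (1 : ℝ) ≤ 3 ^ i := one_le_pow₀ (by norm_num)
  have h3L : (3 : ℝ) ^ i ≤ 3 ^ L := pow_le_pow_right₀ (by norm_num) (hi.trans hl)
  have ha0 := abs_nonneg (a : ℝ)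
  have hn0 := abs_nonneg (n : ℝ)
  constructor
  · rw [div_le_iff₀ (by positivity)]
    have h4 : |(a : ℝ)| ≤ 2 ^ s * |(a : ℝ)| := le_mul_of_one_le_left ha0 h2s
    have h5 : (3 : ℝ) ^ i * |(n : ℝ)| ≤ 3 ^ L * |(n : ℝ)| := mul_le_mul_of_nonneg_right h3L hn0
    nlinarith [hm.1]
  · have h4 : |(n : ℝ)| ≤ 3 ^ i * |(n : ℝ)| := le_mul_of_one_le_left hn0 h3i
    have h5 : (2 : ℝ) ^ s * |(a : ℝ)| ≤ 2 ^ B * |(a : ℝ)| := mul_le_mul_of_nonneg_right h2B ha0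
    have h6 : (1 : ℝ) ≤ 2 ^ B := one_le_pow₀ (by norm_num)
    have h7 : |(a : ℝ)| ≤ 2 ^ B * |(a : ℝ)| := le_mul_of_one_le_left ha0 h6
    nlinarith [hm.2]

/-- MANY PATHS. For every large `a` not divisible by 3 and every large `Y`, at least `Y / 64` integers of
absolute value at most `C Y |a|` reach `a` along paths whose terms have absolute value at least `κ |a|`. -/
theorem low_core : ∃ κ C K A : ℝ, 0 < κ ∧ 1 ≤ C ∧ 1 ≤ K ∧ 1 ≤ A ∧ ∀ a : ℤ, ¬ (3 : ℤ) ∣ a →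
    A ≤ |(a : ℝ)| → ∀ Y : ℝ, K ≤ Y → ∃ S : Finset (ℤ × ℕ),
      (∀ p ∈ S, |(p.1 : ℝ)| ≤ C * Y * |(a : ℝ)| ∧ Pth (κ * |(a : ℝ)|) p.2 p.1 a) ∧
      Y / 64 ≤ S.card := by
  classical
  obtain ⟨N0, N, r, hN0, hN1, hr, hgood⟩ := good_class
  obtain ⟨K, hK2, hK⟩ := count_uniform quenched hN0
  obtain ⟨L, B, hLB⟩ := hit_unif N r hr
  set P : ℝ := 3 ^ L * 2 ^ B with hP
  have hP1 : 1 ≤ P := by
    have h1 : (1 : ℝ) ≤ 3 ^ L := one_le_pow₀ (by norm_num)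
    have h2 : (1 : ℝ) ≤ 2 ^ B := one_le_pow₀ (by norm_num)
    rw [hP]; nlinarith
  have hQ1 : (1 : ℝ) ≤ 2 ^ N0 := one_le_pow₀ (by norm_num)
  refine ⟨1 / (4 * 3 ^ L * 3 ^ N0), 4 * 2 ^ B * 2 ^ B, K, 20 * P * 2 ^ N0, by positivity, ?_, by linarith,
    by nlinarith, ?_⟩
  · have h2 : (1 : ℝ) ≤ 2 ^ B := one_le_pow₀ (by norm_num)
    nlinarith
  intro a ha hA Y hY
  have hY0 : 0 < Y := by linarith
  obtain ⟨u, j, hu1, hu2, hu3, hu4, hu5⟩ := hLB a ha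
  set z0 : ℤ := (2 ^ u.sum * a - Wo u) / 3 ^ u.length with hz0
  have hz0' : (3 : ℤ) ^ u.length * z0 = 2 ^ u.sum * a - Wo u := Int.mul_ediv_cancel' hu4
  set x : ℤ := 2 ^ j * z0 with hx
  have ha0 := abs_nonneg (a : ℝ)
  have haP : 2 * (3 ^ L * 2 ^ B) ≤ |(a : ℝ)| := by
    rw [← hP]; nlinarith
  have hnu := node_any hu2 (show u.sum ≤ B by omega) haP
  have hz0n := hnu u.length le_rfl z0 (by rw [List.take_length]; exact hz0')
  have hxz : |(z0 : ℝ)| ≤ |(x : ℝ)| := abs_pow_mul j z0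
  have hxu : |(x : ℝ)| ≤ 2 ^ B * |(z0 : ℝ)| := by
    rw [hx]
    push_cast
    rw [abs_mul, abs_of_pos (by positivity : (0 : ℝ) < 2 ^ j)]
    exact mul_le_mul_of_nonneg_right (pow_le_pow_right₀ (by norm_num) (by omega)) (abs_nonneg _)
  have h3L : (0 : ℝ) < 3 ^ L := by positivity
  have hx10 : 10 * 2 ^ N0 ≤ |(x : ℝ)| := by
    refine le_trans ?_ hxz
    refine le_trans ?_ hz0n.1
    rw [le_div_iff₀ (by positivity)]
    refine le_trans (le_of_eq ?_) ((mul_le_mul_of_nonneg_right (mul_le_mul_of_nonneg_left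
      (show (3 : ℝ) ^ L ≤ P from ?_) (by norm_num)) (by positivity)).trans hA)
    · ring
    · rw [hP]; exact le_mul_of_one_le_right h3L.le (one_le_pow₀ (by norm_num))
  obtain ⟨S0, hS0, hcard⟩ := hK x (hgood _ hu5) Y hY
  set κ : ℝ := 1 / (4 * 3 ^ L * 3 ^ N0) with hκ
  have h3N : (1 : ℝ) ≤ 3 ^ N0 := one_le_pow₀ (by norm_num)
  have hκ1 : κ * |(a : ℝ)| ≤ |(a : ℝ)| / (2 * 3 ^ L) := by
    rw [hκ, one_div_mul_eq_div]
    apply div_le_div_of_nonneg_left ha0 (by positivity)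
    nlinarith
  have hκ2 : κ * |(a : ℝ)| ≤ |(x : ℝ)| / (2 * 3 ^ N0) := by
    have h1 : |(a : ℝ)| / (2 * 3 ^ L) ≤ |(x : ℝ)| := hz0n.1.trans hxz
    rw [div_le_iff₀ (by positivity)] at h1
    rw [hκ, one_div_mul_eq_div, div_le_div_iff₀ (by positivity) (by positivity)]
    nlinarith
  have hp1 : Pth (κ * |(a : ℝ)|) u.sum z0 a :=
    Pth_word hu1 hu4 (fun i hi n hn => hκ1.trans (hnu i hi n hn).1)
  have hp2 : Pth (κ * |(a : ℝ)|) j x z0 := Pth_halve j (hκ1.trans hz0n.1)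
  have hword : ∀ w ∈ S0, Pth (κ * |(a : ℝ)|) w.sum ((2 ^ w.sum * x - Wo w) / 3 ^ w.length) x := by
    intro w hw
    obtain ⟨h1, h2, h3, h4, h5, h6, h7, h8, h9⟩ := hS0 w hw
    exact Pth_word h1 h2 (fun i hi n hn => hκ2.trans (node_nice h1 h4 hx10 i hi n hn))
  refine ⟨S0.image (fun w => ((2 ^ w.sum * x - Wo w) / 3 ^ w.length, w.sum + j + u.sum)), ?_, ?_⟩
  · intro p hp
    obtain ⟨w, hw, rfl⟩ := Finset.mem_image.1 hp
    obtain ⟨h1, h2, h3, h4, h5, h6, h7, h8, h9⟩ := hS0 w hw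
    refine ⟨?_, ((hword w hw).trans hp2).trans hp1⟩
    set y : ℤ := (2 ^ w.sum * x - Wo w) / 3 ^ w.length with hy
    have hy' : (3 : ℤ) ^ w.length * y = 2 ^ w.sum * x - Wo w := Int.mul_ediv_cancel' h2
    have hm := (node_abs hy').2
    have h2s : (0 : ℝ) < 2 ^ w.sum := by positivity
    have h3w : (0 : ℝ) < 3 ^ w.length := by positivity
    have g1 : (3 : ℝ) ^ w.length * |(y : ℝ)| ≤ 3 ^ w.length * (2 * Y * |(x : ℝ)|) := by
      have g2 : (Wo w : ℝ) ≤ 2 ^ w.sum * |(x : ℝ)| := by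
        refine h9.trans ?_
        rw [mul_comm ((2 : ℝ) ^ w.sum)]
        apply mul_le_mul_of_nonneg_right _ h2s.le
        linarith
      have g3 : (2 : ℝ) ^ w.sum * |(x : ℝ)| ≤ Y * 3 ^ w.length * |(x : ℝ)| :=
        mul_le_mul_of_nonneg_right h8 (abs_nonneg _)
      nlinarith
    have g4 := le_of_mul_le_mul_left g1 h3w
    refine g4.trans ?_
    have g5 : |(x : ℝ)| ≤ 2 ^ B * (2 * 2 ^ B * |(a : ℝ)|) :=
      hxu.trans (mul_le_mul_of_nonneg_left hz0n.2 (by positivity))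
    calc 2 * Y * |(x : ℝ)| ≤ 2 * Y * (2 ^ B * (2 * 2 ^ B * |(a : ℝ)|)) :=
          mul_le_mul_of_nonneg_left g5 (by positivity)
      _ = _ := by ring
  · rw [Finset.card_image_of_injOn]
    · exact hcard
    · intro w hw w' hw' h
      obtain ⟨h1, h2, -⟩ := hS0 w hw
      obtain ⟨h1', h2', -⟩ := hS0 w' hw'
      simp only [Prod.mk.injEq] at h
      obtain ⟨he, ht⟩ := h
      have hs : w.sum = w'.sum := by omega
      have c := endpoint_cod h1 h2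
      have c' := endpoint_cod h1' h2'
      have hl : w.length = w'.length := by rw [← c, ← c', he, hs]
      refine Wo_inj h1 h1' hl hs ?_
      have e1 : (3 : ℤ) ^ w.length * ((2 ^ w.sum * x - Wo w) / 3 ^ w.length) = 2 ^ w.sum * x - Wo w :=
        Int.mul_ediv_cancel' h2
      have e2 : (3 : ℤ) ^ w'.length * ((2 ^ w'.sum * x - Wo w') / 3 ^ w'.length) =
          2 ^ w'.sum * x - Wo w' := Int.mul_ediv_cancel' h2'
      rw [he, hl, e2, hs] at e1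
      have e3 : (Wo w : ℤ) = Wo w' := by linarith
      exact_mod_cast e3

end Pool.Agent.U457.PS
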