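import Pool.Agent.U457.PS.Low2

/-! Minorization of first passages, and the Harnack inequality for invariant sets. -/

set_option autoImplicit false

namespace Pool.Agent.U457.PS

open Finset Filter Topology
open Pool.Agent.H499R2.CO (Tz)
open Pool.Agent.H320R2.PD (fT fT_halve)

theorem first_low {L Z : ℝ} {t J : ℕ} {y a : ℤ} (h : Pth L t y (2 ^ J * a)) (hL : Z ≤ L)
    (ha : Z ≤ 2 * |(a : ℝ)|) :
    (∀ j < t + J, Z ≤ |((fT^[j] y : ℤ) : ℝ)|) ∧ fT^[t + J] y = a := by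
  have hr : ∀ i ≤ J, fT^[t + i] y = 2 ^ (J - i) * a := by
    intro i hi
    rw [add_comm t i, Function.iterate_add_apply, h.1]
    have h1 : (2 : ℤ) ^ J * a = 2 ^ i * (2 ^ (J - i) * a) := by
      rw [← mul_assoc, ← pow_add, show i + (J - i) = J by omega]
    rw [h1, fT_halve]
  constructor
  · intro j hj
    rcases le_or_gt j t with h1 | h1
    · exact hL.trans (h.2 j h1)
    · obtain ⟨i, rfl⟩ : ∃ i, j = t + i := ⟨j - t, by omega⟩
      rw [hr i (by omega)]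
      refine ha.trans ?_
      obtain ⟨m, hm⟩ : ∃ m, J - i = m + 1 := ⟨J - i - 1, by omega⟩
      rw [hm]
      push_cast
      rw [abs_mul, abs_pow, abs_two]
      have : (1 : ℝ) ≤ 2 ^ m := one_le_pow₀ (by norm_num)
      have h2 := abs_nonneg (a : ℝ)
      rw [pow_succ]
      nlinarith
  · rw [hr J le_rfl]
    simp

theorem first_unique {Z : ℝ} {y : ℤ} {m n : ℕ} (h1 : ∀ j < m, Z ≤ |((fT^[j] y : ℤ) : ℝ)|)
    (h2 : |((fT^[m] y : ℤ) : ℝ)| < Z) (h3 : ∀ j < n, Z ≤ |((fT^[j] y : ℤ) : ℝ)|)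
    (h4 : |((fT^[n] y : ℤ) : ℝ)| < Z) : m = n := by
  rcases lt_trichotomy m n with h | h | h
  · exact absurd (h3 m h) (not_le.2 h2)
  · exact h
  · exact absurd (h1 n h) (not_le.2 h4)

/-- MINORIZATION: every non-multiple of 3 in `[Z/2, Z)` is the first term below `Z` for a proportion of at
least `c / Z` of the integers up to `X`. -/
theorem minor : ∃ c K : ℝ, 0 < c ∧ 1 ≤ K ∧ ∀ a : ℤ, ¬ (3 : ℤ) ∣ a → ∀ Z : ℝ, |(a : ℝ)| < Z →
    Z ≤ 2 * |(a : ℝ)| → ∀ X : ℝ, K * Z ≤ X →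
      c * X / Z ≤ ({x : ℤ | |(x : ℝ)| ≤ X ∧ x ∈ SZk 1 Z {a}}.ncard : ℝ) := by
  classical
  obtain ⟨κ, C, K, A, hκ, hC, hK, hA, hcore⟩ := low_core
  obtain ⟨J, hJ⟩ := pow_unbounded_of_one_lt (max A (2 / κ)) (by norm_num : (1 : ℝ) < 2)
  have hJA : A ≤ 2 ^ J := (le_max_left _ _).trans hJ.le
  have hJκ : 2 ≤ κ * 2 ^ J := by
    have := (le_max_right A (2 / κ)).trans hJ.le
    rw [div_le_iff₀ hκ] at this
    linarith
  have h2J : (1 : ℝ) ≤ 2 ^ J := one_le_pow₀ (by norm_num)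
  have hC0 : 0 < C := by linarith
  refine ⟨1 / (64 * C * 2 ^ J), K * C * 2 ^ J, by positivity, ?_, ?_⟩
  · have : 1 ≤ K * C := by nlinarith
    nlinarith
  intro a ha Z haZ hZa X hX
  have ha1 : 1 ≤ |(a : ℝ)| := by
    have : a ≠ 0 := by rintro rfl; exact ha (dvd_zero 3)
    have h1 : 1 ≤ |a| := Int.one_le_abs this
    exact_mod_cast h1
  have ha0 : 0 < |(a : ℝ)| := by linarith
  have hZ0 : 0 < Z := by linarith
  set b : ℤ := 2 ^ J * a with hb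
  have hbabs : |(b : ℝ)| = 2 ^ J * |(a : ℝ)| := by
    rw [hb]; push_cast; rw [abs_mul, abs_pow, abs_two]
  have hb3 : ¬ (3 : ℤ) ∣ b := by
    intro h
    have hc : IsCoprime (3 : ℤ) (2 ^ J) := IsCoprime.pow_right (by norm_num)
    exact ha (hc.dvd_of_dvd_mul_left h)
  have hbA : A ≤ |(b : ℝ)| := by rw [hbabs]; nlinarith
  have hb0 : 0 < |(b : ℝ)| := by linarith
  set Y : ℝ := X / (C * |(b : ℝ)|) with hY
  have hKpos : 0 < K := by linarith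
  have hYK : K ≤ Y := by
    rw [hY, le_div_iff₀ (by positivity), hbabs]
    refine le_trans ?_ hX
    have : K * (C * (2 ^ J * |(a : ℝ)|)) = K * C * 2 ^ J * |(a : ℝ)| := by ring
    rw [this]
    exact mul_le_mul_of_nonneg_left haZ.le (by positivity)
  obtain ⟨S, hS, hcard⟩ := hcore b hb3 hbA Y hYK
  have hfl : ∀ p ∈ S, (∀ j < p.2 + J, Z ≤ |((fT^[j] p.1 : ℤ) : ℝ)|) ∧ fT^[p.2 + J] p.1 = a := by
    intro p hp
    refine first_low (hS p hp).2 ?_ hZa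
    refine hZa.trans ?_
    rw [hbabs, ← mul_assoc]
    exact mul_le_mul_of_nonneg_right hJκ ha0.le
  have hinj : Set.InjOn Prod.fst (S : Set (ℤ × ℕ)) := by
    intro p hp q hq h
    obtain ⟨h1, h2⟩ := hfl p hp
    obtain ⟨h3, h4⟩ := hfl q hq
    rw [← h] at h3 h4
    have := first_unique h1 (by rw [h2]; exact haZ) h3 (by rw [h4]; exact haZ)
    exact Prod.ext h (by omega)
  have hsub : ((S.image Prod.fst : Finset ℤ) : Set ℤ) ⊆
      {x : ℤ | |(x : ℝ)| ≤ X ∧ x ∈ SZk 1 Z {a}} := by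
    intro y hy
    rw [mem_coe, mem_image] at hy
    obtain ⟨p, hp, rfl⟩ := hy
    obtain ⟨h1, h2⟩ := hfl p hp
    obtain ⟨h3, h4⟩ := hS p hp
    refine ⟨?_, ?_⟩
    · refine h3.trans (le_of_eq ?_)
      rw [hY]
      field_simp
    · rw [mem_SZk, ← fT_eq_Tz]
      refine ⟨?_, p.2 + J, h1, by rw [h2]; exact haZ, h2⟩
      have h5 := h4.2 0 (Nat.zero_le _)
      rw [Function.iterate_zero, id] at h5
      refine le_trans ?_ h5
      refine hZa.trans ?_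
      rw [hbabs, ← mul_assoc]
      exact mul_le_mul_of_nonneg_right hJκ ha0.le
  have h6 := Set.ncard_le_ncard hsub (fin_abs X _)
  rw [Set.ncard_coe_finset, card_image_of_injOn hinj] at h6
  have h7 : (S.card : ℝ) ≤ ({x : ℤ | |(x : ℝ)| ≤ X ∧ x ∈ SZk 1 Z {a}}.ncard : ℝ) := by
    exact_mod_cast h6
  refine le_trans ?_ (hcard.trans h7)
  have hX0 : 0 < X := by
    have : 0 < K * C * 2 ^ J * Z := by positivity
    linarith
  rw [hY, hbabs]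
  have e1 : 1 / (64 * C * 2 ^ J) * X / Z = X / (64 * C * 2 ^ J * Z) := by field_simp
  have e2 : X / (C * (2 ^ J * |(a : ℝ)|)) / 64 = X / (64 * C * 2 ^ J * |(a : ℝ)|) := by field_simp
  rw [e1, e2]
  apply div_le_div_of_nonneg_left hX0.le (by positivity)
  exact mul_le_mul_of_nonneg_left haZ.le (by positivity)

theorem SZk_unique {k : ℤ} {Z : ℝ} {a b x : ℤ} (h1 : x ∈ SZk k Z {a}) (h2 : x ∈ SZk k Z {b}) :
    a = b := by
  rw [mem_SZk] at h1 h2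
  obtain ⟨_, m, g1, g2, g3⟩ := h1
  obtain ⟨_, n, g4, g5, g6⟩ := h2
  rw [Set.mem_singleton_iff] at g3 g6
  rw [← g3, ← g6]
  rcases lt_trichotomy m n with h | h | h
  · exact absurd (g4 m h) (not_le.2 g2)
  · rw [h]
  · exact absurd (g1 n h) (not_le.2 g5)

/-- MINORIZATION for sets -/
theorem minor_set : ∃ c K : ℝ, 0 < c ∧ 1 ≤ K ∧ ∀ (E : Set ℤ) (Z X : ℝ), 0 < Z → K * Z ≤ X →
    c * X / Z * ({a : ℤ | a ∈ E ∧ ¬ (3 : ℤ) ∣ a ∧ Z / 2 ≤ |(a : ℝ)| ∧ |(a : ℝ)| < Z}.ncard : ℝ) ≤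
      ({x : ℤ | |(x : ℝ)| ≤ X ∧ x ∈ SZk 1 Z E}.ncard : ℝ) := by
  classical
  obtain ⟨c, K, hc, hK, h⟩ := minor
  refine ⟨c, K, hc, hK, ?_⟩
  intro E Z X hZ hX
  have hfin : {a : ℤ | a ∈ E ∧ ¬ (3 : ℤ) ∣ a ∧ Z / 2 ≤ |(a : ℝ)| ∧ |(a : ℝ)| < Z}.Finite := by
    apply (fin_abs Z (fun _ => True)).subset
    rintro w ⟨_, _, _, h2⟩
    exact ⟨h2.le, trivial⟩
  set F := hfin.toFinset with hF
  set G : ℤ → Finset ℤ := fun a => (fin_abs X (fun x => x ∈ SZk 1 Z {a})).toFinset with hG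
  have hcardG : ∀ a, ((G a).card : ℝ) = ({x : ℤ | |(x : ℝ)| ≤ X ∧ x ∈ SZk 1 Z {a}}.ncard : ℝ) := by
    intro a
    rw [hG, Set.ncard_eq_toFinset_card _ (fin_abs X (fun x => x ∈ SZk 1 Z {a}))]
  have hdis : ∀ a ∈ F, ∀ b ∈ F, a ≠ b → Disjoint (G a) (G b) := by
    intro a _ b _ hab
    rw [Finset.disjoint_left]
    intro x hx hx'
    rw [hG, Set.Finite.mem_toFinset] at hx hx'
    exact hab (SZk_unique hx.2 hx'.2)
  have hsub : ((F.biUnion G : Finset ℤ) : Set ℤ) ⊆ {x : ℤ | |(x : ℝ)| ≤ X ∧ x ∈ SZk 1 Z E} := by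
    intro x hx
    rw [mem_coe, mem_biUnion] at hx
    obtain ⟨a, ha, hxa⟩ := hx
    rw [hG, Set.Finite.mem_toFinset] at hxa
    rw [hF, Set.Finite.mem_toFinset] at ha
    refine ⟨hxa.1, ?_⟩
    have := hxa.2
    rw [mem_SZk] at this ⊢
    obtain ⟨g1, n, g2, g3, g4⟩ := this
    rw [Set.mem_singleton_iff] at g4
    exact ⟨g1, n, g2, g3, by rw [g4]; exact ha.1⟩
  have h1 := Set.ncard_le_ncard hsub (fin_abs X _)
  rw [Set.ncard_coe_finset, card_biUnion hdis] at h1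
  have h2 : (∑ a ∈ F, ((G a).card : ℝ)) ≤ ({x : ℤ | |(x : ℝ)| ≤ X ∧ x ∈ SZk 1 Z E}.ncard : ℝ) := by
    exact_mod_cast h1
  refine le_trans ?_ h2
  rw [Set.ncard_eq_toFinset_card _ hfin, ← hF, mul_comm, ← nsmul_eq_mul]
  apply Finset.card_nsmul_le_sum
  intro a ha
  rw [hcardG]
  rw [hF, Set.Finite.mem_toFinset] at ha
  obtain ⟨_, g2, g3, g4⟩ := ha
  exact h a g2 Z g4 (by linarith) X hX

end Pool.Agent.U457.PS
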