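import Pool.Agent.U457.PS.Low3

/-! The Harnack inequality for backward invariant and for invariant sets of the `3x+1` map. -/

set_option autoImplicit false

namespace Pool.Agent.U457.PS

open Finset Filter Topology
open Pool.Agent.H499R2.CO (Tz)

/-- the number of the non-multiples of 3 in `B` below `Y` -/
noncomputable def gB (B : Set ℤ) (Y : ℝ) : ℝ :=
  ({b : ℤ | b ∈ B ∧ ¬ (3 : ℤ) ∣ b ∧ |(b : ℝ)| < Y}.ncard : ℝ)

/-- the number of the nonzero multiples of 3 in `B` below `Y` -/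
noncomputable def mB (B : Set ℤ) (Y : ℝ) : ℝ :=
  ({b : ℤ | b ∈ B ∧ b ≠ 0 ∧ (3 : ℤ) ∣ b ∧ |(b : ℝ)| < Y}.ncard : ℝ)

/-- the number of the elements of `B` up to `X` -/
noncomputable def NB (B : Set ℤ) (X : ℝ) : ℝ := ({x : ℤ | |(x : ℝ)| ≤ X ∧ x ∈ B}.ncard : ℝ)

theorem fin_lt (Y : ℝ) (P : ℤ → Prop) : {b : ℤ | P b ∧ |(b : ℝ)| < Y}.Finite := by
  apply (fin_abs Y (fun _ => True)).subset
  rintro w ⟨_, h2⟩
  exact ⟨h2.le, trivial⟩

theorem gB_fin (B : Set ℤ) (Y : ℝ) : {b : ℤ | b ∈ B ∧ ¬ (3 : ℤ) ∣ b ∧ |(b : ℝ)| < Y}.Finite := by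
  refine (fin_lt Y (fun _ => True)).subset ?_
  rintro w ⟨_, _, h2⟩
  exact ⟨trivial, h2⟩

theorem mB_fin (B : Set ℤ) (Y : ℝ) :
    {b : ℤ | b ∈ B ∧ b ≠ 0 ∧ (3 : ℤ) ∣ b ∧ |(b : ℝ)| < Y}.Finite := by
  refine (fin_lt Y (fun _ => True)).subset ?_
  rintro w ⟨_, _, _, h2⟩
  exact ⟨trivial, h2⟩

theorem back_iter {k : ℤ} {B : Set ℤ} (hB : ∀ x, Tz k x ∈ B → x ∈ B) (n : ℕ) :
    ∀ x, (Tz k)^[n] x ∈ B → x ∈ B := by
  induction n with
  | zero => intro x h; exact h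
  | succ n ih =>
    intro x h
    rw [Function.iterate_succ_apply] at h
    exact hB _ (ih _ h)

theorem harn_core {c K : ℝ} (hc : 0 < c)
    (hm : ∀ (E : Set ℤ) (Z X : ℝ), 0 < Z → K * Z ≤ X →
    c * X / Z * ({a : ℤ | a ∈ E ∧ ¬ (3 : ℤ) ∣ a ∧ Z / 2 ≤ |(a : ℝ)| ∧ |(a : ℝ)| < Z}.ncard : ℝ) ≤
      ({x : ℤ | |(x : ℝ)| ≤ X ∧ x ∈ SZk 1 Z E}.ncard : ℝ)) (hK : 1 ≤ K)
    {B : Set ℤ} (hB : ∀ x, Tz 1 x ∈ B → x ∈ B) (X : ℝ) (n : ℕ) :
    ∀ Y : ℝ, 0 < Y → Y ≤ 2 ^ n → K * Y ≤ X → c * X * gB B Y ≤ 2 * Y * NB B X := by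
  induction n with
  | zero =>
    intro Y hY hY1 hX
    have : {b : ℤ | b ∈ B ∧ ¬ (3 : ℤ) ∣ b ∧ |(b : ℝ)| < Y} = ∅ := by
      rw [Set.eq_empty_iff_forall_notMem]
      rintro b ⟨_, h2, h3⟩
      have h4 : |(b : ℝ)| < 1 := by
        rw [pow_zero] at hY1; linarith
      have h5 : |b| < 1 := by exact_mod_cast h4
      have h6 : b = 0 := Int.abs_lt_one_iff.1 h5
      exact h2 (by rw [h6]; exact dvd_zero 3)
    unfold gB NB
    rw [this, Set.ncard_empty, Nat.cast_zero, mul_zero]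
    positivity
  | succ n ih =>
    intro Y hY hYn hX
    have h1 := ih (Y / 2) (by linarith) (by rw [pow_succ] at hYn; linarith)
      (by
        have : 0 < K * Y := by nlinarith
        linarith)
    have h2 := hm B Y X hY hX
    set bl := ({a : ℤ | a ∈ B ∧ ¬ (3 : ℤ) ∣ a ∧ Y / 2 ≤ |(a : ℝ)| ∧ |(a : ℝ)| < Y}.ncard : ℝ) with hbl
    have h3 : gB B Y ≤ bl + gB B (Y / 2) := by
      have hsub : {b : ℤ | b ∈ B ∧ ¬ (3 : ℤ) ∣ b ∧ |(b : ℝ)| < Y} ⊆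
          {a : ℤ | a ∈ B ∧ ¬ (3 : ℤ) ∣ a ∧ Y / 2 ≤ |(a : ℝ)| ∧ |(a : ℝ)| < Y} ∪
          {b : ℤ | b ∈ B ∧ ¬ (3 : ℤ) ∣ b ∧ |(b : ℝ)| < Y / 2} := by
        rintro b ⟨g1, g2, g3⟩
        rcases lt_or_ge |(b : ℝ)| (Y / 2) with g | g
        · exact Or.inr ⟨g1, g2, g⟩
        · exact Or.inl ⟨g1, g2, g, g3⟩
      have hfin2 : {a : ℤ | a ∈ B ∧ ¬ (3 : ℤ) ∣ a ∧ Y / 2 ≤ |(a : ℝ)| ∧ |(a : ℝ)| < Y}.Finite := by
        refine (fin_lt Y (fun _ => True)).subset ?_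
        rintro w ⟨_, _, _, h2⟩
        exact ⟨trivial, h2⟩
      have g4 := (Set.ncard_le_ncard hsub (hfin2.union (gB_fin B (Y / 2)))).trans
        (Set.ncard_union_le _ _)
      unfold gB
      rw [hbl]
      exact_mod_cast g4
    have h4 : ({x : ℤ | |(x : ℝ)| ≤ X ∧ x ∈ SZk 1 Y B}.ncard : ℝ) ≤ NB B X := by
      unfold NB
      have hsub : {x : ℤ | |(x : ℝ)| ≤ X ∧ x ∈ SZk 1 Y B} ⊆ {x : ℤ | |(x : ℝ)| ≤ X ∧ x ∈ B} := by
        rintro x ⟨g1, g2⟩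
        rw [mem_SZk] at g2
        obtain ⟨_, m, _, _, g3⟩ := g2
        exact ⟨g1, back_iter hB m x g3⟩
      exact_mod_cast Set.ncard_le_ncard hsub (fin_abs X _)
    have h5 : c * X * bl ≤ Y * NB B X := by
      have h6 := h2.trans h4
      have h7 : c * X / Y * bl = c * X * bl / Y := by ring
      rw [h7, div_le_iff₀ hY] at h6
      linarith
    have hX0 : 0 < X := by
      have : 0 < K * Y := by nlinarith
      linarith
    have h8 : c * X * gB B Y ≤ c * X * (bl + gB B (Y / 2)) :=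
      mul_le_mul_of_nonneg_left h3 (by positivity)
    nlinarith

/-- HARNACK INEQUALITY for backward invariant sets (non-multiples of 3) -/
theorem harnack_back : ∃ C : ℝ, 1 ≤ C ∧ ∀ B : Set ℤ, (∀ x, Tz 1 x ∈ B → x ∈ B) → ∀ Y X : ℝ,
    0 < Y → Y ≤ X → gB B Y * X ≤ C * Y * NB B X := by
  obtain ⟨c, K, hc, hK, hm⟩ := minor_set
  refine ⟨2 / c + K, by have : 0 < 2 / c := by positivity
                        linarith, ?_⟩
  intro B hB Y X hY hYX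
  have hN : 0 ≤ NB B X := Nat.cast_nonneg _
  rcases le_or_gt (K * Y) X with h | h
  · obtain ⟨n, hn⟩ := pow_unbounded_of_one_lt Y (by norm_num : (1 : ℝ) < 2)
    have h1 := harn_core hc hm hK hB X n Y hY hn.le h
    have h2 : gB B Y * X ≤ 2 / c * Y * NB B X := by
      rw [div_mul_eq_mul_div, div_mul_eq_mul_div, le_div_iff₀ hc]
      linarith
    have h3 : 0 ≤ K * Y * NB B X := by positivity
    linarith [h2, h3, add_mul (2 / c) K Y, add_mul (2 / c * Y) (K * Y) (NB B X)]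
  · have h1 : gB B Y ≤ NB B X := by
      unfold gB NB
      have hsub : {b : ℤ | b ∈ B ∧ ¬ (3 : ℤ) ∣ b ∧ |(b : ℝ)| < Y} ⊆
          {x : ℤ | |(x : ℝ)| ≤ X ∧ x ∈ B} := by
        rintro b ⟨g1, _, g3⟩
        exact ⟨(g3.trans_le hYX).le, g1⟩
      exact_mod_cast Set.ncard_le_ncard hsub (fin_abs X _)
    have hg : 0 ≤ gB B Y := Nat.cast_nonneg _
    have h2 : gB B Y * X ≤ NB B X * (K * Y) := mul_le_mul h1 h.le (by linarith) hN
    have h3 : 0 ≤ 2 / c * Y * NB B X := by positivity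
    linarith [h2, h3, add_mul (2 / c) K Y, add_mul (2 / c * Y) (K * Y) (NB B X)]

theorem mB_step {B : Set ℤ} (hB : ∀ x, x ∈ B ↔ Tz 1 x ∈ B) {Y : ℝ} (hY : 0 < Y) :
    mB B Y ≤ mB B (Y / 2) + gB B (2 * Y) := by
  classical
  have hsub : {b : ℤ | b ∈ B ∧ b ≠ 0 ∧ (3 : ℤ) ∣ b ∧ |(b : ℝ)| < Y} ⊆
      (fun b : ℤ => 2 * b) '' {b : ℤ | b ∈ B ∧ b ≠ 0 ∧ (3 : ℤ) ∣ b ∧ |(b : ℝ)| < Y / 2} ∪
      {b : ℤ | b % 2 = 1 ∧ Tz 1 b ∈ {b : ℤ | b ∈ B ∧ ¬ (3 : ℤ) ∣ b ∧ |(b : ℝ)| < 2 * Y}} := by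
    rintro b ⟨h1, h2, h3, h4⟩
    rcases Int.emod_two_eq_zero_or_one b with h | h
    · left
      refine ⟨b / 2, ⟨?_, ?_, ?_, ?_⟩, ?_⟩
      · have := (hB b).1 h1
        unfold Tz at this
        rwa [if_pos h] at this
      · omega
      · omega
      · have e : (b : ℝ) = 2 * ((b / 2 : ℤ) : ℝ) := by
          have : b = 2 * (b / 2) := by omega
          exact_mod_cast this
        rw [e, abs_mul, abs_two] at h4
        linarith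
      · show 2 * (b / 2) = b
        omega
    · right
      have hT : Tz 1 b = (3 * b + 1) / 2 := by unfold Tz; rw [if_neg (by omega)]
      refine ⟨h, (hB b).1 h1, ?_, ?_⟩
      · rw [hT]; omega
      · have e : 2 * ((Tz 1 b : ℤ) : ℝ) = 3 * b + 1 := by
          have : 2 * Tz 1 b = 3 * b + 1 := by rw [hT]; omega
          exact_mod_cast this
        have hb1 : 1 ≤ |(b : ℝ)| := by
          have : 1 ≤ |b| := Int.one_le_abs h2
          exact_mod_cast this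
        have h5 : |2 * ((Tz 1 b : ℤ) : ℝ)| ≤ 4 * |(b : ℝ)| := by
          rw [e]
          calc |3 * (b : ℝ) + 1| ≤ |3 * (b : ℝ)| + |(1 : ℝ)| := abs_add_le _ _
            _ = 3 * |(b : ℝ)| + 1 := by rw [abs_mul, abs_one, abs_of_pos (by norm_num : (0:ℝ) < 3)]
            _ ≤ _ := by linarith
        rw [abs_mul, abs_two] at h5
        linarith
  have hinj : Set.InjOn (Tz 1)
      {b : ℤ | b % 2 = 1 ∧ Tz 1 b ∈ {b : ℤ | b ∈ B ∧ ¬ (3 : ℤ) ∣ b ∧ |(b : ℝ)| < 2 * Y}} := by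
    rintro a ⟨ha, _⟩ b ⟨hb, _⟩ hab
    have e1 : Tz 1 a = (3 * a + 1) / 2 := by unfold Tz; rw [if_neg (by omega)]
    have e2 : Tz 1 b = (3 * b + 1) / 2 := by unfold Tz; rw [if_neg (by omega)]
    rw [e1, e2] at hab
    omega
  have hmaps : Set.MapsTo (Tz 1)
      {b : ℤ | b % 2 = 1 ∧ Tz 1 b ∈ {b : ℤ | b ∈ B ∧ ¬ (3 : ℤ) ∣ b ∧ |(b : ℝ)| < 2 * Y}}
      {b : ℤ | b ∈ B ∧ ¬ (3 : ℤ) ∣ b ∧ |(b : ℝ)| < 2 * Y} := fun b hb => hb.2
  have hfin2 : {b : ℤ | b % 2 = 1 ∧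
      Tz 1 b ∈ {b : ℤ | b ∈ B ∧ ¬ (3 : ℤ) ∣ b ∧ |(b : ℝ)| < 2 * Y}}.Finite :=
    Set.Finite.of_injOn hmaps hinj (gB_fin B (2 * Y))
  have h1 := Set.ncard_le_ncard hsub (((mB_fin B (Y / 2)).image _).union hfin2)
  have h2 := h1.trans (Set.ncard_union_le _ _)
  rw [Set.ncard_image_of_injective _ (fun a b h => by simpa using h)] at h2
  have h3 := Set.ncard_le_ncard_of_injOn (Tz 1) (fun b hb => hmaps hb) hinj (gB_fin B (2 * Y))
  unfold mB gB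
  exact_mod_cast h2.trans (Nat.add_le_add_left h3 _)

/-- HARNACK INEQUALITY for invariant sets -/
theorem harnack : ∃ C : ℝ, 1 ≤ C ∧ ∀ B : Set ℤ, (∀ x, x ∈ B ↔ Tz 1 x ∈ B) → ∀ Y X : ℝ,
    0 < Y → Y ≤ X → ({b : ℤ | b ∈ B ∧ b ≠ 0 ∧ |(b : ℝ)| < Y}.ncard : ℝ) * X ≤ C * Y * NB B X := by
  obtain ⟨C, hC, h⟩ := harnack_back
  refine ⟨5 * C + 2, by linarith, ?_⟩
  intro B hB Y X hY hYX
  have hN : 0 ≤ NB B X := Nat.cast_nonneg _
  have hX0 : 0 < X := by linarith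
  have hback : ∀ x, Tz 1 x ∈ B → x ∈ B := fun x hx => (hB x).2 hx
  have hm : ∀ n : ℕ, ∀ Y : ℝ, 0 < Y → Y ≤ 2 ^ n → 2 * Y ≤ X → mB B Y * X ≤ 4 * C * Y * NB B X := by
    intro n
    induction n with
    | zero =>
      intro Y hY hY1 hX
      have : {b : ℤ | b ∈ B ∧ b ≠ 0 ∧ (3 : ℤ) ∣ b ∧ |(b : ℝ)| < Y} = ∅ := by
        rw [Set.eq_empty_iff_forall_notMem]
        rintro b ⟨_, h2, _, h3⟩
        have h4 : |(b : ℝ)| < 1 := by
          rw [pow_zero] at hY1; linarith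
        have h5 : |b| < 1 := by exact_mod_cast h4
        exact h2 (Int.abs_lt_one_iff.1 h5)
      unfold mB
      rw [this, Set.ncard_empty, Nat.cast_zero, zero_mul]
      positivity
    | succ n ih =>
      intro Y hY hYn hX
      have h1 := ih (Y / 2) (by linarith) (by rw [pow_succ] at hYn; linarith) (by linarith)
      have h2 := h B hback (2 * Y) X (by linarith) hX
      have h3 := mul_le_mul_of_nonneg_right (mB_step hB hY) hX0.le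
      nlinarith
  rcases le_or_gt (2 * Y) X with hc | hc
  · obtain ⟨n, hn⟩ := pow_unbounded_of_one_lt Y (by norm_num : (1 : ℝ) < 2)
    have h1 := hm n Y hY hn.le hc
    have h2 := h B hback Y X hY hYX
    have h3 : ({b : ℤ | b ∈ B ∧ b ≠ 0 ∧ |(b : ℝ)| < Y}.ncard : ℝ) ≤ gB B Y + mB B Y := by
      have hsub : {b : ℤ | b ∈ B ∧ b ≠ 0 ∧ |(b : ℝ)| < Y} ⊆
          {b : ℤ | b ∈ B ∧ ¬ (3 : ℤ) ∣ b ∧ |(b : ℝ)| < Y} ∪
          {b : ℤ | b ∈ B ∧ b ≠ 0 ∧ (3 : ℤ) ∣ b ∧ |(b : ℝ)| < Y} := by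
        rintro b ⟨g1, g2, g3⟩
        by_cases g : (3 : ℤ) ∣ b
        · exact Or.inr ⟨g1, g2, g, g3⟩
        · exact Or.inl ⟨g1, g, g3⟩
      unfold gB mB
      exact_mod_cast (Set.ncard_le_ncard hsub ((gB_fin B Y).union (mB_fin B Y))).trans
        (Set.ncard_union_le _ _)
    have h4 := mul_le_mul_of_nonneg_right h3 hX0.le
    have h5 : 0 ≤ Y * NB B X := by positivity
    nlinarith
  · have h1 : ({b : ℤ | b ∈ B ∧ b ≠ 0 ∧ |(b : ℝ)| < Y}.ncard : ℝ) ≤ NB B X := by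
      unfold NB
      have hsub : {b : ℤ | b ∈ B ∧ b ≠ 0 ∧ |(b : ℝ)| < Y} ⊆ {x : ℤ | |(x : ℝ)| ≤ X ∧ x ∈ B} := by
        rintro b ⟨g1, _, g3⟩
        exact ⟨(g3.trans_le hYX).le, g1⟩
      exact_mod_cast Set.ncard_le_ncard hsub (fin_abs X _)
    have h2 := mul_le_mul_of_nonneg_right h1 hX0.le
    have h5 : 0 ≤ Y * NB B X := by positivity
    nlinarith

end Pool.Agent.U457.PS
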