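import Pool.Agent.U457.PS.Low4

/-! Basins of trajectories and cycles: lower bounds by the sum of the reciprocals. -/

set_option autoImplicit false

namespace Pool.Agent.U457.PS

open Finset Filter Topology
open Pool.Agent.H499R2.CO (Tz)

/-- the integers whose orbit enters `A` -/
def Ent (A : Set ℤ) : Set ℤ := {n : ℤ | ∃ k : ℕ, (Tz 1)^[k] n ∈ A}

open scoped Classical in
/-- the elements of `A` of absolute value at most `R` -/
noncomputable def FA (A : Set ℤ) (R : ℝ) : Finset ℤ := (Icc (-⌊R⌋) ⌊R⌋).filter (fun x => x ∈ A)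

theorem mem_FA {A : Set ℤ} {R : ℝ} {x : ℤ} : x ∈ FA A R ↔ |(x : ℝ)| ≤ R ∧ x ∈ A := by
  classical
  unfold FA
  rw [mem_filter, mem_Icc, ← abs_le, Int.le_floor, Int.cast_abs]

theorem Tz1_even {x : ℤ} (h : x % 2 = 0) : Tz 1 x = x / 2 := by unfold Tz; rw [if_pos h]

theorem Tz1_odd {x : ℤ} (h : x % 2 = 1) : Tz 1 x = (3 * x + 1) / 2 := by
  unfold Tz; rw [if_neg (by omega)]

theorem Tz1_ne {x : ℤ} (h : x ≠ 0) : Tz 1 x ≠ 0 := by
  rcases Int.emod_two_eq_zero_or_one x with hx | hx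
  · rw [Tz1_even hx]; omega
  · rw [Tz1_odd hx]; omega

theorem iter_ne {x : ℤ} (h : x ≠ 0) (n : ℕ) : (Tz 1)^[n] x ≠ 0 := by
  induction n with
  | zero => exact h
  | succ n ih => rw [Function.iterate_succ_apply']; exact Tz1_ne ih

/-- the even elements contribute at most as much as the odd ones -/
theorem even_part {A : Set ℤ} (hA : ∀ x ∈ A, Tz 1 x ∈ A) (h0 : (0 : ℤ) ∉ A) (R : ℝ) :
    ∑ x ∈ FA A R, 1 / |(x : ℝ)| ≤ 2 * ∑ x ∈ (FA A R).filter (fun x => x % 2 = 1), 1 / |(x : ℝ)| := by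
  classical
  have h1 := Finset.sum_filter_add_sum_filter_not (FA A R) (fun x : ℤ => x % 2 = 1)
    (fun x => 1 / |(x : ℝ)|)
  set So := ∑ x ∈ (FA A R).filter (fun x => x % 2 = 1), 1 / |(x : ℝ)| with hSo
  set Se := ∑ x ∈ (FA A R).filter (fun x => ¬ x % 2 = 1), 1 / |(x : ℝ)| with hSe
  have h2 : 2 * Se ≤ ∑ x ∈ FA A R, 1 / |(x : ℝ)| := by
    have h3 : ∀ x ∈ (FA A R).filter (fun x => ¬ x % 2 = 1), 2 * (1 / |(x : ℝ)|) =
        1 / |((x / 2 : ℤ) : ℝ)| := by
      intro x hx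
      rw [mem_filter] at hx
      have e : (x : ℝ) = 2 * ((x / 2 : ℤ) : ℝ) := by
        have : x = 2 * (x / 2) := by omega
        exact_mod_cast this
      have hne : ((x / 2 : ℤ) : ℝ) ≠ 0 := by
        intro h
        have h4 : x / 2 = 0 := by exact_mod_cast h
        have h5 : x = 0 := by omega
        exact h0 (h5 ▸ (mem_FA.1 hx.1).2)
      have hne' : |((x / 2 : ℤ) : ℝ)| ≠ 0 := abs_ne_zero.2 hne
      rw [e, abs_mul, abs_two]
      have e2 : ((2 * ((x / 2 : ℤ) : ℝ))) = 2 * ((x / 2 : ℤ) : ℝ) := rfl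
      field_simp
    have hinj : Set.InjOn (fun x : ℤ => x / 2) ((FA A R).filter (fun x => ¬ x % 2 = 1) : Set ℤ) := by
      intro a ha b hb hab
      rw [mem_coe, mem_filter] at ha hb
      simp only at hab
      omega
    rw [hSe, Finset.mul_sum, Finset.sum_congr rfl h3]
    rw [← Finset.sum_image (s := (FA A R).filter (fun x => ¬ x % 2 = 1)) (g := fun x : ℤ => x / 2)
      (f := fun y : ℤ => 1 / |(y : ℝ)|) hinj]
    apply Finset.sum_le_sum_of_subset_of_nonneg
    · intro y hy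
      rw [mem_image] at hy
      obtain ⟨x, hx, rfl⟩ := hy
      rw [mem_filter, mem_FA] at hx
      obtain ⟨⟨g1, g2⟩, g3⟩ := hx
      rw [mem_FA]
      have hx0 : x % 2 = 0 := by omega
      refine ⟨?_, ?_⟩
      · have e : (x : ℝ) = 2 * ((x / 2 : ℤ) : ℝ) := by
          have : x = 2 * (x / 2) := by omega
          exact_mod_cast this
        rw [e, abs_mul, abs_two] at g1
        have := abs_nonneg ((x / 2 : ℤ) : ℝ)
        linarith
      · have := hA x g2
        rwa [Tz1_even hx0] at this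
    · intro y _ _
      positivity
  linarith

/-- BASINS: at least `c X` times the sum of the reciprocals of the elements of `A` -/
theorem basin_low : ∃ c K : ℝ, 0 < c ∧ 1 ≤ K ∧ ∀ A : Set ℤ, (∀ x ∈ A, Tz 1 x ∈ A) →
    Set.InjOn (Tz 1) A → (0 : ℤ) ∉ A → ∀ X : ℝ, 0 ≤ X →
      c * X * ∑ x ∈ FA A (X / K), 1 / |(x : ℝ)| ≤ NB (Ent A) X := by
  classical
  obtain ⟨c, K, hc, hK, hm⟩ := minor
  refine ⟨c / 16, 8 * K, by positivity, by linarith, ?_⟩
  intro A hA hinj h0 X hX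
  have hK0 : 0 < K := by linarith
  have h1 := even_part hA h0 (X / (8 * K))
  set F := (FA A (X / (8 * K))).filter (fun x => x % 2 = 1) with hF
  have h2 : c / 16 * X * ∑ x ∈ FA A (X / (8 * K)), 1 / |(x : ℝ)| ≤
      c / 8 * X * ∑ x ∈ F, 1 / |(x : ℝ)| := by
    have h3 := mul_le_mul_of_nonneg_left h1 (show 0 ≤ c / 16 * X by positivity)
    linarith
  refine h2.trans ?_
  set G : ℤ → Finset ℤ := fun x => (fin_abs X (fun n => n ∈ SZk 1 (2 * |((3 * x + 1 : ℤ) : ℝ)|)
    {3 * x + 1})).toFinset with hG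
  have hGm : ∀ x n, n ∈ G x → |(n : ℝ)| ≤ X ∧ ∃ m, (Tz 1)^[m] n = 3 * x + 1 := by
    intro x n hn
    rw [hG, Set.Finite.mem_toFinset] at hn
    obtain ⟨g1, g2⟩ := hn
    rw [mem_SZk] at g2
    obtain ⟨_, m, _, _, g3⟩ := g2
    exact ⟨g1, m, g3⟩
  have hT : ∀ x : ℤ, x % 2 = 1 → Tz 1 (3 * x + 1) = Tz 1 x := by
    intro x hx
    rw [Tz1_even (by omega), Tz1_odd hx]
  have hFm : ∀ x ∈ F, |(x : ℝ)| ≤ X / (8 * K) ∧ x ∈ A ∧ x % 2 = 1 := by
    intro x hx
    rw [hF, mem_filter, mem_FA] at hx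
    exact ⟨hx.1.1, hx.1.2, hx.2⟩
  have key : ∀ x ∈ F, ∀ x' ∈ F, ∀ n m m' : ℕ, ∀ z : ℤ, (Tz 1)^[m] z = 3 * x + 1 →
      (Tz 1)^[m'] z = 3 * x' + 1 → m < m' → False := by
    intro x hx x' hx' _ m m' z h3 h4 hlt
    obtain ⟨_, hxA, hxo⟩ := hFm x hx
    obtain ⟨_, hxA', hxo'⟩ := hFm x' hx'
    obtain ⟨i, rfl⟩ : ∃ i, m' = i + (m + 1) := ⟨m' - (m + 1), by omega⟩
    rw [Function.iterate_add_apply, Function.iterate_succ_apply', h3, hT x hxo] at h4
    have h5 : (Tz 1)^[i] (Tz 1 x) ∈ A := fwd_iter hA (hA x hxA) i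
    rw [h4] at h5
    have h6 := hinj h5 hxA' (hT x' hxo')
    omega
  have hdis : ∀ x ∈ F, ∀ x' ∈ F, x ≠ x' → Disjoint (G x) (G x') := by
    intro x hx x' hx' hne
    rw [Finset.disjoint_left]
    intro z hz hz'
    obtain ⟨_, m, h3⟩ := hGm x z hz
    obtain ⟨_, m', h4⟩ := hGm x' z hz'
    rcases lt_trichotomy m m' with h | h | h
    · exact key x hx x' hx' 0 m m' z h3 h4 h
    · rw [h, h4] at h3
      exact hne (by omega)
    · exact key x' hx' x hx 0 m' m z h4 h3 h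
  have hsub : ((F.biUnion G : Finset ℤ) : Set ℤ) ⊆ {x : ℤ | |(x : ℝ)| ≤ X ∧ x ∈ Ent A} := by
    intro z hz
    rw [mem_coe, mem_biUnion] at hz
    obtain ⟨x, hx, hzx⟩ := hz
    obtain ⟨g1, m, g2⟩ := hGm x z hzx
    obtain ⟨_, hxA, hxo⟩ := hFm x hx
    refine ⟨g1, m + 1, ?_⟩
    rw [Function.iterate_succ_apply', g2, hT x hxo]
    exact hA x hxA
  have h3 := Set.ncard_le_ncard hsub (fin_abs X _)
  rw [Set.ncard_coe_finset, card_biUnion hdis] at h3
  have h4 : (∑ x ∈ F, ((G x).card : ℝ)) ≤ NB (Ent A) X := by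
    unfold NB
    exact_mod_cast h3
  refine le_trans ?_ h4
  rw [Finset.mul_sum]
  apply Finset.sum_le_sum
  intro x hx
  obtain ⟨hxX, hxA, hxo⟩ := hFm x hx
  have hx1 : 1 ≤ |(x : ℝ)| := by
    have : 1 ≤ |x| := Int.one_le_abs (by omega)
    exact_mod_cast this
  set a : ℤ := 3 * x + 1 with ha
  have ha1 : 1 ≤ |(a : ℝ)| := by
    have : 1 ≤ |a| := Int.one_le_abs (by omega)
    exact_mod_cast this
  have ha4 : |(a : ℝ)| ≤ 4 * |(x : ℝ)| := by
    rw [ha]
    push_cast
    calc |3 * (x : ℝ) + 1| ≤ |3 * (x : ℝ)| + |(1 : ℝ)| := abs_add_le _ _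
      _ = 3 * |(x : ℝ)| + 1 := by rw [abs_mul, abs_one, abs_of_pos (by norm_num : (0:ℝ) < 3)]
      _ ≤ _ := by linarith
  have h5 := hm a (by omega) (2 * |(a : ℝ)|) (by linarith) le_rfl X (by
    rw [le_div_iff₀ (by positivity)] at hxX
    nlinarith)
  have h6 : ((G x).card : ℝ) = ({z : ℤ | |(z : ℝ)| ≤ X ∧ z ∈ SZk 1 (2 * |(a : ℝ)|) {a}}.ncard : ℝ) := by
    rw [hG, Set.ncard_eq_toFinset_card _
      (fin_abs X (fun n => n ∈ SZk 1 (2 * |(a : ℝ)|) {a}))]
  rw [h6]
  refine le_trans ?_ h5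
  rw [mul_one_div, div_le_div_iff₀ (by linarith) (by linarith)]
  have h7 : 0 ≤ c * X := by positivity
  nlinarith

/-- the linear form of a cycle -/
theorem cycle_form {x : ℤ} (hx : x ≠ 0) {p : ℕ} (hp : (Tz 1)^[p] x = x) :
    |(p : ℝ) * Real.log 2 - (((range p).filter (fun i => (Tz 1)^[i] x % 2 = 1)).card : ℝ) * Real.log 3|
      ≤ ∑ i ∈ range p, 1 / |(((Tz 1)^[i] x : ℤ) : ℝ)| := by
  classical
  set u : ℕ → ℤ := fun i => (Tz 1)^[i] x with hu
  have hu0 : ∀ i, (u i : ℝ) ≠ 0 := by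
    intro i
    have := iter_ne hx i
    exact_mod_cast this
  have htel : ∑ i ∈ range p, (Real.log |(u (i + 1) : ℝ)| - Real.log |(u i : ℝ)|) = 0 := by
    rw [Finset.sum_range_sub (fun i => Real.log |(u i : ℝ)|)]
    have : u p = u 0 := hp
    rw [this, sub_self]
  set o : ℕ → ℝ := fun i => if u i % 2 = 1 then 1 else 0 with ho
  have hcard : (((range p).filter (fun i => u i % 2 = 1)).card : ℝ) = ∑ i ∈ range p, o i := by
    rw [ho, Finset.sum_boole]
  have hstep : ∀ i, |o i * Real.log 3 - Real.log 2 - (Real.log |(u (i + 1) : ℝ)| -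
      Real.log |(u i : ℝ)|)| ≤ 1 / |(u i : ℝ)| := by
    intro i
    have e0 : u (i + 1) = Tz 1 (u i) := by
      rw [hu]; simp only; rw [Function.iterate_succ_apply']
    have hup : 0 < |(u i : ℝ)| := abs_pos.2 (hu0 i)
    rcases Int.emod_two_eq_zero_or_one (u i) with h | h
    · have h1 : o i = 0 := by rw [ho]; simp only; rw [if_neg (by omega)]
      have h2 : (u i : ℝ) = 2 * (u (i + 1) : ℝ) := by
        rw [e0, Tz1_even h]
        have : u i = 2 * (u i / 2) := by omega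
        exact_mod_cast this
      have h3 : Real.log |(u i : ℝ)| = Real.log 2 + Real.log |(u (i + 1) : ℝ)| := by
        rw [h2, abs_mul, abs_two, Real.log_mul (by norm_num) (abs_ne_zero.2 (hu0 (i + 1)))]
      rw [h1, h3]
      have : (0 : ℝ) * Real.log 3 - Real.log 2 - (Real.log |(u (i + 1) : ℝ)| -
        (Real.log 2 + Real.log |(u (i + 1) : ℝ)|)) = 0 := by ring
      rw [this, abs_zero]
      positivity
    · have h1 : o i = 1 := by rw [ho]; simp only; rw [if_pos h]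
      have h2 : 2 * (u (i + 1) : ℝ) = 3 * (u i : ℝ) + 1 := by
        rw [e0, Tz1_odd h]
        have : 2 * ((3 * u i + 1) / 2) = 3 * u i + 1 := by omega
        exact_mod_cast this
      set v : ℝ := 1 + 1 / (3 * (u i : ℝ)) with hv
      have hu1 : 1 ≤ |(u i : ℝ)| := by
        have : 1 ≤ |u i| := Int.one_le_abs (by omega)
        exact_mod_cast this
      have hq : |1 / (3 * (u i : ℝ))| ≤ 1 / 3 := by
        rw [abs_div, abs_one, abs_mul, abs_of_pos (by norm_num : (0 : ℝ) < 3)]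
        rw [div_le_div_iff₀ (by positivity) (by norm_num)]
        linarith
      have hvp : 2 / 3 ≤ v := by
        have := (abs_le.1 hq).1
        rw [hv]; linarith
      have h3 : 2 * |(u (i + 1) : ℝ)| = 3 * |(u i : ℝ)| * v := by
        have e1 : 2 * |(u (i + 1) : ℝ)| = |2 * (u (i + 1) : ℝ)| := by rw [abs_mul, abs_two]
        have e2 : 3 * (u i : ℝ) + 1 = 3 * (u i : ℝ) * v := by
          rw [hv]
          have := hu0 i
          field_simp
        rw [e1, h2, e2, abs_mul, abs_mul, abs_of_pos (by norm_num : (0 : ℝ) < 3),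
          abs_of_pos (by linarith : 0 < v)]
      have h4 : Real.log 2 + Real.log |(u (i + 1) : ℝ)| =
          Real.log 3 + Real.log |(u i : ℝ)| + Real.log v := by
        rw [← Real.log_mul (by norm_num) (abs_ne_zero.2 (hu0 (i + 1))), h3,
          Real.log_mul (by positivity) (by linarith), Real.log_mul (by norm_num) hup.ne']
      have h5 : o i * Real.log 3 - Real.log 2 - (Real.log |(u (i + 1) : ℝ)| -
          Real.log |(u i : ℝ)|) = - Real.log v := by rw [h1]; linarith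
      rw [h5, abs_neg]
      have h6 : |v - 1| = 1 / (3 * |(u i : ℝ)|) := by
        rw [hv, add_sub_cancel_left, abs_div, abs_one, abs_mul,
          abs_of_pos (by norm_num : (0 : ℝ) < 3)]
      have hvp0 : 0 < v := by linarith
      have h7 : Real.log v ≤ v - 1 := Real.log_le_sub_one_of_pos hvp0
      have h8 : 1 - v⁻¹ ≤ Real.log v := Real.one_sub_inv_le_log_of_pos hvp0
      have h9 : |Real.log v| ≤ 3 / 2 * |v - 1| := by
        have ha := abs_nonneg (v - 1)
        rw [abs_le]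
        constructor
        · have h10 : -(3 / 2 * |v - 1|) ≤ 1 - v⁻¹ := by
            have e : 1 - v⁻¹ = (v - 1) * v⁻¹ := by field_simp
            have h11 : v⁻¹ ≤ 3 / 2 := by
              rw [inv_le_comm₀ hvp0 (by norm_num)]; linarith
            have h12 : |(v - 1) * v⁻¹| ≤ |v - 1| * (3 / 2) := by
              rw [abs_mul, abs_of_pos (inv_pos.2 hvp0)]
              exact mul_le_mul_of_nonneg_left h11 ha
            rw [e]
            have := neg_abs_le ((v - 1) * v⁻¹)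
            linarith
          linarith
        · have := le_abs_self (v - 1)
          linarith
      refine h9.trans ?_
      rw [h6]
      have e3 : 3 / 2 * (1 / (3 * |(u i : ℝ)|)) = 1 / 2 * (1 / |(u i : ℝ)|) := by
        field_simp
      rw [e3]
      have : 0 < 1 / |(u i : ℝ)| := by positivity
      linarith
  have e1 : (p : ℝ) * Real.log 2 - (((range p).filter (fun i => u i % 2 = 1)).card : ℝ) * Real.log 3 =
      -(∑ i ∈ range p, (o i * Real.log 3 - Real.log 2 - (Real.log |(u (i + 1) : ℝ)| -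
      Real.log |(u i : ℝ)|))) := by
    rw [Finset.sum_sub_distrib, htel, Finset.sum_sub_distrib, ← Finset.sum_mul, hcard,
      Finset.sum_const, card_range, nsmul_eq_mul]
    ring
  rw [e1, abs_neg]
  exact (Finset.abs_sum_le_sum_abs _ _).trans (Finset.sum_le_sum fun i _ => hstep i)

end Pool.Agent.U457.PS
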