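import Pool.Agent.U457.PS.Low3

/-! Lower bounds for first passages, with control of the time. -/

set_option autoImplicit false

namespace Pool.Agent.U457.PS

open Finset Filter Topology
open Pool.Agent.H499R2.CO (Tz)
open Pool.Agent.H320R2.PD (fT Wo Nice U cod word_cons endpoint_reach endpoint_cod Wo_inj fT_halve
  fT_letter good_class quenched fT_odd fT_two_mul)
open Pool.Agent.H320R2.PD.Cnt (Wo_take_le Wo_nice_le count_uniform)
open Pool.Agent.W26.Ws (hit_unif)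

/-- the number of steps along a nice word -/
theorem time_nice {l s : ℕ} {Y : ℝ} (hY : 2 ≤ Y) (h1 : 39 * l ≤ 20 * s) (h2 : 20 * s ≤ 41 * l)
    (h3 : Y / 2 * 3 ^ l < (2 : ℝ) ^ s) (h4 : (2 : ℝ) ^ s ≤ Y * 3 ^ l) :
    6 * Real.log Y - 5 ≤ s ∧ (s : ℝ) ≤ 8 * Real.log Y := by
  have hY0 : 0 < Y := by linarith
  have l2a := Real.log_two_gt_d9
  have l2b := Real.log_two_lt_d9
  have hlY : 0 ≤ Real.log Y := Real.log_nonneg (by linarith)
  have hs0 : (0 : ℝ) ≤ s := Nat.cast_nonneg s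
  have hl0 : (0 : ℝ) ≤ l := Nat.cast_nonneg l
  -- log 3 bounds
  have l3a : 19 * Real.log 2 ≤ 12 * Real.log 3 := by
    have h := Real.log_le_log (by positivity) (by norm_num : (2 : ℝ) ^ 19 ≤ 3 ^ 12)
    rw [Real.log_pow, Real.log_pow] at h
    push_cast at h
    linarith
  have l3b : 41 * Real.log 3 ≤ 65 * Real.log 2 := by
    have h := Real.log_le_log (by positivity) (by norm_num : (3 : ℝ) ^ 41 ≤ 2 ^ 65)
    rw [Real.log_pow, Real.log_pow] at h
    push_cast at h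
    linarith
  have e3 : Real.log Y - Real.log 2 + l * Real.log 3 ≤ s * Real.log 2 := by
    have h := Real.log_le_log (by positivity) h3.le
    rw [Real.log_mul (by positivity) (by positivity), Real.log_div (by positivity) (by norm_num),
      Real.log_pow, Real.log_pow] at h
    exact h
  have e4 : s * Real.log 2 ≤ Real.log Y + l * Real.log 3 := by
    have h := Real.log_le_log (by positivity) h4
    rw [Real.log_mul (by positivity) (by positivity), Real.log_pow, Real.log_pow] at h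
    exact h
  have g1 : (39 : ℝ) * l ≤ 20 * s := by exact_mod_cast h1
  have g2 : (20 : ℝ) * s ≤ 41 * l := by exact_mod_cast h2
  have hl2 : 0 < Real.log 2 := by linarith
  have hl3 : 0 < Real.log 3 := by linarith
  constructor
  · -- s (log 2 - 20/41 log 3) ≥ log Y - log 2
    have a1 : (20 : ℝ) * s * Real.log 3 ≤ 41 * l * Real.log 3 := mul_le_mul_of_nonneg_right g2 hl3.le
    have a2 : (s : ℝ) * (19 * Real.log 2) ≤ s * (12 * Real.log 3) := mul_le_mul_of_nonneg_left l3a hs0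
    have a3 : (s : ℝ) * Real.log 2 ≤ s * 0.6931471808 := mul_le_mul_of_nonneg_left l2b.le hs0
    -- l log 3 ≥ (20/41) s log 3 ≥ (20/41)(19/12) s log 2
    nlinarith
  · have a1 : (39 : ℝ) * l * Real.log 3 ≤ 20 * s * Real.log 3 := mul_le_mul_of_nonneg_right g1 hl3.le
    have a2 : (s : ℝ) * (41 * Real.log 3) ≤ s * (65 * Real.log 2) := mul_le_mul_of_nonneg_left l3b hs0
    have a3 : (s : ℝ) * 0.6931471803 ≤ s * Real.log 2 := mul_le_mul_of_nonneg_left l2a.le hs0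
    nlinarith

/-- MANY PATHS. For every large `a` not divisible by 3 and every large `Y`, at least `Y / 64` integers of
absolute value at most `C Y |a|` reach `a` along paths whose terms have absolute value at least `κ |a|`. -/
theorem low_core_t : ∃ κ C K A D : ℝ, 0 < κ ∧ 1 ≤ C ∧ 1 ≤ K ∧ 1 ≤ A ∧ 0 ≤ D ∧ ∀ a : ℤ, ¬ (3 : ℤ) ∣ a →
    A ≤ |(a : ℝ)| → ∀ Y : ℝ, K ≤ Y → ∃ S : Finset (ℤ × ℕ),
      (∀ p ∈ S, |(p.1 : ℝ)| ≤ C * Y * |(a : ℝ)| ∧ Pth (κ * |(a : ℝ)|) p.2 p.1 a ∧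
        6 * Real.log Y - 5 ≤ p.2 ∧ (p.2 : ℝ) ≤ 8 * Real.log Y + D) ∧
      Y / 64 ≤ S.card := by
  classical
  obtain ⟨N0, N, r, hN0, hN1, hr, hgood⟩ := good_class
  obtain ⟨K, hK2, hK⟩ := count_uniform quenched hN0
  obtain ⟨L, B, hLB⟩ := hit_unif N r hr
  set P : ℝ := 3 ^ L * 2 ^ B with hP
  have hP1 : 1 ≤ P := by
    have h1 : (1 : ℝ) ≤ 3 ^ L := one_le_pow₀ (by norm_num)
    have h2 : (1 : ℝ) ≤ 2 ^ B := one_le_pow₀ (by norm_num)
    rw [hP]; nlinarith
  have hQ1 : (1 : ℝ) ≤ 2 ^ N0 := one_le_pow₀ (by norm_num)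
  refine ⟨1 / (4 * 3 ^ L * 3 ^ N0), 4 * 2 ^ B * 2 ^ B, K, 20 * P * 2 ^ N0, B, by positivity, ?_, by linarith,
    by nlinarith, by positivity, ?_⟩
  · have h2 : (1 : ℝ) ≤ 2 ^ B := one_le_pow₀ (by norm_num)
    nlinarith
  intro a ha hA Y hY
  have hY0 : 0 < Y := by linarith
  obtain ⟨u, j, hu1, hu2, hu3, hu4, hu5⟩ := hLB a ha
  set z0 : ℤ := (2 ^ u.sum * a - Wo u) / 3 ^ u.length with hz0
  have hz0' : (3 : ℤ) ^ u.length * z0 = 2 ^ u.sum * a - Wo u := Int.mul_ediv_cancel' hu4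
  set x : ℤ := 2 ^ j * z0 with hx
  have ha0 := abs_nonneg (a : ℝ)
  have haP : 2 * (3 ^ L * 2 ^ B) ≤ |(a : ℝ)| := by
    rw [← hP]; nlinarith
  have hnu := node_any hu2 (show u.sum ≤ B by omega) haP
  have hz0n := hnu u.length le_rfl z0 (by rw [List.take_length]; exact hz0')
  have hxz : |(z0 : ℝ)| ≤ |(x : ℝ)| := abs_pow_mul j z0
  have hxu : |(x : ℝ)| ≤ 2 ^ B * |(z0 : ℝ)| := by
    rw [hx]
    push_cast
    rw [abs_mul, abs_of_pos (by positivity : (0 : ℝ) < 2 ^ j)]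
    exact mul_le_mul_of_nonneg_right (pow_le_pow_right₀ (by norm_num) (by omega)) (abs_nonneg _)
  have h3L : (0 : ℝ) < 3 ^ L := by positivity
  have hx10 : 10 * 2 ^ N0 ≤ |(x : ℝ)| := by
    refine le_trans ?_ hxz
    refine le_trans ?_ hz0n.1
    rw [le_div_iff₀ (by positivity)]
    refine le_trans (le_of_eq ?_) ((mul_le_mul_of_nonneg_right (mul_le_mul_of_nonneg_left
      (show (3 : ℝ) ^ L ≤ P from ?_) (by norm_num)) (by positivity)).trans hA)
    · ring
    · rw [hP]; exact le_mul_of_one_le_right h3L.le (one_le_pow₀ (by norm_num))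
  obtain ⟨S0, hS0, hcard⟩ := hK x (hgood _ hu5) Y hY
  set κ : ℝ := 1 / (4 * 3 ^ L * 3 ^ N0) with hκ
  have h3N : (1 : ℝ) ≤ 3 ^ N0 := one_le_pow₀ (by norm_num)
  have hκ1 : κ * |(a : ℝ)| ≤ |(a : ℝ)| / (2 * 3 ^ L) := by
    rw [hκ, one_div_mul_eq_div]
    apply div_le_div_of_nonneg_left ha0 (by positivity)
    nlinarith
  have hκ2 : κ * |(a : ℝ)| ≤ |(x : ℝ)| / (2 * 3 ^ N0) := by
    have h1 : |(a : ℝ)| / (2 * 3 ^ L) ≤ |(x : ℝ)| := hz0n.1.trans hxz
    rw [div_le_iff₀ (by positivity)] at h1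
    rw [hκ, one_div_mul_eq_div, div_le_div_iff₀ (by positivity) (by positivity)]
    nlinarith
  have hp1 : Pth (κ * |(a : ℝ)|) u.sum z0 a :=
    Pth_word hu1 hu4 (fun i hi n hn => hκ1.trans (hnu i hi n hn).1)
  have hp2 : Pth (κ * |(a : ℝ)|) j x z0 := Pth_halve j (hκ1.trans hz0n.1)
  have hword : ∀ w ∈ S0, Pth (κ * |(a : ℝ)|) w.sum ((2 ^ w.sum * x - Wo w) / 3 ^ w.length) x := by
    intro w hw
    obtain ⟨h1, h2, h3, h4, h5, h6, h7, h8, h9⟩ := hS0 w hw
    exact Pth_word h1 h2 (fun i hi n hn => hκ2.trans (node_nice h1 h4 hx10 i hi n hn))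
  refine ⟨S0.image (fun w => ((2 ^ w.sum * x - Wo w) / 3 ^ w.length, w.sum + j + u.sum)), ?_, ?_⟩
  · intro p hp
    obtain ⟨w, hw, rfl⟩ := Finset.mem_image.1 hp
    obtain ⟨h1, h2, h3, h4, h5, h6, h7, h8, h9⟩ := hS0 w hw
    have htime := time_nice (by linarith : (2 : ℝ) ≤ Y) (by have := (h4 w.length (hN0.trans h3) le_rfl).1; rw [List.take_length] at this; exact this) h6 h7 h8
    refine ⟨?_, ((hword w hw).trans hp2).trans hp1, ?_, ?_⟩
    rotate_left
    · show 6 * Real.log Y - 5 ≤ ((w.sum + j + u.sum : ℕ) : ℝ)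
      have h10 : (w.sum : ℝ) ≤ ((w.sum + j + u.sum : ℕ) : ℝ) := by exact_mod_cast (by omega)
      linarith [htime.1]
    · show ((w.sum + j + u.sum : ℕ) : ℝ) ≤ 8 * Real.log Y + B
      have h10 : ((w.sum + j + u.sum : ℕ) : ℝ) ≤ w.sum + B := by exact_mod_cast (by omega)
      linarith [htime.2]
    set y : ℤ := (2 ^ w.sum * x - Wo w) / 3 ^ w.length with hy
    have hy' : (3 : ℤ) ^ w.length * y = 2 ^ w.sum * x - Wo w := Int.mul_ediv_cancel' h2
    have hm := (node_abs hy').2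
    have h2s : (0 : ℝ) < 2 ^ w.sum := by positivity
    have h3w : (0 : ℝ) < 3 ^ w.length := by positivity
    have g1 : (3 : ℝ) ^ w.length * |(y : ℝ)| ≤ 3 ^ w.length * (2 * Y * |(x : ℝ)|) := by
      have g2 : (Wo w : ℝ) ≤ 2 ^ w.sum * |(x : ℝ)| := by
        refine h9.trans ?_
        rw [mul_comm ((2 : ℝ) ^ w.sum)]
        apply mul_le_mul_of_nonneg_right _ h2s.le
        linarith
      have g3 : (2 : ℝ) ^ w.sum * |(x : ℝ)| ≤ Y * 3 ^ w.length * |(x : ℝ)| :=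
        mul_le_mul_of_nonneg_right h8 (abs_nonneg _)
      nlinarith
    have g4 := le_of_mul_le_mul_left g1 h3w
    refine g4.trans ?_
    have g5 : |(x : ℝ)| ≤ 2 ^ B * (2 * 2 ^ B * |(a : ℝ)|) :=
      hxu.trans (mul_le_mul_of_nonneg_left hz0n.2 (by positivity))
    calc 2 * Y * |(x : ℝ)| ≤ 2 * Y * (2 ^ B * (2 * 2 ^ B * |(a : ℝ)|)) :=
          mul_le_mul_of_nonneg_left g5 (by positivity)
      _ = _ := by ring
  · rw [Finset.card_image_of_injOn]
    · exact hcard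
    · intro w hw w' hw' h
      obtain ⟨h1, h2, -⟩ := hS0 w hw
      obtain ⟨h1', h2', -⟩ := hS0 w' hw'
      simp only [Prod.mk.injEq] at h
      obtain ⟨he, ht⟩ := h
      have hs : w.sum = w'.sum := by omega
      have c := endpoint_cod h1 h2
      have c' := endpoint_cod h1' h2'
      have hl : w.length = w'.length := by rw [← c, ← c', he, hs]
      refine Wo_inj h1 h1' hl hs ?_
      have e1 : (3 : ℤ) ^ w.length * ((2 ^ w.sum * x - Wo w) / 3 ^ w.length) = 2 ^ w.sum * x - Wo w :=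
        Int.mul_ediv_cancel' h2
      have e2 : (3 : ℤ) ^ w'.length * ((2 ^ w'.sum * x - Wo w') / 3 ^ w'.length) =
          2 ^ w'.sum * x - Wo w' := Int.mul_ediv_cancel' h2'
      rw [he, hl, e2, hs] at e1
      have e3 : (Wo w : ℤ) = Wo w' := by linarith
      exact_mod_cast e3

end Pool.Agent.U457.PS
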