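import Pool.Agent.U457.PS.Low7

/-! Predecessors which are reached as record lows at controlled times; tails of the total stopping time. -/

set_option autoImplicit false

namespace Pool.Agent.U457.PS

open Finset Filter Topology
open Pool.Agent.H499R2.CO (Tz)
open Pool.Agent.H320R2.PD (fT fT_halve)

/-- the 3x+1 function on the natural numbers -/
def TN (n : ℕ) : ℕ := if n % 2 = 0 then n / 2 else (3 * n + 1) / 2

theorem fT_cast (n : ℕ) : fT (n : ℤ) = (TN n : ℤ) := by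
  unfold fT TN
  rcases Nat.mod_two_eq_zero_or_one n with h | h
  · rw [if_pos h, if_pos (by omega)]; push_cast; rfl
  · rw [if_neg (by omega), if_neg (by omega)]; push_cast; rfl

theorem fT_cast_iter (k : ℕ) : ∀ n : ℕ, fT^[k] (n : ℤ) = ((TN^[k] n : ℕ) : ℤ) := by
  induction k with
  | zero => intro n; rfl
  | succ k ih => intro n; rw [Function.iterate_succ_apply, Function.iterate_succ_apply, fT_cast, ih]

theorem fT_pos {y : ℤ} (h : 0 < fT y) : 0 < y := by
  by_contra hy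
  unfold fT at h
  split_ifs at h <;> omega

theorem fT_pos_iter (k : ℕ) : ∀ {y : ℤ}, 0 < fT^[k] y → 0 < y := by
  induction k with
  | zero => intro y h; exact h
  | succ k ih => intro y h; rw [Function.iterate_succ_apply] at h; exact fT_pos (ih h)

theorem TN_pos {n : ℕ} (h : 1 ≤ n) : 1 ≤ TN n := by unfold TN; split_ifs <;> omega

theorem TN_iter_pos (k : ℕ) : ∀ {n : ℕ}, 1 ≤ n → 1 ≤ TN^[k] n := by
  induction k with
  | zero => intro n h; exact h
  | succ k ih => intro n h; rw [Function.iterate_succ_apply]; exact ih (TN_pos h)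

theorem TN_two_mul (a : ℕ) : TN (2 * a) = a := by unfold TN; rw [if_pos (by omega)]; omega

theorem TN_pow (k : ℕ) : ∀ a : ℕ, TN^[k] (2 ^ k * a) = a := by
  induction k with
  | zero => intro a; simp
  | succ k ih =>
    intro a
    rw [Function.iterate_succ_apply, pow_succ, show 2 ^ k * 2 * a = 2 * (2 ^ k * a) by ring, TN_two_mul, ih]

/-- `a` is the first term below `2 a` of the trajectory of `n`, after `t` steps -/
def Low (a n t : ℕ) : Prop := TN^[t] n = a ∧ ∀ j < t, 2 * a ≤ TN^[j] n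

theorem minor_t : ∃ c K : ℝ, 0 < c ∧ 1 ≤ K ∧ ∀ a : ℕ, ¬ 3 ∣ a → ∀ X : ℝ, K * a ≤ X →
    c * X / a ≤ ({n : ℕ | 1 ≤ n ∧ (n : ℝ) ≤ X ∧ ∃ t : ℕ, 6 * Real.log (X / a) - K ≤ t ∧
      (t : ℝ) ≤ 8 * Real.log (X / a) + K ∧ Low a n t}.ncard : ℝ) := by
  classical
  obtain ⟨κ, C, K, A, D, hκ, hC, hK, hA, hD, hcore⟩ := low_core_t
  obtain ⟨J, hJ⟩ := pow_unbounded_of_one_lt (max A (2 / κ)) (by norm_num : (1 : ℝ) < 2)
  have hJA : A ≤ 2 ^ J := (le_max_left _ _).trans hJ.le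
  have hJκ : 2 ≤ κ * 2 ^ J := by
    have := (le_max_right A (2 / κ)).trans hJ.le
    rw [div_le_iff₀ hκ] at this
    linarith
  have h2J : (1 : ℝ) ≤ 2 ^ J := one_le_pow₀ (by norm_num)
  have hC0 : 0 < C := by linarith
  have hCJ : 1 ≤ C * 2 ^ J := by nlinarith
  have hlog : 0 ≤ Real.log (C * 2 ^ J) := Real.log_nonneg hCJ
  have hKC : 1 ≤ K * C * 2 ^ J := by
    have : 1 ≤ K * C := by nlinarith
    nlinarith
  have hJ0 : (0 : ℝ) ≤ J := Nat.cast_nonneg J
  refine ⟨1 / (64 * C * 2 ^ J), K * C * 2 ^ J + 6 * Real.log (C * 2 ^ J) + 5 + D + J, by positivity,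
    by linarith, ?_⟩
  intro a ha X hX
  have ha1' : 1 ≤ a := by
    rcases Nat.eq_zero_or_pos a with h | h
    · rw [h] at ha; exact absurd (dvd_zero 3) ha
    · exact h
  have ha1 : (1 : ℝ) ≤ a := by exact_mod_cast ha1'
  have ha0 : (0 : ℝ) < a := by linarith
  have hX' : K * C * 2 ^ J * a ≤ X := by
    refine le_trans (mul_le_mul_of_nonneg_right ?_ ha0.le) hX
    linarith
  have hX0 : 0 < X := lt_of_lt_of_le (by positivity) hX'
  set b : ℤ := 2 ^ J * (a : ℤ) with hb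
  have hbabs : |(b : ℝ)| = 2 ^ J * a := by
    rw [hb]; push_cast; rw [abs_mul, abs_pow, abs_two, Nat.abs_cast]
  have ha3 : ¬ (3 : ℤ) ∣ (a : ℤ) := by
    intro h; exact ha (by exact_mod_cast h)
  have hb3 : ¬ (3 : ℤ) ∣ b := by
    intro h
    have hc : IsCoprime (3 : ℤ) (2 ^ J) := IsCoprime.pow_right (by norm_num)
    exact ha3 (hc.dvd_of_dvd_mul_left h)
  have hbA : A ≤ |(b : ℝ)| := by rw [hbabs]; nlinarith
  have hb0 : 0 < |(b : ℝ)| := by linarith
  set Y : ℝ := X / (C * |(b : ℝ)|) with hY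
  have hKpos : 0 < K := by linarith
  have hYK : K ≤ Y := by
    rw [hY, le_div_iff₀ (by positivity), hbabs]
    refine le_trans (le_of_eq ?_) hX'
    ring
  have hYe : Y = X / a / (C * 2 ^ J) := by rw [hY, hbabs]; field_simp
  have hlY : Real.log Y = Real.log (X / a) - Real.log (C * 2 ^ J) := by
    rw [hYe, Real.log_div (by positivity) (by positivity)]
  obtain ⟨S, hS, hcard⟩ := hcore b hb3 hbA Y hYK
  have hZ2 : (2 : ℝ) * a ≤ 2 * |((a : ℤ) : ℝ)| := by
    rw [Int.cast_natCast, Nat.abs_cast]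
  have hZ1 : (2 : ℝ) * a ≤ κ * |(b : ℝ)| := by
    rw [hbabs, ← mul_assoc]
    exact mul_le_mul_of_nonneg_right hJκ ha0.le
  have hfl : ∀ p ∈ S, (∀ j < p.2 + J, (2 : ℝ) * a ≤ |((fT^[j] p.1 : ℤ) : ℝ)|) ∧ fT^[p.2 + J] p.1 = a := by
    intro p hp
    exact first_low (hS p hp).2.1 hZ1 hZ2
  have hazZ : |((a : ℤ) : ℝ)| < 2 * a := by
    rw [Int.cast_natCast, Nat.abs_cast]; linarith
  have hinj : Set.InjOn Prod.fst (S : Set (ℤ × ℕ)) := by
    intro p hp q hq h
    obtain ⟨h1, h2⟩ := hfl p hp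
    obtain ⟨h3, h4⟩ := hfl q hq
    rw [← h] at h3 h4
    have := first_unique h1 (by rw [h2]; exact hazZ) h3 (by rw [h4]; exact hazZ)
    exact Prod.ext h (by omega)
  have hpos : ∀ p ∈ S, 0 < p.1 := by
    intro p hp
    apply fT_pos_iter (p.2 + J)
    rw [(hfl p hp).2]
    exact_mod_cast ha1'
  have hinj2 : Set.InjOn (fun p : ℤ × ℕ => p.1.toNat) (S : Set (ℤ × ℕ)) := by
    intro p hp q hq h
    have h1 := hpos p hp
    have h2 := hpos q hq
    simp only at h
    exact hinj hp hq (by omega)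
  have hfin : {n : ℕ | 1 ≤ n ∧ (n : ℝ) ≤ X ∧ ∃ t : ℕ, 6 * Real.log (X / a) -
      (K * C * 2 ^ J + 6 * Real.log (C * 2 ^ J) + 5 + D + J) ≤ t ∧
      (t : ℝ) ≤ 8 * Real.log (X / a) + (K * C * 2 ^ J + 6 * Real.log (C * 2 ^ J) + 5 + D + J) ∧
      Low a n t}.Finite := by
    apply (Set.finite_Iic (⌊X⌋₊)).subset
    intro n hn
    exact Nat.le_floor hn.2.1
  have hsub : ((S.image (fun p : ℤ × ℕ => p.1.toNat) : Finset ℕ) : Set ℕ) ⊆
      {n : ℕ | 1 ≤ n ∧ (n : ℝ) ≤ X ∧ ∃ t : ℕ, 6 * Real.log (X / a) -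
      (K * C * 2 ^ J + 6 * Real.log (C * 2 ^ J) + 5 + D + J) ≤ t ∧
      (t : ℝ) ≤ 8 * Real.log (X / a) + (K * C * 2 ^ J + 6 * Real.log (C * 2 ^ J) + 5 + D + J) ∧
      Low a n t} := by
    intro y hy
    rw [mem_coe, mem_image] at hy
    obtain ⟨p, hp, rfl⟩ := hy
    obtain ⟨h1, h2⟩ := hfl p hp
    obtain ⟨h3, h4, h5, h6⟩ := hS p hp
    have hp0 := hpos p hp
    have hcast : ((p.1.toNat : ℕ) : ℤ) = p.1 := Int.toNat_of_nonneg hp0.le
    have hcastR : ((p.1.toNat : ℕ) : ℝ) = (p.1 : ℝ) := by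
      have h9 : (((p.1.toNat : ℕ) : ℤ) : ℝ) = (p.1 : ℝ) := by rw [hcast]
      rw [← h9, Int.cast_natCast]
    have hit : ∀ j, fT^[j] p.1 = ((TN^[j] p.1.toNat : ℕ) : ℤ) := by
      intro j
      conv_lhs => rw [← hcast]
      exact fT_cast_iter j _
    refine ⟨by omega, ?_, p.2 + J, ?_, ?_, ?_, ?_⟩
    · rw [hcastR]
      refine (le_abs_self _).trans (h3.trans (le_of_eq ?_))
      rw [hY]
      field_simp
    · push_cast
      rw [hlY] at h5
      nlinarith
    · push_cast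
      rw [hlY] at h6
      nlinarith
    · have := h2
      rw [hit] at this
      exact_mod_cast this
    · intro j hj
      have := h1 j hj
      rw [hit, Int.cast_natCast, Nat.abs_cast] at this
      exact_mod_cast this
  have h6 := Set.ncard_le_ncard hsub hfin
  rw [Set.ncard_coe_finset, card_image_of_injOn hinj2] at h6
  refine le_trans ?_ (hcard.trans (Nat.cast_le.2 h6))
  rw [hYe]
  apply le_of_eq
  field_simp

end Pool.Agent.U457.PS
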