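import Pool.Agent.U457.PS.Low8

/-! Tails of the law of the total stopping time at different scales. -/

set_option autoImplicit false

namespace Pool.Agent.U457.PS

open Finset Filter Topology

/-- the total stopping time is at most `B` -/
def Rch (B : ℝ) (n : ℕ) : Prop := ∃ t : ℕ, (t : ℝ) ≤ B ∧ TN^[t] n = 1

/-- number of `1 ≤ n ≤ X` with total stopping time larger than `B` -/
noncomputable def NN (B X : ℝ) : ℝ := ({n : ℕ | 1 ≤ n ∧ (n : ℝ) ≤ X ∧ ¬ Rch B n}.ncard : ℝ)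

/-- the same for the integers not divisible by 3 -/
noncomputable def N3 (B X : ℝ) : ℝ :=
  ({n : ℕ | (¬ 3 ∣ n ∧ 1 ≤ n) ∧ (n : ℝ) ≤ X ∧ ¬ Rch B n}.ncard : ℝ)

theorem Rch.mono {B B' : ℝ} {n : ℕ} (h : Rch B n) (hB : B ≤ B') : Rch B' n := by
  obtain ⟨t, h1, h2⟩ := h; exact ⟨t, h1.trans hB, h2⟩

theorem fin_le' (X : ℝ) (P : ℕ → Prop) (Q : ℕ → Prop) : {n : ℕ | P n ∧ (n : ℝ) ≤ X ∧ Q n}.Finite := by
  apply (Set.finite_Iic (⌊X⌋₊)).subset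
  intro n hn
  exact Nat.le_floor hn.2.1

theorem NN_nonneg (B X : ℝ) : 0 ≤ NN B X := Nat.cast_nonneg _

theorem NN_mono {B B' X X' : ℝ} (hB : B' ≤ B) (hX : X ≤ X') : NN B X ≤ NN B' X' := by
  unfold NN
  apply Nat.cast_le.2
  apply Set.ncard_le_ncard _ (fin_le' X' _ _)
  rintro n ⟨h1, h2, h3⟩
  exact ⟨h1, h2.trans hX, fun h => h3 (h.mono hB)⟩

/-- one dyadic scale -/
theorem dyad {c K : ℝ} (hc : 0 < c) (hK : 1 ≤ K)
    (hmin : ∀ a : ℕ, ¬ 3 ∣ a → ∀ X : ℝ, K * a ≤ X →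
    c * X / a ≤ ({n : ℕ | 1 ≤ n ∧ (n : ℝ) ≤ X ∧ ∃ t : ℕ, 6 * Real.log (X / a) - K ≤ t ∧
      (t : ℝ) ≤ 8 * Real.log (X / a) + K ∧ Low a n t}.ncard : ℝ)) {B X Z : ℝ} (hZ : 0 < Z) (hX : K * Z ≤ X) :
    ({a : ℕ | (¬ 3 ∣ a ∧ 1 ≤ a) ∧ (a : ℝ) ≤ Z ∧ (Z / 2 ≤ a ∧ (a : ℝ) < Z) ∧ ¬ Rch B a}.ncard : ℝ) *
      (c * X / Z) ≤ NN (B + 6 * Real.log (X / Z) - K) X := by
  classical
  have hX0 : 0 < X := lt_of_lt_of_le (by positivity) hX
  have hfin := fin_le' Z (fun a : ℕ => ¬ 3 ∣ a ∧ 1 ≤ a) (fun a => (Z / 2 ≤ a ∧ (a : ℝ) < Z) ∧ ¬ Rch B a)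
  set A : Finset ℕ := hfin.toFinset with hA
  have hAm : ∀ a, a ∈ A ↔ (¬ 3 ∣ a ∧ 1 ≤ a) ∧ (a : ℝ) ≤ Z ∧ (Z / 2 ≤ a ∧ (a : ℝ) < Z) ∧ ¬ Rch B a := by
    intro a; rw [hA, Set.Finite.mem_toFinset]; exact Iff.rfl
  have hFf : ∀ a : ℕ, {n : ℕ | 1 ≤ n ∧ (n : ℝ) ≤ X ∧ ∃ t : ℕ, 6 * Real.log (X / a) - K ≤ t ∧
      (t : ℝ) ≤ 8 * Real.log (X / a) + K ∧ Low a n t}.Finite := fun a => fin_le' X _ _
  set F : ℕ → Finset ℕ := fun a => (hFf a).toFinset with hF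
  have hFm : ∀ a n, n ∈ F a ↔ 1 ≤ n ∧ (n : ℝ) ≤ X ∧ ∃ t : ℕ, 6 * Real.log (X / a) - K ≤ t ∧
      (t : ℝ) ≤ 8 * Real.log (X / a) + K ∧ Low a n t := by
    intro a n; rw [hF]; simp only [Set.Finite.mem_toFinset]; exact Iff.rfl
  have hFc : ∀ a ∈ A, c * X / Z ≤ ((F a).card : ℝ) := by
    intro a ha
    obtain ⟨⟨h3, h1⟩, h2, ⟨h4, h5⟩, h6⟩ := (hAm a).1 ha
    have ha0 : (0 : ℝ) < a := by exact_mod_cast h1
    have g := hmin a h3 X ((mul_le_mul_of_nonneg_left h5.le (by linarith)).trans hX)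
    rw [Set.ncard_eq_toFinset_card _ (hFf a)] at g
    refine le_trans ?_ g
    exact div_le_div_of_nonneg_left (by positivity) ha0 h5.le
  have hdis : ∀ a ∈ A, ∀ b ∈ A, a ≠ b → Disjoint (F a) (F b) := by
    intro a ha b hb hab
    rw [Finset.disjoint_left]
    intro n hn1 hn2
    obtain ⟨-, -, ⟨h4, h5⟩, -⟩ := (hAm a).1 ha
    obtain ⟨-, -, ⟨h4', h5'⟩, -⟩ := (hAm b).1 hb
    obtain ⟨-, -, t, -, -, k1, k2⟩ := (hFm a n).1 hn1
    obtain ⟨-, -, s, -, -, l1, l2⟩ := (hFm b n).1 hn2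
    rcases lt_trichotomy t s with h | h | h
    · have := l2 t h
      rw [k1] at this
      have h9 : (2 : ℝ) * b ≤ a := by exact_mod_cast this
      linarith
    · subst h; exact hab (k1.symm.trans l1)
    · have := k2 s h
      rw [l1] at this
      have h9 : (2 : ℝ) * a ≤ b := by exact_mod_cast this
      linarith
  have hcard : (A.card : ℝ) * (c * X / Z) ≤ ((A.biUnion F).card : ℝ) := by
    rw [Finset.card_biUnion hdis]
    push_cast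
    calc (A.card : ℝ) * (c * X / Z) = ∑ a ∈ A, c * X / Z := by rw [Finset.sum_const, nsmul_eq_mul]
      _ ≤ _ := Finset.sum_le_sum hFc
  rw [Set.ncard_eq_toFinset_card _ hfin]
  refine hcard.trans ?_
  unfold NN
  rw [← Set.ncard_coe_finset]
  apply Nat.cast_le.2
  apply Set.ncard_le_ncard _ (fin_le' X _ _)
  intro n hn
  rw [Finset.mem_coe, Finset.mem_biUnion] at hn
  obtain ⟨a, ha, hn⟩ := hn
  obtain ⟨⟨h3, h1⟩, h2, ⟨h4, h5⟩, h6⟩ := (hAm a).1 ha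
  obtain ⟨g1, g2, t, g3, g4, k1, k2⟩ := (hFm a n).1 hn
  refine ⟨g1, g2, ?_⟩
  rintro ⟨s, hs, hs1⟩
  have ha0 : (0 : ℝ) < a := by exact_mod_cast h1
  have hlog : Real.log (X / Z) ≤ Real.log (X / a) :=
    Real.log_le_log (by positivity) (div_le_div_of_nonneg_left hX0.le ha0 h5.le)
  rcases lt_or_ge s t with h | h
  · have := k2 s h
    rw [hs1] at this
    omega
  · apply h6
    refine ⟨s - t, ?_, ?_⟩
    · rw [Nat.cast_sub h]; linarith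
    · rw [← k1, ← Function.iterate_add_apply, show s - t + t = s by omega]
      exact hs1

end Pool.Agent.U457.PS
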