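import Pool.Agent.U457.PS.NatW

/-! Visits of a trajectory to a set: first moments. -/

set_option autoImplicit false

namespace Pool.Agent.U457.PS

open Finset Filter Topology
open Pool.Agent.H499R2.CO (Tz)

/-- the integers of absolute value at most `X` -/
noncomputable def ballZ (X : ℝ) : Finset ℤ := (fin_abs X (fun _ => True)).toFinset

theorem mem_ballZ {X : ℝ} {n : ℤ} : n ∈ ballZ X ↔ |(n : ℝ)| ≤ X := by
  unfold ballZ
  rw [Set.Finite.mem_toFinset]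
  exact ⟨fun h => h.1, fun h => ⟨h, trivial⟩⟩

/-- THE FIRST MOMENT -/
theorem first_moment {k : ℤ} (hk : Odd k) (hk3 : IsCoprime k 3) (B : ℕ) :
    ∃ C : ℝ, 0 < C ∧ ∃ i₁ : ℕ, ∀ (E : Set ℤ) (i₀ I : ℕ) (X : ℝ), i₁ ≤ i₀ →
      (2 : ℝ) ^ I ≤ X → X < 2 ^ (I + 1) →
      (∑ n ∈ ballZ X, (pr k E i₀ I n : ℝ)) ≤ C * X * (∑ i ∈ Icc i₀ I, 1 / (ell k E i) ^ B) := by
  classical
  obtain ⟨C₁, hC₁, h1⟩ := Q_count hk hk3 (B + 2)
  obtain ⟨i₂, hi₂⟩ := exists_i1 k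
  refine ⟨C₁ * 256 ^ 2 * 2, by positivity, i₂, ?_⟩
  intro E i₀ I X hi₀2 hX1 hX2
  have hX0 : 0 < X := lt_of_lt_of_le (by positivity) hX1
  have hpow1 : ∀ i : ℕ, (1 : ℝ) ≤ 2 ^ i := fun i => one_le_pow₀ (by norm_num)
  have hpowX : ∀ i ≤ I, (2 : ℝ) ^ i ≤ X := fun i hi =>
    (pow_le_pow_right₀ (by norm_num) hi).trans hX1
  set V := ballZ X with hV
  have e2 : ∑ n ∈ V, (pr k E i₀ I n : ℝ) = ∑ i ∈ Icc i₀ I, ∑ r ∈ range i,
      (((V.filter (fun n => n ∈ QZ k (2 ^ i) (FZ k (2 ^ i) E r))).card : ℕ) : ℝ) := by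
    unfold pr
    push_cast
    rw [sum_comm]
    apply sum_congr rfl
    intro i _
    have := sum_card_bipartiteAbove_eq_sum_card_bipartiteBelow
      (s := V) (t := range i) (fun n r => n ∈ QZ k (2 ^ i) (FZ k (2 ^ i) E r))
    unfold bipartiteAbove bipartiteBelow at this
    have h6 : ((∑ n ∈ V, ((range i).filter (fun r => n ∈ QZ k (2 ^ i) (FZ k (2 ^ i) E r))).card : ℕ) : ℝ) =
      ((∑ r ∈ range i, (V.filter (fun n => n ∈ QZ k (2 ^ i) (FZ k (2 ^ i) E r))).card : ℕ) : ℝ) := by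
      exact_mod_cast this
    push_cast at h6
    exact h6
  have e3 : ∀ i ∈ Icc i₀ I, ∑ r ∈ range i,
      (((V.filter (fun n => n ∈ QZ k (2 ^ i) (FZ k (2 ^ i) E r))).card : ℕ) : ℝ) ≤
      C₁ * 256 ^ 2 * 2 * X * (1 / (ell k E i) ^ B) := by
    intro i hi
    rw [mem_Icc] at hi
    have hell := ell_ge k E i
    have f0 : ∀ r ∈ range i, (((V.filter (fun n => n ∈ QZ k (2 ^ i) (FZ k (2 ^ i) E r))).card : ℕ) : ℝ) ≤
        C₁ * 256 ^ 2 * X * (1 / (ell k E i) ^ B) * (1 / (1 + (r : ℝ)) ^ 2) := by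
      intro r hr
      rw [mem_range] at hr
      have f1 := h1 (2 ^ i) X (FZ k (2 ^ i) E r) (hpow1 i) (hpowX i hi.2)
      have f2 : (((V.filter (fun n => n ∈ QZ k (2 ^ i) (FZ k (2 ^ i) E r))).card : ℕ) : ℝ) ≤
          ({n : ℤ | |(n : ℝ)| ≤ X ∧ n ∈ QZ k (2 ^ i) (FZ k (2 ^ i) E r)}.ncard : ℝ) := by
        have hs : ((V.filter (fun n => n ∈ QZ k (2 ^ i) (FZ k (2 ^ i) E r)) : Finset ℤ) : Set ℤ) ⊆
            {n : ℤ | |(n : ℝ)| ≤ X ∧ n ∈ QZ k (2 ^ i) (FZ k (2 ^ i) E r)} := by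
          intro n hn
          rw [mem_coe, mem_filter, hV, mem_ballZ] at hn
          exact ⟨hn.1, hn.2⟩
        have := Set.ncard_le_ncard hs (fin_abs X _)
        rw [Set.ncard_coe_finset] at this
        exact_mod_cast this
      refine f2.trans (f1.trans ?_)
      have f3 := lg_FZ hk (E := E) (hi₂ i (by omega)) hr.le B
      have f4 := mul_le_mul_of_nonneg_left f3 (show 0 ≤ C₁ * X by positivity)
      calc C₁ * X / (lg (FZ k (2 ^ i) E r) (2 * 2 ^ i)) ^ (B + 2) =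
            C₁ * X * (1 / (lg (FZ k (2 ^ i) E r) (2 * 2 ^ i)) ^ (B + 2)) := by ring
        _ ≤ C₁ * X * (256 ^ 2 * (1 / (1 + (r : ℝ)) ^ 2) * (1 / (ell k E i) ^ B)) := f4
        _ = _ := by ring
    refine (sum_le_sum f0).trans ?_
    rw [← mul_sum]
    have f5 := inv_sq_range i
    calc C₁ * 256 ^ 2 * X * (1 / (ell k E i) ^ B) * ∑ r ∈ range i, 1 / (1 + (r : ℝ)) ^ 2 ≤
          C₁ * 256 ^ 2 * X * (1 / (ell k E i) ^ B) * 2 :=
            mul_le_mul_of_nonneg_left f5 (by positivity)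
      _ = _ := by ring
  rw [e2]
  refine (sum_le_sum e3).trans ?_
  rw [← mul_sum]

/-- the trajectories with a long segment -/
theorem bz_count {k : ℤ} (hk : Odd k) (hk3 : IsCoprime k 3) :
    ∃ C : ℝ, 0 < C ∧ ∃ i₁ : ℕ, ∀ (i₀ I : ℕ) (X : ℝ), i₁ ≤ i₀ → (2 : ℝ) ^ I ≤ X → X < 2 ^ (I + 1) →
      ({n : ℤ | |(n : ℝ)| ≤ X ∧ n ∈ BZ k i₀ I}.ncard : ℝ) ≤ C * X / (i₀ + 1) := by
  classical
  obtain ⟨C, hC, i₁, h⟩ := visits_sum hk hk3 0
  obtain ⟨C₂, hC₂, h2⟩ := Q_count hk hk3 2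
  obtain ⟨i₂, hi₂⟩ := exists_i1 k
  refine ⟨C₂ * 256 ^ 2 * 2, by positivity, i₂, ?_⟩
  intro i₀ I X hi₀2 hX1 hX2
  have hX0 : 0 < X := lt_of_lt_of_le (by positivity) hX1
  have hpow1 : ∀ i : ℕ, (1 : ℝ) ≤ 2 ^ i := fun i => one_le_pow₀ (by norm_num)
  have hpowX : ∀ i ≤ I, (2 : ℝ) ^ i ≤ X := fun i hi =>
    (pow_le_pow_right₀ (by norm_num) hi).trans hX1
  set Q : ℕ → Finset ℤ := fun i =>
    (fin_abs X (fun n => n ∈ QZ k (2 ^ i) (GZ k (2 ^ i) i))).toFinset with hQ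
  have hsub2 : {n : ℤ | |(n : ℝ)| ≤ X ∧ n ∈ BZ k i₀ I} ⊆ ((Icc i₀ I).biUnion Q : Finset ℤ) := by
    rintro n ⟨hn, i, hi1, hi2, hnQ⟩
    rw [mem_coe, mem_biUnion]
    refine ⟨i, mem_Icc.2 ⟨hi1, hi2⟩, ?_⟩
    rw [hQ, Set.Finite.mem_toFinset]
    exact ⟨hn, hnQ⟩
  have e1 := Set.ncard_le_ncard hsub2 (Finset.finite_toSet _)
  rw [Set.ncard_coe_finset] at e1
  have e2 : ({n : ℤ | |(n : ℝ)| ≤ X ∧ n ∈ BZ k i₀ I}.ncard : ℝ) ≤ ∑ i ∈ Icc i₀ I, ((Q i).card : ℝ) := by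
    have := e1.trans card_biUnion_le
    exact_mod_cast this
  refine e2.trans ?_
  have e3 : ∀ i ∈ Icc i₀ I, ((Q i).card : ℝ) ≤ C₂ * 256 ^ 2 * X * (1 / (1 + (i : ℝ)) ^ 2) := by
    intro i hi
    rw [mem_Icc] at hi
    have f1 := h2 (2 ^ i) X (GZ k (2 ^ i) i) (hpow1 i) (hpowX i hi.2)
    have f2 : ({n : ℤ | |(n : ℝ)| ≤ X ∧ n ∈ QZ k (2 ^ i) (GZ k (2 ^ i) i)}.ncard : ℝ) = (Q i).card := by
      rw [hQ, Set.ncard_eq_toFinset_card _ (fin_abs X (fun n => n ∈ QZ k (2 ^ i) (GZ k (2 ^ i) i)))]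
    rw [← f2]
    refine f1.trans ?_
    have f3 := lg_GZ hk (hi₂ i (by omega)) (le_refl i)
    have hi0 : (0 : ℝ) ≤ i := Nat.cast_nonneg i
    set x := lg (GZ k (2 ^ i) i) (2 * 2 ^ i) with hx
    have hx0 : 0 < x := by linarith
    have f4 : (1 + (i : ℝ)) ^ 2 ≤ 256 ^ 2 * x ^ 2 := by
      rw [← mul_pow]; exact pow_le_pow_left₀ (by linarith) f3 2
    rw [mul_one_div, div_le_div_iff₀ (by positivity) (by positivity)]
    calc C₂ * X * (1 + (i : ℝ)) ^ 2 ≤ C₂ * X * (256 ^ 2 * x ^ 2) :=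
          mul_le_mul_of_nonneg_left f4 (by positivity)
      _ = _ := by ring
  refine (sum_le_sum e3).trans ?_
  rw [← mul_sum]
  have e4 := inv_sq_Icc i₀ I
  calc C₂ * 256 ^ 2 * X * ∑ i ∈ Icc i₀ I, 1 / (1 + (i : ℝ)) ^ 2 ≤
        C₂ * 256 ^ 2 * X * (2 / ((i₀ : ℝ) + 1)) := mul_le_mul_of_nonneg_left e4 (by positivity)
    _ = _ := by ring

/-- the sum over the scales for sets of small density -/
theorem ell_asym {k : ℤ} (hk : Odd k) (B : ℕ) :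
    ∃ K : ℝ, 0 < K ∧ ∃ i₁ : ℕ, ∀ (E : Set ℤ) (δ : ℝ), 0 < δ →
      (∀ᶠ m : ℕ in atTop, DE E m ≤ δ * (m + 1)) → ∀ i₀ : ℕ, i₁ ≤ i₀ → ∀ᶠ I : ℕ in atTop,
        ∑ i ∈ Icc i₀ I, 1 / (ell k E i) ^ B ≤ K * (I + 1) / (Real.log (2 + 1 / δ)) ^ B := by
  classical
  obtain ⟨K, hK, i₂, h2⟩ := sum_ell hk B
  refine ⟨(K + 2 ^ B) * (5 ^ B * (2 + 24 * (B.factorial : ℝ) * 2 ^ B)), by positivity, i₂, ?_⟩
  intro E δ hδ hE i₀ hi₀
  obtain ⟨g, hg1, hg2⟩ := choose_h B hδ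
  have hδi : 0 < 1 / δ := by positivity
  have hL : 0 < Real.log (2 + 1 / δ) := Real.log_pos (by linarith)
  obtain ⟨m₀, hm₀⟩ := Filter.eventually_atTop.1 hE
  filter_upwards [eventually_ge_atTop (m₀ + g + g * (1 + g) ^ B + 2)] with I hIbig
  have hI0 : (0 : ℝ) ≤ I := Nat.cast_nonneg I
  have hgI : (g : ℝ) ≤ I := by
    have : g ≤ I := by omega
    exact_mod_cast this
  have hgI2 : (g : ℝ) ≤ (1 / (1 + (g : ℝ)) ^ B) * (I + 1) := by
    have e1 : g * (1 + g) ^ B ≤ I + 1 := by omega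
    have e2 : (g : ℝ) * (1 + g) ^ B ≤ I + 1 := by exact_mod_cast e1
    rw [one_div, inv_mul_eq_div, le_div_iff₀ (by positivity)]
    exact e2
  have hD : 4 ^ g * DE E (I + g) ≤ 12 / 2 ^ g * (I + 1) := by
    have e1 := hm₀ (I + g) (by omega)
    have e2 := DE_le E (I + g)
    have e3 := hg1 (DE E (I + g)) (((I + g : ℕ) : ℝ) + 1) (by positivity) e1 e2
    refine e3.trans ?_
    push_cast
    have e4 : (I : ℝ) + g + 1 ≤ 2 * (I + 1) := by linarith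
    calc 6 / 2 ^ g * ((I : ℝ) + g + 1) ≤ 6 / 2 ^ g * (2 * (I + 1)) :=
          mul_le_mul_of_nonneg_left e4 (by positivity)
      _ = _ := by ring
  have hbr : ((I : ℝ) + 1) / (1 + g) ^ B + (g + 4 ^ g * DE E (I + g)) ≤
      (5 ^ B * (2 + 24 * (B.factorial : ℝ) * 2 ^ B)) * (I + 1) / (Real.log (2 + 1 / δ)) ^ B := by
    have e1 := two_pow_lower B g
    have e2 : 12 / (2 : ℝ) ^ g * (I + 1) ≤ 24 * (B.factorial : ℝ) * 2 ^ B * (1 / (1 + (g : ℝ)) ^ B) * (I + 1) := by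
      apply mul_le_mul_of_nonneg_right _ (by positivity)
      have : 12 / (2 : ℝ) ^ g = 12 * (1 / 2 ^ g) := by ring
      rw [this]
      calc 12 * (1 / (2 : ℝ) ^ g) ≤ 12 * (2 * (B.factorial : ℝ) * 2 ^ B / (1 + g) ^ B) := by linarith
        _ = _ := by ring
    have e3 : ((I : ℝ) + 1) / (1 + g) ^ B = (1 / (1 + (g : ℝ)) ^ B) * (I + 1) := by ring
    rw [e3]
    calc (1 / (1 + (g : ℝ)) ^ B) * (I + 1) + (g + 4 ^ g * DE E (I + g)) ≤
          (1 / (1 + (g : ℝ)) ^ B) * (I + 1) + ((1 / (1 + (g : ℝ)) ^ B) * (I + 1) +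
          24 * (B.factorial : ℝ) * 2 ^ B * (1 / (1 + (g : ℝ)) ^ B) * (I + 1)) := by linarith
      _ = (1 / (1 + (g : ℝ)) ^ B) * ((2 + 24 * (B.factorial : ℝ) * 2 ^ B) * (I + 1)) := by ring
      _ ≤ (5 ^ B / (Real.log (2 + 1 / δ)) ^ B) * ((2 + 24 * (B.factorial : ℝ) * 2 ^ B) * (I + 1)) :=
          mul_le_mul_of_nonneg_right hg2 (by positivity)
      _ = _ := by ring
  -- the sum
  have h4 := h2 E g (max i₀ g) I (hi₀.trans (le_max_left _ _)) (le_max_right _ _)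
  have hDn := DE_nonneg E (I + g)
  have h5 : ∑ i ∈ Icc i₀ I, 1 / (ell k E i) ^ B ≤
      ∑ i ∈ Icc (max i₀ g) I, 1 / (ell k E i) ^ B + 2 ^ B * g := by
    have hsub : Icc i₀ I ⊆ Icc (max i₀ g) I ∪ range g := by
      intro i hi
      rw [mem_Icc] at hi
      rw [mem_union, mem_Icc, mem_range]
      rcases lt_or_ge i g with hc | hc
      · exact Or.inr hc
      · exact Or.inl ⟨max_le hi.1 hc, hi.2⟩
    have hnn : ∀ i, 0 ≤ 1 / (ell k E i) ^ B := by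
      intro i
      have := ell_ge k E i
      positivity
    have e1 : ∑ i ∈ Icc i₀ I, 1 / (ell k E i) ^ B ≤
        ∑ i ∈ Icc (max i₀ g) I ∪ range g, 1 / (ell k E i) ^ B :=
      sum_le_sum_of_subset_of_nonneg hsub (fun i _ _ => hnn i)
    have e2 : ∑ i ∈ Icc (max i₀ g) I ∪ range g, 1 / (ell k E i) ^ B ≤
        ∑ i ∈ Icc (max i₀ g) I, 1 / (ell k E i) ^ B + ∑ i ∈ range g, 1 / (ell k E i) ^ B := by
      rw [← sum_union_inter]
      have : 0 ≤ ∑ i ∈ Icc (max i₀ g) I ∩ range g, 1 / (ell k E i) ^ B :=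
        sum_nonneg fun i _ => hnn i
      linarith
    have e3 : ∑ i ∈ range g, 1 / (ell k E i) ^ B ≤ 2 ^ B * g := by
      have : ∀ i ∈ range g, 1 / (ell k E i) ^ B ≤ 2 ^ B := by
        intro i _
        have := ell_ge k E i
        rw [div_le_iff₀ (by positivity), ← mul_pow]
        exact one_le_pow₀ (by linarith)
      refine (sum_le_card_nsmul _ _ _ this).trans ?_
      rw [card_range, nsmul_eq_mul]
      linarith
    linarith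
  have hh0 : (0 : ℝ) ≤ g := Nat.cast_nonneg g
  have h6 : ∑ i ∈ Icc i₀ I, 1 / (ell k E i) ^ B ≤
      (K + 2 ^ B) * ((I + 1) / (1 + g) ^ B + (g + 4 ^ g * DE E (I + g))) := by
    refine h5.trans ?_
    have e1 : 0 ≤ K * (g : ℝ) := by positivity
    have e2 : 0 ≤ (2 : ℝ) ^ B * ((I + 1) / (1 + g) ^ B) := by positivity
    have e3 : 0 ≤ (2 : ℝ) ^ B * (4 ^ g * DE E (I + g)) := by positivity
    have e4 : (K + 2 ^ B) * (((I : ℝ) + 1) / (1 + g) ^ B + (g + 4 ^ g * DE E (I + g))) =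
        K * ((I + 1) / (1 + g) ^ B + 4 ^ g * DE E (I + g)) + 2 ^ B * g + K * g +
        2 ^ B * ((I + 1) / (1 + g) ^ B) + 2 ^ B * (4 ^ g * DE E (I + g)) := by ring
    rw [e4]
    linarith
  refine h6.trans ?_
  have h7 := mul_le_mul_of_nonneg_left hbr (show 0 ≤ K + 2 ^ B by positivity)
  refine h7.trans (le_of_eq ?_)
  ring

end Pool.Agent.U457.PS
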