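import Pool.Agent.U457.PS.Seg5

/-! Visits of the `3x+1` trajectories of the positive integers. -/

set_option autoImplicit false

namespace Pool.Agent.U457.PS

open Finset Filter Topology
open Pool.Agent.H499R2.CO (Tz)

/-- the `3x+1` function -/
def TN (n : ℕ) : ℕ := if n % 2 = 0 then n / 2 else (3 * n + 1) / 2

/-- `t` is the total stopping time of `n` -/
def IsST (n t : ℕ) : Prop := TN^[t] n = 1 ∧ ∀ j < t, TN^[j] n ≠ 1

/-- number of the terms before the time `t` which belong to `E` -/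
noncomputable def vis (E : Set ℕ) (t n : ℕ) : ℕ := {j : ℕ | j < t ∧ TN^[j] n ∈ E}.ncard

open scoped Classical in
/-- the sum of the reciprocals of the elements of `E` up to `N` -/
noncomputable def rec (E : Set ℕ) (N : ℕ) : ℝ := ∑ e ∈ (Icc 1 N).filter (fun e => e ∈ E), (1 : ℝ) / e

/-- `E` as a set of integers -/
def toZ (E : Set ℕ) : Set ℤ := {z : ℤ | 0 < z ∧ z.toNat ∈ E}

theorem TN_cast (n : ℕ) : Tz 1 (n : ℤ) = ((TN n : ℕ) : ℤ) := by
  unfold Tz TN
  by_cases h : n % 2 = 0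
  · rw [if_pos (by omega), if_pos h]; omega
  · rw [if_neg (by omega), if_neg h]; omega

theorem TN_iter (n j : ℕ) : (Tz 1)^[j] (n : ℤ) = ((TN^[j] n : ℕ) : ℤ) := by
  induction j with
  | zero => rfl
  | succ j ih => rw [Function.iterate_succ_apply', Function.iterate_succ_apply', ih, TN_cast]

theorem TN_pos1 {n : ℕ} (hn : 1 ≤ n) : 1 ≤ TN n := by
  unfold TN
  split_ifs with h <;> omega

theorem TN_pos {n : ℕ} (hn : 1 ≤ n) (j : ℕ) : 1 ≤ TN^[j] n := by
  induction j with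
  | zero => exact hn
  | succ j ih =>
    rw [Function.iterate_succ_apply']
    exact TN_pos1 ih

theorem mem_toZ {E : Set ℕ} {m : ℕ} (hm : 1 ≤ m) : (m : ℤ) ∈ toZ E ↔ m ∈ E := by
  unfold toZ
  simp only [Set.mem_ofPred_eq, Int.toNat_natCast]
  constructor
  · exact fun h => h.2
  · exact fun h => ⟨by omega, h⟩

theorem IsST_unique {n t t' : ℕ} (h : IsST n t) (h' : IsST n t') : t = t' := by
  rcases lt_trichotomy t t' with hlt | he | hlt
  · exact absurd h.1 (h'.2 t hlt)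
  · exact he
  · exact absurd h'.1 (h.2 t' hlt)

theorem exists_F (M : ℕ) : ∃ F : ℕ, ∀ m < M, ∀ t, IsST m t → t ≤ F := by
  induction M with
  | zero => exact ⟨0, fun m hm => absurd hm (Nat.not_lt_zero m)⟩
  | succ M ih =>
    obtain ⟨F, hF⟩ := ih
    by_cases h : ∃ t, IsST M t
    · obtain ⟨t₀, ht₀⟩ := h
      refine ⟨max F t₀, fun m hm t ht => ?_⟩
      rcases Nat.lt_succ_iff_lt_or_eq.1 hm with h1 | h1
      · exact (hF m h1 t ht).trans (le_max_left _ _)
      · rw [h1] at ht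
        rw [IsST_unique ht ht₀]
        exact le_max_right _ _
    · refine ⟨F, fun m hm t ht => ?_⟩
      rcases Nat.lt_succ_iff_lt_or_eq.1 hm with h1 | h1
      · exact hF m h1 t ht
      · rw [h1] at ht
        exact absurd ⟨t, ht⟩ h

/-- from the total number of visits to the visits above a level -/
theorem vis_VZ (i₀ : ℕ) : ∃ F : ℕ, ∀ (E : Set ℕ) (n t : ℕ), 1 ≤ n → IsST n t → ∀ M : ℝ,
    M + F ≤ vis E t n → (n : ℤ) ∈ VZ 1 (toZ E) (2 ^ i₀) M := by
  classical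
  obtain ⟨F, hF⟩ := exists_F (2 ^ i₀)
  refine ⟨F, ?_⟩
  intro E n t hn ht M hM
  set J := (range t).filter (fun j => TN^[j] n ∈ E ∧ ∀ i ≤ j, 2 ^ i₀ ≤ TN^[i] n) with hJ
  have hvis : vis E t n ≤ J.card + F := by
    by_cases hex : ∃ i, TN^[i] n < 2 ^ i₀
    · set s := Nat.find hex with hs
      have hs1 := Nat.find_spec hex
      have hs2 : ∀ i < s, 2 ^ i₀ ≤ TN^[i] n := fun i hi => not_lt.1 (Nat.find_min hex hi)
      have hsub : {j : ℕ | j < t ∧ TN^[j] n ∈ E} ⊆ ((J ∪ Ico s t : Finset ℕ) : Set ℕ) := by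
        rintro j ⟨hj1, hj2⟩
        rw [mem_coe, mem_union, mem_Ico]
        rcases lt_or_ge j s with hc | hc
        · left
          rw [hJ, mem_filter, mem_range]
          exact ⟨hj1, hj2, fun i hi => hs2 i (by omega)⟩
        · exact Or.inr ⟨hc, hj1⟩
      have h1 := Set.ncard_le_ncard hsub (Finset.finite_toSet _)
      rw [Set.ncard_coe_finset] at h1
      have h2 := h1.trans (card_union_le _ _)
      rw [Nat.card_Ico] at h2
      have h3 : t - s ≤ F := by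
        rcases le_or_gt t s with hc | hc
        · omega
        · apply hF (TN^[s] n) hs1 (t - s)
          refine ⟨?_, ?_⟩
          · rw [← Function.iterate_add_apply, Nat.sub_add_cancel hc.le]; exact ht.1
          · intro j hj
            rw [← Function.iterate_add_apply]
            exact ht.2 _ (by omega)
      unfold vis
      omega
    · push Not at hex
      have hsub : {j : ℕ | j < t ∧ TN^[j] n ∈ E} ⊆ ((J : Finset ℕ) : Set ℕ) := by
        rintro j ⟨hj1, hj2⟩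
        rw [mem_coe, hJ, mem_filter, mem_range]
        exact ⟨hj1, hj2, fun i _ => hex i⟩
      have h1 := Set.ncard_le_ncard hsub (Finset.finite_toSet _)
      rw [Set.ncard_coe_finset] at h1
      unfold vis
      omega
  refine ⟨J, ?_, ?_⟩
  · intro j hj
    rw [hJ, mem_filter] at hj
    refine ⟨?_, ?_⟩
    · intro j' hj'
      rw [TN_iter, Int.cast_natCast, abs_of_nonneg (Nat.cast_nonneg _)]
      exact_mod_cast hj.2.2 j' hj'
    · rw [TN_iter, mem_toZ (TN_pos hn j)]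
      exact hj.2.1
  · have : ((vis E t n : ℕ) : ℝ) ≤ (J.card : ℝ) + F := by exact_mod_cast hvis
    linarith

/-- one shell -/
theorem ed_toZ (E : Set ℕ) (i : ℕ) : ed (toZ E) i / 2 ^ i ≤ 2 * (rec E (2 ^ (i + 1) - 1) - rec E (2 ^ i - 1)) := by
  classical
  have hpos : 1 ≤ 2 ^ i := Nat.one_le_two_pow
  have h2 : 2 ^ (i + 1) = 2 * 2 ^ i := by rw [pow_succ]; ring
  set S := (Ico (2 ^ i) (2 ^ (i + 1))).filter (fun e => e ∈ E) with hS
  have hed : ed (toZ E) i = S.card := by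
    unfold ed
    have : {a : ℤ | a ∈ toZ E ∧ (2 : ℝ) ^ i ≤ |(a : ℝ)| ∧ |(a : ℝ)| < 2 ^ (i + 1)} =
        ((S.image (fun e : ℕ => (e : ℤ)) : Finset ℤ) : Set ℤ) := by
      ext a
      rw [mem_coe, mem_image]
      constructor
      · rintro ⟨⟨h1, h3⟩, h4, h5⟩
        have ha : (0 : ℝ) < a := by exact_mod_cast h1
        rw [abs_of_pos ha] at h4 h5
        obtain ⟨b, rfl⟩ := Int.eq_ofNat_of_zero_le h1.le
        rw [Int.toNat_natCast] at h3
        refine ⟨b, ?_, rfl⟩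
        rw [hS, mem_filter, mem_Ico]
        refine ⟨⟨?_, ?_⟩, h3⟩
        · rw [Int.cast_natCast] at h4; exact_mod_cast h4
        · rw [Int.cast_natCast] at h5; exact_mod_cast h5
      · rintro ⟨b, hb, rfl⟩
        rw [hS, mem_filter, mem_Ico] at hb
        refine ⟨(mem_toZ (by omega)).2 hb.2, ?_, ?_⟩
        · rw [Int.cast_natCast, abs_of_nonneg (Nat.cast_nonneg _)]; exact_mod_cast hb.1.1
        · rw [Int.cast_natCast, abs_of_nonneg (Nat.cast_nonneg _)]; exact_mod_cast hb.1.2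
    rw [this, Set.ncard_coe_finset, card_image_of_injective _ Nat.cast_injective]
  have hrec : rec E (2 ^ (i + 1) - 1) - rec E (2 ^ i - 1) = ∑ e ∈ S, (1 : ℝ) / e := by
    unfold rec
    have e1 : (Icc 1 (2 ^ (i + 1) - 1)).filter (fun e => e ∈ E) =
        (Icc 1 (2 ^ i - 1)).filter (fun e => e ∈ E) ∪ S := by
      ext x
      rw [mem_union, mem_filter, mem_filter, hS, mem_filter, mem_Icc, mem_Icc, mem_Ico]
      constructor
      · rintro ⟨⟨h1, h3⟩, h4⟩
        rcases lt_or_ge x (2 ^ i) with hc | hc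
        · exact Or.inl ⟨⟨h1, by omega⟩, h4⟩
        · exact Or.inr ⟨⟨hc, by omega⟩, h4⟩
      · rintro (⟨⟨h1, h3⟩, h4⟩ | ⟨⟨h1, h3⟩, h4⟩)
        · exact ⟨⟨h1, by omega⟩, h4⟩
        · exact ⟨⟨by omega, by omega⟩, h4⟩
    rw [e1, sum_union]
    · ring
    · rw [Finset.disjoint_left]
      intro x hx1 hx2
      rw [mem_filter, mem_Icc] at hx1
      rw [hS, mem_filter, mem_Ico] at hx2
      omega
  rw [hed, hrec, div_le_iff₀ (by positivity)]
  have h3 : ∀ e ∈ S, (1 : ℝ) / 2 ^ (i + 1) ≤ 1 / e := by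
    intro e he
    rw [hS, mem_filter, mem_Ico] at he
    have h4 : (0 : ℝ) < e := by
      have : 0 < e := by omega
      exact_mod_cast this
    apply one_div_le_one_div_of_le h4
    exact_mod_cast he.1.2.le
  have h4 := card_nsmul_le_sum _ _ _ h3
  rw [nsmul_eq_mul] at h4
  have h5 : (S.card : ℝ) = 2 * ((S.card : ℝ) * (1 / 2 ^ (i + 1))) * 2 ^ i := by
    rw [pow_succ]; field_simp
  rw [h5]
  apply mul_le_mul_of_nonneg_right _ (by positivity)
  linarith

theorem rec_nonneg (E : Set ℕ) (N : ℕ) : 0 ≤ rec E N := by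
  classical
  unfold rec
  exact sum_nonneg fun e _ => by positivity

theorem DE_toZ (E : Set ℕ) (m : ℕ) : DE (toZ E) m ≤ 2 * rec E (2 ^ (m + 1) - 1) := by
  unfold DE
  have h : ∀ i ∈ range (m + 1), ed (toZ E) i / 2 ^ i ≤
      2 * rec E (2 ^ (i + 1) - 1) - 2 * rec E (2 ^ i - 1) := by
    intro i _
    have := ed_toZ E i
    linarith
  refine (sum_le_sum h).trans ?_
  rw [sum_range_sub (fun i => 2 * rec E (2 ^ i - 1))]
  have h0 : rec E (2 ^ 0 - 1) = 0 := by
    unfold rec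
    simp
  rw [h0]
  linarith

theorem tendsto_two_pow_sub : Tendsto (fun m : ℕ => 2 ^ (m + 1) - 1) atTop atTop := by
  apply tendsto_atTop_mono (f := fun m : ℕ => m)
  · intro m
    have : m + 1 < 2 ^ (m + 1) := Nat.lt_pow_self (by norm_num)
    show m ≤ 2 ^ (m + 1) - 1
    omega
  · exact tendsto_id

theorem log_two_pow_sub (m : ℕ) : Real.log ((2 ^ (m + 1) - 1 : ℕ) : ℝ) ≤ (7 / 10) * ((m : ℝ) + 1) := by
  have h1 : ((2 ^ (m + 1) - 1 : ℕ) : ℝ) ≤ 2 ^ (m + 1) := by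
    have : 2 ^ (m + 1) - 1 ≤ 2 ^ (m + 1) := Nat.sub_le _ _
    exact_mod_cast this
  have h2 : 0 < 2 ^ (m + 1) - 1 := by
    have : m + 1 < 2 ^ (m + 1) := Nat.lt_pow_self (by norm_num)
    omega
  have h3 : (0 : ℝ) < ((2 ^ (m + 1) - 1 : ℕ) : ℝ) := by exact_mod_cast h2
  have h4 := Real.log_le_log h3 h1
  rw [Real.log_pow] at h4
  push_cast at h4
  have h5 := Real.log_two_lt_d9
  have hm : (0 : ℝ) ≤ m := Nat.cast_nonneg m
  refine le_trans (by exact_mod_cast h4) ?_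
  push_cast
  nlinarith

/-- the hypothesis of `visits_fix` -/
theorem DE_of_rec {E : Set ℕ} {δ : ℝ} (hδ : 0 < δ)
    (h : ∀ᶠ N : ℕ in atTop, rec E N ≤ δ * Real.log N) :
    ∀ᶠ m : ℕ in atTop, DE (toZ E) m ≤ (2 * δ) * (m + 1) := by
  filter_upwards [tendsto_two_pow_sub.eventually h] with m hm
  have h1 := DE_toZ E m
  have h2 := log_two_pow_sub m
  have h3 : δ * Real.log ((2 ^ (m + 1) - 1 : ℕ) : ℝ) ≤ δ * ((7 / 10) * ((m : ℝ) + 1)) :=
    mul_le_mul_of_nonneg_left h2 hδ.le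
  have hm0 : (0 : ℝ) ≤ m := Nat.cast_nonneg m
  nlinarith

/-- the hypothesis of `visits_rate` -/
theorem DE_of_rec_rate {E : Set ℕ} {c : ℝ} (hc : 0 < c) (hc1 : c < 1)
    (h : ∀ᶠ N : ℕ in atTop, rec E N ≤ (Real.log N) ^ (1 - c)) :
    ∀ᶠ m : ℕ in atTop, DE (toZ E) m ≤ (m : ℝ) ^ (1 - c / 2) := by
  have h4 : ∀ᶠ m : ℕ in atTop, (4 : ℝ) ≤ (m : ℝ) ^ (c / 2) :=
    ((tendsto_rpow_atTop (by positivity)).comp tendsto_natCast_atTop_atTop).eventually_ge_atTop _
  filter_upwards [tendsto_two_pow_sub.eventually h, h4, eventually_ge_atTop 1] with m hm h4 hm1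
  have hm1R : (1 : ℝ) ≤ m := by exact_mod_cast hm1
  have h1 := DE_toZ E m
  have h2 := log_two_pow_sub m
  have h20 : 0 ≤ Real.log ((2 ^ (m + 1) - 1 : ℕ) : ℝ) := Real.log_natCast_nonneg _
  have h3 : (Real.log ((2 ^ (m + 1) - 1 : ℕ) : ℝ)) ^ (1 - c) ≤ (2 * (m : ℝ)) ^ (1 - c) :=
    Real.rpow_le_rpow h20 (by linarith) (by linarith)
  rw [Real.mul_rpow (by norm_num) (by linarith)] at h3
  have h5 : (2 : ℝ) ^ (1 - c) ≤ 2 := by
    calc (2 : ℝ) ^ (1 - c) ≤ 2 ^ (1 : ℝ) :=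
          Real.rpow_le_rpow_of_exponent_le (by norm_num) (by linarith)
      _ = 2 := Real.rpow_one 2
  have h6 : (m : ℝ) ^ (1 - c / 2) = (m : ℝ) ^ (c / 2) * (m : ℝ) ^ (1 - c) := by
    rw [← Real.rpow_add (by linarith)]; congr 1; ring
  have h7 : 0 ≤ (m : ℝ) ^ (1 - c) := by positivity
  rw [h6]
  calc DE (toZ E) m ≤ 2 * (2 ^ (1 - c) * (m : ℝ) ^ (1 - c)) := by linarith
    _ ≤ 2 * (2 * (m : ℝ) ^ (1 - c)) := by
        have := mul_le_mul_of_nonneg_right h5 h7
        linarith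
    _ = 4 * (m : ℝ) ^ (1 - c) := by ring
    _ ≤ _ := mul_le_mul_of_nonneg_right h4 h7

end Pool.Agent.U457.PS
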