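import Pool.Agent.U457.PS.NatV

/-! Visits of the `3x+1` trajectories of the positive integers: densities. -/

set_option autoImplicit false

namespace Pool.Agent.U457.PS

open Finset Filter Topology
open Pool.Agent.H499R2.CO (Tz)

/-- number of the `n ≤ N` with the property `P` -/
noncomputable def cN (P : ℕ → Prop) (N : ℕ) : ℝ := ({n : ℕ | 1 ≤ n ∧ n ≤ N ∧ P n}.ncard : ℝ)

theorem cN_le {P : ℕ → Prop} {Z : Set ℤ} {N s : ℕ} (h : ∀ n, s < n → n ≤ N → P n → (n : ℤ) ∈ Z) :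
    cN P N ≤ s + ({z : ℤ | |(z : ℝ)| ≤ (N : ℝ) ∧ z ∈ Z}.ncard : ℝ) := by
  classical
  have hfin : {n : ℕ | 1 ≤ n ∧ n ≤ N ∧ P n}.Finite :=
    (Set.finite_Icc 1 N).subset fun n hn => ⟨hn.1, hn.2.1⟩
  have hsub : (fun n : ℕ => (n : ℤ)) '' {n : ℕ | 1 ≤ n ∧ n ≤ N ∧ P n} ⊆
      ((((Icc 1 s).image (fun n : ℕ => (n : ℤ))) : Finset ℤ) : Set ℤ) ∪
        {z : ℤ | |(z : ℝ)| ≤ (N : ℝ) ∧ z ∈ Z} := by
    rintro z ⟨n, ⟨h1, h2, h3⟩, rfl⟩
    rcases le_or_gt n s with hc | hc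
    · left
      rw [mem_coe, mem_image]
      exact ⟨n, mem_Icc.2 ⟨h1, hc⟩, rfl⟩
    · right
      refine ⟨?_, h n hc h2 h3⟩
      rw [Int.cast_natCast, abs_of_nonneg (Nat.cast_nonneg _)]
      exact_mod_cast h2
  have h1 := (Set.ncard_le_ncard hsub ((Finset.finite_toSet _).union (fin_abs _ _))).trans
    (Set.ncard_union_le _ _)
  rw [Set.ncard_image_of_injective _ Nat.cast_injective, Set.ncard_coe_finset] at h1
  have h2 : ((Icc 1 s).image (fun n : ℕ => (n : ℤ))).card ≤ s := by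
    refine card_image_le.trans ?_
    rw [Nat.card_Icc]; omega
  unfold cN
  have h3 := h1.trans (Nat.add_le_add_right h2 _)
  exact_mod_cast h3

theorem log_sqrt {n N : ℕ} (hN : 1 ≤ N) (h : Nat.sqrt N < n) : Real.log N ≤ 2 * Real.log n := by
  have h1 : N < n * n := Nat.sqrt_lt.1 h
  have h2 : (N : ℝ) ≤ (n : ℝ) ^ 2 := by
    have : N ≤ n ^ 2 := by rw [pow_two]; exact h1.le
    exact_mod_cast this
  have h3 : (0 : ℝ) < N := by exact_mod_cast hN
  have h4 := Real.log_le_log h3 h2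
  rw [Real.log_pow] at h4
  exact_mod_cast h4

theorem sqrt_small {ε : ℝ} (hε : 0 < ε) : ∀ᶠ N : ℕ in atTop, (Nat.sqrt N : ℝ) ≤ ε * N := by
  obtain ⟨m, hm⟩ := exists_nat_gt (1 / ε)
  filter_upwards [eventually_ge_atTop (m ^ 2)] with N hN
  have h1 : m ≤ Nat.sqrt N := by rw [Nat.le_sqrt']; exact hN
  have h2 : Nat.sqrt N * Nat.sqrt N ≤ N := Nat.sqrt_le N
  have h3 : (Nat.sqrt N : ℝ) * Nat.sqrt N ≤ N := by exact_mod_cast h2
  have h4 : (m : ℝ) ≤ Nat.sqrt N := by exact_mod_cast h1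
  have h5 : 1 ≤ ε * Nat.sqrt N := by
    rw [div_lt_iff₀ hε] at hm
    nlinarith
  have h6 : (0 : ℝ) ≤ Nat.sqrt N := Nat.cast_nonneg _
  calc (Nat.sqrt N : ℝ) ≤ (ε * Nat.sqrt N) * Nat.sqrt N := le_mul_of_one_le_left h6 h5
    _ = ε * (Nat.sqrt N * Nat.sqrt N) := by ring
    _ ≤ ε * N := mul_le_mul_of_nonneg_left h3 hε.le

theorem log_ge (a : ℝ) : ∀ᶠ N : ℕ in atTop, a ≤ Real.log N :=
  (Real.tendsto_log_atTop.comp tendsto_natCast_atTop_atTop).eventually_ge_atTop a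

/-- properties which force many visits above every level -/
def Forces (E : Set ℕ) (P : ℕ → Prop) (f : ℕ → ℝ) : Prop :=
  ∀ i₀ : ℕ, ∃ F n₀ : ℕ, ∀ n, n₀ ≤ n → P n → ∀ M : ℝ, M + F ≤ f n → (n : ℤ) ∈ VZ 1 (toZ E) (2 ^ i₀) M

theorem Forces_total (E : Set ℕ) (f : ℕ → ℝ) :
    Forces E (fun n => ∃ t, IsST n t ∧ f n ≤ vis E t n) f := by
  intro i₀
  obtain ⟨F, hF⟩ := vis_VZ i₀
  refine ⟨F, 1, ?_⟩
  rintro n hn ⟨t, ht, h⟩ M hM
  exact hF E n t hn ht M (hM.trans h)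

theorem Forces_level (E : Set ℕ) (f : ℕ → ℝ) (φ : ℕ → ℝ) (hφ : Tendsto φ atTop atTop) :
    Forces E (fun n => ∃ J : Finset ℕ, (∀ j ∈ J, TN^[j] n ∈ E ∧ ∀ i ≤ j, φ n ≤ TN^[i] n) ∧
      f n ≤ J.card) f := by
  intro i₀
  obtain ⟨n₀, hn₀⟩ := Filter.eventually_atTop.1 (hφ.eventually_ge_atTop ((2 : ℝ) ^ i₀))
  refine ⟨0, max n₀ 1, ?_⟩
  rintro n hn ⟨J, h1, h2⟩ M hM
  have hn1 : 1 ≤ n := (le_max_right _ _).trans hn
  have h3 := hn₀ n ((le_max_left _ _).trans hn)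
  refine ⟨J, ?_, ?_⟩
  · intro j hj
    obtain ⟨h4, h5⟩ := h1 j hj
    refine ⟨?_, ?_⟩
    · intro j' hj'
      rw [TN_iter, Int.cast_natCast, abs_of_nonneg (Nat.cast_nonneg _)]
      exact h3.trans (h5 j' hj')
    · rw [TN_iter, mem_toZ (TN_pos hn1 j)]
      exact h4
  · push_cast at hM
    linarith

/-- UNIFORM BOUND -/
theorem vis_uniform (B : ℕ) : ∃ C : ℝ, 0 < C ∧ ∀ (E : Set ℕ) (δ : ℝ), 0 < δ →
    (∀ᶠ N : ℕ in atTop, rec E N ≤ δ * Real.log N) → ∀ (l : ℝ), 0 < l → ∀ P : ℕ → Prop,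
      Forces E P (fun n => l * Real.log n) → ∀ ε : ℝ, 0 < ε → ∀ᶠ N : ℕ in atTop,
        cN P N ≤ (C / (l * (Real.log (2 + 1 / δ)) ^ B) + ε) * N := by
  obtain ⟨C, hC, i₁, h⟩ := visits_fix odd_one isCoprime_one_left B
  refine ⟨4 * 2 ^ B * C, by positivity, ?_⟩
  intro E δ hδ hE l hl P hP ε hε
  obtain ⟨a, ha⟩ := exists_nat_ge (C / (ε / 2))
  set i₀ := max i₁ a with hi₀
  have hi₀C : C / ((i₀ : ℝ) + 1) ≤ ε / 2 := by
    have h1 : (a : ℝ) ≤ i₀ := by exact_mod_cast le_max_right i₁ a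
    rw [div_le_iff₀ (by positivity)]
    rw [div_le_iff₀ (by positivity)] at ha
    nlinarith
  obtain ⟨F, n₀, hF⟩ := hP i₀
  have h1 := h (toZ E) (2 * δ) (by positivity) (DE_of_rec hδ hE) i₀ (le_max_left _ _) (l / 4) (by positivity)
  have h2 : ∀ᶠ N : ℕ in atTop, ({n : ℤ | |(n : ℝ)| ≤ (N : ℝ) ∧
      n ∈ VZ 1 (toZ E) (2 ^ i₀) (l / 4 * Real.log N)}.ncard : ℝ) ≤
        (C / (i₀ + 1) + C / (l / 4 * (Real.log (2 + 1 / (2 * δ))) ^ B)) * N :=
    tendsto_natCast_atTop_atTop.eventually h1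
  filter_upwards [h2, sqrt_small (ε := ε / 2) (by positivity), log_ge (4 / l * F),
    eventually_ge_atTop ((n₀ + 1) ^ 2)] with N hN1 hN2 hN3 hN4
  have hn₀s : n₀ ≤ Nat.sqrt N := by
    have : n₀ + 1 ≤ Nat.sqrt N := by rw [Nat.le_sqrt']; exact hN4
    omega
  have hNpos : 1 ≤ N := le_trans (Nat.one_le_pow _ _ (by omega)) hN4
  have hN0 : (0 : ℝ) ≤ N := Nat.cast_nonneg _
  have hFl : (F : ℝ) ≤ l / 4 * Real.log N := by
    rw [div_mul_eq_mul_div, div_le_iff₀ hl] at hN3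
    linarith
  have h3 := cN_le (P := P) (Z := VZ 1 (toZ E) (2 ^ i₀) (l / 4 * Real.log N)) (N := N) (s := Nat.sqrt N) (by
    intro n hn1 hn2 hn3
    apply hF n (by omega) hn3
    have h4 := log_sqrt hNpos hn1
    have h5 : l / 2 * Real.log N ≤ l * Real.log n := by
      have := mul_le_mul_of_nonneg_left h4 (show 0 ≤ l / 2 by positivity)
      linarith
    linarith)
  have hδi : 0 < 1 / δ := by positivity
  have hL : 0 < Real.log (2 + 1 / δ) := Real.log_pos (by linarith)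
  have hδi2 : 0 < 1 / (2 * δ) := by positivity
  have hL2 : 0 < Real.log (2 + 1 / (2 * δ)) := Real.log_pos (by linarith)
  have h5 : Real.log (2 + 1 / δ) ≤ 2 * Real.log (2 + 1 / (2 * δ)) := by
    have e1 : 2 * Real.log (2 + 1 / (2 * δ)) = Real.log ((2 + 1 / (2 * δ)) ^ 2) := by
      rw [Real.log_pow]; norm_num
    rw [e1]
    apply Real.log_le_log (by positivity)
    have e3 : 1 / δ = 2 * (1 / (2 * δ)) := by field_simp
    rw [e3]
    nlinarith
  have h6 : C / (l / 4 * (Real.log (2 + 1 / (2 * δ))) ^ B) ≤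
      4 * 2 ^ B * C / (l * (Real.log (2 + 1 / δ)) ^ B) := by
    have h7 : (Real.log (2 + 1 / δ)) ^ B ≤ 2 ^ B * (Real.log (2 + 1 / (2 * δ))) ^ B := by
      rw [← mul_pow]; exact pow_le_pow_left₀ hL.le h5 B
    rw [div_le_div_iff₀ (by positivity) (by positivity)]
    have h8 := mul_le_mul_of_nonneg_left h7 (show 0 ≤ C * l by positivity)
    calc C * (l * (Real.log (2 + 1 / δ)) ^ B) = C * l * (Real.log (2 + 1 / δ)) ^ B := by ring
      _ ≤ C * l * (2 ^ B * (Real.log (2 + 1 / (2 * δ))) ^ B) := h8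
      _ = _ := by ring
  calc cN P N ≤ Nat.sqrt N + (C / (i₀ + 1) + C / (l / 4 * (Real.log (2 + 1 / (2 * δ))) ^ B)) * N := by
        linarith
    _ ≤ ε / 2 * N + (ε / 2 + 4 * 2 ^ B * C / (l * (Real.log (2 + 1 / δ)) ^ B)) * N := by
        have := mul_le_mul_of_nonneg_right (add_le_add hi₀C h6) hN0
        linarith
    _ = _ := by ring

/-- RATES -/
theorem vis_rate (E : Set ℕ) {c : ℝ} (hc : 0 < c) (hc1 : c < 1)
    (hE : ∀ᶠ m : ℕ in atTop, DE (toZ E) m ≤ (m : ℝ) ^ (1 - c)) (B : ℕ) (P : ℕ → Prop)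
    (hP : Forces E P (fun n => Real.log n / (Real.log (Real.log n)) ^ B)) : ∀ ε : ℝ, 0 < ε →
      ∀ᶠ N : ℕ in atTop, cN P N ≤ ε * N := by
  obtain ⟨C, hC, i₁, h⟩ := visits_rate odd_one isCoprime_one_left (B + 1)
  intro ε hε
  obtain ⟨a, ha⟩ := exists_nat_ge (C / (ε / 2))
  set i₀ := max i₁ a with hi₀
  have hi₀C : C / ((i₀ : ℝ) + 1) ≤ ε / 2 := by
    have h1 : (a : ℝ) ≤ i₀ := by exact_mod_cast le_max_right i₁ a
    rw [div_le_iff₀ (by positivity)]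
    rw [div_le_iff₀ (by positivity)] at ha
    nlinarith
  obtain ⟨F, n₀, hF⟩ := hP i₀
  have h1 := h (toZ E) c hc hc1 hE i₀ (le_max_left _ _)
  have h2 : ∀ᶠ N : ℕ in atTop, ({n : ℤ | |(n : ℝ)| ≤ (N : ℝ) ∧
      n ∈ VZ 1 (toZ E) (2 ^ i₀) (Real.log N / (Real.log (Real.log N)) ^ (B + 1))}.ncard : ℝ) ≤
        C / (i₀ + 1) * N :=
    tendsto_natCast_atTop_atTop.eventually h1
  have hlogN : Tendsto (fun N : ℕ => Real.log (N : ℝ)) atTop atTop :=
    Real.tendsto_log_atTop.comp tendsto_natCast_atTop_atTop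
  have h3 : ∀ᶠ N : ℕ in atTop, ‖(Real.log (Real.log (N : ℝ))) ^ B‖ ≤
      1 / (4 * ((F : ℝ) + 1)) * ‖Real.log (N : ℝ)‖ := by
    have := (Real.isLittleO_pow_log_id_atTop (n := B)).bound (show (0 : ℝ) < 1 / (4 * ((F : ℝ) + 1)) by positivity)
    exact hlogN.eventually this
  have h4 : ∀ᶠ N : ℕ in atTop, 4 ≤ Real.log (Real.log (N : ℝ)) :=
    (Real.tendsto_log_atTop.comp hlogN).eventually_ge_atTop 4
  filter_upwards [h2, sqrt_small (ε := ε / 2) (by positivity), h3, h4, log_ge 8,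
    eventually_ge_atTop ((n₀ + 1) ^ 2)] with N hN1 hN2 hN3 hN4 hN5 hN6
  have hn₀s : n₀ ≤ Nat.sqrt N := by
    have : n₀ + 1 ≤ Nat.sqrt N := by rw [Nat.le_sqrt']; exact hN6
    omega
  have hNpos : 1 ≤ N := le_trans (Nat.one_le_pow _ _ (by omega)) hN6
  have hN0 : (0 : ℝ) ≤ N := Nat.cast_nonneg _
  set L := Real.log (N : ℝ) with hLdef
  set ll := Real.log L with hll
  have hll0 : 0 < ll := by linarith
  have hL0 : 0 < L := by linarith
  have hFB : (F : ℝ) ≤ 1 / 4 * (L / ll ^ B) := by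
    rw [Real.norm_eq_abs, Real.norm_eq_abs, abs_of_pos (by positivity), abs_of_pos hL0,
      div_mul_eq_mul_div, le_div_iff₀ (by positivity), one_mul] at hN3
    rw [← mul_div_assoc, le_div_iff₀ (by positivity)]
    have : 0 < ll ^ B := by positivity
    nlinarith
  have h5 := cN_le (P := P) (Z := VZ 1 (toZ E) (2 ^ i₀) (L / ll ^ (B + 1))) (N := N)
    (s := Nat.sqrt N) (by
    intro n hn1 hn2 hn3
    apply hF n (by omega) hn3
    have h6 := log_sqrt hNpos hn1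
    rw [← hLdef] at h6
    have hn0 : (0 : ℝ) < n := by
      have : 0 < n := by omega
      exact_mod_cast this
    have h7 : Real.log n ≤ L := Real.log_le_log hn0 (by exact_mod_cast hn2)
    have h8 : 4 ≤ Real.log n := by linarith
    have h9 : Real.log (Real.log n) ≤ ll := Real.log_le_log (by linarith) h7
    have h10 : 0 < Real.log (Real.log n) := Real.log_pos (by linarith)
    have h11 : 1 / 2 * (L / ll ^ B) ≤ Real.log n / (Real.log (Real.log n)) ^ B := by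
      have e1 : 1 / 2 * (L / ll ^ B) = (L / 2) / ll ^ B := by ring
      rw [e1]
      apply div_le_div₀ (by linarith) (by linarith) (by positivity)
      exact pow_le_pow_left₀ h10.le h9 B
    have h12 : L / ll ^ (B + 1) ≤ 1 / 4 * (L / ll ^ B) := by
      have e1 : L / ll ^ (B + 1) = (1 / ll) * (L / ll ^ B) := by
        rw [pow_succ]; field_simp
      rw [e1]
      apply mul_le_mul_of_nonneg_right _ (by positivity)
      rw [div_le_div_iff₀ hll0 (by norm_num)]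
      linarith
    show L / ll ^ (B + 1) + F ≤ Real.log n / (Real.log (Real.log n)) ^ B
    linarith)
  calc cN P N ≤ Nat.sqrt N + C / (i₀ + 1) * N := by linarith
    _ ≤ ε / 2 * N + ε / 2 * N := by
        have := mul_le_mul_of_nonneg_right hi₀C hN0
        linarith
    _ = _ := by ring

/-- density zero -/
theorem dens_zero {P : ℕ → Prop} (h : ∀ ε : ℝ, 0 < ε → ∀ᶠ N : ℕ in atTop, cN P N ≤ ε * N) :
    Tendsto (fun N : ℕ => cN P N / N) atTop (𝓝 0) := by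
  rw [Metric.tendsto_atTop]
  intro ε hε
  obtain ⟨N₀, hN₀⟩ := Filter.eventually_atTop.1 (h (ε / 2) (by positivity))
  refine ⟨max N₀ 1, fun N hN => ?_⟩
  have h1 := hN₀ N ((le_max_left _ _).trans hN)
  have h2 : (0 : ℝ) < N := by
    have : 1 ≤ N := (le_max_right _ _).trans hN
    exact_mod_cast this
  have h3 : 0 ≤ cN P N := Nat.cast_nonneg _
  rw [Real.dist_eq, sub_zero, abs_of_nonneg (by positivity), div_lt_iff₀ h2]
  nlinarith

/-- NULL SETS -/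
theorem vis_null (E : Set ℕ) (hE : Tendsto (fun N : ℕ => rec E N / Real.log N) atTop (𝓝 0))
    {l : ℝ} (hl : 0 < l) (P : ℕ → Prop) (hP : Forces E P (fun n => l * Real.log n)) :
    Tendsto (fun N : ℕ => cN P N / N) atTop (𝓝 0) := by
  apply dens_zero
  intro ε hε
  obtain ⟨C, hC, h⟩ := vis_uniform 1
  obtain ⟨δ, hδ, hδ2⟩ : ∃ δ : ℝ, 0 < δ ∧ C / (l * (Real.log (2 + 1 / δ)) ^ 1) ≤ ε / 2 := by
    refine ⟨1 / Real.exp (C / (l * (ε / 2))), by positivity, ?_⟩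
    rw [one_div_one_div, pow_one]
    have h1 : C / (l * (ε / 2)) ≤ Real.log (2 + Real.exp (C / (l * (ε / 2)))) := by
      rw [Real.le_log_iff_exp_le (by positivity)]
      linarith
    have h2 : 0 < C / (l * (ε / 2)) := by positivity
    rw [div_le_iff₀ (mul_pos hl (by linarith))]
    rw [div_le_iff₀ (by positivity)] at h1
    calc C ≤ Real.log (2 + Real.exp (C / (l * (ε / 2)))) * (l * (ε / 2)) := h1
      _ = _ := by ring
  have hE' : ∀ᶠ N : ℕ in atTop, rec E N ≤ δ * Real.log N := by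
    filter_upwards [hE.eventually (gt_mem_nhds hδ), log_ge 1] with N h1 h2
    rw [div_lt_iff₀ (by linarith)] at h1
    exact h1.le
  filter_upwards [h E δ hδ hE' l hl P hP (ε / 2) (by positivity)] with N hN
  refine hN.trans ?_
  apply mul_le_mul_of_nonneg_right _ (Nat.cast_nonneg N)
  linarith

end Pool.Agent.U457.PS
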