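import Pool.Agent.U457.PS.NatW

/-! The dyadic densities of the primes. -/

set_option autoImplicit false

namespace Pool.Agent.U457.PS

open Finset Filter Topology

theorem ed_primes (i : ℕ) (hi : 1 ≤ i) : ed (toZ {p : ℕ | p.Prime}) i / 2 ^ i ≤ 4 / i := by
  classical
  set S := (Ico (2 ^ i) (2 ^ (i + 1))).filter Nat.Prime with hS
  have hed : ed (toZ {p : ℕ | p.Prime}) i ≤ S.card := by
    unfold ed
    have hsub : {a : ℤ | a ∈ toZ {p : ℕ | p.Prime} ∧ (2 : ℝ) ^ i ≤ |(a : ℝ)| ∧ |(a : ℝ)| < 2 ^ (i + 1)} ⊆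
        ((S.image (fun e : ℕ => (e : ℤ)) : Finset ℤ) : Set ℤ) := by
      rintro a ⟨⟨h1, h3⟩, h4, h5⟩
      have ha : (0 : ℝ) < a := by exact_mod_cast h1
      rw [abs_of_pos ha] at h4 h5
      obtain ⟨b, rfl⟩ := Int.eq_ofNat_of_zero_le h1.le
      rw [Int.toNat_natCast] at h3
      rw [mem_coe, mem_image]
      refine ⟨b, ?_, rfl⟩
      rw [hS, mem_filter, mem_Ico]
      refine ⟨⟨?_, ?_⟩, h3⟩
      · rw [Int.cast_natCast] at h4; exact_mod_cast h4
      · rw [Int.cast_natCast] at h5; exact_mod_cast h5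
    have h1 := Set.ncard_le_ncard hsub (Finset.finite_toSet _)
    rw [Set.ncard_coe_finset] at h1
    exact_mod_cast h1.trans card_image_le
  have h1 : (2 ^ i) ^ S.card ≤ ∏ p ∈ S, p := by
    apply pow_card_le_prod
    intro p hp
    rw [hS, mem_filter, mem_Ico] at hp
    exact hp.1.1
  have h2 : ∏ p ∈ S, p ≤ primorial (2 ^ (i + 1)) := by
    unfold primorial
    apply prod_le_prod_of_subset_of_one_le'
    · intro p hp
      rw [hS, mem_filter, mem_Ico] at hp
      rw [mem_filter, mem_range]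
      exact ⟨by omega, hp.2⟩
    · intro p hp _
      rw [mem_filter] at hp
      exact hp.2.one_lt.le
  have h3 := (h1.trans h2).trans (primorial_le_four_pow _)
  have h4 : i * S.card ≤ 2 * 2 ^ (i + 1) := by
    rw [← pow_mul, show (4 : ℕ) = 2 ^ 2 by norm_num, ← pow_mul] at h3
    exact (Nat.pow_le_pow_iff_right (by norm_num)).1 h3
  have h5 : (i : ℝ) * S.card ≤ 2 * 2 ^ (i + 1) := by exact_mod_cast h4
  have hi0 : (0 : ℝ) < i := by exact_mod_cast hi
  rw [div_le_div_iff₀ (by positivity) hi0]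
  rw [pow_succ] at h5
  nlinarith

theorem DE_primes : ∀ᶠ m : ℕ in atTop, DE (toZ {p : ℕ | p.Prime}) m ≤ (m : ℝ) ^ (1 - (1 / 2 : ℝ)) := by
  have h1 : ∀ᶠ x : ℝ in atTop, ‖Real.log x‖ ≤ (1 / 8) * ‖x ^ (1 / 2 : ℝ)‖ :=
    (isLittleO_log_rpow_atTop (by norm_num)).bound (by norm_num)
  have h2 : ∀ᶠ x : ℝ in atTop, 20 ≤ x ^ (1 / 2 : ℝ) :=
    (tendsto_rpow_atTop (by norm_num)).eventually_ge_atTop _
  filter_upwards [tendsto_natCast_atTop_atTop.eventually h1, tendsto_natCast_atTop_atTop.eventually h2,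
    eventually_ge_atTop 1] with m h3 h4 h5
  have hm : (1 : ℝ) ≤ m := by exact_mod_cast h5
  have hlog : 0 ≤ Real.log m := Real.log_nonneg hm
  rw [Real.norm_eq_abs, Real.norm_eq_abs, abs_of_nonneg hlog, abs_of_pos (by positivity)] at h3
  have h6 : DE (toZ {p : ℕ | p.Prime}) m ≤ 6 + 4 * (1 + Real.log m) := by
    unfold DE
    rw [sum_range_succ', add_comm]
    apply add_le_add
    · have := ed_le (toZ {p : ℕ | p.Prime}) 0
      rw [pow_zero, div_one]
      simpa using this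
    · have h7 : ∀ i ∈ range m, ed (toZ {p : ℕ | p.Prime}) (i + 1) / 2 ^ (i + 1) ≤
          4 * (((i + 1 : ℕ) : ℝ))⁻¹ := by
        intro i _
        have := ed_primes (i + 1) (by omega)
        rwa [div_eq_mul_inv 4] at this
      refine (sum_le_sum h7).trans ?_
      rw [← mul_sum]
      apply mul_le_mul_of_nonneg_left _ (by norm_num)
      have h8 := harmonic_le_one_add_log m
      unfold harmonic at h8
      push_cast at h8 ⊢
      exact h8
  have h7 : (1 : ℝ) - 1 / 2 = 1 / 2 := by norm_num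
  rw [h7]
  linarith

end Pool.Agent.U457.PS
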