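import Pool.Agent.R344.TH.E

/-! Power saving at all scales for sets that are forward invariant above a level: from the scales
`l ≤ log A ≤ 2 l` to all scales above, with an error `K / l ^ B`. -/

set_option autoImplicit false

namespace Pool.Agent.U457.PS

open Finset
open Pool.Agent.H320R2.PD Pool.Agent.H499R2.ND
open Pool.Agent.H499R2.CO (Tz)
open Pool.Agent.R344.SP Pool.Agent.R344.TH

/-- all scales -/
theorem scales {d : ℤ} (hd : Odd d) (hd3 : IsCoprime d 3) {γ : ℝ} (hγ0 : 0 < γ) (hγ : γ ≤ 1 / 2)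
    (B : ℕ) (hB : 1 ≤ B) :
    ∃ l₀ K : ℝ, 0 < l₀ ∧ 0 < K ∧ ∀ l : ℝ, l₀ ≤ l → ∀ (S : Set ℤ) (Z : ℝ), |(d : ℝ)| ≤ Z →
      FwdA d Z S → Real.log Z ≤ l / 4 → ∀ ρ : ℝ, 0 ≤ ρ →
      (∀ A : ℝ, 0 < A → l ≤ Real.log A → Real.log A ≤ 2 * l → ∀ m : ℕ,
        (m : ℝ) ≤ (Real.log A) ^ (γ / 2) → PB S A m ρ) →
      ∀ A : ℝ, 0 < A → l ≤ Real.log A → ∀ m : ℕ,
        (m : ℝ) ≤ (Real.log A) ^ (γ / 2) → PB S A m (ρ + K / l ^ B) := by
  have hd2 : d % 2 = 1 := Int.odd_iff.1 hd
  obtain ⟨C, hC, herr⟩ := err_bound2 hγ0 hγ (B + 1) d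
  refine ⟨max 1000 ((16 : ℝ) ^ (1 / γ)), 2 * C, by positivity, by positivity, ?_⟩
  intro l hl S Z hdZ hfwd hZl ρ hρ0 hbase
  have hl1000 : 1000 ≤ l := (le_max_left _ _).trans hl
  have hl16 : (16 : ℝ) ^ (1 / γ) ≤ l := (le_max_right _ _).trans hl
  have hl0 : 0 < l := by linarith
  have h16 : ∀ t : ℝ, l ≤ t → 16 ≤ t ^ γ := by
    intro t ht
    have h1 : ((16 : ℝ) ^ (1 / γ)) ^ γ ≤ t ^ γ :=
      Real.rpow_le_rpow (by positivity) (hl16.trans ht) hγ0.le
    rwa [← Real.rpow_mul (by positivity), one_div, inv_mul_cancel₀ hγ0.ne', Real.rpow_one] at h1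
  have hln2a := Real.log_two_gt_d9
  have hln2b := Real.log_two_lt_d9
  have hplB : 0 < l ^ B := by positivity
  have hmono : ∀ s : ℝ, l ≤ s → 1 / s ^ B ≤ 1 / l ^ B := fun s hs =>
    one_div_le_one_div_of_le hplB (pow_le_pow_left₀ hl0.le hs B)
  have hbase' : ∀ A : ℝ, 0 < A → l ≤ Real.log A → Real.log A ≤ 2 * l → ∀ m : ℕ,
      (m : ℝ) ≤ (Real.log A) ^ (γ / 2) →
        PB S A m (ρ + C * (2 * (1 / l ^ B) - 1 / (Real.log A) ^ B)) := by
    intro A hA hlA hcase m hm u v hu
    refine (hbase A hA hlA hcase m hm u v hu).trans ?_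
    apply mul_le_mul_of_nonneg_right _ (by positivity)
    have h2 := hmono _ hlA
    have h3 : 0 ≤ C * (2 * (1 / l ^ B) - 1 / Real.log A ^ B) := by
      apply mul_nonneg hC.le
      have : 0 < 1 / l ^ B := by positivity
      linarith
    linarith
  have main : ∀ n : ℕ, ∀ A : ℝ, 0 < A → l ≤ Real.log A → Real.log A ≤ l + n → ∀ m : ℕ,
      (m : ℝ) ≤ (Real.log A) ^ (γ / 2) →
        PB S A m (ρ + C * (2 * (1 / l ^ B) - 1 / (Real.log A) ^ B)) := by
    intro n
    induction n with
    | zero =>
      intro A hA hlA hAn m hm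
      rw [Nat.cast_zero, add_zero] at hAn
      exact hbase' A hA hlA (by linarith) m hm
    | succ n ih =>
      intro A hA hlA hAn m hm
      rcases le_or_gt (Real.log A) (2 * l) with hcase | hcase
      · exact hbase' A hA hlA hcase m hm
      set t := Real.log A with htdef
      have ht0 : 0 < t := by linarith
      have hexpA : Real.exp t = A := Real.exp_log hA
      obtain ⟨k, hk⟩ : ∃ k : ℕ, k = ⌊t ^ γ⌋₊ := ⟨_, rfl⟩
      obtain ⟨m', hm'⟩ : ∃ m' : ℕ, m' = ⌊(0.9 * t) ^ (γ / 2)⌋₊ := ⟨_, rfl⟩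
      have ht1000 : 1000 ≤ t := by linarith
      set r := t ^ (γ / 2) with hr
      have hrsq : r ^ 2 = t ^ γ := by
        rw [hr, ← Real.rpow_natCast, ← Real.rpow_mul ht0.le]; congr 1; push_cast; ring
      have hr0 : 0 < r := by positivity
      have ht16 := h16 t hlA
      have hr4 : 4 ≤ r := by
        by_contra hcon
        push Not at hcon
        nlinarith
      have hsqrt : t ^ γ ≤ Real.sqrt t := by
        rw [Real.sqrt_eq_rpow]
        exact Real.rpow_le_rpow_of_exponent_le (by linarith) hγ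
      have hsq31 : Real.sqrt t ≤ t / 31 := by
        rw [Real.sqrt_le_left (by positivity)]
        nlinarith
      have hk1 : (k : ℝ) ≤ t ^ γ := by rw [hk]; exact Nat.floor_le (by positivity)
      have hk2 : t ^ γ - 1 ≤ k := by rw [hk]; linarith [Nat.lt_floor_add_one (t ^ γ)]
      have hk15 : (15 : ℝ) ≤ k := by linarith
      have hk1N : 1 ≤ k := by
        have : (1 : ℝ) ≤ k := by linarith
        exact_mod_cast this
      have hm'2 : (m' : ℝ) ≤ r := by
        rw [hm']
        refine (Nat.floor_le (by positivity)).trans ?_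
        exact Real.rpow_le_rpow (by positivity) (by linarith) (by positivity)
      have hm'k : m' ≤ k := by
        have : (m' : ℝ) ≤ k := by nlinarith
        exact_mod_cast this
      have hpath : (2 : ℝ) ^ (41 * k / 20) * Z ≤ A := by
        rcases le_or_gt Z 0 with hZ0 | hZ0
        · have : (2 : ℝ) ^ (41 * k / 20) * Z ≤ 0 := mul_nonpos_of_nonneg_of_nonpos (by positivity) hZ0
          linarith
        have e1 : (2 : ℝ) ^ (41 * k / 20) = Real.exp (((41 * k / 20 : ℕ) : ℝ) * Real.log 2) := by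
          rw [Real.exp_nat_mul, Real.exp_log (by norm_num)]
        have e2 : Z = Real.exp (Real.log Z) := (Real.exp_log hZ0).symm
        rw [e1, e2, ← hexpA, ← Real.exp_add]
        apply Real.exp_le_exp.2
        have e3 : 20 * (41 * k / 20) ≤ 41 * k := Nat.mul_div_le _ _
        have e4 : (20 : ℝ) * ((41 * k / 20 : ℕ) : ℝ) ≤ 41 * k := by exact_mod_cast e3
        have e5 : ((41 * k / 20 : ℕ) : ℝ) * Real.log 2 ≤ (41 / 20 * t ^ γ) * 0.6931471808 :=
          mul_le_mul (by linarith) hln2b.le (by linarith) (by positivity)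
        have e6 : 0 < t ^ γ := by positivity
        nlinarith
      have hE := herr A hA ht1000 hr4 k m m' hm hk hm'
      rw [← htdef] at hE
      have ht1l : l ≤ t - 1 := by linarith
      have hρ : 0 ≤ ρ + C * (2 * (1 / l ^ B) - 1 / (t - 1) ^ B) := by
        have e1 := hmono (t - 1) ht1l
        have e2 : 0 < 1 / l ^ B := by positivity
        have e3 : 0 ≤ C * (2 * (1 / l ^ B) - 1 / (t - 1) ^ B) := mul_nonneg hC.le (by linarith)
        linarith
      have hst := stageA hd hd3 (Z := Z) hdZ hfwd hA hk1N hm'k (m := m) hpath hρ (by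
        intro T hT1 hT2
        have hn := next_scale2 hA hT1 hT2
        rw [← htdef] at hn
        have hA'pos : 0 < A * 3 ^ k / 2 ^ T := by positivity
        have hge : l ≤ Real.log (A * 3 ^ k / 2 ^ T) := by
          have : 0 < t ^ γ := by positivity
          linarith [hn.1]
        have hih := ih (A * 3 ^ k / 2 ^ T) hA'pos hge (by
            push_cast at hAn
            linarith [hn.2]) m' (by
            rw [hm']
            refine (Nat.floor_le (by positivity)).trans ?_
            apply Real.rpow_le_rpow (by positivity) _ (by positivity)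
            linarith [hn.1])
        intro u v hu
        refine (hih u v hu).trans ?_
        apply mul_le_mul_of_nonneg_right _ (by positivity)
        apply add_le_add_right
        apply mul_le_mul_of_nonneg_left _ hC.le
        have : 1 / (t - 1) ^ B ≤ 1 / Real.log (A * 3 ^ k / 2 ^ T) ^ B :=
          one_div_le_one_div_of_le (pow_pos (by linarith) B)
            (pow_le_pow_left₀ (by linarith) (by linarith [hn.2]) B)
        linarith)
      intro u v hu
      refine (hst u v hu).trans ?_
      apply mul_le_mul_of_nonneg_right _ (by positivity)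
      have e1 := pow_step B hB (t := t) (by linarith)
      have e2 := mul_le_mul_of_nonneg_left e1 hC.le
      have e3 : C / t ^ (B + 1) = C * (1 / t ^ (B + 1)) := by ring
      rw [e3] at hE
      rw [mul_sub, mul_sub]
      linarith
  intro A hA hc m hm
  obtain ⟨n, hn⟩ := exists_nat_ge (Real.log A - l)
  have h1 := main n A hA hc (by linarith) m hm
  intro u v hu
  refine (h1 u v hu).trans ?_
  apply mul_le_mul_of_nonneg_right _ (by positivity)
  have e1 : 0 < 1 / (Real.log A) ^ B := by
    have : 0 < Real.log A := by linarith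
    positivity
  have e2 : 2 * C / l ^ B = C * (2 * (1 / l ^ B)) := by ring
  rw [e2]
  have := mul_nonneg hC.le e1.le
  rw [mul_sub]
  linarith

end Pool.Agent.U457.PS
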