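import Pool.Agent.U457.PS.Inv

/-! Visits of a trajectory to a set: cutting at the first passages below the powers of 2. -/

set_option autoImplicit false

namespace Pool.Agent.U457.PS

open Finset Filter Topology
open Pool.Agent.H499R2.CO (Tz)

/-- points of `(-2z, 2z)` which stay above `z` up to the time `r` -/
def GZ (k : ℤ) (z : ℝ) (r : ℕ) : Set ℤ :=
  {w : ℤ | |(w : ℝ)| < 2 * z ∧ ∀ j ≤ r, z ≤ |(((Tz k)^[j] w : ℤ) : ℝ)|}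

/-- ... and are in `E` at the time `r` -/
def FZ (k : ℤ) (z : ℝ) (E : Set ℤ) (r : ℕ) : Set ℤ := {w : ℤ | w ∈ GZ k z r ∧ (Tz k)^[r] w ∈ E}

theorem FZ_sub_GZ {k : ℤ} {z : ℝ} {E : Set ℤ} {r : ℕ} : FZ k z E r ⊆ GZ k z r := fun _ h => h.1

theorem GZ_anti {k : ℤ} {z : ℝ} {r s : ℕ} (h : r ≤ s) : GZ k z s ⊆ GZ k z r :=
  fun _ hw => ⟨hw.1, fun j hj => hw.2 j (hj.trans h)⟩

theorem FZ_sub_EZ {k : ℤ} {z : ℝ} {E : Set ℤ} {r : ℕ} : FZ k z E r ⊆ EZ k z E := by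
  rintro w ⟨⟨h1, h2⟩, h3⟩
  refine ⟨by simpa using h2 0 (Nat.zero_le _), h1, r, h3, h2⟩

/-- the first term below `2z` is in `F` -/
def QZ (k : ℤ) (z : ℝ) (F : Set ℤ) : Set ℤ :=
  {n : ℤ | (n ∈ F ∧ |(n : ℝ)| < 2 * z) ∨ n ∈ SZk k (2 * z) F}

open scoped Classical in
/-- the time of the first term below `Y` -/
noncomputable def ft (k : ℤ) (Y : ℝ) (n : ℤ) : ℕ :=
  if h : ∃ j : ℕ, |(((Tz k)^[j] n : ℤ) : ℝ)| < Y then Nat.find h else 0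

theorem ft_spec {k : ℤ} {Y : ℝ} {n : ℤ} (h : ∃ j : ℕ, |(((Tz k)^[j] n : ℤ) : ℝ)| < Y) :
    |(((Tz k)^[ft k Y n] n : ℤ) : ℝ)| < Y ∧ ∀ j < ft k Y n, Y ≤ |(((Tz k)^[j] n : ℤ) : ℝ)| := by
  classical
  unfold ft
  rw [dif_pos h]
  exact ⟨Nat.find_spec h, fun j hj => not_lt.1 (Nat.find_min h hj)⟩

/-- monotonicity of `QZ` -/
theorem QZ_mono {k : ℤ} {z : ℝ} {F F' : Set ℤ} (h : F ⊆ F') : QZ k z F ⊆ QZ k z F' := by
  rintro n (hn | hn)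
  · exact Or.inl ⟨h hn.1, hn.2⟩
  · right
    rw [mem_SZk] at hn ⊢
    obtain ⟨h1, m, h2, h3, h4⟩ := hn
    exact ⟨h1, m, h2, h3, h h4⟩

/-- a visit belongs to a segment -/
theorem visit_seg {k : ℤ} {E : Set ℤ} {i₀ I : ℕ} {n : ℤ} (hn : |(n : ℝ)| < 2 ^ (I + 1)) {j : ℕ}
    (hj : ∀ j' ≤ j, (2 : ℝ) ^ i₀ ≤ |(((Tz k)^[j'] n : ℤ) : ℝ)|) (hE : (Tz k)^[j] n ∈ E) :
    ∃ i, i₀ ≤ i ∧ i ≤ I ∧ ∃ r, ft k (2 * 2 ^ i) n + r = j ∧ n ∈ QZ k (2 ^ i) (FZ k (2 ^ i) E r) := by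
  classical
  set P : ℕ → Prop := fun i => ∀ j' ≤ j, (2 : ℝ) ^ i ≤ |(((Tz k)^[j'] n : ℤ) : ℝ)| with hP
  have hex : ∃ i, ¬ P (i₀ + i) := by
    refine ⟨I + 1, fun h => ?_⟩
    have h1 := h 0 (Nat.zero_le _)
    rw [Function.iterate_zero, id] at h1
    have h2 : (2 : ℝ) ^ (I + 1) ≤ 2 ^ (i₀ + (I + 1)) := pow_le_pow_right₀ (by norm_num) (by omega)
    linarith
  have h1 := Nat.find_spec hex
  have h2 : ∀ i < Nat.find hex, P (i₀ + i) := fun i hi => not_not.1 (Nat.find_min hex hi)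
  set t := Nat.find hex with ht
  have ht0 : t ≠ 0 := by
    intro h0
    rw [h0, Nat.add_zero] at h1
    exact h1 hj
  have h3 := h2 (t - 1) (by omega)
  set i := i₀ + (t - 1) with hi
  have hi1 : i + 1 = i₀ + t := by omega
  rw [← hi1] at h1
  have hiI : i ≤ I := by
    by_contra hcon
    push Not at hcon
    have h4 := h3 0 (Nat.zero_le _)
    rw [Function.iterate_zero, id] at h4
    have h5 : (2 : ℝ) ^ (I + 1) ≤ 2 ^ i := pow_le_pow_right₀ (by norm_num) (by omega)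
    linarith
  rw [hP] at h1
  push Not at h1
  obtain ⟨j', hj', hlt⟩ := h1
  have e2 : (2 : ℝ) ^ (i + 1) = 2 * 2 ^ i := by rw [pow_succ]; ring
  rw [e2] at hlt
  have hft := ft_spec (k := k) (Y := 2 * 2 ^ i) (n := n) ⟨j', hlt⟩
  set s := ft k (2 * 2 ^ i) n with hs
  have hsj : s ≤ j := by
    by_contra hcon
    push Not at hcon
    have := hft.2 j' (by omega)
    linarith
  refine ⟨i, by omega, hiI, j - s, by omega, ?_⟩
  have hsh : ∀ a, (Tz k)^[a] ((Tz k)^[s] n) = (Tz k)^[a + s] n := fun a =>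
    (Function.iterate_add_apply _ _ _ _).symm
  have hF : (Tz k)^[s] n ∈ FZ k (2 ^ i) E (j - s) := by
    refine ⟨⟨hft.1, ?_⟩, ?_⟩
    · intro a ha
      rw [hsh]
      exact h3 _ (by omega)
    · rw [hsh, Nat.sub_add_cancel hsj]
      exact hE
  rcases Nat.eq_zero_or_pos s with h0 | hpos
  · left
    rw [h0, Function.iterate_zero, id] at hF
    refine ⟨by rw [h0]; exact hF, ?_⟩
    have := hF.1.1
    exact this
  · right
    rw [mem_SZk]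
    refine ⟨by simpa using hft.2 0 hpos, s, hft.2, hft.1, hF⟩

open scoped Classical in
/-- the number of pairs (segment, time) of the visits -/
noncomputable def pr (k : ℤ) (E : Set ℤ) (i₀ I : ℕ) (n : ℤ) : ℕ :=
  ∑ i ∈ Icc i₀ I, ((range i).filter (fun r => n ∈ QZ k (2 ^ i) (FZ k (2 ^ i) E r))).card

/-- the trajectories with a long segment -/
def BZ (k : ℤ) (i₀ I : ℕ) : Set ℤ := {n : ℤ | ∃ i, i₀ ≤ i ∧ i ≤ I ∧ n ∈ QZ k (2 ^ i) (GZ k (2 ^ i) i)}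

/-- the number of visits -/
theorem visits_le {k : ℤ} {E : Set ℤ} {i₀ I : ℕ} {n : ℤ} (hn : |(n : ℝ)| < 2 ^ (I + 1))
    (hb : n ∉ BZ k i₀ I) (J : Finset ℕ)
    (hJ : ∀ j ∈ J, (∀ j' ≤ j, (2 : ℝ) ^ i₀ ≤ |(((Tz k)^[j'] n : ℤ) : ℝ)|) ∧ (Tz k)^[j] n ∈ E) :
    J.card ≤ pr k E i₀ I n := by
  classical
  set S : Finset (Σ _ : ℕ, ℕ) := (Icc i₀ I).sigma
    (fun i => (range i).filter (fun r => n ∈ QZ k (2 ^ i) (FZ k (2 ^ i) E r))) with hS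
  have hcard : S.card = pr k E i₀ I n := by
    rw [hS, card_sigma]
    rfl
  rw [← hcard]
  apply card_le_card_of_surjOn (fun p : (Σ _ : ℕ, ℕ) => ft k (2 * 2 ^ p.1) n + p.2)
  intro j hj
  rw [mem_coe] at hj
  obtain ⟨h1, h2⟩ := hJ j hj
  obtain ⟨i, hi1, hi2, r, hr, hQ⟩ := visit_seg hn h1 h2
  refine ⟨⟨i, r⟩, ?_, hr⟩
  rw [mem_coe, hS, mem_sigma, mem_filter, mem_Icc, mem_range]
  refine ⟨⟨hi1, hi2⟩, ?_, hQ⟩
  by_contra hcon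
  push Not at hcon
  apply hb
  refine ⟨i, hi1, hi2, QZ_mono ?_ hQ⟩
  exact FZ_sub_GZ.trans (GZ_anti hcon)

end Pool.Agent.U457.PS
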