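import Pool.Agent.U457.PS.Seg1

/-! Visits of a trajectory to a set: the sizes of the sets in the segments. -/

set_option autoImplicit false

namespace Pool.Agent.U457.PS

open Finset Filter Topology
open Pool.Agent.H499R2.CO (Tz)

theorem log_scale (m : ℕ) {c t : ℝ} (ht : 0 ≤ t) (hc : 1 ≤ c * 2 ^ m) :
    Real.log (2 + t) ≤ (m + 1) * Real.log (2 + c * t) := by
  have hc0 : 0 < c := by
    by_contra hcon
    push Not at hcon
    have : c * 2 ^ m ≤ 0 := mul_nonpos_of_nonpos_of_nonneg hcon (by positivity)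
    linarith
  have e1 : ((m : ℝ) + 1) * Real.log (2 + c * t) = Real.log ((2 + c * t) ^ (m + 1)) := by
    rw [Real.log_pow]; push_cast; ring
  rw [e1]
  apply Real.log_le_log (by positivity)
  have h1 := one_add_mul_le_pow (a := c * t / 2) (by have : 0 ≤ c * t / 2 := by positivity
                                                     linarith) (m + 1)
  have h2 : (2 + c * t) ^ (m + 1) = 2 ^ (m + 1) * (1 + c * t / 2) ^ (m + 1) := by
    rw [← mul_pow]; congr 1; ring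
  rw [h2]
  have h3 : (1 : ℝ) ≤ 2 ^ m := one_le_pow₀ (by norm_num)
  have h4 : (2 : ℝ) ^ (m + 1) * (1 + ((m + 1 : ℕ) : ℝ) * (c * t / 2)) ≤
      2 ^ (m + 1) * (1 + c * t / 2) ^ (m + 1) := mul_le_mul_of_nonneg_left h1 (by positivity)
  refine le_trans ?_ h4
  push_cast
  have h5 : t ≤ (c * 2 ^ m) * t := le_mul_of_one_le_left ht hc
  have hm0 : (0 : ℝ) ≤ m := Nat.cast_nonneg m
  have h6 : (2 : ℝ) ^ (m + 1) * (1 + ((m : ℝ) + 1) * (c * t / 2)) =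
      2 * 2 ^ m + (m * ((c * 2 ^ m) * t) + (c * 2 ^ m) * t) := by
    rw [pow_succ]; ring
  rw [h6]
  have h7 : 0 ≤ (m : ℝ) * ((c * 2 ^ m) * t) := by positivity
  linarith

theorem nb_mono {F F' : Set ℤ} (h : F ⊆ F') (Y : ℝ) : nb F Y ≤ nb F' Y := by
  unfold nb
  have : {y : ℤ | y ∈ F ∧ |(y : ℝ)| < Y} ⊆ {y : ℤ | y ∈ F' ∧ |(y : ℝ)| < Y} :=
    fun y hy => ⟨h hy.1, hy.2⟩
  exact_mod_cast Set.ncard_le_ncard this (nb_fin F' Y)

theorem lg_mono {F F' : Set ℤ} (h : F ⊆ F') {Y : ℝ} (hY : 0 ≤ Y) : lg F' Y ≤ lg F Y := by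
  unfold lg
  have h1 := nb_mono h Y
  have h2 := nb_nonneg F Y
  have h3 := nb_nonneg F' Y
  have h4 : Y / (1 + nb F' Y) ≤ Y / (1 + nb F Y) :=
    div_le_div_of_nonneg_left hY (by linarith) (by linarith)
  apply Real.log_le_log
  · have : 0 ≤ Y / (1 + nb F' Y) := by positivity
    linarith
  · linarith

/-- the size of `QZ` -/
theorem Q_count {k : ℤ} (hk : Odd k) (hk3 : IsCoprime k 3) (B : ℕ) :
    ∃ C : ℝ, 0 < C ∧ ∀ (z X : ℝ) (F : Set ℤ), 1 ≤ z → z ≤ X →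
      ({n : ℤ | |(n : ℝ)| ≤ X ∧ n ∈ QZ k z F}.ncard : ℝ) ≤ C * X / (lg F (2 * z)) ^ B := by
  obtain ⟨C, hC, h⟩ := ac_all' hk hk3 B
  refine ⟨18 * (B.factorial : ℝ) + C, by positivity, ?_⟩
  intro z X F hz hzX
  have hX0 : 0 < X := by linarith
  have hG := lg_pos F (show 0 ≤ 2 * z by linarith)
  have hsub : {n : ℤ | |(n : ℝ)| ≤ X ∧ n ∈ QZ k z F} ⊆ {y : ℤ | y ∈ F ∧ |(y : ℝ)| < 2 * z} ∪
      {n : ℤ | |(n : ℝ)| ≤ X ∧ n ∈ SZk k (2 * z) F} := by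
    rintro n ⟨h1, h2 | h2⟩
    · exact Or.inl h2
    · exact Or.inr ⟨h1, h2⟩
  have h1 := (Set.ncard_le_ncard hsub ((nb_fin F (2 * z)).union (fin_abs X _))).trans
    (Set.ncard_union_le _ _)
  have h2 : ({n : ℤ | |(n : ℝ)| ≤ X ∧ n ∈ QZ k z F}.ncard : ℝ) ≤ nb F (2 * z) +
      ({n : ℤ | |(n : ℝ)| ≤ X ∧ n ∈ SZk k (2 * z) F}.ncard : ℝ) := by
    unfold nb
    exact_mod_cast h1
  have h3 := nb_lg B F (Y := 2 * z) (by linarith)
  have h4 := h (2 * z) (by linarith) F X (by linarith)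
  have h5 : 9 * (B.factorial : ℝ) * (2 * z) / (lg F (2 * z)) ^ B ≤
      18 * (B.factorial : ℝ) * X / (lg F (2 * z)) ^ B := by
    apply div_le_div_of_nonneg_right _ (by positivity)
    have : 0 ≤ (B.factorial : ℝ) := Nat.cast_nonneg _
    nlinarith
  rw [add_mul, add_div]
  linarith

theorem two_rpow_eta : (2 : ℝ) ^ Real.logb 2 1.932 = 1.932 :=
  Real.rpow_logb (by norm_num) (by norm_num) (by norm_num)

theorem four_half : (4 : ℝ) ^ (1 / 2 : ℝ) = 2 := by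
  rw [← Real.sqrt_eq_rpow, show (4 : ℝ) = 2 ^ 2 by norm_num, Real.sqrt_sq (by norm_num)]

/-- the size of `GZ` -/
theorem nb_GZ {k : ℤ} (hk : Odd k) {z : ℝ} (hz : 0 < z) {r : ℕ} (h1 : (2 : ℝ) ^ r ≤ 2 * z)
    (h2 : 4 * (r : ℝ) * |(k : ℝ)| ≤ z) : nb (GZ k z r) (2 * z) ≤ 12 * z * 0.966 ^ r := by
  classical
  have hfin := nb_fin (GZ k z r) (2 * z)
  have hc : nb (GZ k z r) (2 * z) = hfin.toFinset.card := by
    unfold nb
    rw [Set.ncard_eq_toFinset_card _ hfin]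
  rw [hc]
  have h3 := card_slow hk (s := 1 / 2) (η := Real.logb 2 1.932) (by norm_num)
    (by rw [two_rpow_eta]; exact sqrt_sum) hz h1 h2 hfin.toFinset (by
      intro w hw
      rw [Set.Finite.mem_toFinset] at hw
      exact hw.1)
  refine h3.trans (le_of_eq ?_)
  rw [two_rpow_eta, four_half, show (0.966 : ℝ) = 1.932 / 2 by norm_num, div_pow]
  field_simp
  ring

/-- lower bound for the logarithm -/
theorem lg_lower {F : Set ℤ} {z A : ℝ} {r m : ℕ} (hz : 0 < z) (hA : 0 ≤ A)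
    (h1 : 1 ≤ z * 0.966 ^ r) (h2 : nb F (2 * z) ≤ A * z * 0.966 ^ r) (h3 : A + 1 ≤ 2 ^ (m + 1)) :
    (1 + r : ℝ) ≤ 64 * (m + 1) * lg F (2 * z) := by
  have hn0 := nb_nonneg F (2 * z)
  set q : ℝ := 0.966 ^ r with hq
  have hq0 : 0 < q := by positivity
  have h4 : 1 + nb F (2 * z) ≤ (A + 1) * z * q := by
    have : (A + 1) * z * q = A * z * q + z * q := by ring
    linarith
  set c : ℝ := 2 / (A + 1) with hc
  have hA1 : 0 < A + 1 := by linarith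
  have h5 : c * q⁻¹ ≤ 2 * z / (1 + nb F (2 * z)) := by
    rw [le_div_iff₀ (by linarith), hc]
    calc 2 / (A + 1) * q⁻¹ * (1 + nb F (2 * z)) ≤ 2 / (A + 1) * q⁻¹ * ((A + 1) * z * q) :=
          mul_le_mul_of_nonneg_left h4 (by positivity)
      _ = 2 * z := by field_simp
  have h6 : 1 ≤ c * 2 ^ m := by
    rw [hc, div_mul_eq_mul_div, le_div_iff₀ hA1]
    rw [pow_succ] at h3
    linarith
  have h7 := log_scale m (c := c) (t := q⁻¹) (by positivity) h6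
  have h8 : Real.log (2 + c * q⁻¹) ≤ lg F (2 * z) := by
    unfold lg
    apply Real.log_le_log (by positivity)
    linarith
  have h9 : (1 + r : ℝ) / 64 ≤ Real.log (2 + q⁻¹) := by
    have e1 : Real.exp ((r : ℝ) / 32) ≤ q⁻¹ := by
      rw [le_inv_comm₀ (Real.exp_pos _) hq0, ← Real.exp_neg, hq]
      have e2 : (0.966 : ℝ) ≤ Real.exp (-(1 / 32)) := by
        have := Real.add_one_le_exp (-(1 / 32) : ℝ)
        linarith
      refine (pow_le_pow_left₀ (by norm_num) e2 r).trans (le_of_eq ?_)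
      rw [← Real.exp_nat_mul]
      congr 1; ring
    have e3 : (r : ℝ) / 32 ≤ Real.log (2 + q⁻¹) := by
      rw [Real.le_log_iff_exp_le (by positivity)]
      linarith
    have e4 : (1 / 32 : ℝ) ≤ Real.log (2 + q⁻¹) := by
      have e5 : Real.log 2 ≤ Real.log (2 + q⁻¹) := by
        apply Real.log_le_log (by norm_num)
        have : 0 < q⁻¹ := by positivity
        linarith
      have := Real.log_two_gt_d9
      linarith
    linarith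
  have hm0 : (0 : ℝ) ≤ (m : ℝ) + 1 := by positivity
  have h10 := mul_le_mul_of_nonneg_left h8 hm0
  nlinarith

theorem cube_exp (h : ℕ) : ((h : ℝ) + 1) ^ 3 ≤ 96 * 1.932 ^ h := by
  have h1 := Real.pow_div_factorial_le_exp (((h : ℝ) + 1) / 2) (by positivity) 3
  have h2 : (((h : ℝ) + 1) / 2) ^ 3 / ((3 : ℕ).factorial : ℝ) = ((h : ℝ) + 1) ^ 3 / 48 := by
    have : ((3 : ℕ).factorial : ℝ) = 6 := by norm_num [Nat.factorial]
    rw [this]; ring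
  rw [h2] at h1
  have h3 : Real.exp (1 / 2) ≤ 1.932 := by
    have e1 : Real.exp (1 / 2) ^ 2 = Real.exp 1 := by
      rw [← Real.exp_nat_mul]; norm_num
    have e2 := Real.exp_one_lt_d9
    have e3 := Real.exp_pos (1 / 2 : ℝ)
    nlinarith
  have h4 : Real.exp (((h : ℝ) + 1) / 2) = Real.exp (1 / 2) * Real.exp (1 / 2) ^ h := by
    rw [← Real.exp_nat_mul, ← Real.exp_add]; congr 1; ring
  rw [h4] at h1
  have h5 : Real.exp (1 / 2) * Real.exp (1 / 2) ^ h ≤ 2 * 1.932 ^ h :=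
    mul_le_mul (by linarith) (pow_le_pow_left₀ (Real.exp_pos _).le h3 h) (by positivity) (by norm_num)
  linarith

/-- the elements of `E` in the `h` dyadic shells from `2^i` on -/
noncomputable def WE (E : Set ℤ) (i h : ℕ) : ℝ :=
  ({a : ℤ | a ∈ E ∧ (2 : ℝ) ^ i ≤ |(a : ℝ)| ∧ |(a : ℝ)| < 2 ^ i * 2 ^ h}.ncard : ℝ)

/-- the size of `EZ` -/
theorem nb_EZ {k : ℤ} (hk : Odd k) {E : Set ℤ} {i h : ℕ} (hi : 4 * (i : ℝ) * |(k : ℝ)| ≤ 2 ^ i)
    (hh : h ≤ i) (hW : WE E i h ≤ 2 ^ i / 2 ^ h) :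
    nb (EZ k (2 ^ i) E) (2 * 2 ^ i) ≤ (12 + 96 * (25 + 16 * |(k : ℝ)|)) * 2 ^ i * 0.966 ^ h := by
  classical
  have hk0 : 0 ≤ |(k : ℝ)| := abs_nonneg _
  set z : ℝ := 2 ^ i with hz
  have hz0 : 0 < z := by positivity
  have hhi : (h : ℝ) ≤ i := by exact_mod_cast hh
  have h1 : (2 : ℝ) ^ h ≤ 2 * z := by
    have : (2 : ℝ) ^ h ≤ 2 ^ i := pow_le_pow_right₀ (by norm_num) hh
    rw [hz]; linarith [show (0 : ℝ) < 2 ^ i by positivity]
  have h2 : 4 * (h : ℝ) * |(k : ℝ)| ≤ z := by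
    refine le_trans ?_ hi
    apply mul_le_mul_of_nonneg_right _ hk0
    linarith
  have h3 := card_EZ hk (s := 1 / 2) (η := Real.logb 2 1.932) (by norm_num)
    (by rw [two_rpow_eta]; exact sqrt_sum) hz0 h1 h2 (H := 2 ^ h) (by positivity) E
  have h4 : nb (EZ k z E) (2 * z) ≤ ((EZ k z E).ncard : ℝ) := by
    unfold nb
    have : {y : ℤ | y ∈ EZ k z E ∧ |(y : ℝ)| < 2 * z} ⊆ EZ k z E := fun y hy => hy.1
    exact_mod_cast Set.ncard_le_ncard this EZ_fin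
  refine h4.trans (h3.trans ?_)
  rw [two_rpow_eta, four_half]
  have hWE : (({a : ℤ | a ∈ E ∧ z ≤ |(a : ℝ)| ∧ |(a : ℝ)| < z * 2 ^ h}.ncard : ℕ) : ℝ) ≤ z / 2 ^ h := hW
  have hq : (0.966 : ℝ) ^ h = 1.932 ^ h / 2 ^ h := by
    rw [← div_pow]; norm_num
  have e1 : (2 : ℝ) * 1.932 ^ h * (6 * z / 2 ^ h) = 12 * z * 0.966 ^ h := by
    rw [hq]; ring
  have hh0 : (0 : ℝ) ≤ h := Nat.cast_nonneg h
  have hcube := cube_exp h
  have e2 : ((h : ℝ) + 1) ^ 3 * (z / 2 ^ h) ≤ 96 * z * 0.966 ^ h := by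
    calc ((h : ℝ) + 1) ^ 3 * (z / 2 ^ h) ≤ 96 * 1.932 ^ h * (z / 2 ^ h) :=
          mul_le_mul_of_nonneg_right hcube (by positivity)
      _ = _ := by rw [hq]; ring
  have e3 : ((h : ℝ) + 1) * (24 * (z / 2 ^ h)) ≤ 24 * (((h : ℝ) + 1) ^ 3 * (z / 2 ^ h)) := by
    have f1 : (h : ℝ) + 1 ≤ ((h : ℝ) + 1) ^ 3 := by
      have : (1 : ℝ) ≤ ((h : ℝ) + 1) ^ 2 := one_le_pow₀ (by linarith)
      nlinarith
    have f2 : 0 ≤ z / 2 ^ h := by positivity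
    nlinarith
  have e4 : (({a : ℤ | a ∈ E ∧ z ≤ |(a : ℝ)| ∧ |(a : ℝ)| < z * 2 ^ h}.ncard : ℕ) : ℝ) *
      (((h : ℝ) + 1) ^ 2 * (16 * h * |(k : ℝ)| + 1)) ≤
      (1 + 16 * |(k : ℝ)|) * (((h : ℝ) + 1) ^ 3 * (z / 2 ^ h)) := by
    have f1 : 16 * (h : ℝ) * |(k : ℝ)| + 1 ≤ (1 + 16 * |(k : ℝ)|) * ((h : ℝ) + 1) := by nlinarith
    calc (({a : ℤ | a ∈ E ∧ z ≤ |(a : ℝ)| ∧ |(a : ℝ)| < z * 2 ^ h}.ncard : ℕ) : ℝ) *
      (((h : ℝ) + 1) ^ 2 * (16 * h * |(k : ℝ)| + 1)) ≤ (z / 2 ^ h) *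
        (((h : ℝ) + 1) ^ 2 * ((1 + 16 * |(k : ℝ)|) * ((h : ℝ) + 1))) := by
          apply mul_le_mul hWE _ (by positivity) (by positivity)
          exact mul_le_mul_of_nonneg_left f1 (by positivity)
      _ = _ := by ring
  rw [e1]
  calc 12 * z * 0.966 ^ h + ((h : ℝ) + 1) * (24 * (z / 2 ^ h)) +
      (({a : ℤ | a ∈ E ∧ z ≤ |(a : ℝ)| ∧ |(a : ℝ)| < z * 2 ^ h}.ncard : ℕ) : ℝ) *
      (((h : ℝ) + 1) ^ 2 * (16 * h * |(k : ℝ)| + 1)) ≤ 12 * z * 0.966 ^ h +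
        24 * (((h : ℝ) + 1) ^ 3 * (z / 2 ^ h)) +
        (1 + 16 * |(k : ℝ)|) * (((h : ℝ) + 1) ^ 3 * (z / 2 ^ h)) := by linarith
    _ = 12 * z * 0.966 ^ h + (25 + 16 * |(k : ℝ)|) * (((h : ℝ) + 1) ^ 3 * (z / 2 ^ h)) := by ring
    _ ≤ 12 * z * 0.966 ^ h + (25 + 16 * |(k : ℝ)|) * (96 * z * 0.966 ^ h) := by
        have := mul_le_mul_of_nonneg_left e2 (show 0 ≤ 25 + 16 * |(k : ℝ)| by positivity)
        linarith
    _ = _ := by ring

/-- beyond some index -/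
theorem exists_i1 (k : ℤ) : ∃ i₁ : ℕ, ∀ i : ℕ, i₁ ≤ i → 4 * (i : ℝ) * |(k : ℝ)| ≤ 2 ^ i := by
  have h1 := tendsto_pow_const_div_const_pow_of_one_lt 1 (show (1 : ℝ) < 2 by norm_num)
  have h2 := h1.const_mul (4 * |(k : ℝ)|)
  rw [mul_zero] at h2
  have h3 := h2.eventually (gt_mem_nhds (show (0 : ℝ) < 1 by norm_num))
  obtain ⟨i₁, h⟩ := Filter.eventually_atTop.1 h3
  refine ⟨i₁, fun i hi => ?_⟩
  have h4 := h i hi
  have h5 : 4 * |(k : ℝ)| * ((i : ℝ) ^ 1 / 2 ^ i) = 4 * (i : ℝ) * |(k : ℝ)| / 2 ^ i := by ring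
  rw [h5, div_lt_one (by positivity)] at h4
  exact h4.le

theorem one_le_pow966 (i : ℕ) {h : ℕ} (hh : h ≤ i) : 1 ≤ (2 : ℝ) ^ i * 0.966 ^ h := by
  have h1 : (2 : ℝ) ^ h ≤ 2 ^ i := pow_le_pow_right₀ (by norm_num) hh
  calc (1 : ℝ) ≤ 1.932 ^ h := one_le_pow₀ (by norm_num)
    _ = 2 ^ h * 0.966 ^ h := by rw [← mul_pow]; norm_num
    _ ≤ 2 ^ i * 0.966 ^ h := mul_le_mul_of_nonneg_right h1 (by positivity)

end Pool.Agent.U457.PS
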