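import Pool.Agent.U457.PS.Seg2

/-! Visits of a trajectory to a set: summation over the segments. -/

set_option autoImplicit false

namespace Pool.Agent.U457.PS

open Finset Filter Topology
open Pool.Agent.H499R2.CO (Tz)

/-- the elements of one dyadic shell -/
noncomputable def ed (E : Set ℤ) (i : ℕ) : ℝ :=
  ({a : ℤ | a ∈ E ∧ (2 : ℝ) ^ i ≤ |(a : ℝ)| ∧ |(a : ℝ)| < 2 ^ (i + 1)}.ncard : ℝ)

/-- the dyadic densities of `E`, added up to the index `m` -/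
noncomputable def DE (E : Set ℤ) (m : ℕ) : ℝ := ∑ i ∈ range (m + 1), ed E i / 2 ^ i

theorem ed_nonneg (E : Set ℤ) (i : ℕ) : 0 ≤ ed E i := Nat.cast_nonneg _

theorem DE_nonneg (E : Set ℤ) (m : ℕ) : 0 ≤ DE E m :=
  sum_nonneg fun i _ => div_nonneg (ed_nonneg E i) (by positivity)

theorem ed_le (E : Set ℤ) (i : ℕ) : ed E i ≤ 6 * 2 ^ i := by
  have h1 := nb_le E (Y := 2 ^ (i + 1)) (one_le_pow₀ (by norm_num))
  have h2 : ed E i ≤ nb E (2 ^ (i + 1)) := by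
    unfold ed nb
    have : {a : ℤ | a ∈ E ∧ (2 : ℝ) ^ i ≤ |(a : ℝ)| ∧ |(a : ℝ)| < 2 ^ (i + 1)} ⊆
        {y : ℤ | y ∈ E ∧ |(y : ℝ)| < 2 ^ (i + 1)} := fun y hy => ⟨hy.1, hy.2.2⟩
    exact_mod_cast Set.ncard_le_ncard this (nb_fin E _)
  rw [pow_succ] at h1 h2
  linarith

theorem DE_le (E : Set ℤ) (m : ℕ) : DE E m ≤ 6 * (m + 1) := by
  unfold DE
  have : ∀ i ∈ range (m + 1), ed E i / 2 ^ i ≤ 6 := by
    intro i _
    rw [div_le_iff₀ (by positivity)]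
    exact ed_le E i
  refine (sum_le_card_nsmul _ _ _ this).trans ?_
  rw [card_range, nsmul_eq_mul]
  push_cast
  linarith

theorem WE_le (E : Set ℤ) (i h : ℕ) : WE E i h ≤ ∑ t ∈ range h, ed E (i + t) := by
  induction h with
  | zero =>
    unfold WE
    have : {a : ℤ | a ∈ E ∧ (2 : ℝ) ^ i ≤ |(a : ℝ)| ∧ |(a : ℝ)| < 2 ^ i * 2 ^ 0} = ∅ := by
      rw [Set.eq_empty_iff_forall_notMem]
      rintro a ⟨_, h1, h2⟩
      rw [pow_zero, mul_one] at h2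
      linarith
    rw [this]
    simp
  | succ h ih =>
    rw [sum_range_succ]
    refine le_trans ?_ (add_le_add_left ih _)
    unfold WE ed
    have hsub : {a : ℤ | a ∈ E ∧ (2 : ℝ) ^ i ≤ |(a : ℝ)| ∧ |(a : ℝ)| < 2 ^ i * 2 ^ (h + 1)} ⊆
        {a : ℤ | a ∈ E ∧ (2 : ℝ) ^ i ≤ |(a : ℝ)| ∧ |(a : ℝ)| < 2 ^ i * 2 ^ h} ∪
        {a : ℤ | a ∈ E ∧ (2 : ℝ) ^ (i + h) ≤ |(a : ℝ)| ∧ |(a : ℝ)| < 2 ^ (i + h + 1)} := by
      rintro a ⟨h1, h2, h3⟩
      rcases lt_or_ge |(a : ℝ)| (2 ^ i * 2 ^ h) with hc | hc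
      · exact Or.inl ⟨h1, h2, hc⟩
      · right
        refine ⟨h1, by rw [pow_add]; exact hc, ?_⟩
        rw [add_assoc, pow_add]; exact h3
    have hf1 : {a : ℤ | a ∈ E ∧ (2 : ℝ) ^ i ≤ |(a : ℝ)| ∧ |(a : ℝ)| < 2 ^ i * 2 ^ h}.Finite :=
      (nb_fin E (2 ^ i * 2 ^ h)).subset fun y hy => ⟨hy.1, hy.2.2⟩
    have hf2 : {a : ℤ | a ∈ E ∧ (2 : ℝ) ^ (i + h) ≤ |(a : ℝ)| ∧ |(a : ℝ)| < 2 ^ (i + h + 1)}.Finite :=
      (nb_fin E (2 ^ (i + h + 1))).subset fun y hy => ⟨hy.1, hy.2.2⟩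
    have := (Set.ncard_le_ncard hsub (hf1.union hf2)).trans (Set.ncard_union_le _ _)
    exact_mod_cast this

theorem shift_sum (E : Set ℤ) {i₀ I h t : ℕ} (ht : t < h) :
    ∑ i ∈ Icc i₀ I, ed E (i + t) / 2 ^ (i + t) ≤ DE E (I + h) := by
  have h1 : ∑ i ∈ Icc i₀ I, ed E (i + t) / 2 ^ (i + t) =
      ∑ x ∈ (Icc i₀ I).image (fun i => i + t), ed E x / 2 ^ x := by
    rw [sum_image]
    intro a _ b _ hab
    simpa using hab
  rw [h1]
  unfold DE
  apply sum_le_sum_of_subset_of_nonneg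
  · intro x hx
    rw [mem_image] at hx
    obtain ⟨i, hi, rfl⟩ := hx
    rw [mem_Icc] at hi
    rw [mem_range]; omega
  · intro i _ _
    exact div_nonneg (ed_nonneg E i) (by positivity)

open scoped Classical in
/-- the scales at which `E` is dense -/
theorem card_dense (E : Set ℤ) (i₀ I h : ℕ) :
    (((Icc i₀ I).filter (fun i => (2 : ℝ) ^ i / 2 ^ h < WE E i h)).card : ℝ) ≤ 4 ^ h * DE E (I + h) := by
  set S := (Icc i₀ I).filter (fun i => (2 : ℝ) ^ i / 2 ^ h < WE E i h) with hS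
  have hD := DE_nonneg E (I + h)
  have h1 : ∀ i ∈ S, (1 : ℝ) ≤ 2 ^ h * (∑ t ∈ range h, ed E (i + t)) / 2 ^ i := by
    intro i hi
    rw [hS, mem_filter] at hi
    have h2 := hi.2.le.trans (WE_le E i h)
    rw [div_le_iff₀ (by positivity)] at h2
    rw [le_div_iff₀ (by positivity)]
    linarith
  calc (S.card : ℝ) = ∑ i ∈ S, (1 : ℝ) := by simp
    _ ≤ ∑ i ∈ S, 2 ^ h * (∑ t ∈ range h, ed E (i + t)) / 2 ^ i := sum_le_sum h1
    _ ≤ ∑ i ∈ Icc i₀ I, 2 ^ h * (∑ t ∈ range h, ed E (i + t)) / 2 ^ i := by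
        apply sum_le_sum_of_subset_of_nonneg (filter_subset _ _)
        intro i _ _
        have : 0 ≤ ∑ t ∈ range h, ed E (i + t) := sum_nonneg fun t _ => ed_nonneg _ _
        positivity
    _ = ∑ t ∈ range h, 2 ^ h * (2 ^ t * ∑ i ∈ Icc i₀ I, ed E (i + t) / 2 ^ (i + t)) := by
        rw [sum_congr rfl (fun i _ => by
          rw [mul_div_assoc, sum_div, mul_sum] :
          ∀ i ∈ Icc i₀ I, 2 ^ h * (∑ t ∈ range h, ed E (i + t)) / 2 ^ i =
            ∑ t ∈ range h, 2 ^ h * (ed E (i + t) / 2 ^ i)), sum_comm]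
        apply sum_congr rfl
        intro t _
        rw [← mul_sum, mul_sum (a := (2 : ℝ) ^ t)]
        congr 1
        apply sum_congr rfl
        intro i _
        rw [pow_add]
        field_simp
    _ ≤ ∑ t ∈ range h, 2 ^ h * (2 ^ t * DE E (I + h)) := by
        apply sum_le_sum
        intro t ht
        rw [mem_range] at ht
        apply mul_le_mul_of_nonneg_left _ (by positivity)
        exact mul_le_mul_of_nonneg_left (shift_sum E ht) (by positivity)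
    _ = 2 ^ h * ((∑ t ∈ range h, 2 ^ t) * DE E (I + h)) := by
        rw [sum_mul, mul_sum]
    _ ≤ 2 ^ h * (2 ^ h * DE E (I + h)) := by
        apply mul_le_mul_of_nonneg_left _ (by positivity)
        apply mul_le_mul_of_nonneg_right _ hD
        have := geo2 h
        have h3 : (∑ t ∈ range h, (2 : ℝ) ^ t) + 1 = 2 ^ h := by exact_mod_cast this
        linarith
    _ = 4 ^ h * DE E (I + h) := by
        rw [← mul_assoc, ← mul_pow]; norm_num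

theorem inv_sq_sum (a n : ℕ) : ∑ i ∈ range n, 1 / (1 + ((a + i : ℕ) : ℝ)) ^ 2 ≤
    2 / ((a : ℝ) + 1) - 2 / ((a : ℝ) + n + 1) := by
  induction n with
  | zero => simp
  | succ n ih =>
    rw [sum_range_succ]
    have ha : (0 : ℝ) ≤ a := Nat.cast_nonneg a
    have hn : (0 : ℝ) ≤ n := Nat.cast_nonneg n
    have h1 : 1 / (1 + ((a + n : ℕ) : ℝ)) ^ 2 ≤
        2 / ((a : ℝ) + n + 1) - 2 / ((a : ℝ) + ((n + 1 : ℕ) : ℝ) + 1) := by
      push_cast
      rw [div_sub_div _ _ (by positivity) (by positivity), div_le_div_iff₀ (by positivity) (by positivity)]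
      nlinarith [mul_nonneg ha hn]
    linarith

theorem inv_sq_range (n : ℕ) : ∑ r ∈ range n, 1 / (1 + (r : ℝ)) ^ 2 ≤ 2 := by
  have h := inv_sq_sum 0 n
  simp only [Nat.zero_add, Nat.cast_zero, zero_add] at h
  have : (0 : ℝ) ≤ 2 / ((n : ℝ) + 1) := by positivity
  linarith

theorem inv_sq_Icc (i₀ I : ℕ) : ∑ i ∈ Icc i₀ I, 1 / (1 + (i : ℝ)) ^ 2 ≤ 2 / ((i₀ : ℝ) + 1) := by
  have h1 : ∑ i ∈ Icc i₀ I, 1 / (1 + (i : ℝ)) ^ 2 =
      ∑ i ∈ range (I + 1 - i₀), 1 / (1 + ((i₀ + i : ℕ) : ℝ)) ^ 2 := by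
    rw [show Icc i₀ I = Ico i₀ (I + 1) by ext x; simp only [mem_Icc, mem_Ico]; omega,
      sum_Ico_eq_sum_range]
  rw [h1]
  have h := inv_sq_sum i₀ (I + 1 - i₀)
  have : (0 : ℝ) ≤ 2 / ((i₀ : ℝ) + (I + 1 - i₀ : ℕ) + 1) := by positivity
  linarith

/-- the logarithm of the proportion of the points near `2^i` whose segment meets `E` -/
noncomputable def ell (k : ℤ) (E : Set ℤ) (i : ℕ) : ℝ := lg (EZ k (2 ^ i) E) (2 * 2 ^ i)

theorem ell_ge (k : ℤ) (E : Set ℤ) (i : ℕ) : 1 / 2 ≤ ell k E i := by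
  unfold ell lg
  have h1 := nb_nonneg (EZ k (2 ^ i) E) (2 * 2 ^ i)
  have h2 : Real.log 2 ≤ Real.log (2 + 2 * 2 ^ i / (1 + nb (EZ k (2 ^ i) E) (2 * 2 ^ i))) := by
    apply Real.log_le_log (by norm_num)
    have : 0 ≤ 2 * 2 ^ i / (1 + nb (EZ k (2 ^ i) E) (2 * 2 ^ i)) := by positivity
    linarith
  have := Real.log_two_gt_d9
  linarith

/-- the sum over the scales -/
theorem sum_ell {k : ℤ} (hk : Odd k) (B : ℕ) : ∃ K : ℝ, 0 < K ∧ ∃ i₁ : ℕ, ∀ (E : Set ℤ) (h i₀ I : ℕ),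
    i₁ ≤ i₀ → h ≤ i₀ → ∑ i ∈ Icc i₀ I, 1 / (ell k E i) ^ B ≤
      K * ((I + 1) / (1 + h) ^ B + 4 ^ h * DE E (I + h)) := by
  classical
  obtain ⟨i₁, hi₁⟩ := exists_i1 k
  set A : ℝ := 12 + 96 * (25 + 16 * |(k : ℝ)|) with hA
  have hk0 : 0 ≤ |(k : ℝ)| := abs_nonneg _
  have hA0 : 0 ≤ A := by positivity
  obtain ⟨m, hm⟩ := pow_unbounded_of_one_lt (A + 1) (show (1 : ℝ) < 2 by norm_num)
  have hm' : A + 1 ≤ 2 ^ (m + 1) := by
    rw [pow_succ]
    have : (0 : ℝ) < 2 ^ m := by positivity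
    linarith
  refine ⟨(64 * (m + 1)) ^ B + 2 ^ B, by positivity, i₁, ?_⟩
  intro E h i₀ I hi hh
  have hD := DE_nonneg E (I + h)
  set S := (Icc i₀ I).filter (fun i => (2 : ℝ) ^ i / 2 ^ h < WE E i h) with hS
  have hterm : ∀ i ∈ Icc i₀ I, 1 / (ell k E i) ^ B ≤
      (64 * (m + 1)) ^ B * (1 / (1 + h) ^ B) + (if i ∈ S then 2 ^ B else 0) := by
    intro i hi2
    rw [mem_Icc] at hi2
    have hell := ell_ge k E i
    by_cases hiS : i ∈ S
    · rw [if_pos hiS]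
      have h1 : 1 / (ell k E i) ^ B ≤ 2 ^ B := by
        rw [div_le_iff₀ (by positivity), ← mul_pow]
        exact one_le_pow₀ (by linarith)
      have h2 : 0 ≤ (64 * ((m : ℝ) + 1)) ^ B * (1 / (1 + (h : ℝ)) ^ B) := by positivity
      linarith
    · rw [if_neg hiS, add_zero]
      have hW : WE E i h ≤ 2 ^ i / 2 ^ h := by
        by_contra hcon
        push Not at hcon
        apply hiS
        rw [hS, mem_filter, mem_Icc]
        exact ⟨hi2, hcon⟩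
      have h1 := nb_EZ hk (E := E) (i := i) (h := h) (hi₁ i (by omega)) (by omega) hW
      have h2 := lg_lower (F := EZ k (2 ^ i) E) (z := 2 ^ i) (A := A) (r := h) (m := m) (by positivity)
        hA0 (one_le_pow966 i (by omega)) h1 hm'
      have h3 : (1 + h : ℝ) ≤ 64 * (m + 1) * ell k E i := h2
      rw [mul_one_div, div_le_div_iff₀ (by positivity) (by positivity), one_mul, ← mul_pow]
      exact pow_le_pow_left₀ (by positivity) h3 B
  refine (sum_le_sum hterm).trans ?_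
  rw [sum_add_distrib, sum_const, nsmul_eq_mul, ← sum_filter, filter_mem_eq_inter, sum_const,
    nsmul_eq_mul]
  have h1 : ((Icc i₀ I).card : ℝ) ≤ I + 1 := by
    rw [Nat.card_Icc]
    have : I + 1 - i₀ ≤ I + 1 := Nat.sub_le _ _
    exact_mod_cast this
  have h2 : (((Icc i₀ I) ∩ S).card : ℝ) ≤ 4 ^ h * DE E (I + h) := by
    have h2a : (S.card : ℝ) ≤ 4 ^ h * DE E (I + h) := by
      rw [hS]
      exact card_dense E i₀ I h
    refine le_trans ?_ h2a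
    exact_mod_cast card_le_card inter_subset_right
  have h3 : ((Icc i₀ I).card : ℝ) * ((64 * ((m : ℝ) + 1)) ^ B * (1 / (1 + (h : ℝ)) ^ B)) ≤
      (64 * ((m : ℝ) + 1)) ^ B * ((I + 1) / (1 + h) ^ B) := by
    have := mul_le_mul_of_nonneg_right h1
      (show 0 ≤ (64 * ((m : ℝ) + 1)) ^ B * (1 / (1 + (h : ℝ)) ^ B) by positivity)
    refine this.trans (le_of_eq ?_)
    ring
  have h4 : (((Icc i₀ I) ∩ S).card : ℝ) * 2 ^ B ≤ 2 ^ B * (4 ^ h * DE E (I + h)) := by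
    have := mul_le_mul_of_nonneg_right h2 (show (0 : ℝ) ≤ 2 ^ B by positivity)
    linarith
  have h5 : 0 ≤ (2 : ℝ) ^ B * ((I + 1) / (1 + h) ^ B) := by positivity
  have h6 : 0 ≤ (64 * ((m : ℝ) + 1)) ^ B * (4 ^ h * DE E (I + h)) := by positivity
  have h7 : ((64 * ((m : ℝ) + 1)) ^ B + 2 ^ B) * ((I + 1) / (1 + h) ^ B + 4 ^ h * DE E (I + h)) =
      (64 * ((m : ℝ) + 1)) ^ B * ((I + 1) / (1 + h) ^ B) +
      (64 * ((m : ℝ) + 1)) ^ B * (4 ^ h * DE E (I + h)) +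
      ((2 : ℝ) ^ B * ((I + 1) / (1 + h) ^ B) + 2 ^ B * (4 ^ h * DE E (I + h))) := by ring
  rw [h7]
  exact (add_le_add h3 h4).trans (by linarith)

end Pool.Agent.U457.PS
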