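import Pool.Agent.U457.PS.Seg3

/-! Visits of a trajectory to a set: the main bound. -/

set_option autoImplicit false

namespace Pool.Agent.U457.PS

open Finset Filter Topology
open Pool.Agent.H499R2.CO (Tz)

theorem lg_GZ {k : ℤ} (hk : Odd k) {i r : ℕ} (hi : 4 * (i : ℝ) * |(k : ℝ)| ≤ 2 ^ i) (hr : r ≤ i) :
    (1 + r : ℝ) ≤ 256 * lg (GZ k (2 ^ i) r) (2 * 2 ^ i) := by
  have hk0 : 0 ≤ |(k : ℝ)| := abs_nonneg _
  have hri : (r : ℝ) ≤ i := by exact_mod_cast hr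
  have h1 : (2 : ℝ) ^ r ≤ 2 * 2 ^ i := by
    have : (2 : ℝ) ^ r ≤ 2 ^ i := pow_le_pow_right₀ (by norm_num) hr
    linarith [show (0 : ℝ) < 2 ^ i by positivity]
  have h2 : 4 * (r : ℝ) * |(k : ℝ)| ≤ 2 ^ i := by
    refine le_trans ?_ hi
    apply mul_le_mul_of_nonneg_right _ hk0
    linarith
  have h3 := nb_GZ hk (z := 2 ^ i) (by positivity) h1 h2
  have h4 := lg_lower (m := 3) (by positivity) (by norm_num) (one_le_pow966 i hr) h3 (by norm_num)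
  norm_num at h4 ⊢
  linarith

theorem lg_FZ {k : ℤ} (hk : Odd k) {E : Set ℤ} {i r : ℕ} (hi : 4 * (i : ℝ) * |(k : ℝ)| ≤ 2 ^ i)
    (hr : r ≤ i) (B : ℕ) : 1 / (lg (FZ k (2 ^ i) E r) (2 * 2 ^ i)) ^ (B + 2) ≤
      256 ^ 2 * (1 / (1 + (r : ℝ)) ^ 2) * (1 / (ell k E i) ^ B) := by
  have h1 := lg_GZ hk hi hr
  have h2 : lg (GZ k (2 ^ i) r) (2 * 2 ^ i) ≤ lg (FZ k (2 ^ i) E r) (2 * 2 ^ i) :=
    lg_mono FZ_sub_GZ (by positivity)
  have h3 : ell k E i ≤ lg (FZ k (2 ^ i) E r) (2 * 2 ^ i) := lg_mono FZ_sub_EZ (by positivity)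
  have h4 := ell_ge k E i
  set x := lg (FZ k (2 ^ i) E r) (2 * 2 ^ i) with hx
  have hr0 : (0 : ℝ) ≤ r := Nat.cast_nonneg r
  have h5 : (1 + r : ℝ) ≤ 256 * x := by linarith
  have h6 : (1 + (r : ℝ)) ^ 2 ≤ 256 ^ 2 * x ^ 2 := by
    rw [← mul_pow]; exact pow_le_pow_left₀ (by linarith) h5 2
  have h7 : (ell k E i) ^ B ≤ x ^ B := pow_le_pow_left₀ (by linarith) h3 B
  have e1 : 256 ^ 2 * (1 / (1 + (r : ℝ)) ^ 2) * (1 / (ell k E i) ^ B) =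
      256 ^ 2 / ((1 + (r : ℝ)) ^ 2 * (ell k E i) ^ B) := by
    rw [mul_one_div, mul_one_div, div_div]
  have hell0 : 0 < ell k E i := by linarith
  have hx0 : 0 < x := by linarith
  rw [e1, div_le_div_iff₀ (by positivity) (by positivity), one_mul, pow_add]
  calc (1 + (r : ℝ)) ^ 2 * (ell k E i) ^ B ≤ (256 ^ 2 * x ^ 2) * x ^ B :=
        mul_le_mul h6 h7 (by positivity) (by positivity)
    _ = _ := by ring

/-- THE MAIN BOUND FOR THE VISITS -/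
theorem visits_sum {k : ℤ} (hk : Odd k) (hk3 : IsCoprime k 3) (B : ℕ) :
    ∃ C : ℝ, 0 < C ∧ ∃ i₁ : ℕ, ∀ (E : Set ℤ) (i₀ I : ℕ) (X M : ℝ), i₁ ≤ i₀ →
      (2 : ℝ) ^ I ≤ X → X < 2 ^ (I + 1) → 0 < M →
      ({n : ℤ | |(n : ℝ)| ≤ X ∧ ∃ J : Finset ℕ,
        (∀ j ∈ J, (∀ j' ≤ j, (2 : ℝ) ^ i₀ ≤ |(((Tz k)^[j'] n : ℤ) : ℝ)|) ∧ (Tz k)^[j] n ∈ E) ∧
          M ≤ J.card}.ncard : ℝ) ≤
        C * X / (i₀ + 1) + C * X / M * (∑ i ∈ Icc i₀ I, 1 / (ell k E i) ^ B) := by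
  classical
  obtain ⟨C₁, hC₁, h1⟩ := Q_count hk hk3 (B + 2)
  obtain ⟨C₂, hC₂, h2⟩ := Q_count hk hk3 2
  obtain ⟨i₂, hi₂⟩ := exists_i1 k
  refine ⟨C₂ * 256 ^ 2 * 2 + C₁ * 256 ^ 2 * 2, by positivity, i₂, ?_⟩
  intro E i₀ I X M hi₀2 hX1 hX2 hM
  have hX0 : 0 < X := lt_of_lt_of_le (by positivity) hX1
  have hpow1 : ∀ i : ℕ, (1 : ℝ) ≤ 2 ^ i := fun i => one_le_pow₀ (by norm_num)
  have hpowX : ∀ i ≤ I, (2 : ℝ) ^ i ≤ X := fun i hi =>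
    (pow_le_pow_right₀ (by norm_num) hi).trans hX1
  have hfV : {n : ℤ | |(n : ℝ)| ≤ X ∧ M ≤ (pr k E i₀ I n : ℝ)}.Finite := fin_abs X _
  set V := hfV.toFinset with hV
  have hsub : {n : ℤ | |(n : ℝ)| ≤ X ∧ ∃ J : Finset ℕ,
        (∀ j ∈ J, (∀ j' ≤ j, (2 : ℝ) ^ i₀ ≤ |(((Tz k)^[j'] n : ℤ) : ℝ)|) ∧ (Tz k)^[j] n ∈ E) ∧
          M ≤ J.card} ⊆ {n : ℤ | |(n : ℝ)| ≤ X ∧ n ∈ BZ k i₀ I} ∪
          {n : ℤ | |(n : ℝ)| ≤ X ∧ M ≤ (pr k E i₀ I n : ℝ)} := by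
    rintro n ⟨hn, J, hJ, hJM⟩
    by_cases hb : n ∈ BZ k i₀ I
    · exact Or.inl ⟨hn, hb⟩
    · right
      have h4 := visits_le (lt_of_le_of_lt hn hX2) hb J hJ
      refine ⟨hn, hJM.trans ?_⟩
      exact_mod_cast h4
  have h4 := (Set.ncard_le_ncard hsub ((fin_abs X _).union hfV)).trans (Set.ncard_union_le _ _)
  have h5 : ({n : ℤ | |(n : ℝ)| ≤ X ∧ ∃ J : Finset ℕ,
        (∀ j ∈ J, (∀ j' ≤ j, (2 : ℝ) ^ i₀ ≤ |(((Tz k)^[j'] n : ℤ) : ℝ)|) ∧ (Tz k)^[j] n ∈ E) ∧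
          M ≤ J.card}.ncard : ℝ) ≤ ({n : ℤ | |(n : ℝ)| ≤ X ∧ n ∈ BZ k i₀ I}.ncard : ℝ) + V.card := by
    have e : {n : ℤ | |(n : ℝ)| ≤ X ∧ M ≤ (pr k E i₀ I n : ℝ)}.ncard = V.card :=
      Set.ncard_eq_toFinset_card _ hfV
    rw [e] at h4
    exact_mod_cast h4
  -- the trajectories with a long segment
  have hBZ : ({n : ℤ | |(n : ℝ)| ≤ X ∧ n ∈ BZ k i₀ I}.ncard : ℝ) ≤ C₂ * 256 ^ 2 * 2 * X / (i₀ + 1) := by
    set Q : ℕ → Finset ℤ := fun i =>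
      (fin_abs X (fun n => n ∈ QZ k (2 ^ i) (GZ k (2 ^ i) i))).toFinset with hQ
    have hsub2 : {n : ℤ | |(n : ℝ)| ≤ X ∧ n ∈ BZ k i₀ I} ⊆ ((Icc i₀ I).biUnion Q : Finset ℤ) := by
      rintro n ⟨hn, i, hi1, hi2, hnQ⟩
      rw [mem_coe, mem_biUnion]
      refine ⟨i, mem_Icc.2 ⟨hi1, hi2⟩, ?_⟩
      rw [hQ, Set.Finite.mem_toFinset]
      exact ⟨hn, hnQ⟩
    have e1 := Set.ncard_le_ncard hsub2 (Finset.finite_toSet _)
    rw [Set.ncard_coe_finset] at e1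
    have e2 : ({n : ℤ | |(n : ℝ)| ≤ X ∧ n ∈ BZ k i₀ I}.ncard : ℝ) ≤ ∑ i ∈ Icc i₀ I, ((Q i).card : ℝ) := by
      have := e1.trans card_biUnion_le
      exact_mod_cast this
    refine e2.trans ?_
    have e3 : ∀ i ∈ Icc i₀ I, ((Q i).card : ℝ) ≤ C₂ * 256 ^ 2 * X * (1 / (1 + (i : ℝ)) ^ 2) := by
      intro i hi
      rw [mem_Icc] at hi
      have f1 := h2 (2 ^ i) X (GZ k (2 ^ i) i) (hpow1 i) (hpowX i hi.2)
      have f2 : ({n : ℤ | |(n : ℝ)| ≤ X ∧ n ∈ QZ k (2 ^ i) (GZ k (2 ^ i) i)}.ncard : ℝ) = (Q i).card := by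
        rw [hQ, Set.ncard_eq_toFinset_card _ (fin_abs X (fun n => n ∈ QZ k (2 ^ i) (GZ k (2 ^ i) i)))]
      rw [← f2]
      refine f1.trans ?_
      have f3 := lg_GZ hk (hi₂ i (by omega)) (le_refl i)
      have hi0 : (0 : ℝ) ≤ i := Nat.cast_nonneg i
      set x := lg (GZ k (2 ^ i) i) (2 * 2 ^ i) with hx
      have hx0 : 0 < x := by linarith
      have f4 : (1 + (i : ℝ)) ^ 2 ≤ 256 ^ 2 * x ^ 2 := by
        rw [← mul_pow]; exact pow_le_pow_left₀ (by linarith) f3 2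
      rw [mul_one_div, div_le_div_iff₀ (by positivity) (by positivity)]
      calc C₂ * X * (1 + (i : ℝ)) ^ 2 ≤ C₂ * X * (256 ^ 2 * x ^ 2) :=
            mul_le_mul_of_nonneg_left f4 (by positivity)
        _ = _ := by ring
    refine (sum_le_sum e3).trans ?_
    rw [← mul_sum]
    have e4 := inv_sq_Icc i₀ I
    calc C₂ * 256 ^ 2 * X * ∑ i ∈ Icc i₀ I, 1 / (1 + (i : ℝ)) ^ 2 ≤
          C₂ * 256 ^ 2 * X * (2 / ((i₀ : ℝ) + 1)) := mul_le_mul_of_nonneg_left e4 (by positivity)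
      _ = _ := by ring
  -- the other trajectories
  have hVc : (V.card : ℝ) ≤ C₁ * 256 ^ 2 * 2 * X / M * (∑ i ∈ Icc i₀ I, 1 / (ell k E i) ^ B) := by
    have e1 : M * (V.card : ℝ) ≤ ∑ n ∈ V, (pr k E i₀ I n : ℝ) := by
      have : ∀ n ∈ V, M ≤ (pr k E i₀ I n : ℝ) := by
        intro n hn
        rw [hV, Set.Finite.mem_toFinset] at hn
        exact hn.2
      have := card_nsmul_le_sum _ _ _ this
      rw [nsmul_eq_mul] at this
      linarith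
    have e2 : ∑ n ∈ V, (pr k E i₀ I n : ℝ) = ∑ i ∈ Icc i₀ I, ∑ r ∈ range i,
        (((V.filter (fun n => n ∈ QZ k (2 ^ i) (FZ k (2 ^ i) E r))).card : ℕ) : ℝ) := by
      unfold pr
      push_cast
      rw [sum_comm]
      apply sum_congr rfl
      intro i _
      have := sum_card_bipartiteAbove_eq_sum_card_bipartiteBelow
        (s := V) (t := range i) (fun n r => n ∈ QZ k (2 ^ i) (FZ k (2 ^ i) E r))
      unfold bipartiteAbove bipartiteBelow at this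
      have h6 : ((∑ n ∈ V, ((range i).filter (fun r => n ∈ QZ k (2 ^ i) (FZ k (2 ^ i) E r))).card : ℕ) : ℝ) =
        ((∑ r ∈ range i, (V.filter (fun n => n ∈ QZ k (2 ^ i) (FZ k (2 ^ i) E r))).card : ℕ) : ℝ) := by
        exact_mod_cast this
      push_cast at h6
      exact h6
    have e3 : ∀ i ∈ Icc i₀ I, ∑ r ∈ range i,
        (((V.filter (fun n => n ∈ QZ k (2 ^ i) (FZ k (2 ^ i) E r))).card : ℕ) : ℝ) ≤
        C₁ * 256 ^ 2 * 2 * X * (1 / (ell k E i) ^ B) := by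
      intro i hi
      rw [mem_Icc] at hi
      have hell := ell_ge k E i
      have f0 : ∀ r ∈ range i, (((V.filter (fun n => n ∈ QZ k (2 ^ i) (FZ k (2 ^ i) E r))).card : ℕ) : ℝ) ≤
          C₁ * 256 ^ 2 * X * (1 / (ell k E i) ^ B) * (1 / (1 + (r : ℝ)) ^ 2) := by
        intro r hr
        rw [mem_range] at hr
        have f1 := h1 (2 ^ i) X (FZ k (2 ^ i) E r) (hpow1 i) (hpowX i hi.2)
        have f2 : (((V.filter (fun n => n ∈ QZ k (2 ^ i) (FZ k (2 ^ i) E r))).card : ℕ) : ℝ) ≤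
            ({n : ℤ | |(n : ℝ)| ≤ X ∧ n ∈ QZ k (2 ^ i) (FZ k (2 ^ i) E r)}.ncard : ℝ) := by
          have hs : ((V.filter (fun n => n ∈ QZ k (2 ^ i) (FZ k (2 ^ i) E r)) : Finset ℤ) : Set ℤ) ⊆
              {n : ℤ | |(n : ℝ)| ≤ X ∧ n ∈ QZ k (2 ^ i) (FZ k (2 ^ i) E r)} := by
            intro n hn
            rw [mem_coe, mem_filter, hV, Set.Finite.mem_toFinset] at hn
            exact ⟨hn.1.1, hn.2⟩
          have := Set.ncard_le_ncard hs (fin_abs X _)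
          rw [Set.ncard_coe_finset] at this
          exact_mod_cast this
        refine f2.trans (f1.trans ?_)
        have f3 := lg_FZ hk (E := E) (hi₂ i (by omega)) hr.le B
        have f4 := mul_le_mul_of_nonneg_left f3 (show 0 ≤ C₁ * X by positivity)
        calc C₁ * X / (lg (FZ k (2 ^ i) E r) (2 * 2 ^ i)) ^ (B + 2) =
              C₁ * X * (1 / (lg (FZ k (2 ^ i) E r) (2 * 2 ^ i)) ^ (B + 2)) := by ring
          _ ≤ C₁ * X * (256 ^ 2 * (1 / (1 + (r : ℝ)) ^ 2) * (1 / (ell k E i) ^ B)) := f4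
          _ = _ := by ring
      refine (sum_le_sum f0).trans ?_
      rw [← mul_sum]
      have f5 := inv_sq_range i
      calc C₁ * 256 ^ 2 * X * (1 / (ell k E i) ^ B) * ∑ r ∈ range i, 1 / (1 + (r : ℝ)) ^ 2 ≤
            C₁ * 256 ^ 2 * X * (1 / (ell k E i) ^ B) * 2 :=
              mul_le_mul_of_nonneg_left f5 (by positivity)
        _ = _ := by ring
    have e4 : ∑ i ∈ Icc i₀ I, ∑ r ∈ range i,
        (((V.filter (fun n => n ∈ QZ k (2 ^ i) (FZ k (2 ^ i) E r))).card : ℕ) : ℝ) ≤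
        C₁ * 256 ^ 2 * 2 * X * (∑ i ∈ Icc i₀ I, 1 / (ell k E i) ^ B) := by
      refine (sum_le_sum e3).trans ?_
      rw [← mul_sum]
    rw [e2] at e1
    have e5 := e1.trans e4
    have e6 : C₁ * 256 ^ 2 * 2 * X / M * (∑ i ∈ Icc i₀ I, 1 / (ell k E i) ^ B) =
        (C₁ * 256 ^ 2 * 2 * X * (∑ i ∈ Icc i₀ I, 1 / (ell k E i) ^ B)) / M := by
      ring
    rw [e6, le_div_iff₀ hM]
    linarith
  have hR0 : 0 ≤ ∑ i ∈ Icc i₀ I, 1 / (ell k E i) ^ B := by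
    apply sum_nonneg
    intro i _
    have := ell_ge k E i
    positivity
  have g1 : C₂ * 256 ^ 2 * 2 * X / ((i₀ : ℝ) + 1) ≤
      (C₂ * 256 ^ 2 * 2 + C₁ * 256 ^ 2 * 2) * X / ((i₀ : ℝ) + 1) := by
    apply div_le_div_of_nonneg_right _ (by positivity)
    apply mul_le_mul_of_nonneg_right _ hX0.le
    have : 0 ≤ C₁ * 256 ^ 2 * 2 := by positivity
    linarith
  have g2 : C₁ * 256 ^ 2 * 2 * X / M * (∑ i ∈ Icc i₀ I, 1 / (ell k E i) ^ B) ≤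
      (C₂ * 256 ^ 2 * 2 + C₁ * 256 ^ 2 * 2) * X / M *
        (∑ i ∈ Icc i₀ I, 1 / (ell k E i) ^ B) := by
    apply mul_le_mul_of_nonneg_right _ hR0
    apply div_le_div_of_nonneg_right _ hM.le
    apply mul_le_mul_of_nonneg_right _ hX0.le
    have : 0 ≤ C₂ * 256 ^ 2 * 2 := by positivity
    linarith
  linarith

/-- the same with the densities of `E` -/
theorem visits_main {k : ℤ} (hk : Odd k) (hk3 : IsCoprime k 3) (B : ℕ) :
    ∃ C : ℝ, 0 < C ∧ ∃ i₁ : ℕ, ∀ (E : Set ℤ) (h i₀ I : ℕ) (X M : ℝ), i₁ ≤ i₀ →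
      (2 : ℝ) ^ I ≤ X → X < 2 ^ (I + 1) → 0 < M →
      ({n : ℤ | |(n : ℝ)| ≤ X ∧ ∃ J : Finset ℕ,
        (∀ j ∈ J, (∀ j' ≤ j, (2 : ℝ) ^ i₀ ≤ |(((Tz k)^[j'] n : ℤ) : ℝ)|) ∧ (Tz k)^[j] n ∈ E) ∧
          M ≤ J.card}.ncard : ℝ) ≤
        C * X / (i₀ + 1) + C * X / M * ((I + 1) / (1 + h) ^ B + (h + 4 ^ h * DE E (I + h))) := by
  classical
  obtain ⟨C, hC, i₁, h1⟩ := visits_sum hk hk3 B
  obtain ⟨K, hK, i₂, h2⟩ := sum_ell hk B
  refine ⟨C + C * (K + 2 ^ B), by positivity, max i₁ i₂, ?_⟩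
  intro E h i₀ I X M hi₀ hX1 hX2 hM
  have hi₀1 : i₁ ≤ i₀ := (le_max_left _ _).trans hi₀
  have hi₀2 : i₂ ≤ i₀ := (le_max_right _ _).trans hi₀
  have hX0 : 0 < X := lt_of_lt_of_le (by positivity) hX1
  have h3 := h1 E i₀ I X M hi₀1 hX1 hX2 hM
  have h4 := h2 E h (max i₀ h) I (hi₀2.trans (le_max_left _ _)) (le_max_right _ _)
  have hD := DE_nonneg E (I + h)
  have h5 : ∑ i ∈ Icc i₀ I, 1 / (ell k E i) ^ B ≤
      ∑ i ∈ Icc (max i₀ h) I, 1 / (ell k E i) ^ B + 2 ^ B * h := by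
    have hsub : Icc i₀ I ⊆ Icc (max i₀ h) I ∪ range h := by
      intro i hi
      rw [mem_Icc] at hi
      rw [mem_union, mem_Icc, mem_range]
      rcases lt_or_ge i h with hc | hc
      · exact Or.inr hc
      · exact Or.inl ⟨max_le hi.1 hc, hi.2⟩
    have hnn : ∀ i, 0 ≤ 1 / (ell k E i) ^ B := by
      intro i
      have := ell_ge k E i
      positivity
    have e1 : ∑ i ∈ Icc i₀ I, 1 / (ell k E i) ^ B ≤
        ∑ i ∈ Icc (max i₀ h) I ∪ range h, 1 / (ell k E i) ^ B :=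
      sum_le_sum_of_subset_of_nonneg hsub (fun i _ _ => hnn i)
    have e2 : ∑ i ∈ Icc (max i₀ h) I ∪ range h, 1 / (ell k E i) ^ B ≤
        ∑ i ∈ Icc (max i₀ h) I, 1 / (ell k E i) ^ B + ∑ i ∈ range h, 1 / (ell k E i) ^ B := by
      rw [← sum_union_inter]
      have : 0 ≤ ∑ i ∈ Icc (max i₀ h) I ∩ range h, 1 / (ell k E i) ^ B :=
        sum_nonneg fun i _ => hnn i
      linarith
    have e3 : ∑ i ∈ range h, 1 / (ell k E i) ^ B ≤ 2 ^ B * h := by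
      have : ∀ i ∈ range h, 1 / (ell k E i) ^ B ≤ 2 ^ B := by
        intro i _
        have := ell_ge k E i
        rw [div_le_iff₀ (by positivity), ← mul_pow]
        exact one_le_pow₀ (by linarith)
      refine (sum_le_card_nsmul _ _ _ this).trans ?_
      rw [card_range, nsmul_eq_mul]
      linarith
    linarith
  have hh0 : (0 : ℝ) ≤ h := Nat.cast_nonneg h
  have h6 : ∑ i ∈ Icc i₀ I, 1 / (ell k E i) ^ B ≤
      (K + 2 ^ B) * ((I + 1) / (1 + h) ^ B + (h + 4 ^ h * DE E (I + h))) := by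
    refine h5.trans ?_
    have e1 : 0 ≤ K * (h : ℝ) := by positivity
    have e2 : 0 ≤ (2 : ℝ) ^ B * ((I + 1) / (1 + h) ^ B) := by positivity
    have e3 : 0 ≤ (2 : ℝ) ^ B * (4 ^ h * DE E (I + h)) := by positivity
    have e4 : (K + 2 ^ B) * (((I : ℝ) + 1) / (1 + h) ^ B + (h + 4 ^ h * DE E (I + h))) =
        K * ((I + 1) / (1 + h) ^ B + 4 ^ h * DE E (I + h)) + 2 ^ B * h + K * h +
        2 ^ B * ((I + 1) / (1 + h) ^ B) + 2 ^ B * (4 ^ h * DE E (I + h)) := by ring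
    rw [e4]
    linarith
  refine h3.trans ?_
  have g1 : C * X / ((i₀ : ℝ) + 1) ≤ (C + C * (K + 2 ^ B)) * X / ((i₀ : ℝ) + 1) := by
    apply div_le_div_of_nonneg_right _ (by positivity)
    apply mul_le_mul_of_nonneg_right _ hX0.le
    have : 0 ≤ C * (K + 2 ^ B) := by positivity
    linarith
  have g2 : C * X / M * (∑ i ∈ Icc i₀ I, 1 / (ell k E i) ^ B) ≤
      (C + C * (K + 2 ^ B)) * X / M * ((I + 1) / (1 + h) ^ B + (h + 4 ^ h * DE E (I + h))) := by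
    have e1 := mul_le_mul_of_nonneg_left h6 (show 0 ≤ C * X / M by positivity)
    refine e1.trans ?_
    have e2 : 0 ≤ C * X / M * (((I : ℝ) + 1) / (1 + h) ^ B + (h + 4 ^ h * DE E (I + h))) := by positivity
    have e3 : (C + C * (K + 2 ^ B)) * X / M * (((I : ℝ) + 1) / (1 + h) ^ B + (h + 4 ^ h * DE E (I + h))) =
        C * X / M * (((I : ℝ) + 1) / (1 + h) ^ B + (h + 4 ^ h * DE E (I + h))) +
        C * X / M * ((K + 2 ^ B) * (((I : ℝ) + 1) / (1 + h) ^ B + (h + 4 ^ h * DE E (I + h)))) := by ring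
    rw [e3]
    linarith
  linarith

end Pool.Agent.U457.PS
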