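import Pool.Agent.U457.PS.Seg4

/-! Visits of a trajectory to a set: asymptotic form. -/

set_option autoImplicit false

namespace Pool.Agent.U457.PS

open Finset Filter Topology
open Pool.Agent.H499R2.CO (Tz)

/-- the integers whose trajectory has at least `M` visits to `E` before it goes below `Y` -/
def VZ (k : ℤ) (E : Set ℤ) (Y M : ℝ) : Set ℤ :=
  {n : ℤ | ∃ J : Finset ℕ,
    (∀ j ∈ J, (∀ j' ≤ j, Y ≤ |(((Tz k)^[j'] n : ℤ) : ℝ)|) ∧ (Tz k)^[j] n ∈ E) ∧ M ≤ J.card}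

theorem VZ_mono {k : ℤ} {E : Set ℤ} {Y Y' M M' : ℝ} (hY : Y' ≤ Y) (hM : M' ≤ M) :
    VZ k E Y M ⊆ VZ k E Y' M' := by
  rintro n ⟨J, h1, h2⟩
  exact ⟨J, fun j hj => ⟨fun j' hj' => hY.trans ((h1 j hj).1 j' hj'), (h1 j hj).2⟩, hM.trans h2⟩

theorem two_pow_lower (B h : ℕ) : 1 / (2 : ℝ) ^ h ≤ 2 * (B.factorial : ℝ) * 2 ^ B / (1 + h) ^ B := by
  have hl := Real.log_two_gt_d9
  have hh : (0 : ℝ) ≤ h := Nat.cast_nonneg h
  have hx : 0 < (1 + (h : ℝ)) * Real.log 2 := by positivity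
  have h1 := exp_lower B hx
  have h2 : Real.exp (-((1 + (h : ℝ)) * Real.log 2)) = 1 / 2 / 2 ^ h := by
    have : (1 + (h : ℝ)) * Real.log 2 = ((h + 1 : ℕ) : ℝ) * Real.log 2 := by push_cast; ring
    rw [this, Real.exp_neg, Real.exp_nat_mul, Real.exp_log (by norm_num), pow_succ]
    field_simp
  rw [h2] at h1
  have h3 : ((1 + (h : ℝ)) / 2) ^ B ≤ ((1 + (h : ℝ)) * Real.log 2) ^ B := by
    apply pow_le_pow_left₀ (by positivity)
    nlinarith
  have h4 : (B.factorial : ℝ) / ((1 + (h : ℝ)) * Real.log 2) ^ B ≤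
      (B.factorial : ℝ) / ((1 + (h : ℝ)) / 2) ^ B :=
    div_le_div_of_nonneg_left (Nat.cast_nonneg _) (by positivity) h3
  rw [div_pow, div_div_eq_mul_div] at h4
  have h5 : 1 / (2 : ℝ) ^ h = 2 * (1 / 2 / 2 ^ h) := by ring
  rw [h5]
  have h6 : 2 * (B.factorial : ℝ) * 2 ^ B / (1 + (h : ℝ)) ^ B =
      2 * ((B.factorial : ℝ) * 2 ^ B / (1 + (h : ℝ)) ^ B) := by ring
  rw [h6]
  linarith

/-- the choice of the number of shells -/
theorem choose_h (B : ℕ) {δ : ℝ} (hδ : 0 < δ) : ∃ h : ℕ,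
    (∀ D N : ℝ, 0 ≤ N → D ≤ δ * N → D ≤ 6 * N → 4 ^ h * D ≤ 6 / 2 ^ h * N) ∧
    1 / (1 + (h : ℝ)) ^ B ≤ 5 ^ B / (Real.log (2 + 1 / δ)) ^ B := by
  obtain ⟨h, h1, h2⟩ := exists_nat_pow_near (x := max 1 (1 / δ)) (y := (8 : ℝ)) (le_max_left _ _)
    (by norm_num)
  refine ⟨h, ?_, ?_⟩
  · intro D N hN hD1 hD2
    rcases Nat.eq_zero_or_pos h with h0 | hpos
    · rw [h0]; simpa using hD2
    · have h3 : (1 : ℝ) < 8 ^ h := one_lt_pow₀ (by norm_num) (by omega)
      have h4 : (8 : ℝ) ^ h ≤ 1 / δ := by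
        rcases le_max_iff.1 h1 with h5 | h5
        · linarith
        · exact h5
      rw [le_div_iff₀ hδ] at h4
      have e : (8 : ℝ) ^ h = 4 ^ h * 2 ^ h := by rw [← mul_pow]; norm_num
      rw [e] at h4
      have h6 : (4 : ℝ) ^ h * δ ≤ 1 / 2 ^ h := by
        rw [le_div_iff₀ (by positivity)]; linarith
      calc (4 : ℝ) ^ h * D ≤ 4 ^ h * (δ * N) := mul_le_mul_of_nonneg_left hD1 (by positivity)
        _ = (4 ^ h * δ) * N := by ring
        _ ≤ (1 / 2 ^ h) * N := mul_le_mul_of_nonneg_right h6 hN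
        _ ≤ 6 / 2 ^ h * N := by
            apply mul_le_mul_of_nonneg_right _ hN
            apply div_le_div_of_nonneg_right (by norm_num) (by positivity)
  · have hδi : 0 < 1 / δ := by positivity
    have hL : 0 < Real.log (2 + 1 / δ) := Real.log_pos (by linarith)
    have h3 : 2 + 1 / δ ≤ 8 ^ (h + 2) := by
      have h4 : 1 / δ ≤ 8 ^ (h + 1) := (le_max_right _ _).trans h2.le
      have h5 : (1 : ℝ) ≤ 8 ^ (h + 1) := one_le_pow₀ (by norm_num)
      have h6 : (8 : ℝ) ^ (h + 2) = 8 ^ (h + 1) * 8 := pow_succ _ _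
      rw [h6]; linarith
    have h4 : Real.log (2 + 1 / δ) ≤ 5 * (1 + h) := by
      have h5 : Real.log (2 + 1 / δ) ≤ Real.log (8 ^ (h + 2)) := Real.log_le_log (by positivity) h3
      rw [Real.log_pow, show (8 : ℝ) = 2 ^ 3 by norm_num, Real.log_pow] at h5
      push_cast at h5
      have h6 := Real.log_two_lt_d9
      have hh : (0 : ℝ) ≤ h := Nat.cast_nonneg h
      nlinarith
    rw [div_le_div_iff₀ (by positivity) (by positivity), one_mul, ← mul_pow]
    exact pow_le_pow_left₀ hL.le h4 B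

/-- VISITS, with a fixed lower level -/
theorem visits_fix {k : ℤ} (hk : Odd k) (hk3 : IsCoprime k 3) (B : ℕ) :
    ∃ C : ℝ, 0 < C ∧ ∃ i₁ : ℕ, ∀ (E : Set ℤ) (δ : ℝ), 0 < δ →
      (∀ᶠ m : ℕ in atTop, DE E m ≤ δ * (m + 1)) →
      ∀ i₀ : ℕ, i₁ ≤ i₀ → ∀ l : ℝ, 0 < l → ∀ᶠ X : ℝ in atTop,
        ({n : ℤ | |(n : ℝ)| ≤ X ∧ n ∈ VZ k E (2 ^ i₀) (l * Real.log X)}.ncard : ℝ) ≤
          (C / (i₀ + 1) + C / (l * (Real.log (2 + 1 / δ)) ^ B)) * X := by
  obtain ⟨C, hC, i₁, h⟩ := visits_main hk hk3 B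
  set K : ℝ := 5 ^ B * (2 + 24 * (B.factorial : ℝ) * 2 ^ B) with hK
  have hK0 : 0 < K := by positivity
  refine ⟨C + C * K * 3, by positivity, i₁, ?_⟩
  intro E δ hδ hE i₀ hi₀ l hl
  obtain ⟨g, hg1, hg2⟩ := choose_h B hδ
  have hδi : 0 < 1 / δ := by positivity
  have hL : 0 < Real.log (2 + 1 / δ) := Real.log_pos (by linarith)
  obtain ⟨m₀, hm₀⟩ := Filter.eventually_atTop.1 hE
  filter_upwards [eventually_ge_atTop ((2 : ℝ) ^ (m₀ + g + g * (1 + g) ^ B + 2)),
    eventually_ge_atTop (Real.exp 1)] with X hX1 hX2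
  have hX0 : 0 < X := lt_of_lt_of_le (Real.exp_pos 1) hX2
  have hXone : 1 ≤ X := (Real.one_le_exp (by norm_num)).trans hX2
  have hlogX : 1 ≤ Real.log X := by
    rw [Real.le_log_iff_exp_le hX0]; exact hX2
  obtain ⟨I, hI1, hI2⟩ := exists_nat_pow_near (x := X) (y := (2 : ℝ)) hXone (by norm_num)
  have hIbig : m₀ + g + g * (1 + g) ^ B + 2 ≤ I := by
    by_contra hcon
    push Not at hcon
    have : (2 : ℝ) ^ (I + 1) ≤ 2 ^ (m₀ + g + g * (1 + g) ^ B + 2) :=
      pow_le_pow_right₀ (by norm_num) (by omega)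
    linarith
  have h1 := h E g i₀ I X (l * Real.log X) hi₀ hI1 hI2 (by positivity)
  refine le_trans (le_of_eq ?_) (h1.trans ?_)
  · rfl
  have hI0 : (0 : ℝ) ≤ I := Nat.cast_nonneg I
  have hgI : (g : ℝ) ≤ I := by
    have : g ≤ I := by omega
    exact_mod_cast this
  have hgI2 : (g : ℝ) ≤ (1 / (1 + (g : ℝ)) ^ B) * (I + 1) := by
    have e1 : g * (1 + g) ^ B ≤ I + 1 := by omega
    have e2 : (g : ℝ) * (1 + g) ^ B ≤ I + 1 := by exact_mod_cast e1
    rw [one_div, inv_mul_eq_div, le_div_iff₀ (by positivity)]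
    exact e2
  have hD : 4 ^ g * DE E (I + g) ≤ 12 / 2 ^ g * (I + 1) := by
    have e1 := hm₀ (I + g) (by omega)
    have e2 := DE_le E (I + g)
    have e3 := hg1 (DE E (I + g)) (((I + g : ℕ) : ℝ) + 1) (by positivity) e1 e2
    refine e3.trans ?_
    push_cast
    have e4 : (I : ℝ) + g + 1 ≤ 2 * (I + 1) := by linarith
    calc 6 / 2 ^ g * ((I : ℝ) + g + 1) ≤ 6 / 2 ^ g * (2 * (I + 1)) :=
          mul_le_mul_of_nonneg_left e4 (by positivity)
      _ = _ := by ring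
  have hbr : ((I : ℝ) + 1) / (1 + g) ^ B + (g + 4 ^ g * DE E (I + g)) ≤
      K * (I + 1) / (Real.log (2 + 1 / δ)) ^ B := by
    have e1 := two_pow_lower B g
    have e2 : 12 / (2 : ℝ) ^ g * (I + 1) ≤ 24 * (B.factorial : ℝ) * 2 ^ B * (1 / (1 + (g : ℝ)) ^ B) * (I + 1) := by
      apply mul_le_mul_of_nonneg_right _ (by positivity)
      have : 12 / (2 : ℝ) ^ g = 12 * (1 / 2 ^ g) := by ring
      rw [this]
      calc 12 * (1 / (2 : ℝ) ^ g) ≤ 12 * (2 * (B.factorial : ℝ) * 2 ^ B / (1 + g) ^ B) := by linarith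
        _ = _ := by ring
    have e3 : ((I : ℝ) + 1) / (1 + g) ^ B = (1 / (1 + (g : ℝ)) ^ B) * (I + 1) := by ring
    rw [e3]
    calc (1 / (1 + (g : ℝ)) ^ B) * (I + 1) + (g + 4 ^ g * DE E (I + g)) ≤
          (1 / (1 + (g : ℝ)) ^ B) * (I + 1) + ((1 / (1 + (g : ℝ)) ^ B) * (I + 1) +
          24 * (B.factorial : ℝ) * 2 ^ B * (1 / (1 + (g : ℝ)) ^ B) * (I + 1)) := by linarith
      _ = (1 / (1 + (g : ℝ)) ^ B) * ((2 + 24 * (B.factorial : ℝ) * 2 ^ B) * (I + 1)) := by ring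
      _ ≤ (5 ^ B / (Real.log (2 + 1 / δ)) ^ B) * ((2 + 24 * (B.factorial : ℝ) * 2 ^ B) * (I + 1)) :=
          mul_le_mul_of_nonneg_right hg2 (by positivity)
      _ = _ := by rw [hK]; ring
  have hIlog : (I : ℝ) + 1 ≤ 3 * Real.log X := by
    have e1 : Real.log ((2 : ℝ) ^ I) ≤ Real.log X := Real.log_le_log (by positivity) hI1
    rw [Real.log_pow] at e1
    have e2 := Real.log_two_gt_d9
    nlinarith
  have h2 : C * X / (l * Real.log X) * (((I : ℝ) + 1) / (1 + g) ^ B + (g + 4 ^ g * DE E (I + g))) ≤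
      C * K * 3 / (l * (Real.log (2 + 1 / δ)) ^ B) * X := by
    calc C * X / (l * Real.log X) * (((I : ℝ) + 1) / (1 + g) ^ B + (g + 4 ^ g * DE E (I + g))) ≤
          C * X / (l * Real.log X) * (K * (I + 1) / (Real.log (2 + 1 / δ)) ^ B) :=
            mul_le_mul_of_nonneg_left hbr (by positivity)
      _ ≤ C * X / (l * Real.log X) * (K * (3 * Real.log X) / (Real.log (2 + 1 / δ)) ^ B) := by
          apply mul_le_mul_of_nonneg_left _ (by positivity)
          apply div_le_div_of_nonneg_right _ (by positivity)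
          exact mul_le_mul_of_nonneg_left hIlog hK0.le
      _ = _ := by field_simp
  have h3 : C * X / ((i₀ : ℝ) + 1) ≤ (C + C * K * 3) / ((i₀ : ℝ) + 1) * X := by
    rw [div_mul_eq_mul_div]
    apply div_le_div_of_nonneg_right _ (by positivity)
    apply mul_le_mul_of_nonneg_right _ hX0.le
    have : 0 ≤ C * K * 3 := by positivity
    linarith
  have h4 : C * K * 3 / (l * (Real.log (2 + 1 / δ)) ^ B) * X ≤
      (C + C * K * 3) / (l * (Real.log (2 + 1 / δ)) ^ B) * X := by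
    apply mul_le_mul_of_nonneg_right _ hX0.le
    apply div_le_div_of_nonneg_right _ (by positivity)
    linarith
  rw [add_mul]
  linarith

/-- VISITS to thin sets, with a fixed lower level -/
theorem visits_rate {k : ℤ} (hk : Odd k) (hk3 : IsCoprime k 3) (B : ℕ) :
    ∃ C : ℝ, 0 < C ∧ ∃ i₁ : ℕ, ∀ (E : Set ℤ) (c : ℝ), 0 < c → c < 1 →
      (∀ᶠ m : ℕ in atTop, DE E m ≤ (m : ℝ) ^ (1 - c)) →
      ∀ i₀ : ℕ, i₁ ≤ i₀ → ∀ᶠ X : ℝ in atTop,
        ({n : ℤ | |(n : ℝ)| ≤ X ∧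
          n ∈ VZ k E (2 ^ i₀) (Real.log X / (Real.log (Real.log X)) ^ B)}.ncard : ℝ) ≤
          C / (i₀ + 1) * X := by
  obtain ⟨C, hC, i₁, h⟩ := visits_main hk hk3 (B + 1)
  refine ⟨C + 1, by positivity, i₁, ?_⟩
  intro E c hc hc1 hE i₀ hi₀
  set F1 : ℝ := 2 * ((B + 1).factorial : ℝ) * 2 ^ (B + 1) with hF1
  set F2 : ℝ := 2 * ((B + 2).factorial : ℝ) * 2 ^ (B + 2) with hF2
  have hF10 : 0 < F1 := by positivity
  have hF20 : 0 < F2 := by positivity
  set K : ℝ := C * 3 * (1 + F2 + 2 * F1) * (3 / c) ^ (B + 1) with hK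
  have hK0 : 0 < K := by positivity
  obtain ⟨m₀, hm₀⟩ := Filter.eventually_atTop.1 hE
  have ell1 : Tendsto (fun X : ℝ => Real.log (Real.log X)) atTop atTop :=
    Real.tendsto_log_atTop.comp Real.tendsto_log_atTop
  filter_upwards [eventually_ge_atTop ((2 : ℝ) ^ (m₀ + 10)), eventually_ge_atTop (Real.exp 1),
    ell1.eventually_ge_atTop (max 1 (K * (i₀ + 1)))] with X hX1 hX2 hX3
  have hX0 : 0 < X := lt_of_lt_of_le (Real.exp_pos 1) hX2
  have hXone : 1 ≤ X := (Real.one_le_exp (by norm_num)).trans hX2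
  have hlogX : 1 ≤ Real.log X := by
    rw [Real.le_log_iff_exp_le hX0]; exact hX2
  set ll := Real.log (Real.log X) with hll
  have hll1 : 1 ≤ ll := (le_max_left _ _).trans hX3
  have hllK : K * (i₀ + 1) ≤ ll := (le_max_right _ _).trans hX3
  have hll0 : 0 < ll := by linarith
  obtain ⟨I, hI1, hI2⟩ := exists_nat_pow_near (x := X) (y := (2 : ℝ)) hXone (by norm_num)
  have hIbig : m₀ + 10 ≤ I := by
    by_contra hcon
    push Not at hcon
    have : (2 : ℝ) ^ (I + 1) ≤ 2 ^ (m₀ + 10) := pow_le_pow_right₀ (by norm_num) (by omega)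
    linarith
  have hI10 : (10 : ℝ) ≤ I := by
    have : 10 ≤ I := by omega
    exact_mod_cast this
  have hI0 : (0 : ℝ) < I := by linarith
  -- the number of shells
  have hIc : (1 : ℝ) ≤ (I : ℝ) ^ c := Real.one_le_rpow (by linarith) hc.le
  obtain ⟨g, hg1, hg2⟩ := exists_nat_pow_near (x := (I : ℝ) ^ c) (y := (8 : ℝ)) hIc (by norm_num)
  have hIcI : (I : ℝ) ^ c ≤ I := by
    calc (I : ℝ) ^ c ≤ (I : ℝ) ^ (1 : ℝ) := Real.rpow_le_rpow_of_exponent_le (by linarith) hc1.le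
      _ = I := Real.rpow_one _
  have hg0 : (0 : ℝ) ≤ g := Nat.cast_nonneg g
  have hgI : g ≤ I := by
    have e1 : (g : ℝ) < 8 ^ g := by
      have : g < 8 ^ g := Nat.lt_pow_self (by norm_num)
      exact_mod_cast this
    have : (g : ℝ) < I := by linarith
    exact_mod_cast this.le
  have hgIR : (g : ℝ) ≤ I := by exact_mod_cast hgI
  have h1 := h E g i₀ I X (Real.log X / ll ^ B) hi₀ hI1 hI2 (by positivity)
  refine le_trans (le_of_eq ?_) (h1.trans ?_)
  · rfl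
  have hIlog : (I : ℝ) + 1 ≤ 3 * Real.log X := by
    have e1 : Real.log ((2 : ℝ) ^ I) ≤ Real.log X := Real.log_le_log (by positivity) hI1
    rw [Real.log_pow] at e1
    have e2 := Real.log_two_gt_d9
    nlinarith
  -- the three terms
  have t2 : (g : ℝ) ≤ F2 * (I + 1) / (1 + g) ^ (B + 1) := by
    have e1 := two_pow_lower (B + 2) g
    rw [← hF2] at e1
    rw [div_le_div_iff₀ (by positivity) (by positivity), one_mul] at e1
    rw [le_div_iff₀ (by positivity)]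
    have e2 : (2 : ℝ) ^ g ≤ I + 1 := by
      have : (2 : ℝ) ^ g ≤ 8 ^ g := pow_le_pow_left₀ (by norm_num) (by norm_num) g
      linarith
    calc (g : ℝ) * (1 + g) ^ (B + 1) ≤ (1 + g) * (1 + g) ^ (B + 1) := by
          apply mul_le_mul_of_nonneg_right _ (by positivity)
          linarith
      _ = (1 + (g : ℝ)) ^ (B + 2) := by ring
      _ ≤ F2 * 2 ^ g := e1
      _ ≤ F2 * (I + 1) := mul_le_mul_of_nonneg_left e2 hF20.le
  have t3 : 4 ^ g * DE E (I + g) ≤ 2 * F1 * (I + 1) / (1 + g) ^ (B + 1) := by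
    have e1 := hm₀ (I + g) (by omega)
    have e2 : ((I + g : ℕ) : ℝ) ^ (1 - c) ≤ 2 * (I / (I : ℝ) ^ c) := by
      push_cast
      have f1 : ((I : ℝ) + g) ^ (1 - c) ≤ (2 * I) ^ (1 - c) :=
        Real.rpow_le_rpow (by positivity) (by linarith) (by linarith)
      have f2 : (2 * (I : ℝ)) ^ (1 - c) = 2 ^ (1 - c) * (I : ℝ) ^ (1 - c) :=
        Real.mul_rpow (by norm_num) hI0.le
      have f3 : (2 : ℝ) ^ (1 - c) ≤ 2 := by
        calc (2 : ℝ) ^ (1 - c) ≤ 2 ^ (1 : ℝ) :=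
              Real.rpow_le_rpow_of_exponent_le (by norm_num) (by linarith)
          _ = 2 := Real.rpow_one 2
      have f4 : (I : ℝ) ^ (1 - c) = I / (I : ℝ) ^ c := by
        rw [Real.rpow_sub hI0, Real.rpow_one]
      rw [f2, f4] at f1
      exact f1.trans (mul_le_mul_of_nonneg_right f3 (by positivity))
    have e3 : (I : ℝ) / (I : ℝ) ^ c ≤ I / 8 ^ g :=
      div_le_div_of_nonneg_left hI0.le (by positivity) hg1
    have e4 := two_pow_lower (B + 1) g
    rw [← hF1] at e4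
    calc 4 ^ g * DE E (I + g) ≤ 4 ^ g * (2 * (I / 8 ^ g)) :=
          mul_le_mul_of_nonneg_left (by linarith) (by positivity)
      _ = 2 * I * (1 / 2 ^ g) := by
          have : (8 : ℝ) ^ g = 4 ^ g * 2 ^ g := by rw [← mul_pow]; norm_num
          rw [this]; field_simp
      _ ≤ 2 * (I + 1) * (F1 / (1 + g) ^ (B + 1)) :=
          mul_le_mul (by linarith) e4 (by positivity) (by positivity)
      _ = _ := by ring
  have hbr : ((I : ℝ) + 1) / (1 + g) ^ (B + 1) + (g + 4 ^ g * DE E (I + g)) ≤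
      (1 + F2 + 2 * F1) * (3 * Real.log X) / (1 + g) ^ (B + 1) := by
    calc ((I : ℝ) + 1) / (1 + g) ^ (B + 1) + (g + 4 ^ g * DE E (I + g)) ≤
          ((I : ℝ) + 1) / (1 + g) ^ (B + 1) + (F2 * (I + 1) / (1 + g) ^ (B + 1) +
            2 * F1 * (I + 1) / (1 + g) ^ (B + 1)) := by linarith
      _ = (1 + F2 + 2 * F1) * (I + 1) / (1 + g) ^ (B + 1) := by ring
      _ ≤ _ := by
          apply div_le_div_of_nonneg_right _ (by positivity)
          exact mul_le_mul_of_nonneg_left hIlog (by positivity)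
  -- the size of `g`
  have hgll : ll ≤ 3 / c * (1 + g) := by
    have e1 : Real.log X ≤ I := by
      have f1 : Real.log X ≤ Real.log (2 ^ (I + 1)) := Real.log_le_log hX0 hI2.le
      rw [Real.log_pow] at f1
      push_cast at f1
      have f2 := Real.log_two_lt_d9
      nlinarith
    have e2 : ll ≤ Real.log I := Real.log_le_log (by linarith) e1
    have e3 : c * Real.log I ≤ (1 + g) * Real.log 8 := by
      have f1 : Real.log ((I : ℝ) ^ c) ≤ Real.log (8 ^ (g + 1)) :=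
        Real.log_le_log (by positivity) hg2.le
      rw [Real.log_rpow hI0, Real.log_pow] at f1
      push_cast at f1
      linarith
    have e4 : Real.log 8 ≤ 3 := by
      rw [show (8 : ℝ) = 2 ^ 3 by norm_num, Real.log_pow]
      have := Real.log_two_lt_d9
      push_cast
      linarith
    have e5 : c * ll ≤ 3 * (1 + g) := by
      have f1 : c * ll ≤ c * Real.log I := mul_le_mul_of_nonneg_left e2 hc.le
      have f2 : (1 + (g : ℝ)) * Real.log 8 ≤ (1 + g) * 3 := mul_le_mul_of_nonneg_left e4 (by positivity)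
      linarith
    rw [div_mul_eq_mul_div, le_div_iff₀ hc]
    linarith
  have h2 : C * X / (Real.log X / ll ^ B) *
      (((I : ℝ) + 1) / (1 + g) ^ (B + 1) + (g + 4 ^ g * DE E (I + g))) ≤ 1 / (i₀ + 1) * X := by
    have e1 : ll ^ (B + 1) ≤ (3 / c) ^ (B + 1) * (1 + g) ^ (B + 1) := by
      rw [← mul_pow]; exact pow_le_pow_left₀ hll0.le hgll _
    calc C * X / (Real.log X / ll ^ B) *
      (((I : ℝ) + 1) / (1 + g) ^ (B + 1) + (g + 4 ^ g * DE E (I + g))) ≤
        C * X / (Real.log X / ll ^ B) * ((1 + F2 + 2 * F1) * (3 * Real.log X) / (1 + g) ^ (B + 1)) :=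
          mul_le_mul_of_nonneg_left hbr (by positivity)
      _ = C * 3 * (1 + F2 + 2 * F1) * X * (ll ^ (B + 1) / (1 + (g : ℝ)) ^ (B + 1)) / ll := by
          field_simp
          ring
      _ ≤ C * 3 * (1 + F2 + 2 * F1) * X * ((3 / c) ^ (B + 1)) / ll := by
          apply div_le_div_of_nonneg_right _ hll0.le
          apply mul_le_mul_of_nonneg_left _ (by positivity)
          rw [div_le_iff₀ (by positivity)]
          exact e1
      _ = K / ll * X := by rw [hK]; ring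
      _ ≤ _ := by
          apply mul_le_mul_of_nonneg_right _ hX0.le
          rw [div_le_div_iff₀ hll0 (by positivity)]
          linarith
  have h3 : C * X / ((i₀ : ℝ) + 1) = C / ((i₀ : ℝ) + 1) * X := by ring
  rw [h3]
  have h4 : (C + 1) / ((i₀ : ℝ) + 1) * X = C / ((i₀ : ℝ) + 1) * X + 1 / (i₀ + 1) * X := by ring
  rw [h4]
  linarith

end Pool.Agent.U457.PS
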