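import Pool.Agent.U457.PS.Thin2

/-! Meetings with arbitrary sets above a level: the two forms of the bound. -/

set_option autoImplicit false

namespace Pool.Agent.U457.PS

open Finset Filter Topology
open Pool.Agent.H499R2.CO (Tz)
open Pool.Agent.H319R2 (beta beta_lt beta_gt)

/-- a geometric sum over the scales below a level -/
theorem geo_above {b : ℝ} (hb : 0 < b) {Y m : ℝ} (hY : 0 < Y) (hm : 0 < m) (J : ℕ) (I : Finset ℕ)
    (hI : ∀ i ∈ I, i < J ∧ m ≤ 2 ^ i * Y) :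
    ∑ i ∈ I, (2 ^ i * Y) ^ (-b) ≤ (1 - (2 : ℝ) ^ (-b))⁻¹ * m ^ (-b) := by
  have hq0 : (0 : ℝ) < 2 ^ (-b) := Real.rpow_pos_of_pos (by norm_num) _
  have hq1 : (2 : ℝ) ^ (-b) < 1 := Real.rpow_lt_one_of_one_lt_of_neg (by norm_num) (by linarith)
  have hqq : 0 < 1 - (2 : ℝ) ^ (-b) := by linarith
  set u : ℕ → ℝ := fun i => (2 ^ i * Y) ^ (-b) with hu
  have hu0 : ∀ i, 0 < u i := fun i => Real.rpow_pos_of_pos (by positivity) _
  have hstep : ∀ i, u (i + 1) = 2 ^ (-b) * u i := by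
    intro i
    simp only [hu]
    rw [pow_succ, mul_comm ((2 : ℝ) ^ i) 2, mul_assoc, Real.mul_rpow (by norm_num) (by positivity)]
  have hmb : 0 < m ^ (-b) := Real.rpow_pos_of_pos hm _
  set g : ℕ → ℝ := fun i => min (u i) (m ^ (-b)) with hg
  have hmono : ∀ i, g (i + 1) ≤ g i := by
    intro i
    apply min_le_min _ le_rfl
    rw [hstep]
    have := hu0 i
    nlinarith
  have hterm : ∀ i ∈ I, (1 - (2 : ℝ) ^ (-b)) * u i = g i - g (i + 1) := by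
    intro i hi
    have h1 : u i ≤ m ^ (-b) := Real.rpow_le_rpow_of_nonpos hm (hI i hi).2 (by linarith)
    have h2 : u (i + 1) ≤ m ^ (-b) := by
      rw [hstep]
      have := hu0 i
      nlinarith
    simp only [hg]
    rw [min_eq_left h1, min_eq_left h2, hstep]
    ring
  have h1 : (1 - (2 : ℝ) ^ (-b)) * ∑ i ∈ I, u i ≤ m ^ (-b) := by
    rw [mul_sum, sum_congr rfl hterm]
    calc ∑ i ∈ I, (g i - g (i + 1)) ≤ ∑ i ∈ range J, (g i - g (i + 1)) := by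
          apply sum_le_sum_of_subset_of_nonneg
          · intro i hi
            exact mem_range.2 (hI i hi).1
          · intro i _ _
            linarith [hmono i]
      _ = g 0 - g J := sum_range_sub' g J
      _ ≤ m ^ (-b) := by
          have h2 : g 0 ≤ m ^ (-b) := min_le_right _ _
          have h3 : 0 ≤ g J := le_min (hu0 J).le hmb.le
          linarith
  rw [inv_mul_eq_div, le_div_iff₀ hqq]
  linarith

theorem exists_J {X Y : ℝ} (hY : 1 ≤ Y) : ∃ J : ℕ, X < 2 ^ J * Y := by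
  obtain ⟨J, hJ⟩ := pow_unbounded_of_one_lt X (show (1 : ℝ) < 2 by norm_num)
  refine ⟨J, hJ.trans_le ?_⟩
  exact le_mul_of_one_le_right (by positivity) hY

/-- THIN SETS -/
theorem thin {k : ℤ} (hk : Odd k) (hk3 : IsCoprime k 3) {δ c : ℝ} (hδ1 : δ ≤ 1) (hc0 : 0 < c)
    (hcδ : c < δ / (2 - δ)) (hcb : c < 1 - beta) :
    ∃ C : ℝ, 0 < C ∧ ∀ Y : ℝ, 1 ≤ Y → ∀ D : ℝ, ∀ A : Set ℤ,
      (∀ N : ℝ, Y ≤ N → ({a : ℤ | a ∈ A ∧ Y ≤ |(a : ℝ)| ∧ |(a : ℝ)| ≤ N}.ncard : ℝ) ≤ D * N ^ (1 - δ)) →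
      ∀ X : ℝ, 1 ≤ X → ({x : ℤ | |(x : ℝ)| ≤ X ∧ x ∈ MA k Y A}.ncard : ℝ) ≤
        C * (1 + D) * X * Y ^ (-c) := by
  classical
  obtain ⟨σ, hσ1, hσ2⟩ := exists_between (lt_min hcδ hcb)
  have hσδ : σ < δ / (2 - δ) := hσ2.trans_le (min_le_left _ _)
  have hσb : σ < 1 - beta := hσ2.trans_le (min_le_right _ _)
  have hσ0 : 0 < σ := hc0.trans hσ1
  rw [lt_div_iff₀ (by linarith)] at hσδ
  obtain ⟨C, hC, h⟩ := core hk hk3 hσ0 hσb (ε := σ - c) (by linarith) (by linarith)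
  have hg0 : (2 : ℝ) ^ (-c) < 1 := Real.rpow_lt_one_of_one_lt_of_neg (by norm_num) (by linarith)
  have hgg : 0 < 1 - (2 : ℝ) ^ (-c) := by linarith
  set G : ℝ := (1 - (2 : ℝ) ^ (-c))⁻¹ with hG
  have hGp : 0 < G := inv_pos.2 hgg
  refine ⟨C * (G + 1), by positivity, ?_⟩
  intro Y hY D A hA X hX
  have hY0 : 0 < Y := by linarith
  have hX0 : 0 < X := by linarith
  have hD : 0 ≤ D := by
    have h1 := hA Y le_rfl
    have h2 : 0 < Y ^ (1 - δ) := Real.rpow_pos_of_pos hY0 _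
    by_contra hc
    push Not at hc
    have h3 : (0 : ℝ) ≤ ({a : ℤ | a ∈ A ∧ Y ≤ |(a : ℝ)| ∧ |(a : ℝ)| ≤ Y}.ncard : ℝ) := Nat.cast_nonneg _
    have h4 : D * Y ^ (1 - δ) < 0 := mul_neg_of_neg_of_pos hc h2
    linarith
  obtain ⟨J, hJ⟩ := exists_J (X := X) hY
  have h1 := h Y hY A X hX J hJ
  refine h1.trans ?_
  have hYc : 0 < Y ^ (-c) := Real.rpow_pos_of_pos hY0 _
  have e0 : σ - c - σ = -c := by ring
  rw [e0]
  set I := (range J).filter (fun i => 2 ^ i * Y ≤ X) with hI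
  have hterm : ∀ i ∈ I, ({a : ℤ | a ∈ A ∧ 2 ^ i * Y ≤ |(a : ℝ)| ∧
      |(a : ℝ)| < (2 ^ i * Y) * (2 ^ i * Y) ^ σ}.ncard : ℝ) * (2 ^ i * Y) ^ (σ - c - 1) ≤
        D * (2 ^ i * Y) ^ (-c) := by
    intro i _
    set z : ℝ := 2 ^ i * Y with hz
    have hYz : Y ≤ z := le_mul_of_one_le_left hY0.le (one_le_pow₀ (by norm_num))
    have hz1 : 1 ≤ z := hY.trans hYz
    have hz0 : 0 < z := by linarith
    have hzs : 1 ≤ z ^ σ := Real.one_le_rpow hz1 hσ0.le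
    have a1 := hA (z * z ^ σ) (hYz.trans (le_mul_of_one_le_right hz0.le hzs))
    have hsub : {a : ℤ | a ∈ A ∧ z ≤ |(a : ℝ)| ∧ |(a : ℝ)| < z * z ^ σ} ⊆
        {a : ℤ | a ∈ A ∧ Y ≤ |(a : ℝ)| ∧ |(a : ℝ)| ≤ z * z ^ σ} :=
      fun a ha => ⟨ha.1, hYz.trans ha.2.1, ha.2.2.le⟩
    have hfin : {a : ℤ | a ∈ A ∧ Y ≤ |(a : ℝ)| ∧ |(a : ℝ)| ≤ z * z ^ σ}.Finite :=
      (fin_abs (z * z ^ σ) (fun _ => True)).subset fun a ha => ⟨ha.2.2, trivial⟩
    have a2 : ({a : ℤ | a ∈ A ∧ z ≤ |(a : ℝ)| ∧ |(a : ℝ)| < z * z ^ σ}.ncard : ℝ) ≤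
        ({a : ℤ | a ∈ A ∧ Y ≤ |(a : ℝ)| ∧ |(a : ℝ)| ≤ z * z ^ σ}.ncard : ℝ) := by
      exact_mod_cast Set.ncard_le_ncard hsub hfin
    have e1 : (z * z ^ σ) ^ (1 - δ) = z ^ ((1 + σ) * (1 - δ)) := by
      rw [Real.mul_rpow hz0.le (Real.rpow_nonneg hz0.le _), ← Real.rpow_mul hz0.le,
        ← Real.rpow_add hz0]
      congr 1
      ring
    calc _ ≤ (D * z ^ ((1 + σ) * (1 - δ))) * z ^ (σ - c - 1) := by
          apply mul_le_mul_of_nonneg_right _ (Real.rpow_nonneg hz0.le _)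
          rw [← e1]
          exact a2.trans a1
      _ = D * z ^ ((1 + σ) * (1 - δ) + (σ - c - 1)) := by
          rw [Real.rpow_add hz0]; ring
      _ ≤ D * z ^ (-c) := by
          apply mul_le_mul_of_nonneg_left _ hD
          apply Real.rpow_le_rpow_of_exponent_le hz1
          nlinarith
  have hsum := sum_le_sum hterm
  have hgeo := geo_above hc0 hY0 hY0 J I (by
    intro i hi
    rw [hI, mem_filter, mem_range] at hi
    exact ⟨hi.1, le_mul_of_one_le_left hY0.le (one_le_pow₀ (by norm_num))⟩)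
  rw [← mul_sum] at hsum
  have h2 : D * ∑ i ∈ I, (2 ^ i * Y) ^ (-c) ≤ D * (G * Y ^ (-c)) :=
    mul_le_mul_of_nonneg_left hgeo hD
  have h3 : D * (G * Y ^ (-c)) + Y ^ (-c) ≤ (G + 1) * (1 + D) * Y ^ (-c) := by
    have : 0 ≤ G * Y ^ (-c) := by positivity
    have : 0 ≤ D * Y ^ (-c) := by positivity
    nlinarith
  calc _ ≤ C * X * ((G + 1) * (1 + D) * Y ^ (-c)) := by
        apply mul_le_mul_of_nonneg_left _ (by positivity)
        linarith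
    _ = _ := by ring

open Classical in
/-- the elements of `A` between `Y` and `Z` -/
noncomputable def seg (A : Set ℤ) (Y Z : ℝ) : Finset ℤ :=
  (Icc (-⌊Z⌋) ⌊Z⌋).filter (fun a => a ∈ A ∧ Y ≤ |(a : ℝ)|)

theorem mem_seg {A : Set ℤ} {Y Z : ℝ} {a : ℤ} : a ∈ seg A Y Z ↔ a ∈ A ∧ Y ≤ |(a : ℝ)| ∧ |(a : ℝ)| ≤ Z := by
  classical
  unfold seg
  rw [mem_filter, mem_Icc, abs_le]
  constructor
  · rintro ⟨⟨h1, h2⟩, h3, h4⟩
    refine ⟨h3, h4, ?_, Int.le_floor.1 h2⟩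
    have h5 : (-a : ℤ) ≤ ⌊Z⌋ := by omega
    have h6 := Int.le_floor.1 h5
    push_cast at h6
    linarith
  · rintro ⟨h1, h2, h3, h4⟩
    refine ⟨⟨?_, Int.le_floor.2 h4⟩, h1, h2⟩
    have h5 : ((-a : ℤ) : ℝ) ≤ Z := by push_cast; linarith
    have h6 := Int.le_floor.2 h5
    omega

/-- ARBITRARY SETS -/
theorem arb {k : ℤ} (hk : Odd k) (hk3 : IsCoprime k 3) {s ε : ℝ} (hs0 : 0 < s) (hsb : s < 1 - beta)
    (hε : 0 < ε) :
    ∃ C : ℝ, 0 < C ∧ ∀ Y : ℝ, 1 ≤ Y → ∀ A : Set ℤ, ∀ X : ℝ, 1 ≤ X →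
      ({x : ℤ | |(x : ℝ)| ≤ X ∧ x ∈ MA k Y A}.ncard : ℝ) ≤ C * X *
        ((∑ a ∈ seg A Y (X ^ (1 + s)), (max Y (|(a : ℝ)| ^ (1 / (1 + s)))) ^ (ε - 1)) + Y ^ (ε - s)) := by
  classical
  have hb := beta_gt94
  set ε' : ℝ := min ε (s / 2) with hε'
  have hε'0 : 0 < ε' := lt_min hε (by linarith)
  have hε'ε : ε' ≤ ε := min_le_left _ _
  have hε's : ε' ≤ s / 2 := min_le_right _ _
  obtain ⟨C, hC, h⟩ := core hk hk3 hs0 hsb (ε := ε') hε'0 (by linarith)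
  have hb1 : 0 < 1 - ε' := by linarith
  have hg0 : (2 : ℝ) ^ (-(1 - ε')) < 1 := Real.rpow_lt_one_of_one_lt_of_neg (by norm_num) (by linarith)
  have hgg : 0 < 1 - (2 : ℝ) ^ (-(1 - ε')) := by linarith
  set G : ℝ := (1 - (2 : ℝ) ^ (-(1 - ε')))⁻¹ with hG
  have hGp : 0 < G := inv_pos.2 hgg
  refine ⟨C * (G + 1), by positivity, ?_⟩
  intro Y hY A X hX
  have hY0 : 0 < Y := by linarith
  have hX0 : 0 < X := by linarith
  obtain ⟨J, hJ⟩ := exists_J (X := X) hY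
  refine (h Y hY A X hX J hJ).trans ?_
  set I := (range J).filter (fun i => 2 ^ i * Y ≤ X) with hI
  set S := seg A Y (X ^ (1 + s)) with hS
  set F : ℕ → ℤ → Prop := fun i a => 2 ^ i * Y ≤ |(a : ℝ)| ∧ |(a : ℝ)| < (2 ^ i * Y) * (2 ^ i * Y) ^ s with hF
  have hz1 : ∀ i : ℕ, 1 ≤ 2 ^ i * Y := fun i => one_le_mul_of_one_le_of_one_le (one_le_pow₀ (by norm_num)) hY
  have hYz : ∀ i : ℕ, Y ≤ 2 ^ i * Y := fun i => le_mul_of_one_le_left hY0.le (one_le_pow₀ (by norm_num))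
  have hpow : ∀ z : ℝ, 0 < z → z * z ^ s = z ^ (1 + s) := by
    intro z hz
    rw [Real.rpow_add hz, Real.rpow_one]
  have hN : ∀ i ∈ I, ({a : ℤ | a ∈ A ∧ 2 ^ i * Y ≤ |(a : ℝ)| ∧
      |(a : ℝ)| < (2 ^ i * Y) * (2 ^ i * Y) ^ s}.ncard : ℝ) = ∑ a ∈ S, if F i a then (1 : ℝ) else 0 := by
    intro i hi
    rw [hI, mem_filter, mem_range] at hi
    have hz0 : 0 < 2 ^ i * Y := by have := hz1 i; linarith
    have e : {a : ℤ | a ∈ A ∧ 2 ^ i * Y ≤ |(a : ℝ)| ∧ |(a : ℝ)| < (2 ^ i * Y) * (2 ^ i * Y) ^ s} =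
        ((S.filter (fun a => F i a) : Finset ℤ) : Set ℤ) := by
      ext a
      rw [mem_coe, mem_filter, hS, mem_seg]
      constructor
      · rintro ⟨h1, h2, h3⟩
        refine ⟨⟨h1, (hYz i).trans h2, ?_⟩, h2, h3⟩
        refine h3.le.trans ?_
        rw [hpow _ hz0]
        exact Real.rpow_le_rpow hz0.le hi.2 (by linarith)
      · rintro ⟨⟨h1, _, _⟩, h2, h3⟩
        exact ⟨h1, h2, h3⟩
    rw [e, Set.ncard_coe_finset, ← sum_filter, sum_const, nsmul_eq_mul, mul_one]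
  have hsw : ∑ i ∈ I, ({a : ℤ | a ∈ A ∧ 2 ^ i * Y ≤ |(a : ℝ)| ∧
      |(a : ℝ)| < (2 ^ i * Y) * (2 ^ i * Y) ^ s}.ncard : ℝ) * (2 ^ i * Y) ^ (ε' - 1) =
      ∑ a ∈ S, ∑ i ∈ I.filter (fun i => F i a), (2 ^ i * Y) ^ (ε' - 1) := by
    calc _ = ∑ i ∈ I, ∑ a ∈ S, (if F i a then (2 ^ i * Y) ^ (ε' - 1) else 0) := by
          apply sum_congr rfl
          intro i hi
          rw [hN i hi, sum_mul]
          apply sum_congr rfl
          intro a _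
          split_ifs <;> simp
      _ = ∑ a ∈ S, ∑ i ∈ I, (if F i a then (2 ^ i * Y) ^ (ε' - 1) else 0) := sum_comm
      _ = _ := by
          apply sum_congr rfl
          intro a _
          exact (sum_filter _ _).symm
  rw [hsw]
  have hterm : ∀ a ∈ S, ∑ i ∈ I.filter (fun i => F i a), (2 ^ i * Y) ^ (ε' - 1) ≤
      G * (max Y (|(a : ℝ)| ^ (1 / (1 + s)))) ^ (ε - 1) := by
    intro a ha
    rw [hS, mem_seg] at ha
    have ha0 : 0 < |(a : ℝ)| := by linarith [ha.2.1]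
    set m : ℝ := max Y (|(a : ℝ)| ^ (1 / (1 + s))) with hm
    have hm1 : 1 ≤ m := hY.trans (le_max_left _ _)
    have h1 := geo_above hb1 hY0 (m := m) (by linarith) J (I.filter (fun i => F i a)) (by
      intro i hi
      rw [mem_filter, hI, mem_filter, mem_range] at hi
      refine ⟨hi.1.1, max_le (hYz i) ?_⟩
      have hz0 : 0 < 2 ^ i * Y := by have := hz1 i; linarith
      have h2 := hi.2.2
      rw [hpow _ hz0] at h2
      calc |(a : ℝ)| ^ (1 / (1 + s)) ≤ ((2 ^ i * Y) ^ (1 + s)) ^ (1 / (1 + s)) :=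
            Real.rpow_le_rpow ha0.le h2.le (by positivity)
        _ = 2 ^ i * Y := by
            rw [← Real.rpow_mul hz0.le, mul_one_div_cancel (by positivity), Real.rpow_one])
    have e : -(1 - ε') = ε' - 1 := by ring
    rw [e] at h1
    refine h1.trans ?_
    rw [hG, e]
    apply mul_le_mul_of_nonneg_left _ (by rw [e] at hgg; exact (inv_pos.2 hgg).le)
    exact Real.rpow_le_rpow_of_exponent_le hm1 (by linarith)
  have h2 := sum_le_sum hterm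
  rw [← mul_sum] at h2
  have h3 : Y ^ (ε' - s) ≤ Y ^ (ε - s) := Real.rpow_le_rpow_of_exponent_le hY (by linarith)
  have h4 : 0 < Y ^ (ε - s) := Real.rpow_pos_of_pos hY0 _
  have h5 : 0 ≤ ∑ a ∈ S, (max Y (|(a : ℝ)| ^ (1 / (1 + s)))) ^ (ε - 1) :=
    sum_nonneg fun a _ => Real.rpow_nonneg (le_max_of_le_left hY0.le) _
  calc _ ≤ C * X * (G * (∑ a ∈ S, (max Y (|(a : ℝ)| ^ (1 / (1 + s)))) ^ (ε - 1)) + Y ^ (ε - s)) := by
        apply mul_le_mul_of_nonneg_left _ (by positivity)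
        linarith
    _ ≤ C * X * ((G + 1) * ((∑ a ∈ S, (max Y (|(a : ℝ)| ^ (1 / (1 + s)))) ^ (ε - 1)) + Y ^ (ε - s))) := by
        apply mul_le_mul_of_nonneg_left _ (by positivity)
        nlinarith
    _ = _ := by ring

end Pool.Agent.U457.PS
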