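import Pool.Agent.U457.PS.Climb
import Pool.Agent.U457.PS.Thin3

/-! The exponent for thin sets is sharp. -/

set_option autoImplicit false

namespace Pool.Agent.U457.PS

open Finset Filter Topology
open Pool.Agent.H499R2.CO (Tz)
open Pool.Agent.TH930.EBQ (words wd ones mem_words)

/-- the climbing points -/
def WL (k : ℤ) (L : ℕ) (H : ℝ) : Set ℤ := {x : ℤ | 2 ^ L ≤ x ∧ x < 2 ^ (L + 1) ∧
  ∃ n ≤ L, 2 ^ L * H ≤ |(((Tz k)^[n] x : ℤ) : ℝ)| ∧ ∀ j ≤ n, (2 : ℝ) ^ L ≤ |(((Tz k)^[j] x : ℤ) : ℝ)|}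

theorem WL_fin {k : ℤ} {L : ℕ} {H : ℝ} : (WL k L H).Finite :=
  (Set.finite_Ico ((2 : ℤ) ^ L) (2 ^ (L + 1))).subset fun _ hx => ⟨hx.1, hx.2.1⟩

theorem climb_lower {k : ℤ} (hk : Odd k) (hk0 : 0 < k) {s ε : ℝ} (hs0 : 0 < s) (hs1 : s ≤ 3 / 20)
    (hε : 0 < ε) : ∃ L₁ : ℕ, ∀ L : ℕ, L₁ ≤ L →
      ((2 : ℝ) ^ L) ^ (1 - s - ε) ≤ ((WL k L (((2 : ℝ) ^ L) ^ s)).ncard : ℝ) := by
  set r : ℝ := 27 / 16 with hr
  have hr1 : 1 < r := by rw [hr]; norm_num
  have hr0 : 0 < r := by linarith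
  set ε₁ : ℝ := ε / 2 with hε₁
  have hε₁0 : 0 < ε₁ := by positivity
  have hc1 : 1 < r ^ ε₁ := Real.one_lt_rpow hr1 hε₁0
  obtain ⟨b, hb1, hb2⟩ : ∃ b : ℕ, 1 ≤ b ∧ (4 * (b : ℝ) + 1) ≤ (r ^ b) ^ ε₁ := by
    have h1 := tendsto_pow_const_div_const_pow_of_one_lt 1 hc1
    obtain ⟨N, hN⟩ := eventually_atTop.1 (h1.eventually_le_const (show (0 : ℝ) < 1 / 8 by norm_num))
    refine ⟨max N 1, le_max_right _ _, ?_⟩
    have h2 := hN (max N 1) (le_max_left _ _)
    have hb1 : (1 : ℝ) ≤ ((max N 1 : ℕ) : ℝ) := by exact_mod_cast le_max_right N 1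
    set b := max N 1 with hb
    rw [pow_one, div_le_iff₀ (by positivity)] at h2
    have e : (r ^ b) ^ ε₁ = (r ^ ε₁) ^ b := by
      rw [← Real.rpow_natCast, ← Real.rpow_natCast, ← Real.rpow_mul hr0.le, ← Real.rpow_mul hr0.le,
        mul_comm]
    rw [e]
    linarith
  set R : ℝ := r ^ b with hR
  have hR1 : 1 < R := one_lt_pow₀ hr1 (by omega)
  have hR0 : 0 < R := by linarith
  set K : ℝ := 2 ^ (7 * b) * (4 * b + 1) * R with hK
  have hK0 : 0 < K := by positivity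
  have hc2 : (1 : ℝ) < 2 ^ ε₁ := Real.one_lt_rpow (by norm_num) hε₁0
  obtain ⟨L₂, hL₂⟩ := pow_unbounded_of_one_lt K hc2
  refine ⟨max L₂ (55 * b), ?_⟩
  intro L hL
  have hLL2 : L₂ ≤ L := (le_max_left _ _).trans hL
  have hLb : 55 * b ≤ L := (le_max_right _ _).trans hL
  have hLbR : 55 * (b : ℝ) ≤ L := by exact_mod_cast hLb
  have hb1R : (1 : ℝ) ≤ b := by exact_mod_cast hb1
  have hLR : (0 : ℝ) < L := by linarith
  set Y : ℝ := (2 : ℝ) ^ L with hY
  have hY1 : 1 ≤ Y := one_le_pow₀ (by norm_num)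
  have hY0 : 0 < Y := by linarith
  set H : ℝ := Y ^ s with hH
  have hH1 : 1 ≤ H := Real.one_le_rpow hY1 hs0.le
  have hH0 : 0 < H := by linarith
  obtain ⟨t₀, ht1, ht2⟩ := exists_nat_pow_near hH1 hR1
  set t := t₀ + 1 with ht
  -- the length
  have hlen : 4 * (b : ℝ) * t₀ ≤ 8 / 10 * L := by
    have h1 : (8 : ℝ) ≤ r ^ 4 := by rw [hr]; norm_num
    have h2 : (8 : ℝ) ^ (b * t₀) ≤ H ^ 4 := by
      calc (8 : ℝ) ^ (b * t₀) ≤ (r ^ 4) ^ (b * t₀) := pow_le_pow_left₀ (by norm_num) h1 _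
        _ = (R ^ t₀) ^ 4 := by rw [hR]; ring
        _ ≤ H ^ 4 := pow_le_pow_left₀ (by positivity) ht1 4
    have h3 : (8 : ℝ) ^ (b * t₀) = 2 ^ ((3 * b * t₀ : ℝ)) := by
      rw [show (8 : ℝ) = 2 ^ 3 by norm_num, ← pow_mul, ← Real.rpow_natCast]
      congr 1
      push_cast
      ring
    have h4 : H ^ 4 = 2 ^ ((4 * s * L : ℝ)) := by
      rw [hH, hY, ← Real.rpow_natCast, ← Real.rpow_natCast, ← Real.rpow_mul (by norm_num),
        ← Real.rpow_mul (by norm_num)]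
      congr 1
      push_cast
      ring
    rw [h3, h4] at h2
    have h5 := (Real.rpow_le_rpow_left_iff (by norm_num : (1 : ℝ) < 2)).1 h2
    have h6 : 4 * s * (L : ℝ) ≤ 4 * (3 / 20) * L := by
      apply mul_le_mul_of_nonneg_right _ hLR.le
      linarith
    nlinarith
  set n := 7 * b + 4 * b * t with hn
  have hnL : n ≤ L := by
    have h1 : ((7 * b + 4 * b * t : ℕ) : ℝ) ≤ L := by
      rw [ht]
      push_cast
      nlinarith
    exact_mod_cast h1
  -- the points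
  have hWc : ((WL k L H).ncard : ℝ) = ((WL_fin (k := k) (L := L) (H := H)).toFinset.card : ℝ) := by
    rw [Set.ncard_eq_toFinset_card _ (WL_fin (k := k) (L := L) (H := H))]
  have hcnt := card_class hk hnL (CW b t) (by
      intro v hv
      rw [mem_words]
      exact (CW_prop hv).1) (WL_fin (k := k) (L := L) (H := H)).toFinset (by
      intro x hx1 hx2 hv
      rw [Set.Finite.mem_toFinset]
      obtain ⟨c1, c2, c3⟩ := CW_prop hv
      have hx0 : (0 : ℤ) ≤ x := le_trans (by positivity) hx1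
      obtain ⟨d1, d2⟩ := climb_point hk hk0 (n := n) hx0 (by
        intro j hj
        exact c3 j (by rw [c1]; exact hj))
      have hx1R : (2 : ℝ) ^ L ≤ x := by exact_mod_cast hx1
      refine ⟨hx1, hx2, n, hnL, ?_, ?_⟩
      · rw [c2] at d2
        have d3 : (3 : ℝ) ^ (7 * b + 3 * b * t) * x ≤ 2 ^ n * (((Tz k)^[n] x : ℤ) : ℝ) := by
          exact_mod_cast d2
        have d4 : (2 : ℝ) ^ n = 2 ^ (7 * b) * 16 ^ (b * t) := by
          rw [hn, pow_add, show 4 * b * t = 4 * (b * t) by ring, pow_mul 2 4]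
          norm_num
        have d5 : (3 : ℝ) ^ (7 * b + 3 * b * t) = 3 ^ (7 * b) * 27 ^ (b * t) := by
          rw [pow_add, show 3 * b * t = 3 * (b * t) by ring, pow_mul 3 3]
          norm_num
        have hxR : (0 : ℝ) < x := lt_of_lt_of_le (by positivity) hx1R
        have d6 : (2 : ℝ) ^ (7 * b) ≤ 3 ^ (7 * b) := pow_le_pow_left₀ (by norm_num) (by norm_num) _
        have d7 : (2 : ℝ) ^ (7 * b) * (27 ^ (b * t) * x) ≤
            2 ^ (7 * b) * (16 ^ (b * t) * (((Tz k)^[n] x : ℤ) : ℝ)) := by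
          calc (2 : ℝ) ^ (7 * b) * (27 ^ (b * t) * x) ≤ 3 ^ (7 * b) * (27 ^ (b * t) * x) :=
                mul_le_mul_of_nonneg_right d6 (by positivity)
            _ = 3 ^ (7 * b + 3 * b * t) * x := by rw [d5]; ring
            _ ≤ 2 ^ n * (((Tz k)^[n] x : ℤ) : ℝ) := d3
            _ = _ := by rw [d4]; ring
        have d8 := le_of_mul_le_mul_left d7 (by positivity)
        have d9 : R ^ t * x ≤ (((Tz k)^[n] x : ℤ) : ℝ) := by
          have e1 : R ^ t = 27 ^ (b * t) / 16 ^ (b * t) := by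
            rw [hR, hr, ← pow_mul, div_pow]
          rw [e1, div_mul_eq_mul_div, div_le_iff₀ (by positivity)]
          linarith
        refine le_trans ?_ (d9.trans (le_abs_self _))
        calc (2 : ℝ) ^ L * H ≤ x * R ^ t := mul_le_mul hx1R ht2.le hH0.le hxR.le
          _ = _ := by ring
      · intro j hj
        have d3 := d1 j hj
        have d4 : (x : ℝ) ≤ (((Tz k)^[j] x : ℤ) : ℝ) := by exact_mod_cast d3
        exact hx1R.trans (d4.trans (le_abs_self _)))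
  rw [card_CW] at hcnt
  rw [hWc]
  have hcntR : ((((4 * b).choose (3 * b)) ^ t * 2 ^ (L - n) : ℕ) : ℝ) ≤
      ((WL_fin (k := k) (L := L) (H := H)).toFinset.card : ℝ) := by exact_mod_cast hcnt
  refine le_trans ?_ hcntR
  push_cast
  set Ch : ℝ := (((4 * b).choose (3 * b) : ℕ) : ℝ) with hCh
  have hm : (256 : ℝ) ^ b ≤ (4 * b + 1) * Ch * 27 ^ b := by
    rw [hCh]
    exact_mod_cast mode4 hb1
  have hCh0 : 0 < Ch := by
    rw [hCh]
    exact_mod_cast Nat.choose_pos (by omega)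
  have h16 : (16 : ℝ) ^ b / R = 256 ^ b / 27 ^ b := by
    have e : (16 : ℝ) ^ b * 27 ^ b = 256 ^ b * r ^ b := by
      rw [← mul_pow, ← mul_pow, hr]; norm_num
    rw [hR, div_eq_div_iff (by positivity) (by positivity), e]
  have hCh1 : (16 : ℝ) ^ b / R ≤ (4 * b + 1) * Ch := by
    rw [h16, div_le_iff₀ (by positivity)]
    exact hm
  have hCh2 : ((16 : ℝ) ^ b) ^ t ≤ ((4 * b + 1) * R) ^ t * Ch ^ t := by
    rw [← mul_pow]
    apply pow_le_pow_left₀ (by positivity)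
    rw [div_le_iff₀ hR0] at hCh1
    linarith
  have hpow2 : (2 : ℝ) ^ (L - n) * (2 ^ (7 * b) * (16 ^ b) ^ t) = Y := by
    have e1 : (2 : ℝ) ^ (7 * b) * (16 ^ b) ^ t = 2 ^ n := by
      rw [hn, show 7 * b + 4 * b * t = 7 * b + 4 * (b * t) by ring,
        pow_add (2 : ℝ) (7 * b) (4 * (b * t)), pow_mul (2 : ℝ) 4 (b * t), ← pow_mul (16 : ℝ) b t]
      norm_num
    rw [e1, ← pow_add, Nat.sub_add_cancel hnL]
  have hbt : ((4 * (b : ℝ) + 1) * R) ^ t ≤ (4 * b + 1) * R * H ^ (1 + ε₁) := by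
    rw [ht, pow_succ, mul_comm]
    apply mul_le_mul_of_nonneg_left _ (by positivity)
    rw [mul_pow, Real.rpow_add hH0, Real.rpow_one, mul_comm]
    apply mul_le_mul ht1 _ (by positivity) hH0.le
    calc (4 * (b : ℝ) + 1) ^ t₀ ≤ (R ^ ε₁) ^ t₀ := pow_le_pow_left₀ (by positivity) hb2 _
      _ = (R ^ t₀) ^ ε₁ := by
          rw [← Real.rpow_natCast, ← Real.rpow_natCast, ← Real.rpow_mul hR0.le, ← Real.rpow_mul hR0.le,
            mul_comm]
      _ ≤ H ^ ε₁ := Real.rpow_le_rpow (by positivity) ht1 hε₁0.le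
  have hHe : H ^ (1 + ε₁) ≤ Y ^ (s + ε₁) := by
    rw [hH, ← Real.rpow_mul hY0.le]
    apply Real.rpow_le_rpow_of_exponent_le hY1
    nlinarith
  have hKY : K ≤ Y ^ ε₁ := by
    have e : Y ^ ε₁ = ((2 : ℝ) ^ ε₁) ^ L := by
      rw [hY, ← Real.rpow_natCast, ← Real.rpow_natCast, ← Real.rpow_mul (by norm_num),
        ← Real.rpow_mul (by norm_num), mul_comm]
    rw [e]
    exact hL₂.le.trans (pow_le_pow_right₀ hc2.le hLL2)
  -- conclusion
  set P : ℝ := (2 : ℝ) ^ (L - n) with hP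
  have hP0 : 0 < P := by positivity
  have hYs0 : 0 < Y ^ (s + ε) := Real.rpow_pos_of_pos hY0 _
  have hfin : Y ≤ Y ^ (s + ε) * (Ch ^ t * P) := by
    calc Y = P * 2 ^ (7 * b) * ((16 : ℝ) ^ b) ^ t := by rw [← hpow2]; ring
      _ ≤ P * 2 ^ (7 * b) * (((4 * b + 1) * R) ^ t * Ch ^ t) :=
          mul_le_mul_of_nonneg_left hCh2 (by positivity)
      _ ≤ P * 2 ^ (7 * b) * (((4 * b + 1) * R * Y ^ (s + ε₁)) * Ch ^ t) := by
          apply mul_le_mul_of_nonneg_left _ (by positivity)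
          apply mul_le_mul_of_nonneg_right _ (by positivity)
          exact hbt.trans (mul_le_mul_of_nonneg_left hHe (by positivity))
      _ = K * Y ^ (s + ε₁) * (Ch ^ t * P) := by rw [hK]; ring
      _ ≤ Y ^ ε₁ * Y ^ (s + ε₁) * (Ch ^ t * P) := by
          apply mul_le_mul_of_nonneg_right _ (by positivity)
          exact mul_le_mul_of_nonneg_right hKY (Real.rpow_nonneg hY0.le _)
      _ = Y ^ (s + ε) * (Ch ^ t * P) := by
          rw [← Real.rpow_add hY0]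
          congr 2
          rw [hε₁]; ring
  have e : (1 : ℝ) - s - ε = 1 - (s + ε) := by ring
  rw [e, Real.rpow_sub hY0, Real.rpow_one, div_le_iff₀ hYs0]
  linarith

theorem climb_upper {k : ℤ} (hk : Odd k) : ∃ L₀ : ℕ, ∀ L : ℕ, L₀ ≤ L → ∀ H : ℝ, 0 < H →
    ((WL k L H).ncard : ℝ) ≤ (L + 1) * (24 * (2 ^ L / H)) := by
  classical
  have h1 := tendsto_pow_const_div_const_pow_of_one_lt 1 (show (1 : ℝ) < 2 by norm_num)
  obtain ⟨L₀, hL₀⟩ := eventually_atTop.1 (h1.eventually_le_const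
    (show (0 : ℝ) < 1 / (4 * (|(k : ℝ)| + 1)) by positivity))
  refine ⟨L₀, ?_⟩
  intro L hL H hH
  have h2 := hL₀ L hL
  rw [pow_one, div_le_div_iff₀ (by positivity) (by positivity)] at h2
  have hk0 : 0 ≤ |(k : ℝ)| := abs_nonneg _
  have hL0 : (0 : ℝ) ≤ L := Nat.cast_nonneg L
  have hLk : 4 * (L : ℝ) * |(k : ℝ)| ≤ 2 ^ L := by nlinarith
  set z : ℝ := (2 : ℝ) ^ L with hz
  have hz0 : 0 < z := by positivity
  set S : Finset ℤ := (WL_fin (k := k) (L := L) (H := H)).toFinset with hS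
  have hWc : ((WL k L H).ncard : ℝ) = (S.card : ℝ) := by
    rw [hS, Set.ncard_eq_toFinset_card _ (WL_fin (k := k) (L := L) (H := H))]
  rw [hWc]
  set S2 : ℕ → Finset ℤ := fun n => S.filter (fun w => (∀ j < n, z ≤ |(((Tz k)^[j] w : ℤ) : ℝ)|) ∧
    z * H ≤ |(((Tz k)^[n] w : ℤ) : ℝ)|) with hS2
  have hmem : ∀ w ∈ S, w ∈ WL k L H := by
    intro w hw
    rw [hS, Set.Finite.mem_toFinset] at hw
    exact hw
  have hsub : S ⊆ (range (L + 1)).biUnion S2 := by
    intro w hw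
    obtain ⟨_, _, n, hn, h3, h4⟩ := hmem w hw
    rw [mem_biUnion]
    refine ⟨n, mem_range.2 (by omega), ?_⟩
    rw [hS2, mem_filter]
    exact ⟨hw, fun j hj => h4 j hj.le, h3⟩
  have h3 : (S.card : ℝ) ≤ ∑ n ∈ range (L + 1), ((S2 n).card : ℝ) := by
    exact_mod_cast (card_le_card hsub).trans card_biUnion_le
  refine h3.trans ?_
  have h4 : ∀ n ∈ range (L + 1), ((S2 n).card : ℝ) ≤ 24 * (z / H) := by
    intro n hn
    rw [mem_range] at hn
    have hnR : (n : ℝ) ≤ L := by exact_mod_cast (by omega : n ≤ L)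
    apply card_exc hk hz0 hH (n := n)
    · calc (2 : ℝ) ^ n ≤ 2 ^ L := pow_le_pow_right₀ (by norm_num) (by omega)
        _ ≤ 2 * z := by linarith
    · nlinarith
    · intro w hw
      rw [hS2] at hw
      simp only [mem_filter] at hw
      refine ⟨?_, hw.2⟩
      obtain ⟨a1, a2, _⟩ := hmem w hw.1
      have a3 : (0 : ℝ) ≤ w := by
        have : (0 : ℤ) ≤ w := le_trans (by positivity) a1
        exact_mod_cast this
      rw [abs_of_nonneg a3]
      have a4 : (w : ℝ) < 2 ^ (L + 1) := by exact_mod_cast a2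
      rw [pow_succ] at a4
      linarith
  refine (sum_le_card_nsmul _ _ _ h4).trans ?_
  rw [card_range, nsmul_eq_mul]
  push_cast
  exact le_refl _

/-- THE CONVERSE, for positive `k` -/
theorem sharp_pos {k : ℤ} (hk : Odd k) (hk0 : 0 < k) {δ c : ℝ} (hδ0 : 0 < δ) (hδ1 : δ ≤ 1)
    (hδs : δ / (2 - δ) < 3 / 20) (hc : δ / (2 - δ) < c) :
    ∃ A : Set ℤ, (∃ D : ℝ, ∀ N : ℝ, 1 ≤ N →
      ({a : ℤ | a ∈ A ∧ |(a : ℝ)| ≤ N}.ncard : ℝ) ≤ D * N ^ (1 - δ)) ∧
      ∀ C : ℝ, ∀ Y₀ : ℝ, ∃ Y : ℝ, Y₀ ≤ Y ∧ 1 ≤ Y ∧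
        C * (2 * Y) * Y ^ (-c) < ({x : ℤ | |(x : ℝ)| ≤ 2 * Y ∧ x ∈ MA k Y A}.ncard : ℝ) := by
  classical
  obtain ⟨s, hs1, hs2⟩ := exists_between (lt_min hδs hc)
  have hs3 : s < 3 / 20 := hs2.trans_le (min_le_left _ _)
  have hsc : s < c := hs2.trans_le (min_le_right _ _)
  have hδ2 : 0 < 2 - δ := by linarith
  have hs0 : 0 < s := lt_trans (div_pos hδ0 hδ2) hs1
  rw [div_lt_iff₀ hδ2] at hs1
  set ε : ℝ := (c - s) / 2 with hε
  have hε0 : 0 < ε := by rw [hε]; linarith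
  obtain ⟨L₁, hL₁⟩ := climb_lower hk hk0 hs0 hs3.le hε0
  obtain ⟨L₀, hL₀⟩ := climb_upper hk
  set H : ℕ → ℝ := fun L => ((2 : ℝ) ^ L) ^ s with hH
  have hH0 : ∀ L, 0 < H L := fun L => Real.rpow_pos_of_pos (by positivity) _
  -- the values
  have hex : ∀ (L : ℕ) (x : ℤ), ∃ n : ℕ, x ∈ WL k L (H L) → n ≤ L ∧
      2 ^ L * H L ≤ |(((Tz k)^[n] x : ℤ) : ℝ)| ∧ ∀ j ≤ n, (2 : ℝ) ^ L ≤ |(((Tz k)^[j] x : ℤ) : ℝ)| := by
    intro L x
    by_cases h : x ∈ WL k L (H L)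
    · obtain ⟨_, _, n, h1, h2, h3⟩ := h
      exact ⟨n, fun _ => ⟨h1, h2, h3⟩⟩
    · exact ⟨0, fun h' => absurd h' h⟩
  choose f hf using hex
  set AL : ℕ → Set ℤ := fun L => (fun x => (Tz k)^[f L x] x) '' (WL k L (H L)) with hAL
  set A : Set ℤ := {a : ℤ | ∃ L : ℕ, L₀ ≤ L ∧ a ∈ AL L} with hA
  refine ⟨A, ?_, ?_⟩
  · -- thin
    set ε₂ : ℝ := s * (2 - δ) - δ with hε₂
    have hε₂0 : 0 < ε₂ := by rw [hε₂]; linarith
    obtain ⟨C₂, hC₂, hlog⟩ := pow_log hε₂0 2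
    refine ⟨24 * C₂, ?_⟩
    intro N hN
    have hN0 : 0 < N := by linarith
    have h1s : 0 < 1 + s := by linarith
    obtain ⟨M, hM1, hM2⟩ := exists_nat_pow_near (x := N ^ (1 / (1 + s))) (y := (2 : ℝ))
      (Real.one_le_rpow hN (by positivity)) (by norm_num)
    have hsub : {a : ℤ | a ∈ A ∧ |(a : ℝ)| ≤ N} ⊆
        (((range (M + 1)).filter (fun L => L₀ ≤ L)).biUnion
          (fun L => ((WL_fin (k := k) (L := L) (H := H L)).toFinset).image
            (fun x => (Tz k)^[f L x] x)) : Finset ℤ) := by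
      rintro a ⟨⟨L, hLL, x, hx, rfl⟩, haN⟩
      rw [mem_coe, mem_biUnion]
      obtain ⟨_, h2, _⟩ := hf L x hx
      simp only at haN
      have h3 : ((2 : ℝ) ^ L) ^ (1 + s) ≤ N := by
        rw [Real.rpow_add (by positivity), Real.rpow_one]
        exact h2.trans haN
      have h4 : (2 : ℝ) ^ L ≤ N ^ (1 / (1 + s)) := by
        calc (2 : ℝ) ^ L = (((2 : ℝ) ^ L) ^ (1 + s)) ^ (1 / (1 + s)) := by
              rw [← Real.rpow_mul (by positivity), mul_one_div_cancel h1s.ne', Real.rpow_one]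
          _ ≤ N ^ (1 / (1 + s)) := Real.rpow_le_rpow (by positivity) h3 (by positivity)
      have h5 : L < M + 1 := (pow_lt_pow_iff_right₀ (by norm_num : (1 : ℝ) < 2)).1 (h4.trans_lt hM2)
      refine ⟨L, ?_, ?_⟩
      · rw [mem_filter, mem_range]
        exact ⟨h5, hLL⟩
      · rw [mem_image]
        exact ⟨x, (Set.Finite.mem_toFinset _).2 hx, rfl⟩
    have h2 := Set.ncard_le_ncard hsub (Finset.finite_toSet _)
    rw [Set.ncard_coe_finset] at h2
    have h3 : (((((range (M + 1)).filter (fun L => L₀ ≤ L)).biUnion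
          (fun L => ((WL_fin (k := k) (L := L) (H := H L)).toFinset).image
            (fun x => (Tz k)^[f L x] x))).card : ℕ) : ℝ) ≤
        ∑ L ∈ (range (M + 1)).filter (fun L => L₀ ≤ L), ((WL k L (H L)).ncard : ℝ) := by
      have h4 : (((range (M + 1)).filter (fun L => L₀ ≤ L)).biUnion
          (fun L => ((WL_fin (k := k) (L := L) (H := H L)).toFinset).image
            (fun x => (Tz k)^[f L x] x))).card ≤
          ∑ L ∈ (range (M + 1)).filter (fun L => L₀ ≤ L), (WL k L (H L)).ncard := by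
        refine card_biUnion_le.trans (sum_le_sum fun L _ => ?_)
        refine card_image_le.trans ?_
        rw [Set.ncard_eq_toFinset_card _ (WL_fin (k := k) (L := L) (H := H L))]
      exact_mod_cast h4
    have h4 : ∀ L ∈ (range (M + 1)).filter (fun L => L₀ ≤ L), ((WL k L (H L)).ncard : ℝ) ≤
        24 * (M + 1) * ((2 : ℝ) ^ M) ^ (1 - s) := by
      intro L hL
      rw [mem_filter, mem_range] at hL
      have hLM : (L : ℝ) ≤ M := by exact_mod_cast (by omega : L ≤ M)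
      refine (hL₀ L hL.2 (H L) (hH0 L)).trans ?_
      have e : (2 : ℝ) ^ L / H L = ((2 : ℝ) ^ L) ^ (1 - s) := by
        rw [Real.rpow_sub (by positivity), Real.rpow_one]
      rw [e]
      have h5 : ((2 : ℝ) ^ L) ^ (1 - s) ≤ ((2 : ℝ) ^ M) ^ (1 - s) := by
        apply Real.rpow_le_rpow (by positivity) _ (by linarith)
        exact pow_le_pow_right₀ (by norm_num) (by omega)
      have hL0 : (0 : ℝ) ≤ L := Nat.cast_nonneg L
      calc ((L : ℝ) + 1) * (24 * ((2 : ℝ) ^ L) ^ (1 - s)) ≤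
          (M + 1) * (24 * ((2 : ℝ) ^ M) ^ (1 - s)) := by
            apply mul_le_mul (by linarith) _ (by positivity) (by positivity)
            linarith
        _ = _ := by ring
    have h5 : ∑ L ∈ (range (M + 1)).filter (fun L => L₀ ≤ L), ((WL k L (H L)).ncard : ℝ) ≤
        (M + 1) * (24 * (M + 1) * ((2 : ℝ) ^ M) ^ (1 - s)) := by
      refine (sum_le_card_nsmul _ _ _ h4).trans ?_
      rw [nsmul_eq_mul]
      apply mul_le_mul_of_nonneg_right _ (by positivity)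
      have : ((range (M + 1)).filter (fun L => L₀ ≤ L)).card ≤ M + 1 := by
        refine (card_filter_le _ _).trans ?_
        rw [card_range]
      exact_mod_cast this
    have h6 := hlog M ((2 : ℝ) ^ M) (one_le_pow₀ (by norm_num)) (by linarith [show (0:ℝ) < 2 ^ M by positivity])
    have hM0 : (0 : ℝ) < 2 ^ M := by positivity
    calc ({a : ℤ | a ∈ A ∧ |(a : ℝ)| ≤ N}.ncard : ℝ) ≤
        (M + 1) * (24 * (M + 1) * ((2 : ℝ) ^ M) ^ (1 - s)) := by
          have h7 : ({a : ℤ | a ∈ A ∧ |(a : ℝ)| ≤ N}.ncard : ℝ) ≤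
            (((((range (M + 1)).filter (fun L => L₀ ≤ L)).biUnion
              (fun L => ((WL_fin (k := k) (L := L) (H := H L)).toFinset).image
                (fun x => (Tz k)^[f L x] x))).card : ℕ) : ℝ) := by exact_mod_cast h2
          linarith
      _ = 24 * ((M : ℝ) + 1) ^ 2 * ((2 : ℝ) ^ M) ^ (1 - s) := by ring
      _ ≤ 24 * (C₂ * ((2 : ℝ) ^ M) ^ ε₂) * ((2 : ℝ) ^ M) ^ (1 - s) := by
          apply mul_le_mul_of_nonneg_right _ (by positivity)
          linarith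
      _ = 24 * C₂ * ((2 : ℝ) ^ M) ^ ((1 + s) * (1 - δ)) := by
          have e : (1 + s) * (1 - δ) = ε₂ + (1 - s) := by rw [hε₂]; ring
          rw [e, Real.rpow_add hM0]; ring
      _ ≤ 24 * C₂ * (N ^ (1 / (1 + s))) ^ ((1 + s) * (1 - δ)) := by
          apply mul_le_mul_of_nonneg_left _ (by positivity)
          apply Real.rpow_le_rpow hM0.le hM1
          apply mul_nonneg h1s.le
          linarith
      _ = 24 * C₂ * N ^ (1 - δ) := by
          rw [← Real.rpow_mul hN0.le]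
          congr 2
          field_simp
  · intro C Y₀
    have hcε : 0 < c - s - ε := by rw [hε]; linarith
    have hb : (1 : ℝ) < 2 ^ (c - s - ε) := Real.one_lt_rpow (by norm_num) hcε
    obtain ⟨L₃, hL₃⟩ := pow_unbounded_of_one_lt (2 * |C| + 1) hb
    obtain ⟨L₄, hL₄⟩ := pow_unbounded_of_one_lt Y₀ (show (1 : ℝ) < 2 by norm_num)
    set L := max (max L₀ L₁) (max L₃ L₄) with hL
    have hLa : L₀ ≤ L := (le_max_left _ _).trans (le_max_left _ _)
    have hLb : L₁ ≤ L := (le_max_right _ _).trans (le_max_left _ _)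
    have hLc : L₃ ≤ L := (le_max_left _ _).trans (le_max_right _ _)
    have hLd : L₄ ≤ L := (le_max_right _ _).trans (le_max_right _ _)
    set Y : ℝ := (2 : ℝ) ^ L with hY
    have hY1 : 1 ≤ Y := one_le_pow₀ (by norm_num)
    have hY0 : 0 < Y := by linarith
    refine ⟨Y, hL₄.le.trans (pow_le_pow_right₀ (by norm_num) hLd), hY1, ?_⟩
    have h1 := hL₁ L hLb
    have h2 : ((WL k L (H L)).ncard : ℝ) ≤ ({x : ℤ | |(x : ℝ)| ≤ 2 * Y ∧ x ∈ MA k Y A}.ncard : ℝ) := by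
      have hsub : WL k L (H L) ⊆ {x : ℤ | |(x : ℝ)| ≤ 2 * Y ∧ x ∈ MA k Y A} := by
        intro x hx
        obtain ⟨h3, h4, h5⟩ := hf L x hx
        refine ⟨?_, f L x, ⟨L, hLa, x, hx, rfl⟩, h5⟩
        obtain ⟨a1, a2, _⟩ := hx
        have a3 : (0 : ℝ) ≤ x := by
          have : (0 : ℤ) ≤ x := le_trans (by positivity) a1
          exact_mod_cast this
        rw [abs_of_nonneg a3]
        have a4 : (x : ℝ) < 2 ^ (L + 1) := by exact_mod_cast a2
        rw [pow_succ] at a4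
        rw [hY]
        linarith
      exact_mod_cast Set.ncard_le_ncard hsub (fin_abs _ _)
    refine lt_of_lt_of_le ?_ (h1.trans h2)
    have h3 : 2 * |C| + 1 < Y ^ (c - s - ε) := by
      have e : Y ^ (c - s - ε) = ((2 : ℝ) ^ (c - s - ε)) ^ L := by
        rw [hY, ← Real.rpow_natCast, ← Real.rpow_natCast, ← Real.rpow_mul (by norm_num),
          ← Real.rpow_mul (by norm_num), mul_comm]
      rw [e]
      exact hL₃.trans_le (pow_le_pow_right₀ hb.le hLc)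
    have hYc : 0 < Y ^ (1 - c) := Real.rpow_pos_of_pos hY0 _
    have e1 : Y * Y ^ (-c) = Y ^ (1 - c) := by
      rw [show (1 : ℝ) - c = 1 + -c by ring, Real.rpow_add hY0, Real.rpow_one]
    have e2 : Y ^ (1 - c) * Y ^ (c - s - ε) = Y ^ (1 - s - ε) := by
      rw [← Real.rpow_add hY0]
      congr 1
      ring
    calc C * (2 * Y) * Y ^ (-c) = 2 * C * (Y * Y ^ (-c)) := by ring
      _ = 2 * C * Y ^ (1 - c) := by rw [e1]
      _ < (2 * |C| + 1) * Y ^ (1 - c) := by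
          apply mul_lt_mul_of_pos_right _ hYc
          linarith [le_abs_self C]
      _ ≤ Y ^ (c - s - ε) * Y ^ (1 - c) := mul_le_mul_of_nonneg_right h3.le hYc.le
      _ = Y ^ (1 - s - ε) := by rw [mul_comm, e2]

end Pool.Agent.U457.PS

namespace Pool.Agent.U457.PS

open Finset Filter Topology
open Pool.Agent.H499R2.CO (Tz)

/-- THE CONVERSE -/
theorem sharp_all {k : ℤ} (hk : Odd k) {δ c : ℝ} (hδ0 : 0 < δ) (hδ1 : δ ≤ 1)
    (hδs : δ / (2 - δ) < 3 / 20) (hc : δ / (2 - δ) < c) :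
    ∃ A : Set ℤ, (∃ D : ℝ, ∀ N : ℝ, 1 ≤ N →
      ({a : ℤ | a ∈ A ∧ |(a : ℝ)| ≤ N}.ncard : ℝ) ≤ D * N ^ (1 - δ)) ∧
      ∀ C : ℝ, ∀ Y₀ : ℝ, ∃ Y : ℝ, Y₀ ≤ Y ∧ 1 ≤ Y ∧
        C * (2 * Y) * Y ^ (-c) < ({x : ℤ | |(x : ℝ)| ≤ 2 * Y ∧ x ∈ MA k Y A}.ncard : ℝ) := by
  classical
  rcases lt_or_ge 0 k with h0 | h0
  · exact sharp_pos hk h0 hδ0 hδ1 hδs hc
  · have hk' : Odd (-k) := hk.neg
    have hkne : k ≠ 0 := by rintro rfl; simp at hk
    obtain ⟨A, ⟨D, hD⟩, hA⟩ := sharp_pos hk' (by omega) hδ0 hδ1 hδs hc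
    refine ⟨{a | -a ∈ A}, ⟨D, ?_⟩, ?_⟩
    · intro N hN
      have e : {a : ℤ | a ∈ {a | -a ∈ A} ∧ |(a : ℝ)| ≤ N} = (fun a => -a) '' {a : ℤ | a ∈ A ∧ |(a : ℝ)| ≤ N} := by
        ext a
        constructor
        · rintro ⟨h1, h2⟩
          exact ⟨-a, ⟨h1, by rwa [Int.cast_neg, abs_neg]⟩, neg_neg a⟩
        · rintro ⟨b, ⟨h1, h2⟩, rfl⟩
          refine ⟨by change - -b ∈ A; rwa [neg_neg], ?_⟩
          simp only
          rwa [Int.cast_neg, abs_neg]
      rw [e, Set.ncard_image_of_injective _ neg_injective]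
      exact hD N hN
    · intro C Y₀
      obtain ⟨Y, h1, h2, h3⟩ := hA C Y₀
      refine ⟨Y, h1, h2, h3.trans_le ?_⟩
      have hsub : (fun a : ℤ => -a) '' {x : ℤ | |(x : ℝ)| ≤ 2 * Y ∧ x ∈ MA (-k) Y A} ⊆
          {x : ℤ | |(x : ℝ)| ≤ 2 * Y ∧ x ∈ MA k Y {a | -a ∈ A}} := by
        rintro _ ⟨x, ⟨h4, n, h5, h6⟩, rfl⟩
        have key : ∀ j : ℕ, (Tz k)^[j] (-x) = -(Tz (-k))^[j] x := by
          intro j
          have := Tz_neg_iter hk' x j
          rwa [neg_neg] at this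
        refine ⟨?_, n, ?_, ?_⟩
        · simp only
          rwa [Int.cast_neg, abs_neg]
        · simp only
          rw [key]
          change - -_ ∈ A
          rwa [neg_neg]
        · intro j hj
          simp only
          rw [key, Int.cast_neg, abs_neg]
          exact h6 j hj
      have h7 := Set.ncard_le_ncard hsub (fin_abs _ _)
      rw [Set.ncard_image_of_injective _ neg_injective] at h7
      exact_mod_cast h7

end Pool.Agent.U457.PS
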