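import Pool.Agent.U457.PS.Orb
import Pool.Agent.TH930.PS.Three

/-! The points near a level whose orbit meets a set before it goes below the level. -/

set_option autoImplicit false

namespace Pool.Agent.U457.PS

open Finset Filter Topology
open Pool.Agent.H499R2.CO (Tz)
open Pool.Agent.TH930.EBQ (words wd ones wd_mem wd_inj sum_words_succ ones_cons_true ones_cons_false)
open Pool.Agent.TH930.PS (Mu3)
open Pool.Agent.H828R3.GP (m3 r3 adm3 Tm3 approx Mu card_ap)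
open Pool.Agent.H319R2 (beta)

/-- the sum over all words (as in TH930.UD.Words) -/
theorem sum_weight (s : ℝ) (n : ℕ) :
    ∑ v ∈ words n, ((3 : ℝ) ^ ones v / 2 ^ n) ^ s = ((1 / 2 : ℝ) ^ s + (3 / 2 : ℝ) ^ s) ^ n := by
  induction n with
  | zero => simp [words]
  | succ n ih =>
    rw [sum_words_succ, pow_succ ((1 / 2 : ℝ) ^ s + (3 / 2 : ℝ) ^ s), ← ih, sum_mul]
    refine sum_congr rfl fun v _ => ?_
    rw [ones_cons_true, ones_cons_false]
    have e1 : (3 : ℝ) ^ (ones v + 1) / 2 ^ (n + 1) = (3 ^ ones v / 2 ^ n) * (3 / 2) := by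
      rw [pow_succ, pow_succ]; field_simp
    have e2 : (3 : ℝ) ^ ones v / 2 ^ (n + 1) = (3 ^ ones v / 2 ^ n) * (1 / 2) := by
      rw [pow_succ]; field_simp
    rw [e1, e2, Real.mul_rpow (by positivity) (by norm_num), Real.mul_rpow (by positivity) (by norm_num)]
    ring

/-- the words with a large multiplier -/
def BW (K : ℕ) : Finset (List Bool) := (words K).filter (fun v => 2 ^ K ≤ 4 * 3 ^ ones v)

theorem card_BW {s η : ℝ} (hs : 0 ≤ s) (hsum : (1 / 2 : ℝ) ^ s + (3 / 2 : ℝ) ^ s ≤ 2 ^ η) (K : ℕ) :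
    ((BW K).card : ℝ) ≤ 4 ^ s * (2 ^ η) ^ K := by
  have h1 : ∀ v ∈ BW K, (1 : ℝ) ≤ 4 ^ s * ((3 : ℝ) ^ ones v / 2 ^ K) ^ s := by
    intro v hv
    unfold BW at hv
    rw [mem_filter] at hv
    have h2 : (2 : ℝ) ^ K ≤ 4 * 3 ^ ones v := by exact_mod_cast hv.2
    rw [← Real.mul_rpow (by norm_num) (by positivity)]
    apply Real.one_le_rpow _ hs
    rw [← mul_div_assoc, le_div_iff₀ (by positivity)]
    linarith
  have h0 : 0 ≤ (1 / 2 : ℝ) ^ s + (3 / 2 : ℝ) ^ s := by positivity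
  calc ((BW K).card : ℝ) = ∑ v ∈ BW K, (1 : ℝ) := by simp
    _ ≤ ∑ v ∈ BW K, 4 ^ s * ((3 : ℝ) ^ ones v / 2 ^ K) ^ s := sum_le_sum h1
    _ ≤ ∑ v ∈ words K, 4 ^ s * ((3 : ℝ) ^ ones v / 2 ^ K) ^ s := by
        apply sum_le_sum_of_subset_of_nonneg (filter_subset _ _)
        intro v _ _
        positivity
    _ = 4 ^ s * ((1 / 2 : ℝ) ^ s + (3 / 2 : ℝ) ^ s) ^ K := by rw [← mul_sum, sum_weight]
    _ ≤ 4 ^ s * (2 ^ η) ^ K := by
        apply mul_le_mul_of_nonneg_left _ (by positivity)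
        exact pow_le_pow_left₀ h0 hsum K

theorem r3_le (k : ℤ) : ∀ i < 2, |(r3 k i : ℝ)| ≤ |(k : ℝ)| := by
  intro i hi
  interval_cases i
  · simp [r3]
  · simp [r3]

/-- the affine approximation along an orbit that stays above the level -/
theorem app3 {k : ℤ} (hk : Odd k) {z : ℝ} (hz : 0 < z) {n : ℕ} (hn : 4 * (n : ℝ) * |(k : ℝ)| ≤ z) {w : ℤ}
    (hst : ∀ j < n, z ≤ |(((Tz k)^[j] w : ℤ) : ℝ)|) :
    |(3 : ℝ) ^ ones (wd k n w) * w - (2 : ℝ) ^ n * (((Tz k)^[n] w : ℤ) : ℝ)| ≤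
      n * (2 * |(k : ℝ)| / z) * ((2 : ℝ) ^ n * |(((Tz k)^[n] w : ℤ) : ℝ)|) := by
  have hk0 : 0 ≤ |(k : ℝ)| := abs_nonneg _
  have hnn : (0 : ℝ) ≤ n := Nat.cast_nonneg n
  have h6 := approx (adm3 hk) (r3_le k) hk0 hz n (x := w) (fun j hj => by
    rw [Tm3]; exact hst j hj) (by nlinarith)
  rw [Tm3, Mu3] at h6
  push_cast at h6
  exact h6

theorem mult3 {k : ℤ} (hk : Odd k) {z : ℝ} (hz : 0 < z) {n : ℕ} (hn : 4 * (n : ℝ) * |(k : ℝ)| ≤ z) {w : ℤ}
    (hw : |(w : ℝ)| < 2 * z) (hst : ∀ j < n, z ≤ |(((Tz k)^[j] w : ℤ) : ℝ)|) :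
    (2 : ℝ) ^ n * |(((Tz k)^[n] w : ℤ) : ℝ)| ≤ 4 * z * 3 ^ ones (wd k n w) := by
  have h6 := app3 hk hz hn hst
  set y : ℝ := (((Tz k)^[n] w : ℤ) : ℝ) with hy
  set M : ℝ := (3 : ℝ) ^ ones (wd k n w) with hM
  have hM0 : 0 < M := by positivity
  have hD : (0 : ℝ) < 2 ^ n := by positivity
  have h8 : n * (2 * |(k : ℝ)| / z) ≤ 1 / 2 := by
    rw [mul_div_assoc', div_le_iff₀ hz]; linarith
  have h9 : |M * w - (2 : ℝ) ^ n * y| ≤ 1 / 2 * ((2 : ℝ) ^ n * |y|) :=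
    h6.trans (mul_le_mul_of_nonneg_right h8 (by positivity))
  have h10 : (2 : ℝ) ^ n * |y| ≤ 2 * (M * |(w : ℝ)|) := by
    have e1 : (2 : ℝ) ^ n * |y| = |(2 : ℝ) ^ n * y| := by rw [abs_mul, abs_of_pos hD]
    have e2 := abs_sub_abs_le_abs_sub ((2 : ℝ) ^ n * y) (M * w)
    rw [abs_sub_comm, ← e1, abs_mul M, abs_of_pos hM0] at e2
    linarith
  calc (2 : ℝ) ^ n * |y| ≤ 2 * (M * |(w : ℝ)|) := h10
    _ ≤ 2 * (M * (2 * z)) := by
        apply mul_le_mul_of_nonneg_left _ (by norm_num)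
        exact mul_le_mul_of_nonneg_left hw.le hM0.le
    _ = _ := by ring

/-- points of an interval with words in a set -/
theorem card_of_words {k : ℤ} (hk : Odd k) {z : ℝ} (hz : 0 < z) {n : ℕ} (hn : (2 : ℝ) ^ n ≤ 2 * z)
    (S : Finset ℤ) (V : Finset (List Bool)) (hS : ∀ w ∈ S, |(w : ℝ)| < 2 * z ∧ wd k n w ∈ V) :
    (S.card : ℝ) ≤ V.card * (6 * z / 2 ^ n) := by
  classical
  have h1 : S.card = ∑ v ∈ V, (S.filter (fun w => wd k n w = v)).card :=
    card_eq_sum_card_fiberwise (fun w hw => (hS w hw).2)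
  have h2 : ∀ v ∈ V, (((S.filter (fun w => wd k n w = v)).card : ℕ) : ℝ) ≤ 6 * z / 2 ^ n := by
    intro v _
    rcases (S.filter (fun w => wd k n w = v)).eq_empty_or_nonempty with h0 | ⟨w₀, hw₀⟩
    · rw [h0, card_empty, Nat.cast_zero]; positivity
    have h3 := card_ap (S.filter (fun w => wd k n w = v)) (2 ^ n) (by positivity) w₀ (4 * z)
      (by positivity) (by
        intro x hx
        rw [mem_filter] at hx hw₀
        have := wd_inj hk (hx.2.trans hw₀.2.symm)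
        push_cast
        exact this) (by
        intro x hx y hy
        have hx1 := (hS x (mem_filter.1 hx).1).1
        have hy1 := (hS y (mem_filter.1 hy).1).1
        rw [abs_lt] at hx1 hy1
        push_cast
        linarith)
    refine h3.trans ?_
    push_cast
    have h4 : (1 : ℝ) ≤ 2 * z / 2 ^ n := by rw [le_div_iff₀ (by positivity)]; linarith
    have h5 : 6 * z / (2 : ℝ) ^ n = 4 * z / 2 ^ n + 2 * z / 2 ^ n := by rw [← add_div]; ring
    rw [h5]; linarith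
  rw [h1]
  push_cast
  refine (sum_le_card_nsmul _ _ _ h2).trans ?_
  rw [nsmul_eq_mul]

/-- THE SLOW POINTS -/
theorem card_slow {k : ℤ} (hk : Odd k) {s η : ℝ} (hs : 0 ≤ s)
    (hsum : (1 / 2 : ℝ) ^ s + (3 / 2 : ℝ) ^ s ≤ 2 ^ η) {z : ℝ} (hz : 0 < z) {L : ℕ}
    (hL : (2 : ℝ) ^ L ≤ 2 * z) (hLk : 4 * (L : ℝ) * |(k : ℝ)| ≤ z) (S : Finset ℤ)
    (hS : ∀ w ∈ S, |(w : ℝ)| < 2 * z ∧ ∀ j ≤ L, z ≤ |(((Tz k)^[j] w : ℤ) : ℝ)|) :
    (S.card : ℝ) ≤ (4 ^ s * (2 ^ η) ^ L) * (6 * z / 2 ^ L) := by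
  have h1 := card_of_words hk hz hL S (BW L) (by
    intro w hw
    obtain ⟨h1, h2⟩ := hS w hw
    refine ⟨h1, ?_⟩
    unfold BW
    rw [mem_filter]
    refine ⟨wd_mem k L w, ?_⟩
    have h3 := mult3 hk hz hLk h1 (fun j hj => h2 j hj.le)
    have h4 : (2 : ℝ) ^ L * z ≤ (4 * 3 ^ ones (wd k L w)) * z := by
      calc (2 : ℝ) ^ L * z ≤ (2 : ℝ) ^ L * |(((Tz k)^[L] w : ℤ) : ℝ)| :=
            mul_le_mul_of_nonneg_left (h2 L le_rfl) (by positivity)
        _ ≤ 4 * z * 3 ^ ones (wd k L w) := h3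
        _ = _ := by ring
    exact_mod_cast le_of_mul_le_mul_right h4 hz)
  refine h1.trans ?_
  exact mul_le_mul_of_nonneg_right (card_BW hs hsum L) (by positivity)

/-- the words with a very large multiplier -/
theorem card_high (n : ℕ) {H : ℝ} (hH : 0 < H) (V : Finset (List Bool)) (hV : V ⊆ words n)
    (h : ∀ v ∈ V, (2 : ℝ) ^ n * H ≤ 4 * 3 ^ ones v) : (V.card : ℝ) ≤ 4 * 2 ^ n / H := by
  have h2 : (∑ v ∈ words n, ((3 : ℝ) ^ ones v / 2 ^ n)) = 2 ^ n := by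
    have := sum_weight 1 n
    simp only [Real.rpow_one] at this
    rw [this]
    norm_num
  have h3 : ∀ v ∈ V, (1 : ℝ) ≤ 4 / H * (3 ^ ones v / 2 ^ n) := by
    intro v hv
    have h4 := h v hv
    rw [div_mul_div_comm, le_div_iff₀ (by positivity)]
    linarith
  calc (V.card : ℝ) = ∑ v ∈ V, (1 : ℝ) := by simp
    _ ≤ ∑ v ∈ V, 4 / H * (3 ^ ones v / 2 ^ n) := sum_le_sum h3
    _ ≤ ∑ v ∈ words n, 4 / H * (3 ^ ones v / 2 ^ n) := by
        apply sum_le_sum_of_subset_of_nonneg hV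
        intro v _ _
        positivity
    _ = 4 * 2 ^ n / H := by rw [← mul_sum, h2]; ring

/-- THE EXCURSIONS -/
theorem card_exc {k : ℤ} (hk : Odd k) {z : ℝ} (hz : 0 < z) {H : ℝ} (hH : 0 < H) {n : ℕ}
    (hn2 : (2 : ℝ) ^ n ≤ 2 * z) (hnk : 4 * (n : ℝ) * |(k : ℝ)| ≤ z) (S : Finset ℤ)
    (hS : ∀ w ∈ S, |(w : ℝ)| < 2 * z ∧ (∀ j < n, z ≤ |(((Tz k)^[j] w : ℤ) : ℝ)|) ∧
      z * H ≤ |(((Tz k)^[n] w : ℤ) : ℝ)|) :
    (S.card : ℝ) ≤ 24 * (z / H) := by
  classical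
  set V : Finset (List Bool) := (words n).filter (fun v => (2 : ℝ) ^ n * H ≤ 4 * 3 ^ ones v) with hV
  have h1 := card_of_words hk hz hn2 S V (by
    intro w hw
    obtain ⟨h1, h2, h3⟩ := hS w hw
    refine ⟨h1, ?_⟩
    rw [hV, mem_filter]
    refine ⟨wd_mem k n w, ?_⟩
    have h4 := mult3 hk hz hnk h1 h2
    have h5 : ((2 : ℝ) ^ n * H) * z ≤ (4 * 3 ^ ones (wd k n w)) * z := by
      calc ((2 : ℝ) ^ n * H) * z = (2 : ℝ) ^ n * (z * H) := by ring
        _ ≤ (2 : ℝ) ^ n * |(((Tz k)^[n] w : ℤ) : ℝ)| := mul_le_mul_of_nonneg_left h3 (by positivity)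
        _ ≤ 4 * z * 3 ^ ones (wd k n w) := h4
        _ = _ := by ring
    exact le_of_mul_le_mul_right h5 hz)
  have h2 := card_high n hH V (filter_subset _ _) (by
    intro v hv
    rw [hV, mem_filter] at hv
    exact hv.2)
  refine h1.trans ?_
  calc (V.card : ℝ) * (6 * z / 2 ^ n) ≤ 4 * 2 ^ n / H * (6 * z / 2 ^ n) :=
        mul_le_mul_of_nonneg_right h2 (by positivity)
    _ = 24 * (z / H) := by field_simp; ring

/-- THE MULTIPLICITY -/
theorem card_mul {k : ℤ} (hk : Odd k) {z : ℝ} (hz : 0 < z) {n q : ℕ}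
    (hnk : 4 * (n : ℝ) * |(k : ℝ)| ≤ z) (a : ℤ) (S : Finset ℤ)
    (hS : ∀ w ∈ S, |(w : ℝ)| < 2 * z ∧ (∀ j < n, z ≤ |(((Tz k)^[j] w : ℤ) : ℝ)|) ∧
      (Tz k)^[n] w = a ∧ ones (wd k n w) = q) :
    (S.card : ℝ) ≤ 16 * n * |(k : ℝ)| + 1 := by
  have hk0 : 0 ≤ |(k : ℝ)| := abs_nonneg _
  have hnn : (0 : ℝ) ≤ n := Nat.cast_nonneg n
  have key : ∀ w ∈ S, |(3 : ℝ) ^ q * w - (2 : ℝ) ^ n * a| ≤ 3 ^ q * (8 * n * |(k : ℝ)|) := by
    intro w hw
    obtain ⟨h1, h2, h3, h4⟩ := hS w hw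
    have h5 := app3 hk hz hnk h2
    have h6 := mult3 hk hz hnk h1 h2
    rw [h3, h4] at h5 h6
    refine h5.trans ?_
    calc n * (2 * |(k : ℝ)| / z) * ((2 : ℝ) ^ n * |(a : ℝ)|) ≤
        n * (2 * |(k : ℝ)| / z) * (4 * z * 3 ^ q) :=
          mul_le_mul_of_nonneg_left h6 (by positivity)
      _ = _ := by field_simp; ring
  have h := card_ap S 1 one_pos 0 (16 * n * |(k : ℝ)|) (by positivity) (fun x _ => by simp) (by
    intro x hx y hy
    have hx' := key x hx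
    have hy' := key y hy
    have hq0 : (0 : ℝ) < 3 ^ q := by positivity
    have h1 : (3 : ℝ) ^ q * |(x : ℝ) - y| ≤ 3 ^ q * (16 * n * |(k : ℝ)|) := by
      rw [← abs_of_pos hq0, ← abs_mul, abs_of_pos hq0]
      have e : (3 : ℝ) ^ q * ((x : ℝ) - y) = ((3 : ℝ) ^ q * x - 2 ^ n * a) - (3 ^ q * y - 2 ^ n * a) := by
        ring
      rw [e]
      refine (abs_sub _ _).trans ?_
      linarith
    have h2 := le_of_mul_le_mul_left h1 hq0
    push_cast
    exact (le_abs_self _).trans h2)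
  simpa using h

/-- the points of `[z, 2z)` (in absolute value) whose orbit meets `A` before it goes below `z` -/
def EZ (k : ℤ) (z : ℝ) (A : Set ℤ) : Set ℤ := {w : ℤ | z ≤ |(w : ℝ)| ∧ |(w : ℝ)| < 2 * z ∧ w ∈ MA k z A}

theorem EZ_fin {k : ℤ} {z : ℝ} {A : Set ℤ} : (EZ k z A).Finite := by
  apply (fin_abs (2 * z) (fun _ => True)).subset
  rintro w ⟨_, h2, _⟩
  exact ⟨h2.le, trivial⟩

/-- the part of `A` between `z` and `z H` -/
theorem part_fin {A : Set ℤ} {z H : ℝ} : {a : ℤ | a ∈ A ∧ z ≤ |(a : ℝ)| ∧ |(a : ℝ)| < z * H}.Finite := by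
  apply (fin_abs (z * H) (fun _ => True)).subset
  rintro w ⟨_, _, h2⟩
  exact ⟨h2.le, trivial⟩

/-- THE BOUND FOR THE POINTS NEAR A LEVEL -/
theorem card_EZ {k : ℤ} (hk : Odd k) {s η : ℝ} (hs : 0 ≤ s)
    (hsum : (1 / 2 : ℝ) ^ s + (3 / 2 : ℝ) ^ s ≤ 2 ^ η) {z : ℝ} (hz : 0 < z) {L : ℕ}
    (hL : (2 : ℝ) ^ L ≤ 2 * z) (hLk : 4 * (L : ℝ) * |(k : ℝ)| ≤ z) {H : ℝ} (hH : 0 < H) (A : Set ℤ) :
    ((EZ k z A).ncard : ℝ) ≤ (4 ^ s * (2 ^ η) ^ L) * (6 * z / 2 ^ L) + (L + 1) * (24 * (z / H)) +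
      ({a : ℤ | a ∈ A ∧ z ≤ |(a : ℝ)| ∧ |(a : ℝ)| < z * H}.ncard : ℝ) *
        ((L + 1) ^ 2 * (16 * L * |(k : ℝ)| + 1)) := by
  classical
  set S : Finset ℤ := (EZ_fin (k := k) (z := z) (A := A)).toFinset with hS
  set AF : Finset ℤ := (part_fin (A := A) (z := z) (H := H)).toFinset with hAF
  have hSc : ((EZ k z A).ncard : ℝ) = S.card := by
    rw [hS, Set.ncard_eq_toFinset_card _ (EZ_fin (k := k) (z := z) (A := A))]
  have hAc : ({a : ℤ | a ∈ A ∧ z ≤ |(a : ℝ)| ∧ |(a : ℝ)| < z * H}.ncard : ℝ) = AF.card := by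
    rw [hAF, Set.ncard_eq_toFinset_card _ (part_fin (A := A) (z := z) (H := H))]
  have hk0 : 0 ≤ |(k : ℝ)| := abs_nonneg _
  rw [hSc, hAc]
  set S1 := S.filter (fun w => ∀ j ≤ L, z ≤ |(((Tz k)^[j] w : ℤ) : ℝ)|) with hS1
  set S2 : ℕ → Finset ℤ := fun n => S.filter (fun w => (∀ j < n, z ≤ |(((Tz k)^[j] w : ℤ) : ℝ)|) ∧
    z * H ≤ |(((Tz k)^[n] w : ℤ) : ℝ)|) with hS2
  set S3 : ℤ → ℕ → ℕ → Finset ℤ := fun a n q => S.filter (fun w =>
    (∀ j < n, z ≤ |(((Tz k)^[j] w : ℤ) : ℝ)|) ∧ (Tz k)^[n] w = a ∧ ones (wd k n w) = q) with hS3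
  have hmem : ∀ w ∈ S, z ≤ |(w : ℝ)| ∧ |(w : ℝ)| < 2 * z ∧ w ∈ MA k z A := by
    intro w hw
    rw [hS, Set.Finite.mem_toFinset] at hw
    exact hw
  have hsub : S ⊆ S1 ∪ ((range (L + 1)).biUnion S2 ∪ AF.biUnion (fun a => (range (L + 1)).biUnion
      (fun n => (range (L + 1)).biUnion (fun q => S3 a n q)))) := by
    intro w hw
    obtain ⟨h1, h2, n, h3, h4⟩ := hmem w hw
    rw [mem_union, mem_union]
    rcases lt_or_ge L n with hc | hc
    · left
      rw [hS1, mem_filter]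
      exact ⟨hw, fun j hj => h4 j (by omega)⟩
    · right
      rcases lt_or_ge |(((Tz k)^[n] w : ℤ) : ℝ)| (z * H) with hc2 | hc2
      · right
        rw [mem_biUnion]
        refine ⟨(Tz k)^[n] w, ?_, ?_⟩
        · rw [hAF, Set.Finite.mem_toFinset]
          exact ⟨h3, h4 n le_rfl, hc2⟩
        · rw [mem_biUnion]
          refine ⟨n, mem_range.2 (by omega), ?_⟩
          rw [mem_biUnion]
          refine ⟨ones (wd k n w), mem_range.2 ?_, ?_⟩
          · have := Pool.Agent.TH930.EBQ.ones_le_length (wd k n w)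
            rw [Pool.Agent.TH930.EBQ.wd_length] at this
            omega
          · rw [hS3, mem_filter]
            exact ⟨hw, fun j hj => h4 j hj.le, rfl, rfl⟩
      · left
        rw [mem_biUnion]
        refine ⟨n, mem_range.2 (by omega), ?_⟩
        rw [hS2, mem_filter]
        exact ⟨hw, fun j hj => h4 j hj.le, hc2⟩
  have hnL : ∀ n ∈ range (L + 1), (2 : ℝ) ^ n ≤ 2 * z ∧ 4 * (n : ℝ) * |(k : ℝ)| ≤ z ∧ (n : ℝ) ≤ L := by
    intro n hn
    rw [mem_range] at hn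
    have h1 : (n : ℝ) ≤ L := by exact_mod_cast (by omega : n ≤ L)
    refine ⟨?_, ?_, h1⟩
    · exact (pow_le_pow_right₀ (by norm_num) (by omega)).trans hL
    · refine le_trans ?_ hLk
      apply mul_le_mul_of_nonneg_right _ hk0
      linarith
  have c1 : (S1.card : ℝ) ≤ (4 ^ s * (2 ^ η) ^ L) * (6 * z / 2 ^ L) := by
    apply card_slow hk hs hsum hz hL hLk
    intro w hw
    rw [hS1, mem_filter] at hw
    exact ⟨(hmem w hw.1).2.1, hw.2⟩
  have c2 : ((((range (L + 1)).biUnion S2).card : ℕ) : ℝ) ≤ (L + 1) * (24 * (z / H)) := by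
    have h1 : ((((range (L + 1)).biUnion S2).card : ℕ) : ℝ) ≤ ∑ n ∈ range (L + 1), ((S2 n).card : ℝ) := by
      exact_mod_cast card_biUnion_le
    refine h1.trans ?_
    have h2 : ∀ n ∈ range (L + 1), ((S2 n).card : ℝ) ≤ 24 * (z / H) := by
      intro n hn
      obtain ⟨h3, h4, h5⟩ := hnL n hn
      apply card_exc hk hz hH h3 h4
      intro w hw
      rw [hS2] at hw
      simp only [mem_filter] at hw
      exact ⟨(hmem w hw.1).2.1, hw.2⟩
    refine (sum_le_card_nsmul _ _ _ h2).trans ?_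
    rw [card_range, nsmul_eq_mul]
    push_cast
    exact le_refl _
  have c3 : (((AF.biUnion (fun a => (range (L + 1)).biUnion
      (fun n => (range (L + 1)).biUnion (fun q => S3 a n q)))).card : ℕ) : ℝ) ≤
      AF.card * ((L + 1) ^ 2 * (16 * L * |(k : ℝ)| + 1)) := by
    have h1 : (AF.biUnion (fun a => (range (L + 1)).biUnion
      (fun n => (range (L + 1)).biUnion (fun q => S3 a n q)))).card ≤
        ∑ a ∈ AF, ∑ n ∈ range (L + 1), ∑ q ∈ range (L + 1), (S3 a n q).card := by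
      refine card_biUnion_le.trans (sum_le_sum fun a _ => ?_)
      refine card_biUnion_le.trans (sum_le_sum fun n _ => ?_)
      exact card_biUnion_le
    have h2 : ((AF.biUnion (fun a => (range (L + 1)).biUnion
      (fun n => (range (L + 1)).biUnion (fun q => S3 a n q)))).card : ℝ) ≤
        ∑ a ∈ AF, ∑ n ∈ range (L + 1), ∑ q ∈ range (L + 1), ((S3 a n q).card : ℝ) := by
      exact_mod_cast h1
    refine h2.trans ?_
    have h3 : ∀ a ∈ AF, (∑ n ∈ range (L + 1), ∑ q ∈ range (L + 1), ((S3 a n q).card : ℝ)) ≤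
        (L + 1) ^ 2 * (16 * L * |(k : ℝ)| + 1) := by
      intro a _
      have h4 : ∀ n ∈ range (L + 1), (∑ q ∈ range (L + 1), ((S3 a n q).card : ℝ)) ≤
          (L + 1) * (16 * L * |(k : ℝ)| + 1) := by
        intro n hn
        obtain ⟨h5, h6, h7⟩ := hnL n hn
        have h8 : ∀ q ∈ range (L + 1), ((S3 a n q).card : ℝ) ≤ 16 * L * |(k : ℝ)| + 1 := by
          intro q _
          have h9 := card_mul hk hz (n := n) (q := q) h6 a (S3 a n q) (by
            intro w hw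
            rw [hS3] at hw
            simp only [mem_filter] at hw
            exact ⟨(hmem w hw.1).2.1, hw.2⟩)
          refine h9.trans ?_
          have : 16 * (n : ℝ) * |(k : ℝ)| ≤ 16 * L * |(k : ℝ)| := by
            apply mul_le_mul_of_nonneg_right _ hk0
            linarith
          linarith
        refine (sum_le_card_nsmul _ _ _ h8).trans ?_
        rw [card_range, nsmul_eq_mul]
        push_cast
        exact le_refl _
      refine (sum_le_card_nsmul _ _ _ h4).trans ?_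
      rw [card_range, nsmul_eq_mul]
      push_cast
      apply le_of_eq
      ring
    refine (sum_le_card_nsmul _ _ _ h3).trans ?_
    rw [nsmul_eq_mul]
  have hfin := (card_le_card hsub).trans ((card_union_le _ _).trans
    (Nat.add_le_add_left (card_union_le _ _) _))
  have hfin' : (S.card : ℝ) ≤ S1.card + ((((range (L + 1)).biUnion S2).card : ℕ) +
      (((AF.biUnion (fun a => (range (L + 1)).biUnion
      (fun n => (range (L + 1)).biUnion (fun q => S3 a n q)))).card : ℕ) : ℝ)) := by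
    exact_mod_cast hfin
  linarith

end Pool.Agent.U457.PS
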