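import Pool.Agent.U457.PS.Thin1

/-! Meetings with arbitrary sets above a level: summation over the scales. -/

set_option autoImplicit false

namespace Pool.Agent.U457.PS

open Finset Filter Topology
open Pool.Agent.H499R2.CO (Tz)
open Pool.Agent.H319R2 (beta beta_lt beta_gt)

/-- a better lower bound for the exponent -/
theorem beta_gt94 : 94 / 100 < beta := by
  unfold beta
  have hl2 : 0 < Real.log 2 := Real.log_pos (by norm_num)
  have hl3 : 0 < Real.log 3 := Real.log_pos (by norm_num)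
  have h1 : Real.log 2 / Real.log 3 < 16 / 25 := by
    rw [div_lt_div_iff₀ hl3 (by norm_num)]
    have h : Real.log ((2 : ℝ) ^ 25) < Real.log ((3 : ℝ) ^ 16) :=
      Real.log_lt_log (by positivity) (by norm_num)
    rw [Real.log_pow, Real.log_pow] at h
    push_cast at h
    linarith
  have h0 : (2 : ℝ)⁻¹ ≤ Real.log 2 / Real.log 3 := by
    rw [inv_eq_one_div, div_le_div_iff₀ (by norm_num) hl3]
    have h : Real.log 3 < Real.log (2 ^ 2) := Real.log_lt_log (by norm_num) (by norm_num)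
    rw [Real.log_pow] at h
    push_cast at h
    linarith
  have hanti := Real.binEntropy_strictAntiOn (a := Real.log 2 / Real.log 3) (b := 16 / 25)
    ⟨h0, by linarith⟩ ⟨by norm_num, by norm_num⟩ h1
  rw [lt_div_iff₀ hl2]
  refine lt_trans ?_ hanti
  rw [Real.binEntropy_eq_negMulLog_add_negMulLog_one_sub]
  unfold Real.negMulLog
  have e1 : Real.log (16 / 25) = 4 * Real.log 2 - 2 * Real.log 5 := by
    rw [show (16 : ℝ) / 25 = 2 ^ 4 / 5 ^ 2 by norm_num, Real.log_div (by norm_num) (by norm_num),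
      Real.log_pow, Real.log_pow]; push_cast; ring
  have e2 : Real.log (1 - 16 / 25) = 2 * Real.log 3 - 2 * Real.log 5 := by
    rw [show (1 : ℝ) - 16 / 25 = 3 ^ 2 / 5 ^ 2 by norm_num, Real.log_div (by norm_num) (by norm_num),
      Real.log_pow, Real.log_pow]; push_cast; ring
  rw [e1, e2]
  have h : Real.log ((2 : ℝ) ^ 175 * 3 ^ 36) < Real.log ((5 : ℝ) ^ 100) :=
    Real.log_lt_log (by positivity) (by norm_num)
  rw [Real.log_mul (by positivity) (by positivity), Real.log_pow, Real.log_pow, Real.log_pow] at h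
  push_cast at h
  linarith

/-- the critical exponent (as in H319R2.GTk) -/
theorem cond (η : ℝ) (hη : beta < η) : ∃ s : ℝ, 0 ≤ s ∧
    (1 / 2 : ℝ) ^ s + (3 / 2 : ℝ) ^ s < 2 ^ η := by
  have hl2 : 0 < Real.log 2 := Real.log_pos (by norm_num)
  have hl3 : 0 < Real.log 3 := Real.log_pos (by norm_num)
  set θ : ℝ := Real.log 2 / Real.log 3 with hθ
  have hθ0 : 0 < θ := by positivity
  have hθ1 : θ < 1 := by
    rw [hθ, div_lt_one hl3]; exact Real.log_lt_log (by norm_num) (by norm_num)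
  have hθ2 : 1 / 2 < θ := by
    rw [hθ, div_lt_div_iff₀ (by norm_num) hl3]
    have h : Real.log 3 < Real.log ((2 : ℝ) ^ 2) := Real.log_lt_log (by norm_num) (by norm_num)
    rw [Real.log_pow] at h
    push_cast at h; linarith
  have h1θ : 0 < 1 - θ := by linarith
  set s : ℝ := Real.log (θ / (1 - θ)) / Real.log 3 with hs
  have hrat : 1 ≤ θ / (1 - θ) := by rw [le_div_iff₀ h1θ]; linarith
  have hrat0 : 0 < θ / (1 - θ) := by positivity
  have hs0 : 0 ≤ s := div_nonneg (Real.log_nonneg hrat) hl3.le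
  refine ⟨s, hs0, ?_⟩
  have h3s : (3 : ℝ) ^ s = θ / (1 - θ) := by
    rw [Real.rpow_def_of_pos (by norm_num), hs, mul_div_cancel₀ _ hl3.ne', Real.exp_log hrat0]
  have hsum : (1 / 2 : ℝ) ^ s + (3 / 2 : ℝ) ^ s = (1 / (1 - θ)) / 2 ^ s := by
    rw [Real.div_rpow (by norm_num) (by norm_num), Real.div_rpow (by norm_num) (by norm_num),
      Real.one_rpow, h3s, ← add_div]
    congr 1
    field_simp
    ring
  have h2s : (2 : ℝ) ^ s = Real.exp (θ * Real.log (θ / (1 - θ))) := by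
    rw [Real.rpow_def_of_pos (by norm_num), hs, hθ]
    congr 1
    field_simp
  have hval : (1 / (1 - θ)) / 2 ^ s = 2 ^ beta := by
    rw [h2s, Real.rpow_def_of_pos (by norm_num : (0 : ℝ) < 2)]
    have e1 : 1 / (1 - θ) = Real.exp (-Real.log (1 - θ)) := by
      rw [Real.exp_neg, Real.exp_log h1θ, one_div]
    rw [e1, ← Real.exp_sub]
    congr 1
    unfold beta
    rw [mul_div_cancel₀ _ hl2.ne', ← hθ, Real.binEntropy, Real.log_div hθ0.ne' h1θ.ne',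
      Real.log_inv, Real.log_inv]
    ring
  rw [hsum, hval]
  exact Real.rpow_lt_rpow_of_exponent_lt (by norm_num) hη

/-- powers of the logarithm -/
theorem pow_log {ε : ℝ} (hε : 0 < ε) (n : ℕ) : ∃ C : ℝ, 0 < C ∧ ∀ L : ℕ, ∀ z : ℝ, 1 ≤ z →
    (2 : ℝ) ^ L ≤ 2 * z → ((L : ℝ) + 1) ^ n ≤ C * z ^ ε := by
  have hb : (1 : ℝ) < 2 ^ ε := Real.one_lt_rpow (by norm_num) hε
  have h1 := tendsto_pow_const_div_const_pow_of_one_lt n hb
  obtain ⟨N, hN⟩ := eventually_atTop.1 (h1.eventually_le_const (show (0 : ℝ) < 1 by norm_num))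
  refine ⟨2 * 2 ^ ε * (2 ^ ε * 1) + 2 * ((N : ℝ) + 1) ^ n, by positivity, ?_⟩
  intro L z hz hL
  have hz0 : 0 < z := by linarith
  have hzε : 1 ≤ z ^ ε := Real.one_le_rpow hz hε.le
  have hA : 0 ≤ 2 * 2 ^ ε * (2 ^ ε * 1) * z ^ ε := by positivity
  have hB : 0 ≤ 2 * ((N : ℝ) + 1) ^ n * z ^ ε := by positivity
  rw [add_mul]
  rcases lt_or_ge L N with hc | hc
  · have h2 : ((L : ℝ) + 1) ^ n ≤ ((N : ℝ) + 1) ^ n := by
      apply pow_le_pow_left₀ (by positivity)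
      have : (L : ℝ) ≤ N := by exact_mod_cast hc.le
      linarith
    have h3 : ((N : ℝ) + 1) ^ n ≤ 2 * ((N : ℝ) + 1) ^ n * z ^ ε := by
      have h4 : 0 ≤ ((N : ℝ) + 1) ^ n := by positivity
      nlinarith
    linarith
  · have h2 := hN (L + 1) (by omega)
    rw [div_le_one (by positivity)] at h2
    push_cast at h2
    have h3 : ((2 : ℝ) ^ ε) ^ (L + 1) = ((2 : ℝ) ^ (L + 1)) ^ ε := by
      rw [← Real.rpow_natCast, ← Real.rpow_natCast, ← Real.rpow_mul (by norm_num),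
        ← Real.rpow_mul (by norm_num), mul_comm]
    have h4 : ((2 : ℝ) ^ (L + 1)) ^ ε ≤ (4 * z) ^ ε := by
      apply Real.rpow_le_rpow (by positivity) _ hε.le
      rw [pow_succ]; linarith
    have h5 : (4 * z) ^ ε = 2 ^ ε * 2 ^ ε * z ^ ε := by
      rw [Real.mul_rpow (by norm_num) hz0.le, show (4 : ℝ) = 2 * 2 by norm_num,
        Real.mul_rpow (by norm_num) (by norm_num)]
    have h6 : 0 ≤ 2 ^ ε * 2 ^ ε * z ^ ε := by positivity
    calc ((L : ℝ) + 1) ^ n ≤ ((2 : ℝ) ^ ε) ^ (L + 1) := h2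
      _ ≤ 2 ^ ε * 2 ^ ε * z ^ ε := by rw [h3]; exact h4.trans_eq h5
      _ ≤ 2 * 2 ^ ε * (2 ^ ε * 1) * z ^ ε := by nlinarith
      _ ≤ _ := by linarith

/-- the bound for the points near a level, in powers -/
theorem card_EZ' {k : ℤ} (hk : Odd k) {σ : ℝ} (hσ0 : 0 < σ) (hσ : σ < 1 - beta) {ε : ℝ} (hε : 0 < ε) :
    ∃ C : ℝ, 0 < C ∧ ∀ z : ℝ, 1 ≤ z → ∀ A : Set ℤ, ((EZ k z A).ncard : ℝ) ≤ C * z ^ ε *
      (z ^ (1 - σ) + ({a : ℤ | a ∈ A ∧ z ≤ |(a : ℝ)| ∧ |(a : ℝ)| < z * z ^ σ}.ncard : ℝ)) := by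
  obtain ⟨s, hs, hsum⟩ := cond (1 - σ) (by linarith)
  obtain ⟨C₁, hC₁, hlog⟩ := pow_log hε 3
  have hσ1 : σ < 1 := by linarith [beta_gt94]
  -- large `z`
  have hlim : ∃ z₀ : ℝ, 1 ≤ z₀ ∧ ∀ z : ℝ, z₀ ≤ z → ∀ L : ℕ, (2 : ℝ) ^ L ≤ 2 * z →
      4 * (L : ℝ) * |(k : ℝ)| ≤ z := by
    obtain ⟨C₂, hC₂, h2⟩ := pow_log (ε := 1 / 2) (by norm_num) 1
    refine ⟨max 1 ((4 * C₂ * |(k : ℝ)|) ^ 2), le_max_left _ _, ?_⟩
    intro z hz L hL
    have hz1 : 1 ≤ z := (le_max_left _ _).trans hz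
    have hz2 : (4 * C₂ * |(k : ℝ)|) ^ 2 ≤ z := (le_max_right _ _).trans hz
    have hz0 : 0 < z := by linarith
    have h3 := h2 L z hz1 hL
    rw [pow_one] at h3
    have hk0 : 0 ≤ |(k : ℝ)| := abs_nonneg _
    have hsq : z ^ (1 / 2 : ℝ) * z ^ (1 / 2 : ℝ) = z := by
      rw [← Real.rpow_add hz0]; norm_num
    have h4 : 4 * C₂ * |(k : ℝ)| ≤ z ^ (1 / 2 : ℝ) := by
      rw [← Real.sqrt_eq_rpow]
      exact Real.le_sqrt_of_sq_le hz2
    calc 4 * (L : ℝ) * |(k : ℝ)| ≤ 4 * (C₂ * z ^ (1 / 2 : ℝ)) * |(k : ℝ)| := by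
          apply mul_le_mul_of_nonneg_right _ hk0
          linarith
      _ = (4 * C₂ * |(k : ℝ)|) * z ^ (1 / 2 : ℝ) := by ring
      _ ≤ z ^ (1 / 2 : ℝ) * z ^ (1 / 2 : ℝ) := mul_le_mul_of_nonneg_right h4 (Real.rpow_nonneg hz0.le _)
      _ = z := hsq
  obtain ⟨z₀, hz₀1, hz₀⟩ := hlim
  have hk0 : 0 ≤ |(k : ℝ)| := abs_nonneg _
  refine ⟨6 * z₀ + 12 * 4 ^ s * 2 + 24 * C₁ + C₁ * (16 * |(k : ℝ)| + 1), by positivity, ?_⟩
  intro z hz A
  have hz0 : 0 < z := by linarith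
  set Nz : ℝ := ({a : ℤ | a ∈ A ∧ z ≤ |(a : ℝ)| ∧ |(a : ℝ)| < z * z ^ σ}.ncard : ℝ) with hNz
  have hNz0 : 0 ≤ Nz := Nat.cast_nonneg _
  have hzε : 1 ≤ z ^ ε := Real.one_le_rpow hz hε.le
  have hzσ : 1 ≤ z ^ (1 - σ) := Real.one_le_rpow hz (by linarith)
  have hzε0 : 0 < z ^ ε := by linarith
  have hzσ0 : 0 < z ^ (1 - σ) := by linarith
  have hsplit : (6 * z₀ + 12 * 4 ^ s * 2 + 24 * C₁ + C₁ * (16 * |(k : ℝ)| + 1)) * z ^ ε *
      (z ^ (1 - σ) + Nz) = 6 * z₀ * (z ^ ε * (z ^ (1 - σ) + Nz)) +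
      12 * 4 ^ s * 2 * (z ^ ε * (z ^ (1 - σ) + Nz)) + 24 * C₁ * (z ^ ε * (z ^ (1 - σ) + Nz)) +
      C₁ * (16 * |(k : ℝ)| + 1) * (z ^ ε * (z ^ (1 - σ) + Nz)) := by ring
  rw [hsplit]
  have hG1 : z ^ (1 - σ) ≤ z ^ ε * (z ^ (1 - σ) + Nz) := by
    calc z ^ (1 - σ) = 1 * z ^ (1 - σ) := (one_mul _).symm
      _ ≤ z ^ ε * (z ^ (1 - σ) + Nz) := mul_le_mul hzε (by linarith) hzσ0.le hzε0.le
  have hG : 1 ≤ z ^ ε * (z ^ (1 - σ) + Nz) := hzσ.trans hG1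
  have hG0 : 0 ≤ z ^ ε * (z ^ (1 - σ) + Nz) := by linarith
  have q1 : 0 ≤ 6 * z₀ * (z ^ ε * (z ^ (1 - σ) + Nz)) := by positivity
  have q2 : 0 ≤ 12 * 4 ^ s * 2 * (z ^ ε * (z ^ (1 - σ) + Nz)) := by positivity
  have q3 : 0 ≤ 24 * C₁ * (z ^ ε * (z ^ (1 - σ) + Nz)) := by positivity
  have q4 : 0 ≤ C₁ * (16 * |(k : ℝ)| + 1) * (z ^ ε * (z ^ (1 - σ) + Nz)) := by positivity
  rcases lt_or_ge z z₀ with hc | hc
  · have h1 : ((EZ k z A).ncard : ℝ) ≤ 3 * (2 * z) := by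
      refine le_trans ?_ (triv_abs (X := 2 * z) (by linarith) (fun x => x ∈ EZ k z A))
      have hsub : EZ k z A ⊆ {x : ℤ | |(x : ℝ)| ≤ 2 * z ∧ x ∈ EZ k z A} := fun x hx => ⟨hx.2.1.le, hx⟩
      exact_mod_cast Set.ncard_le_ncard hsub (fin_abs _ _)
    have h2 : 6 * z₀ * 1 ≤ 6 * z₀ * (z ^ ε * (z ^ (1 - σ) + Nz)) :=
      mul_le_mul_of_nonneg_left hG (by positivity)
    linarith
  · obtain ⟨L, hL1, hL2⟩ := exists_nat_pow_near (x := 2 * z) (y := (2 : ℝ)) (by linarith) (by norm_num)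
    have hLk := hz₀ z hc L hL1
    have h1 := card_EZ hk hs hsum.le hz0 hL1 hLk (Real.rpow_pos_of_pos hz0 σ) A
    have hl := hlog L z hz hL1
    have hLL : (L : ℝ) + 1 ≤ C₁ * z ^ ε := by
      refine le_trans ?_ hl
      have : (1 : ℝ) ≤ L + 1 := by
        have : (0 : ℝ) ≤ L := Nat.cast_nonneg L
        linarith
      exact le_self_pow₀ this (by norm_num)
    -- slow
    have hslow : (4 ^ s * ((2 : ℝ) ^ (1 - σ)) ^ L) * (6 * z / 2 ^ L) ≤ 12 * 4 ^ s * 2 * z ^ (1 - σ) := by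
      have e1 : ((2 : ℝ) ^ (1 - σ)) ^ L = ((2 : ℝ) ^ L) ^ (1 - σ) := by
        rw [← Real.rpow_natCast, ← Real.rpow_natCast, ← Real.rpow_mul (by norm_num),
          ← Real.rpow_mul (by norm_num), mul_comm]
      have e2 : ((2 : ℝ) ^ L) ^ (1 - σ) ≤ 2 * z ^ (1 - σ) := by
        calc ((2 : ℝ) ^ L) ^ (1 - σ) ≤ (2 * z) ^ (1 - σ) :=
              Real.rpow_le_rpow (by positivity) hL1 (by linarith)
          _ = 2 ^ (1 - σ) * z ^ (1 - σ) := Real.mul_rpow (by norm_num) hz0.le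
          _ ≤ 2 * z ^ (1 - σ) := by
              apply mul_le_mul_of_nonneg_right _ hzσ0.le
              calc (2 : ℝ) ^ (1 - σ) ≤ 2 ^ (1 : ℝ) :=
                    Real.rpow_le_rpow_of_exponent_le (by norm_num) (by linarith)
                _ = 2 := Real.rpow_one 2
      have e3 : 6 * z / (2 : ℝ) ^ L ≤ 12 := by
        rw [div_le_iff₀ (by positivity)]
        rw [pow_succ] at hL2
        linarith
      rw [e1]
      calc (4 ^ s * ((2 : ℝ) ^ L) ^ (1 - σ)) * (6 * z / 2 ^ L) ≤ (4 ^ s * (2 * z ^ (1 - σ))) * 12 := by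
            apply mul_le_mul _ e3 (by positivity) (by positivity)
            exact mul_le_mul_of_nonneg_left e2 (by positivity)
        _ = _ := by ring
    have hexc : ((L : ℝ) + 1) * (24 * (z / z ^ σ)) ≤ 24 * C₁ * (z ^ ε * (z ^ (1 - σ) + Nz)) := by
      have e1 : z / z ^ σ = z ^ (1 - σ) := by
        rw [Real.rpow_sub hz0, Real.rpow_one]
      rw [e1]
      calc ((L : ℝ) + 1) * (24 * z ^ (1 - σ)) ≤ (C₁ * z ^ ε) * (24 * z ^ (1 - σ)) :=
            mul_le_mul_of_nonneg_right hLL (by positivity)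
        _ = 24 * C₁ * (z ^ ε * z ^ (1 - σ)) := by ring
        _ ≤ _ := by
            apply mul_le_mul_of_nonneg_left _ (by positivity)
            exact mul_le_mul_of_nonneg_left (by linarith) hzε0.le
    have hfast : Nz * (((L : ℝ) + 1) ^ 2 * (16 * L * |(k : ℝ)| + 1)) ≤
        C₁ * (16 * |(k : ℝ)| + 1) * (z ^ ε * (z ^ (1 - σ) + Nz)) := by
      have hL0 : (0 : ℝ) ≤ L := Nat.cast_nonneg L
      have e1 : 16 * (L : ℝ) * |(k : ℝ)| + 1 ≤ (L + 1) * (16 * |(k : ℝ)| + 1) := by nlinarith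
      calc Nz * (((L : ℝ) + 1) ^ 2 * (16 * L * |(k : ℝ)| + 1)) ≤
          Nz * (((L : ℝ) + 1) ^ 2 * ((L + 1) * (16 * |(k : ℝ)| + 1))) := by
            apply mul_le_mul_of_nonneg_left _ hNz0
            exact mul_le_mul_of_nonneg_left e1 (by positivity)
        _ = Nz * (16 * |(k : ℝ)| + 1) * ((L : ℝ) + 1) ^ 3 := by ring
        _ ≤ Nz * (16 * |(k : ℝ)| + 1) * (C₁ * z ^ ε) :=
            mul_le_mul_of_nonneg_left hl (by positivity)
        _ = C₁ * (16 * |(k : ℝ)| + 1) * (z ^ ε * Nz) := by ring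
        _ ≤ _ := by
            apply mul_le_mul_of_nonneg_left _ (by positivity)
            exact mul_le_mul_of_nonneg_left (by linarith) hzε0.le
    have hslow2 : 12 * 4 ^ s * 2 * z ^ (1 - σ) ≤ 12 * 4 ^ s * 2 * (z ^ ε * (z ^ (1 - σ) + Nz)) :=
      mul_le_mul_of_nonneg_left hG1 (by positivity)
    linarith

/-- the scale at which the orbit has its least value before the meeting -/
theorem MA_scale {k : ℤ} {Y : ℝ} (hY : 0 < Y) {A : Set ℤ} {x : ℤ} (hx : x ∈ MA k Y A) :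
    ∃ i : ℕ, 2 ^ i * Y ≤ |(x : ℝ)| ∧ (x ∈ EZ k (2 ^ i * Y) A ∨ x ∈ SZk k (2 * (2 ^ i * Y)) (EZ k (2 ^ i * Y) A)) := by
  classical
  obtain ⟨n, h1, h2⟩ := hx
  obtain ⟨m, hm, hmin⟩ := exists_min_image (range (n + 1)) (fun j => |(((Tz k)^[j] x : ℤ) : ℝ)|)
    ⟨0, mem_range.2 (Nat.succ_pos _)⟩
  rw [mem_range] at hm
  have hmin' : ∀ j ≤ n, |(((Tz k)^[m] x : ℤ) : ℝ)| ≤ |(((Tz k)^[j] x : ℤ) : ℝ)| :=
    fun j hj => hmin j (mem_range.2 (by omega))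
  have hYm := h2 m (by omega)
  obtain ⟨i, hi1, hi2⟩ := exists_nat_pow_near (x := |(((Tz k)^[m] x : ℤ) : ℝ)| / Y) (y := (2 : ℝ))
    (by rw [le_div_iff₀ hY]; linarith) (by norm_num)
  rw [le_div_iff₀ hY] at hi1
  rw [div_lt_iff₀ hY, pow_succ] at hi2
  set z : ℝ := 2 ^ i * Y with hz
  have hz0 : 0 < z := by positivity
  have hmz : |(((Tz k)^[m] x : ℤ) : ℝ)| < 2 * z := by
    rw [hz]; linarith
  refine ⟨i, hi1.trans (by simpa using hmin' 0 (Nat.zero_le _)), ?_⟩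
  have hex : ∃ j : ℕ, |(((Tz k)^[j] x : ℤ) : ℝ)| < 2 * z := ⟨m, hmz⟩
  have h3 := Nat.find_spec hex
  have h4 : ∀ j < Nat.find hex, 2 * z ≤ |(((Tz k)^[j] x : ℤ) : ℝ)| := fun j hj =>
    not_lt.1 (Nat.find_min hex hj)
  have h5 : Nat.find hex ≤ m := Nat.find_min' hex hmz
  set m' := Nat.find hex with hm'
  have hw : (Tz k)^[m'] x ∈ EZ k z A := by
    refine ⟨hi1.trans (hmin' m' (by omega)), h3, n - m', ?_, ?_⟩
    · rw [← Function.iterate_add_apply, show n - m' + m' = n by omega]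
      exact h1
    · intro j hj
      rw [← Function.iterate_add_apply]
      exact hi1.trans (hmin' _ (by omega))
  rcases Nat.eq_zero_or_pos m' with h0 | h0
  · left
    rw [h0] at hw
    simpa using hw
  · right
    rw [mem_SZk]
    exact ⟨by simpa using h4 0 h0, m', h4, h3, hw⟩

/-- SUMMATION OVER THE SCALES -/
theorem core {k : ℤ} (hk : Odd k) (hk3 : IsCoprime k 3) {σ : ℝ} (hσ0 : 0 < σ) (hσ : σ < 1 - beta)
    {ε : ℝ} (hε : 0 < ε) (hεσ : ε < σ) :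
    ∃ C : ℝ, 0 < C ∧ ∀ Y : ℝ, 1 ≤ Y → ∀ A : Set ℤ, ∀ X : ℝ, 1 ≤ X → ∀ J : ℕ, X < 2 ^ J * Y →
      ({x : ℤ | |(x : ℝ)| ≤ X ∧ x ∈ MA k Y A}.ncard : ℝ) ≤ C * X *
        ((∑ i ∈ (range J).filter (fun i => 2 ^ i * Y ≤ X),
          ({a : ℤ | a ∈ A ∧ 2 ^ i * Y ≤ |(a : ℝ)| ∧ |(a : ℝ)| < (2 ^ i * Y) * (2 ^ i * Y) ^ σ}.ncard : ℝ) *
            (2 ^ i * Y) ^ (ε - 1)) + Y ^ (ε - σ)) := by
  classical
  have hb := beta_gt94
  obtain ⟨C₁, hC₁, h1⟩ := card_EZ' hk hσ0 hσ (ε := ε / 2) (by positivity)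
  obtain ⟨C₂, hC₂, h2⟩ := spread_all hk hk3 (ε := ε / 2) (by positivity)
  have hg0 : (2 : ℝ) ^ (ε - σ) < 1 := Real.rpow_lt_one_of_one_lt_of_neg (by norm_num) (by linarith)
  have hgp : (0 : ℝ) < 2 ^ (ε - σ) := Real.rpow_pos_of_pos (by norm_num) _
  have hgg : 0 < 1 - (2 : ℝ) ^ (ε - σ) := by linarith
  set G : ℝ := (1 - (2 : ℝ) ^ (ε - σ))⁻¹ with hG
  have hGp : 0 < G := inv_pos.2 hgg
  refine ⟨(C₂ + 1) * (C₁ + 1) * (G + 1) * 2, by positivity, ?_⟩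
  intro Y hY A X hX J hJ
  have hY0 : 0 < Y := by linarith
  have hX0 : 0 < X := by linarith
  set I := (range J).filter (fun i => 2 ^ i * Y ≤ X) with hI
  set N : ℕ → ℝ := fun i => ({a : ℤ | a ∈ A ∧ 2 ^ i * Y ≤ |(a : ℝ)| ∧
    |(a : ℝ)| < (2 ^ i * Y) * (2 ^ i * Y) ^ σ}.ncard : ℝ) with hN
  have hN0 : ∀ i, 0 ≤ N i := fun i => Nat.cast_nonneg _
  have hz1 : ∀ i : ℕ, 1 ≤ 2 ^ i * Y := fun i => one_le_mul_of_one_le_of_one_le (one_le_pow₀ (by norm_num)) hY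
  -- the cover
  set P : ℕ → Finset ℤ := fun i => (fin_abs X (fun x => x ∈ SZk k (2 * (2 ^ i * Y)) (EZ k (2 ^ i * Y) A))).toFinset
    with hP
  set Q : ℕ → Finset ℤ := fun i => (EZ_fin (k := k) (z := 2 ^ i * Y) (A := A)).toFinset with hQ
  have hPc : ∀ i, ((P i).card : ℝ) =
      ({x : ℤ | |(x : ℝ)| ≤ X ∧ x ∈ SZk k (2 * (2 ^ i * Y)) (EZ k (2 ^ i * Y) A)}.ncard : ℝ) := by
    intro i
    rw [hP, Set.ncard_eq_toFinset_card _ (fin_abs X _)]
  have hQc : ∀ i, ((Q i).card : ℝ) = ((EZ k (2 ^ i * Y) A).ncard : ℝ) := by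
    intro i
    rw [hQ, Set.ncard_eq_toFinset_card _ (EZ_fin (k := k) (z := 2 ^ i * Y) (A := A))]
  have hcov : {x : ℤ | |(x : ℝ)| ≤ X ∧ x ∈ MA k Y A} ⊆ ((I.biUnion (fun i => P i ∪ Q i) : Finset ℤ) : Set ℤ) := by
    rintro x ⟨hx1, hx2⟩
    obtain ⟨i, hi1, hi2⟩ := MA_scale hY0 hx2
    rw [mem_coe, mem_biUnion]
    have hiX : 2 ^ i * Y ≤ X := hi1.trans hx1
    have hiJ : i < J := by
      by_contra hc
      push Not at hc
      have : (2 : ℝ) ^ J ≤ 2 ^ i := pow_le_pow_right₀ (by norm_num) hc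
      have := mul_le_mul_of_nonneg_right this hY0.le
      linarith
    refine ⟨i, ?_, ?_⟩
    · rw [hI, mem_filter, mem_range]
      exact ⟨hiJ, hiX⟩
    · rw [mem_union]
      rcases hi2 with h | h
      · right
        rw [hQ]
        exact (Set.Finite.mem_toFinset _).2 h
      · left
        rw [hP]
        exact (Set.Finite.mem_toFinset _).2 ⟨hx1, h⟩
  have hc1 : ({x : ℤ | |(x : ℝ)| ≤ X ∧ x ∈ MA k Y A}.ncard : ℝ) ≤
      ∑ i ∈ I, (((P i).card : ℝ) + ((Q i).card : ℝ)) := by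
    have h3 := Set.ncard_le_ncard hcov (Finset.finite_toSet _)
    rw [Set.ncard_coe_finset] at h3
    have h4 : (I.biUnion (fun i => P i ∪ Q i)).card ≤ ∑ i ∈ I, ((P i).card + (Q i).card) :=
      card_biUnion_le.trans (sum_le_sum fun i _ => card_union_le _ _)
    exact_mod_cast h3.trans h4
  refine hc1.trans ?_
  have hterm : ∀ i ∈ I, ((P i).card : ℝ) + ((Q i).card : ℝ) ≤
      (C₂ + 1) * (C₁ + 1) * X * (N i * (2 ^ i * Y) ^ (ε - 1) + 2 * (2 ^ i * Y) ^ (ε - σ)) := by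
    intro i hi
    rw [hI, mem_filter] at hi
    set z : ℝ := 2 ^ i * Y with hz
    have hz1' : 1 ≤ z := hz1 i
    have hz0 : 0 < z := by linarith
    have hzX : z ≤ X := hi.2
    rw [hPc, hQc]
    have a1 := h1 z hz1' A
    have a2 := h2 (2 * z) (by linarith) (EZ k z A) (Q i) (by
      intro y hy _
      rw [hQ]
      exact (Set.Finite.mem_toFinset _).2 hy) X hX
    rw [hQc, ← hz] at a2
    set E : ℝ := ((EZ k z A).ncard : ℝ) with hE
    have hE0 : 0 ≤ E := Nat.cast_nonneg _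
    have b1 : (2 * z) ^ (ε / 2 - 1) ≤ z ^ (ε / 2 - 1) :=
      Real.rpow_le_rpow_of_nonpos hz0 (by linarith) (by linarith)
    have b2 : (2 * z) ^ (-(6 / 100 : ℝ)) ≤ z ^ (ε - σ) := by
      calc (2 * z) ^ (-(6 / 100 : ℝ)) ≤ z ^ (-(6 / 100 : ℝ)) :=
            Real.rpow_le_rpow_of_nonpos hz0 (by linarith) (by norm_num)
        _ ≤ z ^ (ε - σ) := Real.rpow_le_rpow_of_exponent_le hz1' (by linarith)
    have b3 : E ≤ X * (E * z ^ (ε / 2 - 1)) := by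
      have c1 : z ^ (-1 : ℝ) ≤ z ^ (ε / 2 - 1) := Real.rpow_le_rpow_of_exponent_le hz1' (by linarith)
      have c2 : 1 ≤ X * z ^ (ε / 2 - 1) := by
        calc (1 : ℝ) = z * z ^ (-1 : ℝ) := by
              rw [Real.rpow_neg_one, mul_inv_cancel₀ hz0.ne']
          _ ≤ X * z ^ (ε / 2 - 1) := mul_le_mul hzX c1 (Real.rpow_nonneg hz0.le _) hX0.le
      calc E = E * 1 := (mul_one _).symm
        _ ≤ E * (X * z ^ (ε / 2 - 1)) := mul_le_mul_of_nonneg_left c2 hE0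
        _ = _ := by ring
    have b4 : E * z ^ (ε / 2 - 1) ≤ C₁ * (N i * z ^ (ε - 1) + z ^ (ε - σ)) := by
      calc E * z ^ (ε / 2 - 1) ≤ (C₁ * z ^ (ε / 2) * (z ^ (1 - σ) + N i)) * z ^ (ε / 2 - 1) :=
            mul_le_mul_of_nonneg_right a1 (Real.rpow_nonneg hz0.le _)
        _ = C₁ * (N i * (z ^ (ε / 2) * z ^ (ε / 2 - 1)) +
            z ^ (ε / 2) * z ^ (1 - σ) * z ^ (ε / 2 - 1)) := by ring
        _ = C₁ * (N i * z ^ (ε - 1) + z ^ (ε - σ)) := by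
            have e1 : z ^ (ε / 2) * z ^ (ε / 2 - 1) = z ^ (ε - 1) := by
              rw [← Real.rpow_add hz0, show ε / 2 + (ε / 2 - 1) = ε - 1 by ring]
            have e2 : z ^ (ε / 2) * z ^ (1 - σ) * z ^ (ε / 2 - 1) = z ^ (ε - σ) := by
              rw [← Real.rpow_add hz0, ← Real.rpow_add hz0,
                show ε / 2 + (1 - σ) + (ε / 2 - 1) = ε - σ by ring]
            rw [e1, e2]
    have b5 : 0 ≤ E * z ^ (ε / 2 - 1) := mul_nonneg hE0 (Real.rpow_nonneg hz0.le _)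
    have b6 : 0 < z ^ (ε - σ) := Real.rpow_pos_of_pos hz0 _
    have b7 : 0 ≤ N i * z ^ (ε - 1) := mul_nonneg (hN0 i) (Real.rpow_nonneg hz0.le _)
    have a3 : C₂ * X * (E * (2 * z) ^ (ε / 2 - 1) + (2 * z) ^ (-(6 / 100 : ℝ))) ≤
        C₂ * X * (E * z ^ (ε / 2 - 1) + z ^ (ε - σ)) := by
      apply mul_le_mul_of_nonneg_left _ (by positivity)
      have := mul_le_mul_of_nonneg_left b1 hE0
      linarith
    have a4 : E * z ^ (ε / 2 - 1) + z ^ (ε - σ) ≤ (C₁ + 1) * (N i * z ^ (ε - 1) + 2 * z ^ (ε - σ)) := by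
      nlinarith
    calc _ ≤ C₂ * X * (E * z ^ (ε / 2 - 1) + z ^ (ε - σ)) + X * (E * z ^ (ε / 2 - 1)) :=
          add_le_add (a2.trans a3) b3
      _ ≤ C₂ * X * (E * z ^ (ε / 2 - 1) + z ^ (ε - σ)) + X * (E * z ^ (ε / 2 - 1) + z ^ (ε - σ)) := by
          have : 0 ≤ X * z ^ (ε - σ) := by positivity
          linarith
      _ = (C₂ + 1) * X * (E * z ^ (ε / 2 - 1) + z ^ (ε - σ)) := by ring
      _ ≤ (C₂ + 1) * X * ((C₁ + 1) * (N i * z ^ (ε - 1) + 2 * z ^ (ε - σ))) :=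
          mul_le_mul_of_nonneg_left a4 (by positivity)
      _ = _ := by ring
  refine (sum_le_sum hterm).trans ?_
  rw [← mul_sum, sum_add_distrib, ← mul_sum]
  -- geometric series
  have hgeo : ∑ i ∈ I, (2 ^ i * Y) ^ (ε - σ) ≤ G * Y ^ (ε - σ) := by
    have c1 : ∀ i : ℕ, (2 ^ i * Y) ^ (ε - σ) = ((2 : ℝ) ^ (ε - σ)) ^ i * Y ^ (ε - σ) := by
      intro i
      rw [Real.mul_rpow (by positivity) hY0.le]
      congr 1
      rw [← Real.rpow_natCast, ← Real.rpow_natCast, ← Real.rpow_mul (by norm_num),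
        ← Real.rpow_mul (by norm_num), mul_comm]
    have hYp : 0 < Y ^ (ε - σ) := Real.rpow_pos_of_pos hY0 _
    calc ∑ i ∈ I, (2 ^ i * Y) ^ (ε - σ) ≤ ∑ i ∈ range J, (2 ^ i * Y) ^ (ε - σ) := by
          apply sum_le_sum_of_subset_of_nonneg (filter_subset _ _)
          intro i _ _
          have := hz1 i
          exact Real.rpow_nonneg (by linarith) _
      _ = (∑ i ∈ range J, ((2 : ℝ) ^ (ε - σ)) ^ i) * Y ^ (ε - σ) := by
          rw [sum_mul]; exact sum_congr rfl fun i _ => c1 i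
      _ ≤ G * Y ^ (ε - σ) := by
          apply mul_le_mul_of_nonneg_right _ hYp.le
          rw [hG, ← tsum_geometric_of_lt_one hgp.le hg0]
          exact (summable_geometric_of_lt_one hgp.le hg0).sum_le_tsum _ (fun i _ => by positivity)
  have hS0 : 0 ≤ ∑ i ∈ I, N i * (2 ^ i * Y) ^ (ε - 1) := by
    apply sum_nonneg
    intro i _
    have := hz1 i
    exact mul_nonneg (hN0 i) (Real.rpow_nonneg (by linarith) _)
  have hYp : 0 < Y ^ (ε - σ) := Real.rpow_pos_of_pos hY0 _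
  have hfin : (∑ i ∈ I, N i * (2 ^ i * Y) ^ (ε - 1)) + 2 * ∑ i ∈ I, (2 ^ i * Y) ^ (ε - σ) ≤
      (G + 1) * 2 * ((∑ i ∈ I, N i * (2 ^ i * Y) ^ (ε - 1)) + Y ^ (ε - σ)) := by
    nlinarith
  calc (C₂ + 1) * (C₁ + 1) * X * ((∑ i ∈ I, N i * (2 ^ i * Y) ^ (ε - 1)) +
        2 * ∑ i ∈ I, (2 ^ i * Y) ^ (ε - σ)) ≤ (C₂ + 1) * (C₁ + 1) * X * ((G + 1) * 2 *
        ((∑ i ∈ I, N i * (2 ^ i * Y) ^ (ε - 1)) + Y ^ (ε - σ))) :=
          mul_le_mul_of_nonneg_left hfin (by positivity)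
    _ = _ := by ring

end Pool.Agent.U457.PS
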