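import Pool.Agent.U457.PS.Orb

/-! Tuples of integers that merge above a level. -/

set_option autoImplicit false

namespace Pool.Agent.U457.PS

open Finset Filter Topology
open Pool.Agent.H499R2.CO (Tz)

/-- the first passage value is unique -/
theorem SZk_unique {k : ℤ} {Y : ℝ} {e e' x : ℤ} (h : x ∈ SZk k Y {e}) (h' : x ∈ SZk k Y {e'}) : e = e' := by
  rw [mem_SZk] at h h'
  obtain ⟨_, n, h1, h2, h3⟩ := h
  obtain ⟨_, m, h4, h5, h6⟩ := h'
  have hnm : n = m := by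
    rcases lt_trichotomy n m with hc | hc | hc
    · exact absurd h2 (not_lt.2 (h4 n hc))
    · exact hc
    · exact absurd h5 (not_lt.2 (h1 m hc))
  subst hnm
  rw [Set.mem_singleton_iff] at h3 h6
  rw [← h3, ← h6]

theorem SZk_single {k : ℤ} {Y : ℝ} {L : Set ℤ} {x : ℤ} :
    x ∈ SZk k Y L ↔ ∃ e ∈ L, |(e : ℝ)| < Y ∧ x ∈ SZk k Y {e} := by
  constructor
  · intro h
    rw [mem_SZk] at h
    obtain ⟨h0, n, h1, h2, h3⟩ := h
    refine ⟨_, h3, h2, ?_⟩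
    rw [mem_SZk]
    exact ⟨h0, n, h1, h2, rfl⟩
  · rintro ⟨e, he, _, h⟩
    rw [mem_SZk] at h ⊢
    obtain ⟨h0, n, h1, h2, h3⟩ := h
    rw [Set.mem_singleton_iff] at h3
    exact ⟨h0, n, h1, h2, by rw [h3]; exact he⟩

/-- a tuple merges above the level -/
def Mg (k : ℤ) (Y : ℝ) {r : ℕ} (x : Fin r → ℤ) : Prop :=
  ∃ z : ℤ, ∀ i, ∃ n : ℕ, (Tz k)^[n] (x i) = z ∧ ∀ j ≤ n, Y ≤ |(((Tz k)^[j] (x i) : ℤ) : ℝ)|

theorem Mg_cases {k : ℤ} {Y : ℝ} {r : ℕ} {x : Fin r → ℤ} (h : Mg k Y x) :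
    (∀ i, ∀ n : ℕ, Y ≤ |(((Tz k)^[n] (x i) : ℤ) : ℝ)|) ∨
    ∃ e : ℤ, |(e : ℝ)| < Y ∧ ∀ i, x i ∈ SZk k Y {e} := by
  classical
  by_cases hne : ∀ i, ∀ n : ℕ, Y ≤ |(((Tz k)^[n] (x i) : ℤ) : ℝ)|
  · exact Or.inl hne
  · right
    push Not at hne
    obtain ⟨i₀, hi₀⟩ := hne
    have h3 := Nat.find_spec hi₀
    have h4 : ∀ j < Nat.find hi₀, Y ≤ |(((Tz k)^[j] (x i₀) : ℤ) : ℝ)| := by
      intro j hj
      exact not_lt.1 (Nat.find_min hi₀ hj)
    set m := Nat.find hi₀ with hm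
    obtain ⟨z, hz⟩ := h
    obtain ⟨n₀, hn₀, hY₀⟩ := hz i₀
    have h5 : n₀ < m := by
      by_contra hc
      push Not at hc
      exact absurd h3 (not_lt.2 (hY₀ m hc))
    refine ⟨(Tz k)^[m] (x i₀), h3, fun i => ?_⟩
    obtain ⟨n, hn, hY⟩ := hz i
    rw [mem_SZk]
    have hval : ∀ d : ℕ, (Tz k)^[d + n] (x i) = (Tz k)^[d + n₀] (x i₀) := by
      intro d
      rw [Function.iterate_add_apply, Function.iterate_add_apply, hn, hn₀]
    obtain ⟨d, hd⟩ : ∃ d, m = d + n₀ := ⟨m - n₀, by omega⟩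
    refine ⟨by simpa using hY 0 (Nat.zero_le _), d + n, ?_, ?_, ?_⟩
    · intro j hj
      rcases le_or_gt j n with hc | hc
      · exact hY j hc
      · obtain ⟨d', rfl⟩ : ∃ d', j = d' + n := ⟨j - n, by omega⟩
        rw [hval]
        exact h4 _ (by omega)
    · rw [hval, ← hd]; exact h3
    · rw [hval, ← hd]; rfl

theorem sum_pow_le {ι : Type} (s : Finset ι) (c : ι → ℝ) (hc : ∀ i ∈ s, 0 ≤ c i) {M : ℝ} {r : ℕ}
    (h : ∀ i ∈ s, c i ≤ M) : ∑ i ∈ s, c i ^ (r + 1) ≤ (∑ i ∈ s, c i) * M ^ r := by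
  rw [Finset.sum_mul]
  apply sum_le_sum
  intro i hi
  rw [pow_succ']
  exact mul_le_mul_of_nonneg_left (pow_le_pow_left₀ (hc i hi) (h i hi) r) (hc i hi)

/-- TUPLES THAT MERGE ABOVE THE LEVEL -/
theorem tuples {k : ℤ} (hk : Odd k) (hk3 : IsCoprime k 3) :
    ∃ C : ℝ, 0 < C ∧ ∀ r : ℕ, 2 ≤ r → ∀ Y : ℝ, 1 ≤ Y → ∀ X : ℝ, 1 ≤ X →
      ({x : Fin r → ℤ | (∀ i, |(x i : ℝ)| ≤ X) ∧ Mg k Y x}.ncard : ℝ) ≤
        (C * X * Y ^ (-(6 / 100 : ℝ))) ^ r := by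
  classical
  obtain ⟨C₁, hC₁, hN⟩ := never_all hk
  obtain ⟨C, hC, hS⟩ := spread_all hk hk3 (ε := 1 / 2) (by norm_num)
  refine ⟨C₁ + (2 * C + 3), by positivity, ?_⟩
  intro r hr Y hY X hX
  have hY0 : 0 < Y := by linarith
  have hX0 : 0 < X := by linarith
  set q : ℝ := Y ^ (-(6 / 100 : ℝ)) with hq
  have hq0 : 0 < q := Real.rpow_pos_of_pos hY0 _
  set N : Finset ℤ :=
    (fin_abs X (fun x => ∀ n : ℕ, Y ≤ |(((Tz k)^[n] x : ℤ) : ℝ)|)).toFinset with hNd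
  set P : ℤ → Finset ℤ := fun e => (fin_abs X (fun x => x ∈ SZk k Y {e})).toFinset with hP
  have memP : ∀ e x, x ∈ P e ↔ |(x : ℝ)| ≤ X ∧ x ∈ SZk k Y {e} := by
    intro e x
    rw [hP]
    exact Set.Finite.mem_toFinset _
  set F : Finset ℤ := (fin_abs Y (fun e => |(e : ℝ)| < Y)).toFinset with hF
  have memF : ∀ e, e ∈ F ↔ |(e : ℝ)| ≤ Y ∧ |(e : ℝ)| < Y := by
    intro e
    rw [hF]
    exact Set.Finite.mem_toFinset _
  -- the cover
  have hcov : {x : Fin r → ℤ | (∀ i, |(x i : ℝ)| ≤ X) ∧ Mg k Y x} ⊆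
      ((Fintype.piFinset (fun _ : Fin r => N) ∪
        F.biUnion (fun e => Fintype.piFinset (fun _ : Fin r => P e)) : Finset (Fin r → ℤ)) :
          Set (Fin r → ℤ)) := by
    rintro x ⟨h1, h2⟩
    rw [mem_coe, mem_union]
    rcases Mg_cases h2 with h3 | ⟨e, he, h3⟩
    · left
      rw [Fintype.mem_piFinset]
      intro i
      rw [hNd, Set.Finite.mem_toFinset]
      exact ⟨h1 i, h3 i⟩
    · right
      rw [mem_biUnion]
      refine ⟨e, (memF e).2 ⟨he.le, he⟩, ?_⟩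
      rw [Fintype.mem_piFinset]
      intro i
      exact (memP e _).2 ⟨h1 i, h3 i⟩
  have h1 : ({x : Fin r → ℤ | (∀ i, |(x i : ℝ)| ≤ X) ∧ Mg k Y x}.ncard : ℝ) ≤
      (N.card : ℝ) ^ r + ∑ e ∈ F, ((P e).card : ℝ) ^ r := by
    have h2 := Set.ncard_le_ncard hcov (Finset.finite_toSet _)
    rw [Set.ncard_coe_finset] at h2
    have h3 := (h2.trans (card_union_le _ _)).trans (Nat.add_le_add_left card_biUnion_le _)
    simp only [Fintype.card_piFinset_const] at h3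
    exact_mod_cast h3
  refine h1.trans ?_
  -- N
  have hNc : (N.card : ℝ) ≤ C₁ * X * q := by
    have := hN Y hY X hX
    rwa [Set.ncard_eq_toFinset_card _
      (fin_abs X (fun x => ∀ n : ℕ, Y ≤ |(((Tz k)^[n] x : ℤ) : ℝ)|))] at this
  -- sums over subsets
  have hdisj : ∀ (L : Finset ℤ), ((L : Set ℤ)).PairwiseDisjoint P := by
    intro L e _ e' _ hee
    rw [Function.onFun, Finset.disjoint_left]
    intro x hx hx'
    exact hee (SZk_unique ((memP e x).1 hx).2 ((memP e' x).1 hx').2)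
  have hsum : ∀ L : Finset ℤ, L ⊆ F → (∑ e ∈ L, ((P e).card : ℝ)) ≤
      ({x : ℤ | |(x : ℝ)| ≤ X ∧ x ∈ SZk k Y L}.ncard : ℝ) := by
    intro L hL
    have h2 : (∑ e ∈ L, ((P e).card : ℝ)) = ((L.biUnion P).card : ℝ) := by
      rw [card_biUnion (fun e he e' he' h => hdisj L he he' h)]
      push_cast
      rfl
    rw [h2, ← Set.ncard_coe_finset]
    have h3 : ((L.biUnion P : Finset ℤ) : Set ℤ) ⊆ {x : ℤ | |(x : ℝ)| ≤ X ∧ x ∈ SZk k Y L} := by
      intro x hx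
      rw [mem_coe, mem_biUnion] at hx
      obtain ⟨e, he, hx⟩ := hx
      rw [memP] at hx
      exact ⟨hx.1, SZk_single.2 ⟨e, he, ((memF e).1 (hL he)).2, hx.2⟩⟩
    exact_mod_cast Set.ncard_le_ncard h3 (fin_abs X _)
  obtain ⟨s, rfl⟩ : ∃ s, r = s + 1 := ⟨r - 1, by omega⟩
  set lam : ℝ := 2 * C * Y ^ (1 / 2 - 1 : ℝ) with hlam
  have hlam0 : 0 < lam := by
    rw [hlam]
    have := Real.rpow_pos_of_pos hY0 (1 / 2 - 1 : ℝ)
    positivity
  set L : Finset ℤ := F.filter (fun e => lam * X < ((P e).card : ℝ)) with hL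
  have hLF : L ⊆ F := filter_subset _ _
  -- the large part
  have hbig : ∑ e ∈ L, ((P e).card : ℝ) ≤ 2 * C * X * q := by
    have h2 := (hsum L hLF).trans (hS Y hY (L : Set ℤ) L (fun y hy _ => mem_coe.1 hy) X hX)
    have h3 : (L.card : ℝ) * (lam * X) ≤ ∑ e ∈ L, ((P e).card : ℝ) := by
      rw [← nsmul_eq_mul]
      apply card_nsmul_le_sum
      intro e he
      rw [hL, mem_filter] at he
      exact he.2.le
    have h4 : (L.card : ℝ) * Y ^ (1 / 2 - 1 : ℝ) ≤ q := by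
      have h5 : (L.card : ℝ) * (2 * C * Y ^ (1 / 2 - 1 : ℝ) * X) ≤
          C * X * ((L.card : ℝ) * Y ^ (1 / 2 - 1 : ℝ) + q) := h3.trans h2
      have h6 : C * X * ((L.card : ℝ) * Y ^ (1 / 2 - 1 : ℝ)) ≤ C * X * q := by linarith
      exact le_of_mul_le_mul_left h6 (by positivity)
    calc _ ≤ C * X * ((L.card : ℝ) * Y ^ (1 / 2 - 1 : ℝ) + q) := h2
      _ ≤ C * X * (q + q) := mul_le_mul_of_nonneg_left (by linarith) (by positivity)
      _ = _ := by ring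
  have hS0 : 0 ≤ ∑ e ∈ L, ((P e).card : ℝ) := sum_nonneg fun e _ => Nat.cast_nonneg _
  have hbigr : ∑ e ∈ L, ((P e).card : ℝ) ^ (s + 1) ≤ (2 * C * X * q) ^ (s + 1) := by
    have h2 := sum_pow_le (r := s) L (fun e => ((P e).card : ℝ)) (fun e _ => Nat.cast_nonneg _)
      (M := ∑ e ∈ L, ((P e).card : ℝ))
      (fun e he => single_le_sum (f := fun e => ((P e).card : ℝ)) (fun e _ => Nat.cast_nonneg _) he)
    refine h2.trans ?_
    rw [← pow_succ']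
    exact pow_le_pow_left₀ hS0 hbig _
  -- the small part
  have hsmall : ∑ e ∈ F \ L, ((P e).card : ℝ) ^ (s + 1) ≤ 3 * X * (lam * X) ^ s := by
    have h2 := sum_pow_le (r := s) (F \ L) (fun e => ((P e).card : ℝ)) (fun e _ => Nat.cast_nonneg _)
      (M := lam * X) (by
        intro e he
        obtain ⟨he1, he2⟩ := Finset.mem_sdiff.1 he
        rw [hL, mem_filter, not_and, not_lt] at he2
        exact he2 he1)
    refine h2.trans ?_
    apply mul_le_mul_of_nonneg_right _ (by positivity)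
    exact (hsum _ (sdiff_subset)).trans (triv_abs hX _)
  have hlamq : (lam * X) ^ s ≤ (2 * C * X) ^ s * q ^ (s + 1) := by
    have h2 : (Y ^ (1 / 2 - 1 : ℝ)) ^ s ≤ q ^ (s + 1) := by
      rw [hq, ← Real.rpow_natCast, ← Real.rpow_natCast, ← Real.rpow_mul hY0.le, ← Real.rpow_mul hY0.le]
      apply Real.rpow_le_rpow_of_exponent_le hY
      have hs : (1 : ℝ) ≤ s := by
        have : 1 ≤ s := by omega
        exact_mod_cast this
      push_cast
      nlinarith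
    calc (lam * X) ^ s = (2 * C * X) ^ s * (Y ^ (1 / 2 - 1 : ℝ)) ^ s := by
          rw [hlam, ← mul_pow]; ring
      _ ≤ _ := mul_le_mul_of_nonneg_left h2 (by positivity)
  have hsplit : ∑ e ∈ F, ((P e).card : ℝ) ^ (s + 1) =
      ∑ e ∈ L, ((P e).card : ℝ) ^ (s + 1) + ∑ e ∈ F \ L, ((P e).card : ℝ) ^ (s + 1) := by
    exact (Finset.sum_sdiff hLF).symm.trans (add_comm _ _)
  rw [hsplit]
  have hsmall' : ∑ e ∈ F \ L, ((P e).card : ℝ) ^ (s + 1) ≤ 3 * (2 * C) ^ s * (X * q) ^ (s + 1) := by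
    refine hsmall.trans ?_
    calc 3 * X * (lam * X) ^ s ≤ 3 * X * ((2 * C * X) ^ s * q ^ (s + 1)) :=
          mul_le_mul_of_nonneg_left hlamq (by positivity)
      _ = _ := by
          rw [mul_pow (2 * C) X s, mul_pow X q, pow_succ X s]
          ring
  have hA : (2 * C) ^ (s + 1) + 3 * (2 * C) ^ s ≤ (2 * C + 3) ^ (s + 1) := by
    calc (2 * C) ^ (s + 1) + 3 * (2 * C) ^ s = (2 * C) ^ s * (2 * C + 3) := by rw [pow_succ]; ring
      _ ≤ (2 * C + 3) ^ s * (2 * C + 3) := by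
          apply mul_le_mul_of_nonneg_right _ (by positivity)
          exact pow_le_pow_left₀ (by positivity) (by linarith) _
      _ = _ := by rw [pow_succ]
  have hB : C₁ ^ (s + 1) + (2 * C + 3) ^ (s + 1) ≤ (C₁ + (2 * C + 3)) ^ (s + 1) :=
    pow_add_pow_le (by positivity) (by positivity) (by omega)
  calc (N.card : ℝ) ^ (s + 1) + (∑ e ∈ L, ((P e).card : ℝ) ^ (s + 1) +
        ∑ e ∈ F \ L, ((P e).card : ℝ) ^ (s + 1)) ≤
      (C₁ * X * q) ^ (s + 1) + ((2 * C * X * q) ^ (s + 1) + 3 * (2 * C) ^ s * (X * q) ^ (s + 1)) := by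
        apply add_le_add (pow_le_pow_left₀ (Nat.cast_nonneg _) hNc _) (add_le_add hbigr hsmall')
    _ = (C₁ ^ (s + 1) + ((2 * C) ^ (s + 1) + 3 * (2 * C) ^ s)) * (X * q) ^ (s + 1) := by
        rw [mul_assoc C₁ X q, mul_pow C₁, mul_assoc (2 * C) X q, mul_pow (2 * C)]; ring
    _ ≤ (C₁ ^ (s + 1) + (2 * C + 3) ^ (s + 1)) * (X * q) ^ (s + 1) := by
        apply mul_le_mul_of_nonneg_right _ (by positivity)
        linarith
    _ ≤ (C₁ + (2 * C + 3)) ^ (s + 1) * (X * q) ^ (s + 1) :=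
        mul_le_mul_of_nonneg_right hB (by positivity)
    _ = _ := by rw [← mul_pow]; ring

end Pool.Agent.U457.PS
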